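import Pool.Agent.Lib.TWM.S9b
import Pool.Agent.Lib.TWN.Fin2

/-!
# TANK W, NFG: from the purely inseparable step to the real case of defect two

`StepN p v k r`: the purely inseparable step in transcendence degree `r + 2` for value groups which
are not finitely generated; `StepAll`: this step for all complete `v` of rational rank `r`.
-/

set_option autoImplicit false

open Polynomial

namespace Pool.Agent.TWJ

open Pool.Agent.H15JM (RVal)
open Pool.Agent.LU1 (VPos adj)
open Pool.Agent.LUC (LUs)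
open Pool.Agent.D2 (Ctx0)
open Pool.Agent.D2P (hen mem_adj_self)
open Pool.Agent.TWM (CompleteV Dense)
open Pool.Agent.TW (Ctx Full BD HRone LU valG T1Out)

universe u

/-- The purely inseparable step in transcendence degree `r + 2`, the value group is not finitely
generated. -/
def StepN {Ω : Type u} [Field Ω] (p : ℕ) (v : RVal Ω) (k : Type u) [Field k] [Algebra k Ω]
    (r : ℕ) : Prop :=
  ∀ K₀ : IntermediateField k Ω, K₀.FG → Full v K₀ → Algebra.trdeg k K₀ = (r + 2 : ℕ) →
    BD p v K₀ → HRone v K₀ → ¬ (valG v K₀).FG → ∀ al : Ω, al ^ p ∈ K₀ → BD p v (adj K₀ al) →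
    HRone v (adj K₀ al)

/-- `StepN` for all the complete valuations of rational rank `r`. -/
def StepAll (p : ℕ) (k : Type u) [Field k] (r : ℕ) : Prop :=
  ∀ (Ω : Type u) [Field Ω] [Algebra k Ω] [IsAlgClosed Ω] [CharP Ω p] (v : RVal Ω),
    Ctx k v r → CompleteV v → StepN p v k r

variable {k Ω : Type u} [Field k] [Field Ω] [Algebra k Ω] {v : RVal Ω} {r : ℕ}

/-- The value group of `K(g)`, `g ^ p ∈ K`, is finitely generated if the one of `K` is. -/
theorem valG_adj_fg {p : ℕ} [hp : Fact p.Prime] [CharP Ω p] {K : IntermediateField k Ω}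
    (hG : (valG v K).FG) {g : Ω} (hg : g ^ p ∈ K) : (valG v (adj K g)).FG := by
  have hp0 : (p : ℝ) ≠ 0 := by exact_mod_cast hp.out.pos.ne'
  have h1 : ∀ b ∈ adj K g, b ^ p ∈ K := by
    intro b hb
    have h2 : adj K g ≤ D2P.rootF p 1 K := by
      refine D2P.adj_le (D2P.le_rootF K 1) ?_
      rw [D2P.mem_rootF, pow_one]
      exact hg
    have h3 := h2 hb
    rwa [D2P.mem_rootF, pow_one] at h3
  let f : valG v (adj K g) →+ valG v K :=
    { toFun := fun x => ⟨(p : ℝ) * x.1, by
        obtain ⟨b, hb, hb0, hbv⟩ := x.2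
        exact ⟨b ^ p, h1 b hb, pow_ne_zero p hb0, by rw [v.map_pow hb0, hbv]⟩⟩
      map_zero' := by ext; simp
      map_add' := by
        intro x y
        ext
        simp [mul_add] }
  have hf : Function.Injective f := by
    intro x y hxy
    have h2 : (p : ℝ) * x.1 = (p : ℝ) * y.1 := congrArg Subtype.val hxy
    exact Subtype.ext (mul_left_cancel₀ hp0 h2)
  rw [← AddGroup.fg_iff_addSubgroup_fg, ← Module.Finite.iff_addGroup_fg] at hG ⊢
  exact Module.Finite.of_injective f.toIntLinearMap hf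

/-- The purely inseparable step for all value groups. -/
theorem step_all [IsAlgClosed k] [IsAlgClosed Ω] (p : ℕ) [Fact p.Prime] [CharP k p] [CharP Ω p]
    (h : Ctx k v r) (hst : StepN p v k r) {K₀ : IntermediateField k Ω} (hK : K₀.FG)
    (hfull : Full v K₀) (htr : Algebra.trdeg k K₀ = (r + 2 : ℕ)) (hBD : BD p v K₀)
    (hHR : HRone v K₀) {g : Ω} (hg : g ^ p ∈ K₀) (hBDg : BD p v (adj K₀ g)) :
    HRone v (adj K₀ g) := by
  have hp : 0 < p := (Fact.out : p.Prime).pos
  have hKE : K₀ ≤ adj K₀ g := (mem_adj_self K₀ g).2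
  by_cases hG : (valG v K₀).FG
  · refine TWM.hrone_fg p h (D2P.fg_adj hK g) (Full.mono hKE hfull) ?_ hBDg
      (valG_adj_fg hG hg)
    rw [← htr]
    refine TW.trdeg_eq_of_alg hKE (D2P.isAlgebraic_sup {g} ?_)
    rintro s rfl
    exact D2P.isAlgebraic_of_pow hp (D2P.isAlgebraic_of_mem hg)
  · exact hst K₀ hK hfull htr hBD hHR hG g hg hBDg

/-- **Henselian rationality** in transcendence degree `r + 2`, from the step. -/
theorem hrone_two_of [IsAlgClosed k] [IsAlgClosed Ω] (p : ℕ) [Fact p.Prime] [CharP k p]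
    [CharP Ω p] (h : Ctx k v r) (hst : StepN p v k r) {E : IntermediateField k Ω} (hE : E.FG)
    (hfull : Full v E) (htr : Algebra.trdeg k E = (r + 2 : ℕ)) (hBD : BD p v E) : HRone v E := by
  obtain ⟨L₀, hL₀E, hL₀fg, hL₀F, hL₀n⟩ :=
    TW.exists_corank_one (n := r + 1) h (by omega) E hfull htr
  exact TW.hrone_of_corank' p h E hE hfull htr hBD L₀ hL₀E hL₀fg hL₀F hL₀n
    fun K₀ _ _ h3 h4 h5 h6 h7 g _ h9 h10 => step_all p h hst h3 h4 h5 h6 h7 h9 h10

/-- **Henselian rationality** of the fields of transcendence degree `r + 2` with bounded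
derivations. -/
theorem hrone_two [IsAlgClosed k] [IsAlgClosed Ω] (p : ℕ) [Fact p.Prime] [CharP k p]
    [CharP Ω p] (h : Ctx k v r) (hst : StepAll p k r) {E : IntermediateField k Ω} (hE : E.FG)
    (hfull : Full v E) (htr : Algebra.trdeg k E = (r + 2 : ℕ)) (hBD : BD p v E) :
    HRone v E := by
  obtain ⟨Ω', iF, iA, ι, w, h1, h2, h3⟩ := TWM.exists_complete k v
  have : CharP Ω' p := Dense.charP ι p
  rw [← Dense.hrone_iff h3]
  exact hrone_two_of p (Dense.ctx h3 h) (hst Ω' w (Dense.ctx h3 h) h2) (Dense.fg_map hE)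
    ((Dense.full_iff h3).2 hfull) (by rw [Dense.trdeg_map]; exact htr) ((Dense.bd_iff h3).2 hBD)

theorem t1_two [IsAlgClosed k] [IsAlgClosed Ω] (p : ℕ) [Fact p.Prime] [CharP k p]
    [CharP Ω p] (h : Ctx k v r) (hst : StepAll p k r) (m : ℕ) (h1 : r + 2 ≤ m) (h2 : m ≤ r + 2) :
    T1Out p v k r m := by
  obtain rfl : m = r + 2 := le_antisymm h2 h1
  exact fun _ E hE hfull htr hBD => hrone_two p h hst hE hfull htr hBD

/-- `LU` for the fields of transcendence degree at most `r + 2` with bounded derivations. -/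
theorem lu_bd_two [IsAlgClosed k] [IsAlgClosed Ω] (p : ℕ) [Fact p.Prime] [CharP k p]
    [CharP Ω p] (h : Ctx k v r) (hst : StepAll p k r) {n : ℕ} (hn : n ≤ r + 2)
    {E : IntermediateField k Ω} (hE : E.FG) (hfull : Full v E) (htr : Algebra.trdeg k E = n)
    (hBD : BD p v E) : LU p v r E :=
  TW.lu_bd p h (r + 2) (t1_two p h hst) n hn E hE hfull htr hBD

/-- The fields of transcendence degree `r + 2` with bounded derivations are log uniformizable. -/
theorem lus_bd_two [IsAlgClosed k] [IsAlgClosed Ω] (p : ℕ) [Fact p.Prime] [CharP k p]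
    [CharP Ω p] (h : Ctx k v r) (hst : StepAll p k r) {E : IntermediateField k Ω} (hE : E.FG)
    (hfull : Full v E) (htr : Algebra.trdeg k E = (r + 2 : ℕ)) (hBD : BD p v E)
    (hΩ : ∀ g : Ω, IsAlgebraic E g) : LUs v (algebraMap k Ω).range E.toSubfield :=
  TW.lus_bd p h (r + 2) (t1_two p h hst) hE hfull hBD htr hΩ

/-- **The real case of defect two.** -/
theorem lus_two_all [IsAlgClosed k] [IsAlgClosed Ω] (p : ℕ) [Fact p.Prime] [CharP k p]
    [CharP Ω p] (h : Ctx k v r) (hst : StepAll p k r) {E : IntermediateField k Ω} (hE : E.FG)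
    (hΩ : ∀ g : Ω, IsAlgebraic E g) (htr : Algebra.trdeg k E = (r + 2 : ℕ)) :
    LUs v (algebraMap k Ω).range E.toSubfield := by
  by_cases hbd : BD p v E
  · exact lus_bd_two p h hst hE (TW.full_of_alg hΩ) htr hbd hΩ
  · exact TW.lus_of_not_bd p h hE hΩ htr hbd

end Pool.Agent.TWJ
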