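import Pool.Agent.Lib.TWJ.Defs
import Pool.Agent.Lib.TW_NFG.J4

/-!
# TANK W, SEC1: existence and transport of the first slope

* `exists_SL_nat`: a polynomial which is far from the `p`-th powers has a first slope, with an index
  `≤ natDegree`; `exists_SL_of_far`: the same if the value of the polynomial is far from `K ^ p`;
* `mapV φ A`: the polynomial with coefficients `φ a`; `SL.viso`: transport of the first slope;
* `VIso.init`: the restriction of an isometry of `k(t)` to the field of all `t i` but the last.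
-/

set_option autoImplicit false

open Polynomial

namespace Pool.Agent.TWJ

open Pool.Agent.H15JM (RVal)
open Pool.Agent.LU1 (adj VPos)
open Pool.Agent.D2P (clI)
open Pool.Agent.TW (Full BD VIso kr)
open Pool.Agent.TWM (SL MS PI GB Gt)

universe u

variable {k Ω : Type u} [Field k] [Field Ω] [Algebra k Ω] {v : RVal Ω}

/-! ### existence -/

/-- A polynomial has some Gauss bound. -/
theorem exists_GB (v : RVal Ω) (A : Polynomial Ω) (r : ℝ) : ∃ c : ℝ, GB v r c A := by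
  classical
  let s : Finset ℕ := Finset.range (A.natDegree + 1)
  have hs : s.Nonempty := ⟨0, by simp [s]⟩
  refine ⟨s.inf' hs fun i => v (A.coeff i) + i * r, fun m => ?_⟩
  intro h0
  have hm : m ∈ s := by
    simp only [s, Finset.mem_range, Nat.lt_succ_iff]
    exact le_natDegree_of_ne_zero h0
  have h1 := Finset.inf'_le (fun i : ℕ => v (A.coeff i) + i * r) hm
  have h2 : s.inf' hs (fun i : ℕ => v (A.coeff i) + i * r) ≤ v (A.coeff m) + m * r := h1
  linarith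

/-- **Existence of the first slope.** -/
theorem exists_SL_nat {p : ℕ} [hp : Fact p.Prime] [CharP Ω p] {F : IntermediateField k Ω} {z : Ω}
    {A : Polynomial Ω} (hA : A ∈ PI F) {r : ℝ} (hr : Gt v r z) {c₁ : ℝ}
    (hc : ∀ g ∈ PI F, ¬ GB v r c₁ (A - g ^ p)) :
    ∃ κ : ℝ, SL p v F z r κ A.natDegree A := by
  have hp0 : p ≠ 0 := hp.out.ne_zero
  let T : Set ℝ := {c | ∃ g ∈ PI F, GB v r c (A - g ^ p)}
  have hne : T.Nonempty := by
    obtain ⟨c, h1⟩ := exists_GB v A r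
    exact ⟨c, 0, zero_mem _, by rwa [zero_pow hp0, sub_zero]⟩
  have hbd : ∀ c ∈ T, c ≤ c₁ := by
    rintro c ⟨g, hg, h1⟩
    by_contra hcon
    exact hc g hg (h1.mono (not_le.1 hcon).le)
  have hba : BddAbove T := ⟨c₁, hbd⟩
  refine ⟨sSup T, hA, hr, fun ε hε => ?_, fun e he g hg => ?_⟩
  · obtain ⟨c, ⟨g, hg, h1⟩, h2⟩ := exists_lt_of_lt_csSup hne (sub_lt_self (sSup T) hε)
    exact ⟨g, hg, h1.mono h2.le⟩
  · by_contra hcon
    push Not at hcon
    obtain ⟨f, hf, h1, h2⟩ := exists_cut' (p := p) hg (zero_mem (PI F)) A.natDegree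
    have h3 : sSup T + e ∈ T := by
      refine ⟨f, hf, fun m => ?_⟩
      rcases Nat.lt_or_ge A.natDegree m with hm | hm
      · rw [coeff_sub, h2 m hm, zero_pow hp0, coeff_zero, coeff_eq_zero_of_natDegree_lt hm,
          sub_zero]
        exact RVal.Ge.zero
      · rw [coeff_sub, h1 m hm, ← coeff_sub]
        exact hcon m hm
    have h4 := le_csSup hba h3
    linarith

/-- The first slope, if the value of the polynomial is far from the `p`-th powers. -/
theorem exists_SL_of_far {p : ℕ} [hp : Fact p.Prime] [CharP Ω p] {F K : IntermediateField k Ω}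
    {z : Ω} {A : Polynomial Ω} (hA : A ∈ PI F) {r : ℝ} (hr : Gt v r z) {c₁ : ℝ}
    (hK : adj F z ≤ K) (hc : ∀ g ∈ K, ¬ v.Ge c₁ (A.eval z - g ^ p)) :
    ∃ κ : ℝ, SL p v F z r κ A.natDegree A := by
  refine exists_SL_nat (c₁ := c₁) hA hr fun g hg h => ?_
  have h1 : v.Ge c₁ ((A - g ^ p).eval z) := h.eval hr.ge
  rw [eval_sub, eval_pow] at h1
  refine hc (g.eval z) (hK ?_) h1
  exact Pool.Agent.TWM.eval_mem_adj hg z

/-! ### transport -/

variable {F F' : IntermediateField k Ω}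

/-- The polynomial over `F` with image `A`. -/
noncomputable def liftP (F : IntermediateField k Ω) (A : Polynomial Ω) : F[X] := by
  classical
  exact if h : A ∈ PI F then (exists_lift h).choose else 0

theorem liftP_map {A : Polynomial Ω} (hA : A ∈ PI F) :
    (liftP F A).map (algebraMap F Ω) = A := by
  rw [liftP, dif_pos hA]
  exact (exists_lift hA).choose_spec

theorem liftP_of_map (G : F[X]) : liftP F (G.map (algebraMap F Ω)) = G :=
  Polynomial.map_injective _ (algebraMap F Ω).injective (liftP_map (map_mem_PI G))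

/-- The polynomial with coefficients `φ a`. -/
noncomputable def mapV (φ : VIso v F F') (A : Polynomial Ω) : Polynomial Ω :=
  ((liftP F A).map (φ.e : F →+* F')).map (algebraMap F' Ω)

theorem mapV_map (φ : VIso v F F') (G : F[X]) :
    mapV φ (G.map (algebraMap F Ω)) = (G.map (φ.e : F →+* F')).map (algebraMap F' Ω) := by
  rw [mapV, liftP_of_map]

theorem mapV_mem (φ : VIso v F F') (A : Polynomial Ω) : mapV φ A ∈ PI F' := map_mem_PI _

theorem mapV_coeff (φ : VIso v F F') {A : Polynomial Ω} (hA : A ∈ PI F) (n : ℕ) :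
    (mapV φ A).coeff n = (φ.e ⟨A.coeff n, hA n⟩ : Ω) := by
  obtain ⟨G, rfl⟩ := exists_lift hA
  rw [mapV_map, coeff_map, coeff_map]
  have h1 : (⟨(G.map (algebraMap F Ω)).coeff n, hA n⟩ : F) = G.coeff n := by
    apply Subtype.ext
    change (G.map (algebraMap F Ω)).coeff n = _
    rw [coeff_map]
    rfl
  rw [h1]
  rfl

theorem mapV_sub_pow (φ : VIso v F F') (p : ℕ) {A g : Polynomial Ω} (hA : A ∈ PI F)
    (hg : g ∈ PI F) : mapV φ (A - g ^ p) = mapV φ A - mapV φ g ^ p := by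
  obtain ⟨A, rfl⟩ := exists_lift hA
  obtain ⟨g, rfl⟩ := exists_lift hg
  have h1 : A.map (algebraMap F Ω) - g.map (algebraMap F Ω) ^ p =
      (A - g ^ p).map (algebraMap F Ω) := by
    rw [Polynomial.map_sub, Polynomial.map_pow]
  rw [h1, mapV_map, mapV_map, mapV_map, Polynomial.map_sub, Polynomial.map_pow,
    Polynomial.map_sub, Polynomial.map_pow]

theorem mapV_symm (φ : VIso v F F') {A : Polynomial Ω} (hA : A ∈ PI F) :
    mapV φ.symm (mapV φ A) = A := by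
  refine Polynomial.ext fun n => ?_
  rw [mapV_coeff φ.symm (mapV_mem φ A)]
  have h1 : (⟨(mapV φ A).coeff n, mapV_mem φ A n⟩ : F') = φ.e ⟨A.coeff n, hA n⟩ :=
    Subtype.ext (mapV_coeff φ hA n)
  rw [h1]
  have h2 : φ.symm.e (φ.e ⟨A.coeff n, hA n⟩) = ⟨A.coeff n, hA n⟩ := φ.e.symm_apply_apply _
  rw [h2]

theorem mapV_symm' (φ : VIso v F F') {A : Polynomial Ω} (hA : A ∈ PI F') :
    mapV φ (mapV φ.symm A) = A := mapV_symm φ.symm hA

theorem mapV_ge (φ : VIso v F F') {A : Polynomial Ω} (hA : A ∈ PI F) (n : ℕ) (c : ℝ) :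
    v.Ge c ((mapV φ A).coeff n) ↔ v.Ge c (A.coeff n) := by
  rw [mapV_coeff φ hA]
  exact φ.ge_iff

theorem mapV_GB (φ : VIso v F F') {A : Polynomial Ω} (hA : A ∈ PI F) (r c : ℝ) :
    GB v r c (mapV φ A) ↔ GB v r c A :=
  forall_congr' fun n => mapV_ge φ hA n _

theorem mapV_natDegree (φ : VIso v F F') {A : Polynomial Ω} (hA : A ∈ PI F) :
    (mapV φ A).natDegree = A.natDegree := by
  obtain ⟨G, rfl⟩ := exists_lift hA
  rw [mapV_map, natDegree_map, natDegree_map, natDegree_map]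

theorem sub_pow_mem {p : ℕ} {A g : Polynomial Ω} (hA : A ∈ PI F) (hg : g ∈ PI F) :
    A - g ^ p ∈ PI F := sub_mem hA (pow_mem hg p)

/-- **Transport of the first slope.** -/
theorem SL_viso {p : ℕ} (φ : VIso v F F') {z z' : Ω} {r κ : ℝ} {S : ℕ} {A : Polynomial Ω}
    (h : SL p v F z r κ S A) (hz' : Gt v r z') : SL p v F' z' r κ S (mapV φ A) := by
  refine ⟨mapV_mem φ A, hz', fun ε hε => ?_, fun e he g hg => ?_⟩
  · obtain ⟨g, hg, h1⟩ := h.lo ε hε
    refine ⟨mapV φ g, mapV_mem φ g, ?_⟩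
    rw [← mapV_sub_pow φ p h.mem hg, mapV_GB φ (sub_pow_mem h.mem hg)]
    exact h1
  · obtain ⟨m, hm, h1⟩ := h.hi e he (mapV φ.symm g) (mapV_mem _ g)
    refine ⟨m, hm, fun h2 => h1 ?_⟩
    rw [← mapV_symm' φ hg, ← mapV_sub_pow φ p h.mem (mapV_mem _ g),
      mapV_ge φ (sub_pow_mem h.mem (mapV_mem _ g))] at h2
    exact h2

/-! ### restriction -/

variable {M M' E E' : IntermediateField k Ω}

/-- The image of `k(S)`. -/
theorem maps_adjoin (φ : VIso v M M') {S : Set Ω}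
    (hS : ∀ s ∈ S, ∃ h : s ∈ M, (φ.e ⟨s, h⟩ : Ω) ∈ E') {a : Ω}
    (ha : a ∈ IntermediateField.adjoin k S) : ∃ h : a ∈ M, (φ.e ⟨a, h⟩ : Ω) ∈ E' := by
  induction ha using IntermediateField.adjoin_induction with
  | mem x hx => exact hS x hx
  | algebraMap c =>
    refine ⟨M.algebraMap_mem c, ?_⟩
    have h1 : φ.e ⟨algebraMap k Ω c, M.algebraMap_mem c⟩ = algebraMap k M' c :=
      φ.e.commutes c
    rw [h1]
    exact E'.algebraMap_mem c
  | add x y _ _ hx hy =>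
    obtain ⟨hx, hx'⟩ := hx
    obtain ⟨hy, hy'⟩ := hy
    refine ⟨add_mem hx hy, ?_⟩
    have h1 : φ.e ⟨x + y, add_mem hx hy⟩ = φ.e ⟨x, hx⟩ + φ.e ⟨y, hy⟩ :=
      _root_.map_add φ.e ⟨x, hx⟩ ⟨y, hy⟩
    rw [h1]
    exact add_mem hx' hy'
  | inv x _ hx =>
    obtain ⟨hx, hx'⟩ := hx
    refine ⟨inv_mem hx, ?_⟩
    have h1 : φ.e ⟨x⁻¹, inv_mem hx⟩ = (φ.e ⟨x, hx⟩)⁻¹ := map_inv₀ φ.e ⟨x, hx⟩
    rw [h1]
    exact inv_mem hx'
  | mul x y _ _ hx hy =>
    obtain ⟨hx, hx'⟩ := hx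
    obtain ⟨hy, hy'⟩ := hy
    refine ⟨mul_mem hx hy, ?_⟩
    have h1 : φ.e ⟨x * y, mul_mem hx hy⟩ = φ.e ⟨x, hx⟩ * φ.e ⟨y, hy⟩ :=
      _root_.map_mul φ.e ⟨x, hx⟩ ⟨y, hy⟩
    rw [h1]
    exact mul_mem hx' hy'

/-- The restriction as homomorphism to `Ω`. -/
noncomputable def restrHom (φ : VIso v M M') (hEM : E ≤ M) : E →ₐ[k] Ω :=
  (M'.val.comp φ.e.toAlgHom).comp (IntermediateField.inclusion hEM)

theorem restrHom_apply (φ : VIso v M M') (hEM : E ≤ M) (a : E) :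
    restrHom φ hEM a = (φ.e ⟨a, hEM a.2⟩ : Ω) := rfl

theorem restrHom_range (φ : VIso v M M') (hEM : E ≤ M)
    (h : ∀ a : E, restrHom φ hEM a ∈ E') (h' : ∀ b ∈ E', ∃ a : E, restrHom φ hEM a = b) :
    (restrHom φ hEM).fieldRange = E' := by
  refine le_antisymm ?_ fun b hb => ?_
  · rintro _ ⟨a, rfl⟩
    exact h a
  · obtain ⟨a, ha⟩ := h' b hb
    exact ⟨a, ha⟩

/-- The restriction of an isometry. -/
theorem exists_restr (φ : VIso v M M') (hEM : E ≤ M)
    (h : ∀ a : E, restrHom φ hEM a ∈ E') (h' : ∀ b ∈ E', ∃ a : E, restrHom φ hEM a = b) :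
    ∃ ψ : VIso v E E', ∀ (a : E) (ha : (a : Ω) ∈ M), (ψ.e a : Ω) = φ.e ⟨a, ha⟩ := by
  have h1 := restrHom_range φ hEM h h'
  subst h1
  refine ⟨⟨AlgEquiv.ofInjectiveField (restrHom φ hEM), fun a ha => ?_⟩, fun a ha => rfl⟩
  have h2 := φ.val ⟨a, hEM a.2⟩ ha
  exact h2

/-- The restriction of an isometry of `k(t)` to `k(s)`. -/
theorem exists_restr_kr {n m : ℕ} {t t' : Fin n → Ω} (φ : VIso v (kr k t) (kr k t'))
    (i : Fin m → Fin n)
    (hφ : ∀ j (hj : t j ∈ kr k t), (φ.e ⟨t j, hj⟩ : Ω) = t' j) :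
    ∃ ψ : VIso v (kr k fun j => t (i j)) (kr k fun j => t' (i j)),
      (∀ j (hj : t (i j) ∈ kr k fun j => t (i j)), (ψ.e ⟨t (i j), hj⟩ : Ω) = t' (i j)) ∧
      ∀ (a : kr k fun j => t (i j)) (ha : (a : Ω) ∈ kr k t), (ψ.e a : Ω) = φ.e ⟨a, ha⟩ := by
  have hm : ∀ {n : ℕ} (s : Fin n → Ω) (j : Fin n), s j ∈ kr k s := fun s j =>
    IntermediateField.subset_adjoin k _ ⟨j, rfl⟩
  have h : ∀ a ∈ kr k fun j => t (i j), ∃ h : a ∈ kr k t,
      (φ.e ⟨a, h⟩ : Ω) ∈ kr k fun j => t' (i j) := by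
    intro a ha
    refine maps_adjoin φ ?_ ha
    rintro _ ⟨j, rfl⟩
    refine ⟨hm t (i j), ?_⟩
    rw [hφ]
    exact hm (fun j => t' (i j)) j
  have h' : ∀ a ∈ kr k fun j => t' (i j), ∃ h : a ∈ kr k t',
      (φ.symm.e ⟨a, h⟩ : Ω) ∈ kr k fun j => t (i j) := by
    intro a ha
    refine maps_adjoin φ.symm ?_ ha
    rintro _ ⟨j, rfl⟩
    refine ⟨hm t' (i j), ?_⟩
    have h1 : (⟨t' (i j), hm t' (i j)⟩ : kr k t') = φ.e ⟨t (i j), hm t (i j)⟩ :=
      Subtype.ext (hφ _ _).symm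
    have h2 : φ.symm.e (φ.e ⟨t (i j), hm t (i j)⟩) = ⟨t (i j), hm t (i j)⟩ :=
      φ.e.symm_apply_apply _
    rw [h1, h2]
    exact hm (fun j => t (i j)) j
  have hEM : kr k (fun j => t (i j)) ≤ kr k t := fun a ha => (h a ha).fst
  obtain ⟨ψ, hψ⟩ := exists_restr (E' := kr k fun j => t' (i j)) φ hEM
    (fun a => (h a a.2).snd) fun b hb => by
      obtain ⟨h1, h2⟩ := h' b hb
      refine ⟨⟨_, h2⟩, ?_⟩
      rw [restrHom_apply]
      have h3 : φ.e (φ.symm.e ⟨b, h1⟩) = ⟨b, h1⟩ := φ.e.apply_symm_apply _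
      exact congrArg Subtype.val h3
  refine ⟨ψ, fun j hj => ?_, hψ⟩
  rw [hψ _ (hm t (i j))]
  exact hφ _ _

/-- The value of the transported polynomial. -/
theorem mapV_eval (φ : VIso v M M') (ψ : VIso v E E') (hEM : E ≤ M)
    (hψ : ∀ (a : E) (ha : (a : Ω) ∈ M), (ψ.e a : Ω) = φ.e ⟨a, ha⟩) {A : Polynomial Ω}
    (hA : A ∈ PI E) {z : Ω} (hz : z ∈ M) (hAz : A.eval z ∈ M) :
    (φ.e ⟨A.eval z, hAz⟩ : Ω) = (mapV ψ A).eval (φ.e ⟨z, hz⟩ : Ω) := by
  obtain ⟨G, rfl⟩ := exists_lift hA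
  rw [mapV_map]
  have hmem : ∀ G : E[X], (G.map (algebraMap E Ω)).eval z ∈ M := by
    intro G
    rw [eval_map_algebraMap, aeval_eq_sum_range]
    refine sum_mem fun n _ => ?_
    rw [Algebra.smul_def]
    exact mul_mem (hEM (G.coeff n).2) (pow_mem hz n)
  clear hA
  induction G using Polynomial.induction_on' with
  | add G₁ G₂ h₁ h₂ =>
    have h3 : (⟨((G₁ + G₂).map (algebraMap E Ω)).eval z, hAz⟩ : M) =
        ⟨(G₁.map (algebraMap E Ω)).eval z, hmem G₁⟩ +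
          ⟨(G₂.map (algebraMap E Ω)).eval z, hmem G₂⟩ := by
      apply Subtype.ext
      change ((G₁ + G₂).map (algebraMap E Ω)).eval z =
        (G₁.map (algebraMap E Ω)).eval z + (G₂.map (algebraMap E Ω)).eval z
      rw [Polynomial.map_add, eval_add]
    rw [h3, _root_.map_add, Polynomial.map_add, Polynomial.map_add, eval_add, ← h₁ (hmem G₁),
      ← h₂ (hmem G₂)]
    rfl
  | monomial n c =>
    have h3 : (⟨((monomial n c).map (algebraMap E Ω)).eval z, hAz⟩ : M) =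
        ⟨(c : Ω), hEM c.2⟩ * ⟨z, hz⟩ ^ n := by
      apply Subtype.ext
      change ((monomial n c).map (algebraMap E Ω)).eval z = (c : Ω) * z ^ n
      rw [map_monomial, eval_monomial]
      rfl
    rw [h3, _root_.map_mul, _root_.map_pow, map_monomial, map_monomial, eval_monomial]
    change ((φ.e ⟨c, hEM c.2⟩ : M') : Ω) * ((φ.e ⟨z, hz⟩ : M') : Ω) ^ n = _
    rw [← hψ c]
    rfl

end Pool.Agent.TWJ
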