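import Pool.Agent.Lib.TWJ.J10
import Pool.Agent.Lib.TWJ.SV

/-!
# TANK W, SEC1: the initial state

* `exists_Stt`: if `a` is far from the `p`-th powers of `K = clI v K₀` there is a state.
-/

set_option autoImplicit false

open Polynomial

namespace Pool.Agent.TWJ

open Pool.Agent.H15JM (RVal)
open Pool.Agent.LU1 (adj)
open Pool.Agent.D2 (Ctx0)
open Pool.Agent.D2P (clI mem_clI adj_le mem_adj_self)
open Pool.Agent.TW
open Pool.Agent.TWM (CompleteV TL Lim Gt PI SL OI gen_of_bas pbasis_clI le_clI cld_clI adj_range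
  OI.of_orth_pb ge_of_pow_a clI_hen)

universe u

variable {k Ω : Type u} [Field k] [Field Ω] [Algebra k Ω] {v : RVal Ω} {r D : ℕ}

/-- The frame without the last coordinate. -/
def Fr_init (S : Fr k v r (D + 1)) : Fr k v r D where
  x := S.x
  y := fun j => S.y j.castSucc
  x_ne := S.x_ne
  x_ind := S.x_ind
  y_ne := fun j => S.y_ne _
  y_pos := fun j => S.y_pos _
  alg := by
    have h1 := S.alg.comp (Sum.map id Fin.castSucc) (Sum.map_injective.2
      ⟨Function.injective_id, Fin.castSucc_injective _⟩)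
    convert h1 using 1
    funext i
    rcases i with i | i <;> rfl

theorem Fr_init_s (S : Fr k v r (D + 1)) (i : Fin (r + D)) :
    (Fr_init S).s i = S.s (Fin.castSucc i) := by
  refine Fin.addCases (fun j => ?_) (fun j => ?_) i
  · have h1 : (Fin.castAdd D j).castSucc = Fin.castAdd (D + 1) j := rfl
    rw [h1, Fr.s, Fr.s, Fin.append_left, Fin.append_left]
    rfl
  · have h1 : (Fin.natAdd r j).castSucc = Fin.natAdd r j.castSucc := rfl
    rw [h1, Fr.s, Fr.s, Fin.append_right, Fin.append_right]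
    rfl

/-- **STATE0.** -/
theorem exists_Stt [IsAlgClosed k] [IsAlgClosed Ω] (p : ℕ) [hp : Fact p.Prime] [CharP k p]
    [CharP Ω p] (h : Ctx k v r) (hcv : CompleteV v) {K₀ K : IntermediateField k Ω} (hK₀ : K₀.FG)
    (htr : Algebra.trdeg k K₀ = (r + D + 1 : ℕ)) (hBD : BD p v K₀) (hK : K = clI v K₀)
    (S : Fr k v r (D + 1)) (hS : clI v (kr k S.s) = K) {a : Ω} (ha : a ∈ K) {μ₁ : ℝ}
    (hμ : ∀ g ∈ K, ¬ v.Ge μ₁ (a - g ^ p)) :
    ∃ (F : IntermediateField k Ω) (z : Ω) (ρ κ : ℝ) (N : ℕ) (A : Polynomial Ω),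
      Stt p v r D K a F z ρ κ N A := by
  classical
  have hp0 : 0 < p := hp.out.pos
  -- the closure
  obtain ⟨m, s, hsb, C, hC⟩ := id hBD
  have hm : m = r + D + 1 := by
    have h4 := (hsb.trdeg p hK₀).1
    rw [htr] at h4
    exact_mod_cast h4.symm
  subst hm
  have hos : OI p v (clI v K₀) s C := (OI.of_orth_pb hC hsb).cl
  have hpb : PBasis p K s := by
    rw [hK]
    exact pbasis_clI hcv hsb hos
  have hBDK : BD p v K := ⟨_, s, hpb, C, by rw [hK]; exact hos.orth⟩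
  set T : Fin (r + D + 1) → Ω := S.s with hT
  obtain ⟨hpT, hT0, C₁, hoT⟩ := gen_of_bas hBDK hpb hS
  obtain ⟨C₂, hC₂⟩ := exact_gen p h.toCtx0 hcv hS hoT hT0 μ₁ (v a) (∑ i, |v (T i)| + 1)
  obtain ⟨b, hb, hab⟩ : ∃ b ∈ kr k T, v.Ge C₂ (a - b) := by
    have h1 : a ∈ clI v (kr k T) := by
      rw [hS]
      exact ha
    exact mem_clI.1 h1 C₂
  obtain ⟨t', ht', htcl, φ, hφ, hφb⟩ := hC₂ a ha (v.ge_self _) hμ b hb hab
  -- the new coordinates
  obtain ⟨hpt', -, C₃, hot'⟩ := gen_of_bas hBDK hpb htcl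
  have ht'0 : ∀ i, t' i ≠ 0 := fun i => (ht' i).2.1
  have hai : AlgebraicIndependent k t' := (hot'.mono (by
    rw [← htcl]
    exact le_clI _) le_rfl).algInd ht'0
  have hval : ∀ i, v (t' i) = v (T i) := by
    intro i
    refine val_eq_of_near (c := ∑ i, |v (T i)| + 1) (hT0 i) ?_ (ht' i).2.2
    have h1 : |v (T i)| ≤ ∑ i, |v (T i)| :=
      Finset.single_le_sum (f := fun i => |v (T i)|) (fun i _ => abs_nonneg _) (Finset.mem_univ i)
    have h2 := le_abs_self (v (T i))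
    linarith
  have hinit : Fin.snoc (Fin.init t') (t' (Fin.last (r + D))) = t' := Fin.snoc_init_self t'
  obtain ⟨R', hR'⟩ := exists_frame (Fr_init S) (t := Fin.init t')
    (hai.comp _ (Fin.castSucc_injective _)) (fun i => ht'0 _) fun i => by
      rw [Fr_init_s]
      exact hval _
  have hR'K : R'.K = kr k (Fin.init t') := by rw [P1.K_eq, hR']
  set z := t' (Fin.last (r + D)) with hz
  have hadj' : adj R'.K z = kr k t' := by
    rw [hR'K, adj_range, hinit]
  have htz : Transcendental R'.K z := by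
    rw [hR'K]
    exact tr_last hai
  have hFG' : (kr k t').FG := IntermediateField.fg_adjoin_of_finite (Set.finite_range _)
  have hbd' : BD p v (kr k t') := (BD_dense hBDK hpb hFG' htcl).2 (by
    rw [trdeg_adjoin_eq hai.to_subtype_range]
    have h2 := Cardinal.mk_range_eq_of_injective hai.injective
    simp at h2 ⊢
    rw [h2, add_assoc])
  have hbd : BD p v R'.K := by
    refine BD.of_adj p (Est.fg_K R') htz ?_
    rw [hadj']
    exact hbd'
  have haF : a ∈ adj R'.K z := by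
    rw [hadj', ← hφb]
    exact (φ.e ⟨b, hb⟩).2
  have hFK : adj R'.K z ≤ K := by
    rw [hadj', ← htcl]
    exact le_clI _
  have ha0 : a ≠ 0 := by
    rintro rfl
    refine hμ 0 (zero_mem K) ?_
    rw [zero_pow hp0.ne', sub_zero]
    exact RVal.Ge.zero
  obtain ⟨P, Q, -, -, hPz, hQz, haPQ⟩ := Est.exists_frac haF ha0
  set b₀ := aeval z Q with hb₀
  have hb₀F : b₀ ∈ adj R'.K z := by
    rw [hb₀, ← eval_map_algebraMap]
    exact eval_mem_adj (map_mem_PI Q)
  have hb₀K : b₀ ∈ K := hFK hb₀F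
  set A : Polynomial Ω := (P * Q ^ (p - 1)).map (algebraMap R'.K Ω) with hA
  have hAPI : A ∈ PI R'.K := map_mem_PI _
  have hAev : A.eval z = a * b₀ ^ p := by
    rw [hA, eval_map_algebraMap, map_mul, map_pow, haPQ, ← hb₀]
    have h1 : b₀ ^ p = b₀ ^ (p - 1) * b₀ := by
      rw [← pow_succ, Nat.sub_add_cancel hp0]
    rw [h1]
    field_simp
  have hz0 : z ≠ 0 := ht'0 _
  have hfar : ∀ g ∈ K, ¬ v.Ge (μ₁ + p * v b₀) (A.eval z - g ^ p) := by
    intro g hg h1
    refine hμ (g / b₀) (div_mem hg hb₀K) fun hne => ?_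
    have e1 : a - (g / b₀) ^ p = (A.eval z - g ^ p) / b₀ ^ p := by
      rw [hAev, div_pow, eq_div_iff (pow_ne_zero p hQz), sub_mul,
        div_mul_cancel₀ _ (pow_ne_zero p hQz)]
    rw [e1] at hne ⊢
    have h2 : A.eval z - g ^ p ≠ 0 := fun h3 => hne (by rw [h3, zero_div])
    rw [v.map_div h2 (pow_ne_zero p hQz), v.map_pow hQz]
    have := h1 h2
    linarith
  have hgt : Gt v (v z - 1) z := fun _ => by linarith
  obtain ⟨κ, hκ⟩ := exists_SL_of_far hAPI hgt hFK hfar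
  refine ⟨R'.K, z, v z - 1, κ, _, A, ⟨R', rfl⟩, Est.fg_K R', Est.full_K h R', Est.trdeg_K R', hbd,
    htz, ?_, ⟨b₀, hb₀K, hQz, 0, zero_mem K, ?_⟩, hκ⟩
  · rw [hadj', htcl]
  · rw [zero_pow hp0.ne', sub_zero, hAev]

/-- **STATE0**, for fields which are log uniformizable. -/
theorem exists_Stt_of_LU [IsAlgClosed k] [IsAlgClosed Ω] (p : ℕ) [hp : Fact p.Prime]
    [CharP k p] [CharP Ω p] (h : Ctx k v r) (hcv : CompleteV v) {K₀ : IntermediateField k Ω}
    (hK₀ : K₀.FG) (htr : Algebra.trdeg k K₀ = (r + D + 1 : ℕ))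
    (hBD : BD p v K₀) (hLU : LU p v r K₀) {a : Ω} (ha : a ∈ clI v K₀)
    (hμ : ∃ μ : ℝ, ∀ g ∈ clI v K₀, ¬ v.Ge μ (a - g ^ p)) :
    ∃ (F : IntermediateField k Ω) (z : Ω) (ρ κ : ℝ) (N : ℕ) (A : Polynomial Ω),
      Stt p v r D (clI v K₀) a F z ρ κ N A := by
  obtain ⟨μ, hμ⟩ := hμ
  obtain ⟨t, ht⟩ := exists_pbasis p hK₀ htr
  obtain ⟨S, hS, -, -⟩ := hLU (D + 1) t ht ∅ (by simp)
  refine exists_Stt p h hcv hK₀ htr hBD rfl S ?_ ha hμ
  rw [← clI_hen K₀, Fr.IsFr.hen_eq p h hS, clI_hen, P1.K_eq]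

end Pool.Agent.TWJ
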