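import Pool.Agent.Lib.TWJ.STP
import Pool.Agent.Lib.TWJ.ST0

/-!
# TANK W, NFG, `n = r + 2`: the purely inseparable step and the real case of defect two

* `stepAll`: the step in transcendence degree `r + 2`, value groups which are not f.g.;
* `lus_two`: the real case of defect two, every value group, every `r ≥ 1`.
-/

set_option autoImplicit false

open Polynomial

namespace Pool.Agent.TWJ

open Pool.Agent.H15JM (RVal)
open Pool.Agent.LUC (LUs)
open Pool.Agent.TW (Ctx Full BD HRone)

universe u

/-- **The purely inseparable step** in transcendence degree `r + 2`, value groups which are not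
finitely generated. -/
theorem stepAll (p : ℕ) [Fact p.Prime] (k : Type u) [Field k] [IsAlgClosed k] [CharP k p] (r : ℕ) :
    StepAll p k r := by
  intro Ω _ _ _ _ v h hcv
  exact stepN_of p h hcv fun K₀ hK _ htr hBD hLU a ha hμ =>
    exists_Stt_of_LU (D := 1) p h hcv hK htr hBD hLU ha hμ

variable {k Ω : Type u} [Field k] [Field Ω] [Algebra k Ω] {v : RVal Ω} {r : ℕ}

/-- **Henselian rationality** of all fields with bounded derivations of transcendence degree
`r + 2`. -/
theorem hrone_two_bd [IsAlgClosed k] [IsAlgClosed Ω] (p : ℕ) [Fact p.Prime] [CharP k p]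
    [CharP Ω p] (h : Ctx k v r) {E : IntermediateField k Ω} (hE : E.FG)
    (hfull : Full v E) (htr : Algebra.trdeg k E = (r + 2 : ℕ)) (hBD : BD p v E) : HRone v E :=
  hrone_two p h (stepAll p k r) hE hfull htr hBD

/-- **The real case of defect two**, every value group. -/
theorem lus_two [IsAlgClosed k] [IsAlgClosed Ω] (p : ℕ) [Fact p.Prime] [CharP k p]
    [CharP Ω p] (h : Ctx k v r) {E : IntermediateField k Ω} (hE : E.FG)
    (hΩ : ∀ g : Ω, IsAlgebraic E g) (htr : Algebra.trdeg k E = (r + 2 : ℕ)) :
    LUs v (algebraMap k Ω).range E.toSubfield :=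
  lus_two_all p h (stepAll p k r) hE hΩ htr

end Pool.Agent.TWJ

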