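import Pool.Agent.Lib.TW.EDefs
import Pool.Agent.Lib.TW.Iso
import Pool.Agent.Lib.TWM.SDefs
import Pool.Agent.Lib.TW_NFG.CH

/-!
# TANK W: fibrations and jumps (any dimension), definitions

* `Dst p v F κ f`: `κ` is the distance of `f` to the `p`-th powers of `F`;
* `Stt`: a state, `K` is the closure of `F(z)`, and `a h^p - g^p = A(z)` exactly;
* `MinS`: `q` is a lower bound for the indices of the states of `(K, a)`;
* `Seed`: the normal form of a state of minimal index;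
* `evQ M w T P`, `Frk`: Laurent polynomials and frames in two more variables.
-/

set_option autoImplicit false

open Polynomial

namespace Pool.Agent.TWJ

open Pool.Agent.H15JM (RVal)
open Pool.Agent.LU1 (adj)
open Pool.Agent.D2P (clI)
open Pool.Agent.TW (Full BD Fr)
open Pool.Agent.TWM (SL MS PI TL)

universe u

variable {k Ω : Type u} [Field k] [Field Ω] [Algebra k Ω]

/-- `κ` is the distance of `f` to the `p`-th powers of `F`. -/
structure Dst (p : ℕ) (v : RVal Ω) (F : IntermediateField k Ω) (κ : ℝ) (f : Ω) : Prop where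
  lo : ∀ ε : ℝ, 0 < ε → ∃ g ∈ F, v.Ge (κ - ε) (f - g ^ p)
  hi : ∀ e : ℝ, 0 < e → ∀ g ∈ F, ¬ v.Ge (κ + e) (f - g ^ p)

/-- A state of `(K, a)`: `K` is the closure of `F(z)`, and `a h^p - g^p = A(z)`, where the index of
the polynomial `A` at the radius `ρ` is `≤ S`; `F` is generated by
a frame. -/
structure Stt (p : ℕ) (v : RVal Ω) (r D : ℕ) (K : IntermediateField k Ω) (a : Ω)
    (F : IntermediateField k Ω) (z : Ω) (ρ κ : ℝ) (S : ℕ) (A : Polynomial Ω) : Prop where
  rat : ∃ R : Fr k v r D, F = R.K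
  fg : F.FG
  full : Full v F
  tr : Algebra.trdeg k F = (r + D : ℕ)
  bd : BD p v F
  tz : Transcendental F z
  cl : K = clI v (adj F z)
  rep : ∃ h ∈ K, h ≠ 0 ∧ ∃ g ∈ K, a * h ^ p - g ^ p = A.eval z
  sl : SL p v F z ρ κ S A

/-- `q` is a lower bound for the indices of the states of `(K, a)`. -/
def MinS (p : ℕ) (v : RVal Ω) (r D : ℕ) (K : IntermediateField k Ω) (a : Ω) (q : ℕ) : Prop :=
  ∀ (F : IntermediateField k Ω) (z : Ω) (ρ κ : ℝ) (S : ℕ) (A : Polynomial Ω),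
    Stt p v r D K a F z ρ κ S A → q ≤ S

/-- The normal form of a state of minimal index `q`: `z` is of transcendental type over `F`, and
near `z` the index `q` is responsible for the distance of `A` to the `p`-th powers. -/
structure Seed (p : ℕ) (v : RVal Ω) (r D : ℕ) (K : IntermediateField k Ω) (a : Ω) (q : ℕ)
    (F : IntermediateField k Ω) (z : Ω) (s Dq e₀ c₀ : ℝ) (A : Polynomial Ω) : Prop where
  rat : ∃ R : Fr k v r D, F = R.K
  fg : F.FG
  full : Full v F
  tr : Algebra.trdeg k F = (r + D : ℕ)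
  bd : BD p v F
  ty : TL v F z s
  cl : K = clI v (adj F z)
  rep : ∃ h ∈ K, h ≠ 0 ∧ ∃ g ∈ K, a * h ^ p - g ^ p = A.eval z
  mem : A ∈ PI F
  lt : c₀ < s
  pos : 0 < e₀
  high : ∀ θ ∈ F, v.Ge c₀ (z - θ) → ∀ m : ℕ, q < m →
    v.Ge (Dq + q * s + e₀ - m * s) ((taylor θ A).coeff m)
  mid : ∀ θ ∈ F, v.Ge c₀ (z - θ) → Dst p v F Dq ((taylor θ A).coeff q)
  low : ∀ θ ∈ F, ∀ c : ℝ, c₀ ≤ c → c < v (z - θ) → ∃ e : ℝ, 0 < e ∧ ∃ g ∈ PI F,
    g.natDegree * p < q ∧
      ∀ m : ℕ, m < q → v.Ge (Dq + q * c + e - m * c) ((taylor θ A - g ^ p).coeff m)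

/-- The value of a Laurent polynomial in `w` (inner variable) and `T` (outer variable). -/
noncomputable def evQ (M : ℝ → Ω) (w T : Ω) (P : ℝ →₀ k[X][X]) : Ω :=
  P.sum fun g f => M g * (f.map (mapRingHom (algebraMap k Ω))).evalEval w T

/-- Exponents in `G`, content `≥ μ`. -/
def InCt (G : AddSubgroup ℝ) (μ : ℝ) (P : ℝ →₀ k[X][X]) : Prop := ∀ g, P g ≠ 0 → g ∈ G ∧ μ ≤ g

/-- A frame of `K`. -/
structure Frk (v : RVal Ω) (G : AddSubgroup ℝ) (M : ℝ → Ω) (w T : Ω)
    (K : IntermediateField k Ω) : Prop where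
  ms : MS v G M
  fg : G.FG
  wne : w ≠ 0
  wpos : 0 < v w
  tne : T ≠ 0
  tpos : 0 < v T
  eq : K = clI v (IntermediateField.adjoin k (M '' G ∪ {w, T}))

end Pool.Agent.TWJ
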