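import Pool.Agent.Lib.TWM.S8c
import Pool.Agent.Lib.TWJ.Defs

/-!
# TANK W, NFG: exact generators

* `exact_gen`: an element `a` of the closure `B` of `k(t)` (bounded distortion), which is far from
  the `p`-th powers and near a rational function `b(t)`: there are generators `t'` of `B` near `t`
  with `a = b(t')`;
* `SL.viso`, `SL.near`: transport of `SL` by an isometry.
-/

set_option autoImplicit false

open Polynomial

namespace Pool.Agent.TWJ

open Pool.Agent.H15JM (RVal)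
open Pool.Agent.LU1 (VPos adj)
open Pool.Agent.LUC (Cl clF)
open Pool.Agent.D2 (Ctx0)
open Pool.Agent.D2P (hen clI mem_clI mem_adj_self adj_le)
open Pool.Agent.TW (mon pcomb Orth PBasis BD kr Near tay VIso viso_aeval mem_kr)
open Pool.Agent.TWM

universe u

variable {k Ω : Type u} [Field k] [Field Ω] [Algebra k Ω] {v : RVal Ω}

/-- The value of the logarithmic derivative of an element which is far from the `p`-th powers. -/
theorem exists_th {p : ℕ} [Fact p.Prime] [CharP Ω p] (hk0 : ∀ m : ℕ, ¬ p ∣ m → v.Ge 0 ((m : Ω)⁻¹))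
    {n : ℕ} {t : Fin n → Ω} {B : IntermediateField k Ω} {c₁ : ℝ} (ho : OI p v B t c₁) {μ : ℝ}
    {a : Ω} (ha : ∀ g ∈ B, ¬ v.Ge μ (a - g ^ p)) {c : (Fin n → Fin p) → Ω} (hc : ∀ α, c α ∈ B)
    (hac : v.Ge μ (a - pcomb t c)) : ∃ j : Fin n, ¬ v.Ge (μ + c₁) (th t j c) := by
  classical
  by_contra hcon
  push Not at hcon
  have hp : p.Prime := Fact.out
  let z₀ : Fin p := ⟨0, hp.pos⟩
  let α₀ : Fin n → Fin p := fun _ => z₀
  have h1 : ∀ α, α ≠ α₀ → v.Ge μ (c α ^ p * mon t α) := by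
    intro α hα
    obtain ⟨j, hj⟩ : ∃ j, α j ≠ z₀ := by
      by_contra h2
      push Not at h2
      exact hα (funext h2)
    have hj' : (α j : ℕ) ≠ 0 := fun h2 => hj (Fin.ext h2)
    have hjp : ¬ p ∣ (α j : ℕ) := fun h2 => hj' (Nat.eq_zero_of_dvd_of_lt h2 (α j).2)
    have h2 : th t j c = pcomb t fun α => ((α j : ℕ) : Ω) * c α := by
      rw [th, pcomb]
      refine Finset.sum_congr rfl fun α _ => ?_
      have h3 : ((α j : ℕ) : Ω) ^ p = ((α j : ℕ) : Ω) := map_natCast (frobenius Ω p) (α j : ℕ)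
      rw [mul_pow, h3]
      ring
    have h3 := hcon j
    rw [h2] at h3
    have h4 := ho _ (fun α => mul_mem (natCast_mem B _) (hc α)) _ h3 α
    have h5 : ((α j : ℕ) : Ω) ≠ 0 := fun h6 => hjp ((CharP.cast_eq_zero_iff Ω p _).1 h6)
    have h6 : ((α j : ℕ) : Ω) ^ p = ((α j : ℕ) : Ω) := map_natCast (frobenius Ω p) (α j : ℕ)
    have h7 : c α ^ p * mon t α = ((α j : ℕ) : Ω)⁻¹ * ((((α j : ℕ) : Ω) * c α) ^ p * mon t α) := by
      rw [mul_pow, h6]
      field_simp
    rw [h7]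
    exact ((hk0 _ hjp).mul h4).mono (by linarith)
  refine ha (c α₀) (hc α₀) ?_
  have h2 : pcomb t c - c α₀ ^ p = ∑ α ∈ Finset.univ.erase α₀, c α ^ p * mon t α := by
    rw [pcomb, ← Finset.add_sum_erase _ _ (Finset.mem_univ α₀)]
    have h3 : mon t α₀ = 1 := by simp [mon, α₀, z₀]
    rw [h3, mul_one]
    ring
  rw [show a - c α₀ ^ p = (a - pcomb t c) + (pcomb t c - c α₀ ^ p) by ring, h2]
  exact hac.add (RVal.Ge.sum _ _ fun α hα => h1 α (Finset.ne_of_mem_erase hα))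

/-- **Row EX.** Exact generators. -/
theorem exact_gen [IsAlgClosed k] (p : ℕ) [Fact p.Prime] [CharP k p] [CharP Ω p] (h0 : Ctx0 k v)
    (hcv : CompleteV v) {n : ℕ} {t : Fin n → Ω} {B : IntermediateField k Ω}
    (hcl : clI v (kr k t) = B) {c₁ : ℝ} (ho : OI p v B t c₁) (ht0 : ∀ i, t i ≠ 0) (μ m₀ R : ℝ) :
    ∃ C₂ : ℝ, ∀ a ∈ B, v.Ge m₀ a → (∀ g ∈ B, ¬ v.Ge μ (a - g ^ p)) →
      ∀ b (hb : b ∈ kr k t), v.Ge C₂ (a - b) → ∃ t' : Fin n → Ω,
        (∀ i, t' i ∈ B ∧ t' i ≠ 0 ∧ v.Ge R (t i - t' i)) ∧ clI v (kr k t') = B ∧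
          ∃ φ : VIso v (kr k t) (kr k t'),
            (∀ i (hi : t i ∈ kr k t), (φ.e ⟨t i, hi⟩ : Ω) = t' i) ∧ (φ.e ⟨b, hb⟩ : Ω) = a := by
  classical
  have hp : p.Prime := Fact.out
  have hp0 : p ≠ 0 := hp.ne_zero
  have hle : kr k t ≤ B := by
    rw [← hcl]
    exact le_clI _
  have hBc : Cld v B := by
    rw [← hcl]
    exact cld_clI v _
  have hok : OI p v (kr k t) t c₁ := ho.mono hle le_rfl
  have hind : AlgebraicIndependent k t := hok.algInd ht0
  have hpb : PBasis p B t := pbasis_of_gen hcv hcl ho ht0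
  obtain ⟨δ, hδ⟩ := pert (p := p) h0 hcl ho ht0
  obtain ⟨C', hC', hN⟩ := near_of_oi h0 hok ht0
  set κ : ℝ := max c₁ 0 with hκ
  have hκ0 : 0 ≤ κ := le_max_right _ _
  have ho' : Orth p v B t κ := (ho.mono le_rfl (le_max_left _ _)).orth
  set w : ℝ := ∑ i, |v (t i)| with hw
  have hwi : ∀ i, - w ≤ v (t i) := fun i => by
    have h1 : |v (t i)| ≤ w :=
      Finset.single_le_sum (f := fun i => |v (t i)|) (fun i _ => abs_nonneg _) (Finset.mem_univ i)
    have h2 := neg_abs_le (v (t i))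
    linarith
  have hw0 : 0 ≤ w := Finset.sum_nonneg fun i _ => abs_nonneg _
  set τ : ℝ := (|μ + c₁ - m₀| + 1 + 2 * p * κ) + (|R + w| + |δ + w| + C') with hτ
  have hA1 := abs_nonneg (μ + c₁ - m₀)
  have hA2 := abs_nonneg (R + w)
  have hA3 := abs_nonneg (δ + w)
  have hA4 := le_abs_self (μ + c₁ - m₀)
  have hA5 := le_abs_self (R + w)
  have hA6 := le_abs_self (δ + w)
  have hpκ : 0 ≤ 2 * p * κ := by positivity
  have hτ1 : |μ + c₁ - m₀| + 1 + 2 * p * κ ≤ τ := by linarith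
  have hτ2 : R + w ≤ τ := by linarith
  have hτ3 : δ + w ≤ τ := by linarith
  have hτ4 : C' < τ := by linarith
  have hτ0 : 0 < τ := by linarith
  refine ⟨max μ (μ + c₁ + τ), fun a haB ham hap b hb hab => ?_⟩
  have hab1 : v.Ge μ (a - b) := hab.mono (le_max_left _ _)
  have hab2 : v.Ge (μ + c₁ + τ) (a - b) := hab.mono (le_max_right _ _)
  have ha0 : a ≠ 0 := by
    rintro rfl
    refine hap 0 (zero_mem B) ?_
    rw [zero_pow hp0, sub_zero]
    exact RVal.Ge.zero
  have haμ : v a < μ := by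
    have h1 := hap 0 (zero_mem B)
    rw [zero_pow hp0, sub_zero] at h1
    by_contra h2
    exact h1 fun _ => not_lt.1 h2
  obtain ⟨hb0, hvb⟩ := Gt.val_eq ha0 (Gt.of_ge hab1 haμ)
  -- the fraction
  obtain ⟨P₀, Q, hQ, hPQ⟩ := TW.P4bAux.exists_frac hind hb
  set P : MvPolynomial (Fin n) k := P₀ * Q ^ (p - 1) with hP
  set q : Ω := MvPolynomial.aeval t Q with hq
  have hqp : q ^ p ≠ 0 := pow_ne_zero p hQ
  have hPb : MvPolynomial.aeval t P = b * q ^ p := by
    rw [hP, map_mul, map_pow, hPQ, ← hq]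
    have h1 : q ^ p = q * q ^ (p - 1) := by
      rw [← pow_succ']
      congr 1
      have := hp.one_lt
      omega
    rw [h1]
    field_simp
  have hqB : q ∈ B := TW.P4.aeval_mem hpb.mem Q
  have hP0 : MvPolynomial.aeval t P ≠ 0 := by
    rw [hPb]
    exact mul_ne_zero hb0 hqp
  have hvP : v (MvPolynomial.aeval t P) = v a + v (q ^ p) := by
    rw [hPb, v.map_mul hb0 hqp, hvb]
  obtain ⟨Q', -, hPQ'⟩ := TW.P4.exists_decomp p P le_rfl
  have hPc : MvPolynomial.aeval t P = pcomb t fun α => MvPolynomial.aeval t (Q' α) := by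
    conv_lhs => rw [hPQ']
    exact TW.P4.aeval_decomp t Q'
  let c : (Fin n → Fin p) → Ω := fun α => MvPolynomial.aeval t (Q' α) / q
  have hcB : ∀ α, c α ∈ B := fun α => div_mem (TW.P4.aeval_mem hpb.mem _) hqB
  have hbc : pcomb t c = b := by
    have h1 : pcomb t c = (pcomb t fun α => MvPolynomial.aeval t (Q' α)) / q ^ p := by
      rw [pcomb, pcomb, Finset.sum_div]
      refine Finset.sum_congr rfl fun α _ => ?_
      show (MvPolynomial.aeval t (Q' α) / q) ^ p * _ = _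
      rw [div_pow]
      ring
    rw [h1, ← hPc, hPb]
    field_simp
  -- the index `j`
  obtain ⟨j, hj⟩ := exists_th (fun m hm h1 => by
      have h2 : ((m : Ω)) ≠ 0 := fun h3 => hm ((CharP.cast_eq_zero_iff Ω p m).1 h3)
      have h3 : (m : Ω) = algebraMap k Ω (m : k) := by rw [map_natCast]
      rw [v.map_inv h2, h3, h0.triv _ (fun h4 => h2 (by rw [h3, h4, map_zero])), neg_zero])
    ho hap hcB (by rw [hbc]; exact hab1)
  have hth0 : th t j c ≠ 0 := fun h1 => hj (by rw [h1]; exact RVal.Ge.zero)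
  have hthv : v (th t j c) < μ + c₁ := by
    by_contra h1
    exact hj fun _ => not_lt.1 h1
  -- the polynomial
  have h1 : (ln t j P).coeff 1 = q ^ p * th t j c := by
    conv_lhs => rw [hPQ']
    rw [ln_one, th, Finset.mul_sum]
    refine Finset.sum_congr rfl fun α _ => ?_
    show _ = q ^ p * ((MvPolynomial.aeval t (Q' α) / q) ^ p * _ * _)
    rw [div_pow]
    field_simp
  have hlnQ : ln t j (Q ^ p) = ln t j Q ^ p := by rw [ln, ln, map_pow]
  set g : Polynomial Ω := ln t j P - C a * ln t j (Q ^ p) with hg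
  have hgB : g ∈ PI B := sub_mem (ln_mem hpb.mem j P)
    (mul_mem (C_mem_PI haB) (ln_mem hpb.mem j _))
  have hg1 : g.coeff 1 = q ^ p * th t j c := by
    rw [hg, coeff_sub, coeff_C_mul, h1, hlnQ,
      coeff_pow_char _ (fun h => hp.one_lt.ne' (Nat.dvd_one.1 h)), mul_zero, sub_zero]
  have hg10 : g.coeff 1 ≠ 0 := by
    rw [hg1]
    exact mul_ne_zero hqp hth0
  have hvg1 : v (g.coeff 1) = v (q ^ p) + v (th t j c) := by
    rw [hg1, v.map_mul hqp hth0]
  have hqp' : MvPolynomial.aeval t (Q ^ p) = q ^ p := by rw [map_pow]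
  have hg0 : g.coeff 0 = - ((a - b) * q ^ p) := by
    rw [hg, coeff_sub, coeff_C_mul, ln_zero, ln_zero, hPb, hqp']
    ring
  obtain ⟨η, hη, hητ, h5⟩ := newton1 (τ := τ) hcv hBc hgB hg10 (by
    rw [hvg1, hg0]
    exact ((hab2.mul (v.ge_self (q ^ p))).mono (by linarith)).neg) (by
    intro l hl
    have h6 : (l : ℝ) = ((l - 1 : ℕ) : ℝ) + 1 := by
      rw [Nat.cast_sub (by omega)]
      push_cast
      ring
    have h7 : (1 : ℝ) ≤ ((l - 1 : ℕ) : ℝ) := by
      exact_mod_cast (by omega : 1 ≤ l - 1)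
    have h8 : v.Ge (m₀ + v (q ^ p) - p * l * κ) (g.coeff l) := by
      rw [hg, coeff_sub, coeff_C_mul]
      refine RVal.Ge.sub ?_ ?_
      · rw [ln_coeff]
        refine (TW.taylor_bound p ht0 hpb hκ0 ho' P hP0 (Finsupp.single j l)).mono ?_
        rw [Finsupp.degree_single, hvP]
        have := ham ha0
        linarith
      · rw [ln_coeff]
        have h9 := TW.taylor_bound p ht0 hpb hκ0 ho' (Q ^ p) (by rw [hqp']; exact hqp)
          (Finsupp.single j l)
        rw [Finsupp.degree_single, hqp'] at h9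
        exact (ham.mul h9).mono (by linarith)
    refine h8.mono ?_
    rw [hvg1, h6]
    set m : ℝ := ((l - 1 : ℕ) : ℝ)
    have h9 : m * (|μ + c₁ - m₀| + 1 + 2 * p * κ) ≤ m * τ :=
      mul_le_mul_of_nonneg_left hτ1 (by linarith)
    have h10 : (m - 1) * (|μ + c₁ - m₀| + 1) ≥ 0 := mul_nonneg (by linarith) (by linarith)
    have h11 : 0 ≤ (m - 1) * (p * κ) := mul_nonneg (by linarith) (by positivity)
    nlinarith)
  rw [hg, eval_sub, eval_mul, eval_C, ln_eval, ln_eval, sub_eq_zero] at h5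
  -- the new coordinates
  set t' : Fin n → Ω := Function.update t j (t j * (1 + η)) with ht'
  have hη1 : 1 + η ≠ 0 := by
    intro h6
    have h7 : η = -1 := by linear_combination h6
    rw [h7] at hητ
    have h8 := hητ (neg_ne_zero.2 one_ne_zero)
    rw [v.map_neg 1 one_ne_zero, v.map_one] at h8
    linarith
  have ht'B : ∀ i, t' i ∈ B := by
    intro i
    rw [ht']
    by_cases hij : i = j
    · rw [hij, Function.update_self]
      exact mul_mem (hpb.mem j) (add_mem (one_mem _) hη)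
    · rw [Function.update_of_ne hij]
      exact hpb.mem i
  have ht'0 : ∀ i, t' i ≠ 0 := by
    intro i
    rw [ht']
    by_cases hij : i = j
    · rw [hij, Function.update_self]
      exact mul_ne_zero (ht0 j) hη1
    · rw [Function.update_of_ne hij]
      exact ht0 i
  have hnear' : ∀ i, v.Ge (v (t i) + τ) (t i - t' i) := by
    intro i
    rw [ht']
    by_cases hij : i = j
    · rw [hij, Function.update_self, show t j - t j * (1 + η) = - (t j * η) by ring]
      exact ((v.ge_self (t j)).mul hητ).neg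
    · rw [Function.update_of_ne hij, sub_self]
      exact RVal.Ge.zero
  have hNr := hN τ t' hτ4 hnear'
  obtain ⟨φ, hφ⟩ := hNr.exists_viso hind
  have hQ' := hNr.val (Q ^ p) (by rw [hqp']; exact hqp)
  refine ⟨t', fun i => ⟨ht'B i, ht'0 i, (hnear' i).mono ?_⟩,
    hδ t' ht'B fun i => (hnear' i).mono ?_, φ, hφ, ?_⟩
  · have := hwi i
    linarith
  · have := hwi i
    linarith
  · -- `φ b = a`
    have hPm : MvPolynomial.aeval t P ∈ kr k t := TW.P4.aeval_mem (fun i => mem_kr t i) P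
    have hQm : MvPolynomial.aeval t (Q ^ p) ∈ kr k t := TW.P4.aeval_mem (fun i => mem_kr t i) _
    have h6 := viso_aeval φ hφ P hPm
    have h7 := viso_aeval φ hφ (Q ^ p) hQm
    have h8 : (⟨b, hb⟩ : kr k t) * ⟨MvPolynomial.aeval t (Q ^ p), hQm⟩ =
        ⟨MvPolynomial.aeval t P, hPm⟩ := by
      apply Subtype.ext
      show b * MvPolynomial.aeval t (Q ^ p) = MvPolynomial.aeval t P
      rw [hPb, hqp']
    have h9 := congrArg (fun u : kr k t => (φ.e u : Ω)) h8
    simp only [map_mul] at h9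
    rw [IntermediateField.coe_mul, h6, h7, h5] at h9
    exact mul_right_cancel₀ hQ'.1 h9

/-! ### Transport by an isometry -/

section Transport

variable {M M' F F' : IntermediateField k Ω}

theorem exists_lift_PI {f : Polynomial Ω} (hf : f ∈ PI M) :
    ∃ f₀ : Polynomial M, f₀.map (algebraMap M Ω) = f := by
  have hl : f ∈ Polynomial.lifts (algebraMap M Ω) := by
    rw [Polynomial.lifts_iff_coeff_lifts]
    intro i
    exact ⟨⟨_, hf i⟩, rfl⟩
  exact (Polynomial.mem_lifts _).1 hl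

/-- The image of a polynomial over `M`. -/
noncomputable def trp (φ : VIso v M M') (f₀ : Polynomial M) : Polynomial Ω :=
  (f₀.map (φ.e : M →+* M')).map (algebraMap M' Ω)

theorem trp_coeff (φ : VIso v M M') (f₀ : Polynomial M) (i : ℕ) :
    (trp φ f₀).coeff i = (φ.e (f₀.coeff i) : Ω) := by
  rw [trp, coeff_map, coeff_map]
  rfl

theorem trp_eval (φ : VIso v M M') (f₀ : Polynomial M) (z₀ : M) :
    (trp φ f₀).eval (φ.e z₀ : Ω) = (φ.e (f₀.eval z₀) : Ω) := by
  have h : f₀.eval₂ (φ.e : M →+* M') ((φ.e : M →+* M') z₀) = (φ.e : M →+* M') (f₀.eval z₀) :=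
    Polynomial.eval₂_at_apply (φ.e : M →+* M') z₀
  have h2 : (f₀.map (φ.e : M →+* M')).eval₂ (algebraMap M' Ω) (algebraMap M' Ω (φ.e z₀)) =
      algebraMap M' Ω ((f₀.map (φ.e : M →+* M')).eval (φ.e z₀)) :=
    Polynomial.eval₂_at_apply (algebraMap M' Ω) (φ.e z₀)
  rw [trp, eval_map]
  refine h2.trans (congrArg (algebraMap M' Ω) ?_)
  rw [eval_map]
  exact h

theorem trp_sub_pow (φ : VIso v M M') (p : ℕ) (f₀ g₀ : Polynomial M) :
    trp φ (f₀ - g₀ ^ p) = trp φ f₀ - trp φ g₀ ^ p := by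
  rw [trp, trp, trp, Polynomial.map_sub, Polynomial.map_sub, Polynomial.map_pow,
    Polynomial.map_pow]

/-- Transport of `SL` by an isometry. -/
theorem SL.viso {p : ℕ} (φ : VIso v M M') (hFM : F ≤ M) (hFM' : F' ≤ M')
    (hF : ∀ a : M, (a : Ω) ∈ F ↔ (φ.e a : Ω) ∈ F') {z : M} {r κ : ℝ} {S : ℕ} {A : Polynomial Ω}
    (h : SL p v F (z : Ω) r κ S A) (hA : A.eval (z : Ω) ∈ M) :
    ∃ A' : Polynomial Ω, SL p v F' (φ.e z : Ω) r κ S A' ∧
      A'.eval (φ.e z : Ω) = (φ.e ⟨A.eval (z : Ω), hA⟩ : Ω) := by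
  have hPI : ∀ f : Polynomial Ω, f ∈ PI F → f ∈ PI M := fun f hf i => hFM (hf i)
  obtain ⟨A₀, rfl⟩ := exists_lift_PI (hPI A h.mem)
  have hmem : ∀ f₀ : Polynomial M, f₀.map (algebraMap M Ω) ∈ PI F → trp φ f₀ ∈ PI F' := by
    intro f₀ hf i
    rw [trp_coeff]
    have h1 := hf i
    rw [coeff_map] at h1
    exact (hF _).1 h1
  have hge : ∀ (f₀ : Polynomial M) (i : ℕ) (b : ℝ),
      v.Ge b ((trp φ f₀).coeff i) ↔ v.Ge b ((f₀.map (algebraMap M Ω)).coeff i) := by
    intro f₀ i b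
    rw [trp_coeff, coeff_map, φ.ge_iff]
    rfl
  refine ⟨trp φ A₀, ⟨hmem A₀ h.mem, fun h1 => ?_, fun ε hε => ?_, fun e he g' hg' => ?_⟩, ?_⟩
  · have h2 : (z : Ω) ≠ 0 := fun h3 => h1 ((φ.coe_eq_zero z).2 h3)
    rw [φ.val z h2]
    exact h.gt h2
  · obtain ⟨g, hg, hgb⟩ := h.lo ε hε
    obtain ⟨g₀, rfl⟩ := exists_lift_PI (hPI g hg)
    refine ⟨trp φ g₀, hmem g₀ hg, fun m => ?_⟩
    rw [← trp_sub_pow, hge, Polynomial.map_sub, Polynomial.map_pow]
    exact hgb m
  · obtain ⟨g'₀, rfl⟩ := exists_lift_PI (M := M') fun i => hFM' (hg' i)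
    set g₀ : Polynomial M := g'₀.map (φ.e.symm : M' →+* M) with hg₀
    have h1 : g₀.map (φ.e : M →+* M') = g'₀ := by
      rw [hg₀, Polynomial.map_map]
      have h2 : (φ.e : M →+* M').comp (φ.e.symm : M' →+* M) = RingHom.id M' :=
        RingHom.ext fun x => φ.e.apply_symm_apply x
      rw [h2, Polynomial.map_id]
    have h2 : trp φ g₀ = g'₀.map (algebraMap M' Ω) := by rw [trp, h1]
    have h3 : g₀.map (algebraMap M Ω) ∈ PI F := by
      intro i
      rw [coeff_map]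
      refine (hF _).2 ?_
      have h4 := hg' i
      rw [← h2, trp_coeff] at h4
      exact h4
    obtain ⟨m, hm, h4⟩ := h.hi e he _ h3
    refine ⟨m, hm, fun h5 => h4 ?_⟩
    rw [← h2, ← trp_sub_pow, hge, Polynomial.map_sub, Polynomial.map_pow] at h5
    exact h5
  · rw [trp_eval]
    congr 2
    apply Subtype.ext
    show algebraMap M Ω (A₀.eval z) = (A₀.map (algebraMap M Ω)).eval (z : Ω)
    rw [eval_map]
    exact (Polynomial.eval₂_at_apply (algebraMap M Ω) z).symm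

/-- The isometry `k(t) ≅ k(t')` maps `k(t_1, .., t_N)` onto `k(t'_1, .., t'_N)`. -/
theorem mem_kr_iff {N m : ℕ} {t t' : Fin N → Ω} (φ : VIso v (kr k t) (kr k t'))
    (hφ : ∀ i (hi : t i ∈ kr k t), (φ.e ⟨t i, hi⟩ : Ω) = t' i) (f : Fin m → Fin N) (a : kr k t) :
    (a : Ω) ∈ kr k (t ∘ f) ↔ (φ.e a : Ω) ∈ kr k (t' ∘ f) := by
  constructor
  · intro ha
    have h1 : kr k (t ∘ f) ≤ ((kr k (t' ∘ f)).comap
        ((kr k t').val.comp φ.e.toAlgHom)).map (kr k t).val := by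
      rw [kr, IntermediateField.adjoin_le_iff]
      rintro _ ⟨i, rfl⟩
      refine ⟨⟨t (f i), mem_kr t (f i)⟩, ?_, rfl⟩
      show ((φ.e ⟨t (f i), mem_kr t (f i)⟩ : kr k t') : Ω) ∈ kr k (t' ∘ f)
      rw [hφ]
      exact mem_kr (t' ∘ f) i
    obtain ⟨b, hb, hba⟩ := h1 ha
    have hb' : b = a := Subtype.ext hba
    rw [hb'] at hb
    exact hb
  · intro ha
    have h1 : kr k (t' ∘ f) ≤ ((kr k (t ∘ f)).comap
        ((kr k t).val.comp φ.e.symm.toAlgHom)).map (kr k t').val := by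
      rw [kr, IntermediateField.adjoin_le_iff]
      rintro _ ⟨i, rfl⟩
      refine ⟨⟨t' (f i), mem_kr t' (f i)⟩, ?_, rfl⟩
      show ((φ.e.symm ⟨t' (f i), mem_kr t' (f i)⟩ : kr k t) : Ω) ∈ kr k (t ∘ f)
      have h2 : φ.e.symm ⟨t' (f i), mem_kr t' (f i)⟩ = ⟨t (f i), mem_kr t (f i)⟩ := by
        rw [AlgEquiv.symm_apply_eq]
        exact Subtype.ext (hφ (f i) _).symm
      rw [h2]
      exact mem_kr (t ∘ f) i
    obtain ⟨b, hb, hba⟩ := h1 ha
    have hb' : b = φ.e a := Subtype.ext hba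
    rw [hb'] at hb
    have h3 : ((φ.e.symm (φ.e a) : kr k t) : Ω) ∈ kr k (t ∘ f) := hb
    rwa [AlgEquiv.symm_apply_apply] at h3

/-- **Row EX, transport.** `SL` for `(F, z) = (k(t_1, .., t_N), t_(N+1))` and a polynomial `A`
gives `SL` for the exact generators. -/
theorem SL.near {p N : ℕ} {t t' : Fin (N + 1) → Ω} (φ : VIso v (kr k t) (kr k t'))
    (hφ : ∀ i (hi : t i ∈ kr k t), (φ.e ⟨t i, hi⟩ : Ω) = t' i) {r κ : ℝ} {S : ℕ}
    {A : Polynomial Ω} (h : SL p v (kr k fun i : Fin N => t i.castSucc) (t (Fin.last N)) r κ S A)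
    (hA : A.eval (t (Fin.last N)) ∈ kr k t) :
    ∃ A' : Polynomial Ω,
      SL p v (kr k fun i : Fin N => t' i.castSucc) (t' (Fin.last N)) r κ S A' ∧
        A'.eval (t' (Fin.last N)) = (φ.e ⟨A.eval (t (Fin.last N)), hA⟩ : Ω) := by
  have h1 : ∀ s : Fin (N + 1) → Ω, (kr k fun i : Fin N => s i.castSucc) ≤ kr k s := by
    intro s
    rw [kr, IntermediateField.adjoin_le_iff]
    rintro _ ⟨i, rfl⟩
    exact mem_kr s i.castSucc
  obtain ⟨A', h2, h3⟩ := SL.viso (F' := kr k fun i : Fin N => t' i.castSucc) φ (h1 t) (h1 t')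
    (fun a => mem_kr_iff φ hφ Fin.castSucc a) (z := ⟨t (Fin.last N), mem_kr t _⟩) h hA
  rw [hφ] at h2 h3
  exact ⟨A', h2, h3⟩

end Transport

end Pool.Agent.TWJ
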