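import Pool.Agent.Lib.TW_NFG.J6b
import Pool.Agent.Lib.TWM.Ent1

/-!
# TANK W, SEC1: the jump theorem, form for the assembly
-/

set_option autoImplicit false

open Polynomial

namespace Pool.Agent.TWJ

open Pool.Agent.H15JM (RVal)
open Pool.Agent.LU1 (adj)
open Pool.Agent.D2P (hen clI)
open Pool.Agent.TW
open Pool.Agent.TWM (PI SL GB Lim clI_hen)

universe u

variable {k Ω : Type u} [Field k] [Field Ω] [Algebra k Ω] {v : RVal Ω}

/-- The first slope does not change if a `p`-th power is added. -/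
theorem SL_add_pow {p : ℕ} [hp : Fact p.Prime] [CharP Ω p] {E : IntermediateField k Ω} {X : Ω}
    {c κ : ℝ} {S : ℕ} {A : Polynomial Ω} (h : SL p v E X c κ S A) {g : Polynomial Ω}
    (hg : g ∈ PI E) : SL p v E X c κ S (A + g ^ p) := by
  refine ⟨add_mem h.mem (pow_mem hg p), h.gt, fun ε hε => ?_, fun e he g₁ hg₁ => ?_⟩
  · obtain ⟨g₁, hg₁, h1⟩ := h.lo ε hε
    refine ⟨g₁ + g, add_mem hg₁ hg, ?_⟩
    rwa [add_pow_char, add_sub_add_right_eq_sub]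
  · obtain ⟨n, hn, h1⟩ := h.hi e he (g₁ - g) (sub_mem hg₁ hg)
    refine ⟨n, hn, ?_⟩
    rwa [sub_pow_char, ← sub_add, sub_add_eq_add_sub] at h1

/-- The jump theorem: if `z` is not of transcendental type over `F`, there are coordinates
`(R.s, X')` of `F(z)` such that the index of `A` over `k(R.s)` is `≤ p ⌊S/(p m)⌋ + p - 1`,
`m ≥ 2`. -/
theorem jump_fin [IsAlgClosed Ω] [IsAlgClosed k] (p : ℕ) [hp : Fact p.Prime] [CharP k p]
    [CharP Ω p] {r D : ℕ} (h : Ctx k v r) {F : IntermediateField k Ω} (hF : F.FG)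
    (hfull : Full v F) (hBD : BD p v F) (htr : Algebra.trdeg k F = (r + D : ℕ))
    (hLU : ∀ E : IntermediateField k Ω, E.FG → Full v E →
      Algebra.trdeg k E = (r + D : ℕ) → BD p v E → LU p v r E)
    (hd : Dns v F) {z : Ω} (hz : Transcendental F z) {ρ : ℝ} (hle : ∀ θ ∈ F, v (z - θ) ≤ ρ)
    (hsup : ∀ ε : ℝ, 0 < ε → ∃ θ ∈ F, ρ - ε < v (z - θ)) {η₀ : Ω} (hη₀ : IsAlgebraic F η₀)
    (hρ : ρ ≤ v (z - η₀)) {c κ : ℝ} {S : ℕ} {A : Polynomial Ω} (hs : SL p v F z c κ S A) :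
    ∃ (m : ℕ) (R : Fr k v r D) (X' : Ω), 2 ≤ m ∧ (∀ i, R.s i ∈ adj F z) ∧ (∀ i, R.s i ≠ 0) ∧
      X' ∈ adj F z ∧ X' ≠ 0 ∧ 0 < v X' ∧ AlgebraicIndependent k R.s ∧ R.K = kr k R.s ∧
      R.K.FG ∧ Full v R.K ∧ BD p v R.K ∧ Algebra.trdeg k R.K = (r + D : ℕ) ∧ Dns v R.K ∧
      Transcendental R.K X' ∧ hen v (adj F z) = hen v (adj R.K X') ∧
      clI v (adj F z) = clI v (adj R.K X') ∧
      ∀ C : ℝ, ∃ A' ∈ PI R.K, ∃ r' κ' : ℝ, 0 ≤ r' ∧ r' < v X' ∧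
        v.Ge C (A.eval z - A'.eval X') ∧
        SL p v R.K X' r' κ' (p * (S / (p * m)) + p - 1) A' := by
  have hz0 : z ≠ 0 := by
    rintro rfl
    exact hz isAlgebraic_zero
  have hp0 : (0 : ℝ) < p := by exact_mod_cast hp.out.pos
  have hcρ : c < ρ := (hs.gt hz0).trans_le (by
    have := hle 0 F.zero_mem
    rwa [sub_zero] at this)
  obtain ⟨m, R, X', g₀, h1, h2, h3, h4, h5, h6, h7, h8, h9, -, h11, h12⟩ :=
    jump p h hF hfull hBD htr hLU hd hz (ρ := ρ) (fun ε hε => by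
      obtain ⟨θ, hθ, h1⟩ := hsup ε hε
      exact ⟨θ, hθ, RVal.Ge.of_le h1.le⟩) hle ⟨η₀, hη₀, hρ⟩ hcρ hs
  refine ⟨m, R, X', h1, h2, ?_, h3, h4, h5, P4bAux.s_alg R, P1.K_eq R, Est.fg_K R, Est.full_K h R,
    h6, Est.trdeg_K R, h7, h8, h9.symm, ?_, fun C => ?_⟩
  · intro i
    refine Fin.addCases (fun i => ?_) (fun j => ?_) i
    · rw [P3.s_castAdd R]; exact R.x_ne i
    · rw [P3.s_natAdd R]; exact R.y_ne j
  · rw [← clI_hen (adj F z), ← h9, clI_hen]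
  · obtain ⟨g₁, hg₁, hg₂⟩ := h11 (C / p)
    obtain ⟨A', hA', r', κ', hr', hSL, hC⟩ := h12 C
    refine ⟨A' + g₁ ^ p, add_mem hA' (pow_mem hg₁ p), r', κ', hr', hSL.gt h4, ?_,
      SL_add_pow hSL hg₁⟩
    have e1 : A.eval z - (A' + g₁ ^ p).eval X' =
        (A.eval z - g₀.eval z ^ p - A'.eval X') + (g₀.eval z - g₁.eval X') ^ p := by
      rw [eval_add, eval_pow, sub_pow_char]
      ring
    rw [e1]
    refine hC.add ?_
    intro hne
    have h13 : g₀.eval z - g₁.eval X' ≠ 0 := fun h => hne (by rw [h, zero_pow hp.out.ne_zero])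
    rw [v.map_pow h13]
    have h14 := hg₂ h13
    rw [div_le_iff₀ hp0] at h14
    linarith

end Pool.Agent.TWJ
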