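import Pool.Agent.Lib.TWJ.SEC
import Pool.Agent.Lib.TWJ.J
import Pool.Agent.Lib.TWJ.EX

/-!
# TANK W, SEC1: the exact jump

* `exists_dist`, `exists_alg_near`: the distance of `z` to `F`, if `z` is not of transcendental type;
* `exists_frame`: coordinates with the values of a frame are a frame;
* `jump_exact`: a state with `z` not of transcendental type over `F` and index `≥ p` gives a state
  with smaller index.
-/

set_option autoImplicit false

open Polynomial

namespace Pool.Agent.TWJ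

open Pool.Agent.H15JM (RVal)
open Pool.Agent.LU1 (adj)
open Pool.Agent.D2 (Ctx0)
open Pool.Agent.D2P (hen clI mem_clI mem_adj_self adj_le)
open Pool.Agent.TW
open Pool.Agent.TWM (CompleteV le_clI clI_mono clI_clI OI pbasis_clI gen_of_bas adj_range transcendental_kr
  SL TL PI Lim)

universe u

variable {k Ω : Type u} [Field k] [Field Ω] [Algebra k Ω] {v : RVal Ω} {r D : ℕ}

/-! ### The distance -/

/-- If `z` is not in the closure of `F`, it has a finite distance to `F`. -/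
theorem exists_dist {F : IntermediateField k Ω} {z : Ω} (hz : z ∉ clI v F) :
    ∃ ρ : ℝ, (∀ θ ∈ F, v (z - θ) ≤ ρ) ∧ ∀ ε : ℝ, 0 < ε → ∃ θ ∈ F, ρ - ε < v (z - θ) := by
  have h1 : ∃ b : ℝ, ∀ θ ∈ F, ¬ v.Ge b (z - θ) := by
    by_contra hno
    push Not at hno
    exact hz (mem_clI.2 hno)
  obtain ⟨b, hb⟩ := h1
  have hne : {x : ℝ | ∃ θ ∈ F, x = v (z - θ)}.Nonempty := ⟨_, 0, zero_mem F, rfl⟩
  have hbd : BddAbove {x : ℝ | ∃ θ ∈ F, x = v (z - θ)} := by
    refine ⟨b, ?_⟩
    rintro _ ⟨θ, hθ, rfl⟩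
    by_contra hlt
    push Not at hlt
    exact hb θ hθ (RVal.Ge.of_le hlt.le)
  refine ⟨sSup {x : ℝ | ∃ θ ∈ F, x = v (z - θ)}, fun θ hθ => le_csSup hbd ⟨θ, hθ, rfl⟩,
    fun ε hε => ?_⟩
  obtain ⟨_, ⟨θ, hθ, rfl⟩, h⟩ := exists_lt_of_lt_csSup hne
    (show sSup {x : ℝ | ∃ θ ∈ F, x = v (z - θ)} - ε < sSup {x : ℝ | ∃ θ ∈ F, x = v (z - θ)} by
      linarith)
  exact ⟨θ, hθ, h⟩

/-- If the closure of `F(z)` has more independent elements than `F`, `z` is not in the closure
of `F`. -/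
theorem not_mem_clI [IsAlgClosed k] {p : ℕ} [Fact p.Prime] [CharP k p] [CharP Ω p]
    {K F : IntermediateField k Ω} {n : ℕ} {t : Fin (n + 1) → Ω} (hBD : BD p v K)
    (hpb : PBasis p K t) (hF : F.FG) (htr : Algebra.trdeg k F = n) {z : Ω}
    (hK : K = clI v (adj F z)) : z ∉ clI v F := by
  intro hz
  have h1 : clI v F = K := by
    rw [hK]
    refine le_antisymm (clI_mono fun x hx => (mem_adj_self F z).2 hx) ?_
    rw [← clI_clI F]
    exact clI_mono (adj_le (le_clI F) hz)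
  have h2 := (BD_dense hBD hpb hF h1).1
  rw [htr, Nat.cast_le] at h2
  omega

/-- If `z` is not of transcendental type, there is an algebraic element at the distance `ρ`. -/
theorem exists_alg_near {F : IntermediateField k Ω} {z : Ω} {ρ : ℝ} (hz : Transcendental F z)
    (hsup : ∀ ε : ℝ, 0 < ε → ∃ θ ∈ F, ρ - ε < v (z - θ)) (hn : ∀ s, ¬ TL v F z s) :
    ∃ α : Ω, IsAlgebraic F α ∧ ρ ≤ v (z - α) := by
  by_contra hno
  push Not at hno
  refine hn ρ ⟨fun ε hε => ?_, fun θ hθ => ⟨?_, hno θ hθ⟩⟩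
  · obtain ⟨θ, hθ, h⟩ := hsup ε hε
    exact ⟨θ, hθ, RVal.Ge.of_le h.le⟩
  · rintro rfl
    exact hz hθ

/-- The index decreases. -/
theorem index_lt {p S m : ℕ} (hp : 0 < p) (hS : p ≤ S) (hm : 2 ≤ m) :
    p * (S / (p * m)) + p - 1 < S := by
  have h1 : 1 ≤ S / p := (Nat.one_le_div_iff hp).2 hS
  have h2 : S / p / m < S / p := Nat.div_lt_self (by omega) (by omega)
  rw [Nat.div_div_eq_div_mul] at h2
  have h3 : p * (S / (p * m) + 1) ≤ p * (S / p) := Nat.mul_le_mul_left p h2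
  have h4 : p * (S / p) ≤ S := Nat.mul_div_le S p
  rw [mul_add, mul_one] at h3
  omega

/-! ### Frames -/

/-- Independent elements with the values of a frame are a frame. -/
theorem exists_frame (R : Fr k v r D) {t : Fin (r + D) → Ω} (hai : AlgebraicIndependent k t)
    (h0 : ∀ i, t i ≠ 0) (hval : ∀ i, v (t i) = v (R.s i)) : ∃ R' : Fr k v r D, R'.s = t := by
  have hx : ∀ i : Fin r, v (t (Fin.castAdd D i)) = v (R.x i) := by
    intro i
    rw [hval, Fr.s, Fin.append_left]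
  have hy : ∀ j : Fin D, v (t (Fin.natAdd r j)) = v (R.y j) := by
    intro j
    rw [hval, Fr.s, Fin.append_right]
  refine ⟨⟨fun i => t (Fin.castAdd D i), fun j => t (Fin.natAdd r j), fun i => h0 _, ?_,
    fun j => h0 _, fun j => ?_, ?_⟩, ?_⟩
  · have h1 : (fun i => v (t (Fin.castAdd D i))) = fun i => v (R.x i) := funext hx
    rw [h1]
    exact R.x_ind
  · rw [hy]
    exact R.y_pos j
  · have h1 := hai.comp _ (finSumFinEquiv (m := r) (n := D)).injective
    have h2 : t ∘ (finSumFinEquiv (m := r) (n := D)) =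
        Sum.elim (fun i => t (Fin.castAdd D i)) (fun j => t (Fin.natAdd r j)) := by
      funext i
      rcases i with i | i
      · simp
      · simp
    rwa [h2] at h1
  · funext i
    refine Fin.addCases (fun i => ?_) (fun j => ?_) i
    · rw [Fr.s, Fin.append_left]
    · rw [Fr.s, Fin.append_right]


/-! ### The exact jump -/

/-- The last of some independent elements is transcendental over the others. -/
theorem tr_last {n : ℕ} {t : Fin (n + 1) → Ω} (hai : AlgebraicIndependent k t) :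
    Transcendental (kr k (Fin.init t)) (t (Fin.last n)) := by
  refine transcendental_kr (hai.comp _ (Fin.castSucc_injective _)) ?_
  have h4 := hai.comp (fun o : Option (Fin n) => o.elim (Fin.last n) Fin.castSucc) (by
    rintro (_ | i) (_ | j) hij
    · rfl
    · exact absurd hij.symm (Fin.castSucc_lt_last j).ne
    · exact absurd hij (Fin.castSucc_lt_last i).ne
    · exact congrArg some (Fin.castSucc_injective _ hij))
  have h5 : (t ∘ fun o : Option (Fin n) => o.elim (Fin.last n) Fin.castSucc) =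
      fun o => o.elim (t (Fin.last n)) (Fin.init t) := by
    funext o
    rcases o with _ | o
    · rfl
    · rfl
  rwa [h5] at h4

/-- An element near to a nonzero element has the same value. -/
theorem val_eq_of_near {x y : Ω} {c : ℝ} (hx : x ≠ 0) (hc : v x < c) (h : v.Ge c (x - y)) :
    v y = v x := by
  by_cases h0 : x - y = 0
  · rw [sub_eq_zero.1 h0]
  · have h1 := v.add_of_lt hx (neg_ne_zero.2 h0) (by
      rw [v.map_neg _ h0]
      exact hc.trans_le (h h0))
    rw [show x + -(x - y) = y by ring] at h1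
    exact h1.2

/-- **Row J10.** -/
theorem jump_exact [IsAlgClosed k] [IsAlgClosed Ω] (p : ℕ) [Fact p.Prime] [CharP k p] [CharP Ω p]
    (h : Ctx k v r) (hcv : CompleteV v)
    (hLU : ∀ E : IntermediateField k Ω, E.FG → Full v E → Algebra.trdeg k E = (r + D : ℕ) →
      BD p v E → LU p v r E)
    {K₀ K : IntermediateField k Ω} (hK₀ : K₀.FG) (htr : Algebra.trdeg k K₀ = (r + D + 1 : ℕ))
    (hBD : BD p v K₀) (hK : K = clI v K₀) {a : Ω} (ha : a ∈ K) {μ₁ : ℝ}
    (hμ : ∀ g ∈ K, ¬ v.Ge μ₁ (a - g ^ p)) {F : IntermediateField k Ω} {z : Ω} {ρ κ : ℝ} {S : ℕ}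
    {A : Polynomial Ω} (hs : Stt p v r D K a F z ρ κ S A) (hdn : Dns v F) (hS : p ≤ S)
    (hn : ∀ s, ¬ TL v F z s) :
    ∃ (F' : IntermediateField k Ω) (z' : Ω) (ρ' κ' : ℝ) (S' : ℕ) (A' : Polynomial Ω), S' < S ∧
      Stt p v r D K a F' z' ρ' κ' S' A' := by
  classical
  have hp0 : 0 < p := (Fact.out : p.Prime).pos
  -- the closure
  obtain ⟨m, s, hsb, C, hC⟩ := id hBD
  have hm : m = r + D + 1 := by
    have h4 := (hsb.trdeg p hK₀).1
    rw [htr] at h4
    exact_mod_cast h4.symm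
  subst hm
  have hos : OI p v (clI v K₀) s C := (OI.of_orth_pb hC hsb).cl
  have hpb : PBasis p K s := by
    rw [hK]
    exact pbasis_clI hcv hsb hos
  have hBDK : BD p v K := ⟨_, s, hpb, C, by rw [hK]; exact hos.orth⟩
  -- the distance and the algebraic element
  obtain ⟨ρ₁, hle, hsup⟩ := exists_dist (not_mem_clI hBDK hpb hs.fg hs.tr hs.cl)
  obtain ⟨η₀, hη₀, hη₀ρ⟩ := exists_alg_near hs.tz hsup hn
  -- the jump
  obtain ⟨m, R, X', hm2, -, -, -, -, -, -, hRK, -, -, -, -, -, -, -, hcl, hrep⟩ :=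
    jump_fin p h hs.fg hs.full hs.bd hs.tr hLU hdn hs.tz hle hsup hη₀ hη₀ρ hs.sl
  set T : Fin (r + D + 1) → Ω := Fin.snoc R.s X' with hT
  have hTadj : adj R.K X' = kr k T := by rw [hRK, adj_range]
  have hTcl : clI v (kr k T) = K := by rw [hs.cl, hcl, hTadj]
  obtain ⟨hpT, hT0, C₁, hoT⟩ := gen_of_bas hBDK hpb hTcl
  have hRT : R.K ≤ kr k T := by
    rw [← hTadj]
    exact fun x hx => (mem_adj_self _ _).2 hx
  have hXT : X' ∈ kr k T := by
    rw [← hTadj]
    exact (mem_adj_self _ _).1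
  -- the element of `K`
  obtain ⟨h₀, hh₀, hh₀0, g₁, hg₁, hrep₁⟩ := hs.rep
  have hAK : A.eval z ∈ K := by
    rw [← hrep₁]
    exact sub_mem (mul_mem ha (pow_mem hh₀ p)) (pow_mem hg₁ p)
  have hdist : ∀ g ∈ K, ¬ v.Ge (μ₁ + p * v h₀) (A.eval z - g ^ p) := by
    intro g hg h1
    refine hμ ((g + g₁) / h₀) (div_mem (add_mem hg hg₁) hh₀) fun hne => ?_
    have e1 : a - ((g + g₁) / h₀) ^ p = (A.eval z - g ^ p) / h₀ ^ p := by
      rw [← hrep₁, div_pow, add_pow_char, eq_div_iff (pow_ne_zero p hh₀0), sub_mul,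
        div_mul_cancel₀ _ (pow_ne_zero p hh₀0)]
      ring
    rw [e1] at hne ⊢
    have h2 : A.eval z - g ^ p ≠ 0 := fun h3 => hne (by rw [h3, zero_div])
    rw [v.map_div h2 (pow_ne_zero p hh₀0), v.map_pow hh₀0]
    have := h1 h2
    linarith
  obtain ⟨C₂, hC₂⟩ := exact_gen p h.toCtx0 hcv hTcl hoT hT0 (μ₁ + p * v h₀) (v (A.eval z))
    (∑ i, |v (T i)| + 1)
  obtain ⟨A', hA', r', κ', hr'0, hr'X, hge, hSL⟩ := hrep C₂
  have hbT : A'.eval X' ∈ kr k T := by
    rw [eval_eq_sum_range]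
    exact sum_mem fun i _ => mul_mem (hRT (hA' i)) (pow_mem hXT i)
  obtain ⟨t', ht', htcl, φ, hφ, hφb⟩ := hC₂ (A.eval z) hAK (v.ge_self _) hdist _ hbT hge
  -- the new coordinates
  obtain ⟨hpt', -, C₃, hot'⟩ := gen_of_bas hBDK hpb htcl
  have ht'0 : ∀ i, t' i ≠ 0 := fun i => (ht' i).2.1
  have hai : AlgebraicIndependent k t' := (hot'.mono (by
    rw [← htcl]
    exact le_clI _) le_rfl).algInd ht'0
  have hval : ∀ i, v (t' i) = v (T i) := by
    intro i
    refine val_eq_of_near (c := ∑ i, |v (T i)| + 1) (hT0 i) ?_ (ht' i).2.2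
    have h1 : |v (T i)| ≤ ∑ i, |v (T i)| :=
      Finset.single_le_sum (f := fun i => |v (T i)|) (fun i _ => abs_nonneg _) (Finset.mem_univ i)
    have h2 := le_abs_self (v (T i))
    linarith
  have hinit : Fin.snoc (Fin.init t') (t' (Fin.last (r + D))) = t' := Fin.snoc_init_self t'
  obtain ⟨R', hR'⟩ := exists_frame R (t := Fin.init t')
    (hai.comp _ (Fin.castSucc_injective _)) (fun i => ht'0 _) fun i => by
      rw [Fin.init, hval, hT, Fin.snoc_castSucc]
  have hR'K : R'.K = kr k (Fin.init t') := by rw [P1.K_eq, hR']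
  have hadj' : adj R'.K (t' (Fin.last (r + D))) = kr k t' := by
    rw [hR'K, adj_range, hinit]
  have htz : Transcendental R'.K (t' (Fin.last (r + D))) := by
    rw [hR'K]
    exact tr_last hai
  have hFG' : (kr k t').FG := IntermediateField.fg_adjoin_of_finite (Set.finite_range _)
  have hbd' : BD p v (kr k t') := (BD_dense hBDK hpb hFG' htcl).2 (by
    rw [trdeg_adjoin_eq hai.to_subtype_range]
    have h2 := Cardinal.mk_range_eq_of_injective hai.injective
    simpa using h2)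
  have hbd : BD p v R'.K := by
    refine BD.of_adj p (Est.fg_K R') htz ?_
    rw [hadj']
    exact hbd'
  -- the isometry
  have hX1 : T (Fin.last (r + D)) = X' := by rw [hT, Fin.snoc_last]
  have hTs : (fun i : Fin (r + D) => T i.castSucc) = R.s := by
    funext i
    rw [hT, Fin.snoc_castSucc]
  have hbT' : A'.eval (T (Fin.last (r + D))) ∈ kr k T := by
    rw [hX1]
    exact hbT
  obtain ⟨A'', hSL'', hA''⟩ := SL.near φ hφ (r := r') (κ := κ')
    (S := p * (S / (p * m)) + p - 1) (A := A') (by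
      rw [hTs, hX1, ← hRK]
      exact hSL) hbT'
  have hbb : (⟨A'.eval (T (Fin.last (r + D))), hbT'⟩ : kr k T) = ⟨A'.eval X', hbT⟩ :=
    Subtype.ext (congrArg (fun x => A'.eval x) hX1)
  have hSL₂ : SL p v R'.K (t' (Fin.last (r + D))) r' κ' (p * (S / (p * m)) + p - 1) A'' := by
    rw [hR'K]
    exact hSL''
  refine ⟨R'.K, t' (Fin.last (r + D)), r', κ', _, A'', index_lt hp0 hS hm2, ⟨R', rfl⟩,
    Est.fg_K R', Est.full_K h R', Est.trdeg_K R', hbd, htz, ?_, ?_, hSL₂⟩
  · rw [hadj', htcl]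
  · exact ⟨h₀, hh₀, hh₀0, g₁, hg₁, by rw [hA'', hbb, hφb, hrep₁]⟩

/-- **Row J10**, in the form used in `sec1`. -/
theorem jumpExact [IsAlgClosed k] [IsAlgClosed Ω] (p : ℕ) [Fact p.Prime] [CharP k p] [CharP Ω p]
    (h : Ctx k v r) (hcv : CompleteV v)
    (hLU : ∀ E : IntermediateField k Ω, E.FG → Full v E → Algebra.trdeg k E = (r + D : ℕ) →
      BD p v E → LU p v r E)
    {K₀ K : IntermediateField k Ω} (hK₀ : K₀.FG) (htr : Algebra.trdeg k K₀ = (r + D + 1 : ℕ))
    (hBD : BD p v K₀) (hK : K = clI v K₀) {a : Ω} (ha : a ∈ K) {μ₁ : ℝ}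
    (hμ : ∀ g ∈ K, ¬ v.Ge μ₁ (a - g ^ p)) : JumpExact p v r D K a :=
  fun _ _ _ _ _ _ hs hd hS hn => jump_exact p h hcv hLU hK₀ htr hBD hK ha hμ hs hd hS hn

end Pool.Agent.TWJ
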