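import Pool.Agent.Lib.TWM.S8e
import Pool.Agent.Lib.TW.HRLUa
import Pool.Agent.Lib.TW.P2a
import Pool.Agent.Lib.TW.P4b
import Pool.Agent.Lib.TW.BA
import Pool.Agent.Lib.TW.BB
import Pool.Agent.Lib.TGL_h44.Wc

/-!
# TANK W, NFG: the exit

* `BD_dense`: finitely generated dense subfields of closed fields with bounded distortion;
* `exitg`: if the closure of `E` is the closure of `F₂(X₂)`, `trdeg F₂ = trdeg E - 1`, and local
  uniformization is known in transcendence degree `trdeg E - 1`, then `E` is henselian rational.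
-/

set_option autoImplicit false

open Polynomial

namespace Pool.Agent.TWJ

open Pool.Agent.H15JM (RVal)
open Pool.Agent.LU1 (VPos adj)
open Pool.Agent.LUC (Cl clF)
open Pool.Agent.D2 (Ctx0)
open Pool.Agent.D2P (hen clI mem_clI mem_hen le_hen hen_hen hen_mono mem_adj_self adj_le)
open Pool.Agent.TW
open Pool.Agent.TWM (CompleteV cadj le_clI clI_mono clI_clI clI_hen clI_adj_clI adj_range OI
  pbasis_clI spn_of_dense span_adjoin exit_gen transcendental_kr full_of_ind cld_clI)

universe u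

variable {k Ω : Type u} [Field k] [Field Ω] [Algebra k Ω] {v : RVal Ω} {r D : ℕ}

section BD

variable {p : ℕ} [Fact p.Prime] [CharP k p] [CharP Ω p]

/-- Finitely generated dense subfields of a closed field with bounded distortion. -/
theorem BD_dense [IsAlgClosed k] {B M : IntermediateField k Ω} {n : ℕ} {t : Fin n → Ω}
    (hBD : BD p v B) (hpb : PBasis p B t) (hM : M.FG) (hcl : clI v M = B) :
    (n : Cardinal.{u}) ≤ Algebra.trdeg k M ∧ (Algebra.trdeg k M = n → BD p v M) := by
  classical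
  obtain ⟨m, τ, hτ⟩ := exists_PBasis (p := p) hM
  have htr := (hτ.trdeg p hM).1
  have hle : M ≤ B := by
    rw [← hcl]
    exact le_clI _
  have hτB : ∀ i, τ i ∈ B := fun i => hle (hτ.mem i)
  have hmB : ∀ α : Fin m → Fin p, mon τ α ∈ B := fun α => prod_mem fun i _ => pow_mem (hτB i) _
  have hspn : ∀ u ∈ B.toSubfield, Spn (Qp p B) (mon (p := p) τ) u := by
    intro u hu
    refine spn_of_dense hBD.bdq Qp_le' (fun α => hmB α) (fun u hu b => ?_) hu
    have hu' : u ∈ clI v M := by
      rw [hcl]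
      exact hu
    obtain ⟨w, hw, h2⟩ := mem_clI.1 hu' b
    obtain ⟨c, hcm, rfl⟩ := hτ.span w hw
    exact ⟨_, ⟨fun α => c α ^ p, fun α => mem_Qp.2 ⟨_, hle (hcm α), rfl⟩, rfl⟩, h2⟩
  -- count
  have hfin := TW.finite_of_spn Qp_le' hspn
  have hcard := hpb.bas.card Qp_le'
  let b' : (Fin m → Fin p) → sm (Qp p B) B.toSubfield Qp_le' := fun α => ⟨mon τ α, hmB α⟩
  have htop : ⊤ ≤ Submodule.span (Qp p B) (Set.range b') := by
    rintro ⟨u, hu⟩ -
    obtain ⟨c, hcQ, hcu⟩ := hspn u hu
    have h1 : (⟨u, hu⟩ : sm (Qp p B) B.toSubfield Qp_le') =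
        ∑ α, (⟨c α, hcQ α⟩ : Qp p B) • b' α := by
      apply Subtype.ext
      rw [AddSubmonoidClass.coe_finsetSum]
      exact hcu
    rw [h1]
    exact Submodule.sum_mem _ fun α _ => Submodule.smul_mem _ _ (Submodule.subset_span ⟨α, rfl⟩)
  have hp := (Fact.out : p.Prime).two_le
  have hnm : n ≤ m := by
    have h1 := finrank_range_le_card (R := Qp p B) b'
    have h2 : Submodule.span (Qp p B) (Set.range b') = ⊤ := top_le_iff.1 htop
    rw [Set.finrank, h2, finrank_top, ← hcard] at h1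
    simp only [Fintype.card_fun, Fintype.card_fin] at h1
    exact (Nat.pow_le_pow_iff_right hp).1 h1
  refine ⟨by rw [htr]; exact_mod_cast hnm, fun h1 => ?_⟩
  have hmn : m = n := by
    rw [htr] at h1
    exact_mod_cast h1
  subst hmn
  have hlin := linearIndependent_of_top_le_span_of_card_eq_finrank htop hcard
  have hind : Ind (Qp p B) (mon (p := p) τ) := by
    intro c hcQ h0 α
    have h1 : ∑ α, (⟨c α, hcQ α⟩ : Qp p B) • b' α = 0 := by
      apply Subtype.ext
      rw [AddSubmonoidClass.coe_finsetSum]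
      exact h0
    exact congrArg Subtype.val (Fintype.linearIndependent_iff.1 hlin
      (fun α => ⟨c α, hcQ α⟩) h1 α)
  have hpb' : PBasis p B τ := PBasis.of_bas hτB ⟨fun α => hmB α, hspn, hind⟩
  obtain ⟨C', hC'⟩ := hBD.orth hpb'
  exact ⟨m, τ, hτ, C', hC'.mono hle⟩

end BD

/-- The trdeg of an extension by an algebraic element. -/
theorem trdeg_adj_alg {F : IntermediateField k Ω} {X : Ω} (hX : IsAlgebraic F X) :
    Algebra.trdeg k (adj F X) = Algebra.trdeg k F := by
  have h1 : adj F X ≤ TGL44.Wc F := by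
    refine sup_le TGL44.le_Wc ?_
    rw [IntermediateField.adjoin_le_iff, Set.singleton_subset_iff]
    exact TGL44.mem_Wc.2 hX
  have hle : F ≤ adj F X := fun a ha => (mem_adj_self F X).2 ha
  apply le_antisymm
  · have h2 : Algebra.trdeg k (adj F X) ≤ Algebra.trdeg k (TGL44.Wc F) :=
      _root_.trdeg_le_of_injective (IntermediateField.inclusion h1)
        (IntermediateField.inclusion_injective h1)
    rwa [TGL44.trdeg_Wc] at h2
  · exact _root_.trdeg_le_of_injective (IntermediateField.inclusion hle)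
      (IntermediateField.inclusion_injective hle)

/-- The closure of `F(X)` depends only on the closure of `F`. -/
theorem clI_adj_congr {F F' : IntermediateField k Ω} (h : clI v F = clI v F') (X : Ω) :
    clI v (adj F X) = clI v (adj F' X) := by
  rw [← clI_adj_clI (A := F), ← clI_adj_clI (A := F'), h]

/-- **Row EXITG.** -/
theorem exitg [IsAlgClosed k] [IsAlgClosed Ω] (p : ℕ) [Fact p.Prime] [CharP k p] [CharP Ω p]
    (h : Ctx k v r) (hcv : CompleteV v)
    (hLU : ∀ E : IntermediateField k Ω, E.FG → Full v E → Algebra.trdeg k E = (r + D : ℕ) →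
      BD p v E → LU p v r E)
    {E : IntermediateField k Ω} (hE : E.FG) (_hEf : Full v E)
    (htr : Algebra.trdeg k E = (r + D + 1 : ℕ)) (hBD : BD p v E)
    {F₂ : IntermediateField k Ω} (h1 : F₂.FG) (h2 : Full v F₂)
    (h3 : Algebra.trdeg k F₂ = (r + D : ℕ)) {X₂ : Ω} (hcl : clI v E = clI v (adj F₂ X₂)) :
    HRone v E := by
  classical
  -- the closure
  obtain ⟨m, s, hs, C, hC⟩ := id hBD
  have hm : m = r + D + 1 := by
    have h4 := (hs.trdeg p hE).1
    rw [htr] at h4
    exact_mod_cast h4.symm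
  subst hm
  have hos : OI p v (clI v E) s C := (OI.of_orth_pb hC hs).cl
  have hpb : PBasis p (clI v E) s := pbasis_clI hcv hs hos
  have hBD' : BD p v (clI v E) := ⟨_, s, hpb, C, hos.orth⟩
  obtain ⟨hge, hbd⟩ := BD_dense hBD' hpb (D2P.fg_adj h1 X₂) hcl.symm
  have hX : Transcendental F₂ X₂ := by
    intro halg
    rw [trdeg_adj_alg halg, h3, Nat.cast_le] at hge
    omega
  have hbd' : BD p v (adj F₂ X₂) := hbd (by
    rw [HRLU.trdeg_adj hX, h3]
    push_cast
    rfl)
  have hBD₂ : BD p v F₂ := BD.of_adj p h1 hX hbd'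
  obtain ⟨t₂, ht₂⟩ := exists_pbasis p h1 h3
  obtain ⟨S, hS, -, -⟩ := hLU F₂ h1 h2 h3 hBD₂ D t₂ ht₂ ∅ (by simp)
  have hhen : hen v F₂ = hen v S.K := Fr.IsFr.hen_eq p h hS
  have hcl₂ : clI v F₂ = clI v S.K := by
    rw [← clI_hen F₂, hhen, clI_hen]
  set T : Fin (r + D + 1) → Ω := Fin.snoc S.s X₂ with hT
  have hclT : clI v E = clI v (kr k T) := by
    rw [hcl, clI_adj_congr hcl₂, P4bAux.K_eq, adj_range]
  obtain ⟨δ, hδ⟩ := exit_gen h.toCtx0 hcv hE htr hBD hclT
  have hTE : ∀ i, T i ∈ clI v E := fun i => by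
    rw [hclT]
    exact le_clI _ (IntermediateField.subset_adjoin _ _ ⟨i, rfl⟩)
  choose t htE htn using fun i => mem_clI.1 (hTE i) (max δ (v (T i) + 1))
  obtain ⟨-, ht0, -, hai, -, hhenE⟩ := hδ t htE fun i => (htn i).mono (le_max_left _ _)
  -- the values of the first coordinates
  have hval : ∀ i, T i ≠ 0 → v (t i) = v (T i) := by
    intro i hTi
    by_cases h0 : T i - t i = 0
    · rw [sub_eq_zero.1 h0]
    · have h4 := (htn i) h0
      have h5 : v (T i) < v (-(T i - t i)) := by
        rw [v.map_neg _ h0]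
        have := le_max_right δ (v (T i) + 1)
        linarith
      have h6 := v.add_of_lt hTi (neg_ne_zero.2 h0) h5
      rw [show T i + -(T i - t i) = t i by ring] at h6
      exact h6.2
  let x : Fin r → Ω := fun i => t (Fin.castSucc (Fin.castAdd D i))
  have hTx : ∀ i : Fin r, T (Fin.castSucc (Fin.castAdd D i)) = S.x i := by
    intro i
    rw [hT, Fin.snoc_castSucc, Fr.s, Fin.append_left]
  have hx0 : ∀ i, x i ≠ 0 := fun i => ht0 _
  have hxi : LinearIndependent ℚ fun i => v (x i) := by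
    have h4 : (fun i => v (x i)) = fun i => v (S.x i) := by
      funext i
      rw [← hTx i]
      exact hval _ (by rw [hTx i]; exact S.x_ne i)
    rw [h4]
    exact S.x_ind
  set N : IntermediateField k Ω := kr k (fun i : Fin (r + D) => t i.castSucc) with hN
  have hNz : adj N (t (Fin.last (r + D))) = kr k t := by
    rw [hN, adj_range]
    congr 2
    exact Fin.snoc_init_self t
  refine ⟨N, t (Fin.last (r + D)), ?_, ?_, ?_, ?_⟩
  · exact IntermediateField.fg_adjoin_of_finite (Set.finite_range _)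
  · exact full_of_ind h hx0 hxi fun i => IntermediateField.subset_adjoin _ _
      ⟨Fin.castAdd D i, rfl⟩
  · refine transcendental_kr (hai.comp _ (Fin.castSucc_injective _)) ?_
    have h4 := hai.comp (fun o : Option (Fin (r + D)) => o.elim (Fin.last (r + D)) Fin.castSucc)
      (by
        rintro (_ | i) (_ | j) hij
        · rfl
        · exact absurd hij.symm (Fin.castSucc_lt_last j).ne
        · exact absurd hij (Fin.castSucc_lt_last i).ne
        · exact congrArg some (Fin.castSucc_injective _ hij))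
    convert h4 using 1
    funext o
    rcases o with _ | o
    · rfl
    · rfl
  · rw [hNz]
    exact hhenE

/-- **Row EXITG**, for a purely inseparable extension of degree `p`. -/
theorem exitg' [IsAlgClosed k] [IsAlgClosed Ω] (p : ℕ) [Fact p.Prime] [CharP k p] [CharP Ω p]
    (h : Ctx k v r) (hcv : CompleteV v)
    (hLU : ∀ E : IntermediateField k Ω, E.FG → Full v E → Algebra.trdeg k E = (r + D : ℕ) →
      BD p v E → LU p v r E)
    {K₀ : IntermediateField k Ω} (hK : K₀.FG) (hKf : Full v K₀)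
    (htr : Algebra.trdeg k K₀ = (r + D + 1 : ℕ)) {al : Ω} (hal : al ^ p ∈ K₀)
    (hBD : BD p v (adj K₀ al))
    {F₂ : IntermediateField k Ω} (h1 : F₂.FG) (h2 : Full v F₂)
    (h3 : Algebra.trdeg k F₂ = (r + D : ℕ)) {X₂ g₁ g₂ : Ω} (hg₁ : g₁ ∈ clI v K₀)
    (hg₂ : g₂ ∈ clI v K₀) (hg0 : g₁ ≠ 0)
    (hcl : clI v (adj (clI v K₀) (al * g₁ - g₂)) = clI v (adj F₂ X₂)) :
    HRone v (adj K₀ al) := by
  have hp : 0 < p := (Fact.out : p.Prime).pos
  have halg : IsAlgebraic K₀ al := by
    refine ⟨X ^ p - C (⟨al ^ p, hal⟩ : K₀), X_pow_sub_C_ne_zero hp _, ?_⟩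
    rw [map_sub, map_pow, aeval_X, aeval_C]
    exact sub_self _
  refine exitg p h hcv hLU (D2P.fg_adj hK al)
    (hKf.mono fun a ha => (mem_adj_self K₀ al).2 ha) (by rw [trdeg_adj_alg halg, htr]) hBD
    h1 h2 h3 (X₂ := X₂) ?_
  rw [← hcl]
  have hadj : adj (clI v K₀) al = adj (clI v K₀) (al * g₁ - g₂) := by
    apply le_antisymm
    · refine adj_le (fun a ha => (mem_adj_self _ _).2 ha) ?_
      have h4 : (al * g₁ - g₂ + g₂) / g₁ = al := by
        rw [sub_add_cancel, mul_div_cancel_right₀ _ hg0]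
      have h5 := div_mem (add_mem (mem_adj_self (clI v K₀) (al * g₁ - g₂)).1
        ((mem_adj_self _ (al * g₁ - g₂)).2 hg₂)) ((mem_adj_self _ (al * g₁ - g₂)).2 hg₁)
      rwa [h4] at h5
    · exact adj_le (fun a ha => (mem_adj_self _ _).2 ha)
        (sub_mem (mul_mem (mem_adj_self _ _).1 ((mem_adj_self _ _).2 hg₁))
          ((mem_adj_self _ _).2 hg₂))
  rw [← hadj]
  exact clI_adj_clI.symm

end Pool.Agent.TWJ
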