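import Pool.Agent.Lib.TWJ.Defs
import Pool.Agent.Lib.TWM.A2

/-!
# TANK W: states of small index

* `choice`: a state of index `< p` has at some bigger radius either the constant coefficient or one
  coefficient of index in `[1, p)` as its only dominant coefficient.
-/

set_option autoImplicit false

open Polynomial

namespace Pool.Agent.TWJ

open Pool.Agent.H15JM (RVal)
open Pool.Agent.LU1 (adj)
open Pool.Agent.D2P (clI)
open Pool.Agent.TWM

universe u

variable {k Ω : Type u} [Field k] [Field Ω] [Algebra k Ω] {v : RVal Ω}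
  {F : IntermediateField k Ω} {z : Ω} {r κ : ℝ} {S : ℕ} {A : Polynomial Ω}

/-- `p`-th powers of polynomials have no coefficients prime to `p`. -/
theorem coeff_pow_char' (p : ℕ) [Fact p.Prime] [CharP Ω p] (Q : Polynomial Ω) {j : ℕ}
    (hj : ¬ p ∣ j) : (Q ^ p).coeff j = 0 := by
  have h := map_frobenius_expand Q (p := p)
  rw [← h, coeff_map, coeff_expand (Fact.out : p.Prime).pos, if_neg hj, map_zero]

/-- The coefficients of index `≠ 0` do not change if the constant of `g` is removed. -/
theorem coeff_sub_const (p : ℕ) [Fact p.Prime] [CharP Ω p] (A g : Polynomial Ω) {i : ℕ}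
    (hi : i ≠ 0) : (A - (g - C (g.coeff 0)) ^ p).coeff i = (A - g ^ p).coeff i := by
  rw [sub_pow_char, ← C_pow, coeff_sub, coeff_sub, coeff_sub, coeff_C, if_neg hi, sub_zero]

theorem choice {p : ℕ} [hp : Fact p.Prime] [CharP Ω p] (h : SL p v F z r κ S A) (hS : S < p)
    (hz0 : z ≠ 0) :
    ∃ g ∈ PI F, g.coeff 0 = 0 ∧ ∃ r' : ℝ, r < r' ∧ r' < v z ∧
      ((∃ κ₀ δ : ℝ, 0 < δ ∧ Dst p v F κ₀ (A.coeff 0) ∧
          ∀ i : ℕ, i ≠ 0 → v.Ge (κ₀ + δ - i * r') ((A - g ^ p).coeff i)) ∨
        (∃ j₀ : ℕ, 1 ≤ j₀ ∧ j₀ < p ∧ (A - g ^ p).coeff j₀ ≠ 0 ∧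
          ∀ i : ℕ, i ≠ 0 → i ≠ j₀ →
            Gt v (v ((A - g ^ p).coeff j₀) + j₀ * r' - i * r') ((A - g ^ p).coeff i))) := by
  classical
  have hrz : r < v z := h.gt hz0
  have hsmall : ∀ (g : Polynomial Ω) (i : ℕ), 1 ≤ i → i < p →
      (A - g ^ p).coeff i = A.coeff i := by
    intro g i h1 h2
    rw [coeff_sub, coeff_pow_char' p g (fun hd => absurd (Nat.le_of_dvd h1 hd) (by omega)),
      sub_zero]
  -- the bound for the small coefficients
  have hμ : ∀ i, 1 ≤ i → i < p → v.Ge (κ - i * r) (A.coeff i) := by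
    intro i h1 h2 h3
    refine le_of_forall_pos_le_add fun ε hε => ?_
    obtain ⟨g, -, hg⟩ := h.lo ε hε
    have := hg i
    rw [hsmall g i h1 h2] at this
    have := this h3
    linarith
  -- removal of the constant
  have hclean : ∀ ε : ℝ, 0 < ε → ∃ g ∈ PI F, g.coeff 0 = 0 ∧
      ∀ i : ℕ, i ≠ 0 → v.Ge (κ - ε - i * r) ((A - g ^ p).coeff i) := by
    intro ε hε
    obtain ⟨g, hg, hgb⟩ := h.lo ε hε
    refine ⟨g - C (g.coeff 0), sub_mem hg (fun i => ?_), ?_, fun i hi => ?_⟩
    · rw [coeff_C]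
      split_ifs
      exacts [hg 0, zero_mem F]
    · rw [coeff_sub, coeff_C_zero, sub_self]
    · rw [coeff_sub_const p A g hi]
      exact hgb i
  by_cases hD : Dst p v F κ (A.coeff 0)
  · -- the constant coefficient
    set r' := (r + v z) / 2 with hr'
    have h1 : r < r' := by rw [hr']; linarith
    have h2 : r' < v z := by rw [hr']; linarith
    obtain ⟨g, hg, hg0, hgi⟩ := hclean ((r' - r) / 2) (by linarith)
    refine ⟨g, hg, hg0, r', h1, h2, Or.inl ⟨κ, (r' - r) / 2, by linarith, hD, fun i hi => ?_⟩⟩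
    refine (hgi i hi).mono ?_
    have h3 : (1 : ℝ) ≤ i := by exact_mod_cast Nat.one_le_iff_ne_zero.2 hi
    have h4 : 0 ≤ ((i : ℝ) - 1) * (r' - r) := mul_nonneg (by linarith) (by linarith)
    nlinarith
  · -- another coefficient
    have hlo0 : ∀ ε : ℝ, 0 < ε → ∃ g ∈ F, v.Ge (κ - ε) (A.coeff 0 - g ^ p) := by
      intro ε hε
      obtain ⟨g, hg, hgb⟩ := h.lo ε hε
      refine ⟨g.coeff 0, hg 0, ?_⟩
      have h1 := hgb 0
      rw [coeff_sub, coeff_zero_eq_eval_zero (g ^ p), eval_pow, ← coeff_zero_eq_eval_zero] at h1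
      simpa using h1
    have hex : ∃ e : ℝ, 0 < e ∧ ∃ g ∈ F, v.Ge (κ + e) (A.coeff 0 - g ^ p) := by
      by_contra hno
      push Not at hno
      exact hD ⟨hlo0, fun e he g hg hge => hno e he g hg hge⟩
    obtain ⟨e, he, g₀, hg₀, hge⟩ := hex
    -- some coefficient is responsible
    have hI : ∃ i, 1 ≤ i ∧ i ≤ S ∧ A.coeff i ≠ 0 ∧ v (A.coeff i) + i * r ≤ κ := by
      by_contra hno
      push Not at hno
      obtain ⟨e', he', hle⟩ : ∃ e' : ℝ, 0 < e' ∧ ∀ i, 1 ≤ i → i ≤ S → A.coeff i ≠ 0 →
          κ + e' ≤ v (A.coeff i) + i * r := by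
        have key : ∀ n : ℕ, n ≤ S → ∃ e' : ℝ, 0 < e' ∧ ∀ i, 1 ≤ i → i ≤ n → A.coeff i ≠ 0 →
            κ + e' ≤ v (A.coeff i) + i * r := by
          intro n
          induction n with
          | zero => exact fun _ => ⟨1, one_pos, fun i h1 h2 => absurd h1 (by omega)⟩
          | succ n ih =>
            intro hn
            obtain ⟨e', he', h1⟩ := ih (by omega)
            by_cases h2 : A.coeff (n + 1) = 0
            · refine ⟨e', he', fun i hi1 hi2 hi3 => ?_⟩
              rcases Nat.lt_succ_iff_lt_or_eq.1 (Nat.lt_succ_of_le hi2) with h4 | rfl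
              · exact h1 i hi1 (by omega) hi3
              · exact absurd h2 hi3
            · have h3 := hno (n + 1) (by omega) hn h2
              refine ⟨min e' (v (A.coeff (n + 1)) + (n + 1 : ℕ) * r - κ),
                lt_min he' (by linarith), fun i hi1 hi2 hi3 => ?_⟩
              rcases Nat.lt_succ_iff_lt_or_eq.1 (Nat.lt_succ_of_le hi2) with h4 | rfl
              · have := h1 i hi1 (by omega) hi3
                have := min_le_left e' (v (A.coeff (n + 1)) + (n + 1 : ℕ) * r - κ)
                linarith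
              · have := min_le_right e' (v (A.coeff (n + 1)) + (n + 1 : ℕ) * r - κ)
                linarith
        exact key S le_rfl
      obtain ⟨m, hm, hbad⟩ := h.hi (min e e') (lt_min he he') (C g₀) (fun i => by
        rw [coeff_C]
        split_ifs
        exacts [hg₀, zero_mem F])
      apply hbad
      rcases Nat.eq_zero_or_pos m with rfl | hm0
      · rw [← C_pow, coeff_sub, coeff_C_zero]
        refine hge.mono ?_
        have := min_le_left e e'
        push_cast
        linarith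
      · rw [hsmall (C g₀) m hm0 (by omega)]
        intro h0
        have := hle m hm0 hm h0
        have := min_le_right e e'
        linarith
    obtain ⟨j₀, hj₀, hmin⟩ : ∃ j₀, (1 ≤ j₀ ∧ j₀ ≤ S ∧ A.coeff j₀ ≠ 0 ∧
        v (A.coeff j₀) + j₀ * r ≤ κ) ∧ ∀ i, i < j₀ → ¬ (1 ≤ i ∧ i ≤ S ∧ A.coeff i ≠ 0 ∧
        v (A.coeff i) + i * r ≤ κ) :=
      ⟨Nat.find hI, Nat.find_spec hI, fun i hi => Nat.find_min hI hi⟩
    obtain ⟨hj1, hjS, hj0, hjκ⟩ := hj₀
    have hjκ' : v (A.coeff j₀) + j₀ * r = κ := by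
      have := hμ j₀ hj1 (by omega) hj0
      linarith
    -- the margin
    obtain ⟨η, hη, hηi⟩ : ∃ η : ℝ, 0 < η ∧ ∀ i, 1 ≤ i → i < j₀ → A.coeff i ≠ 0 →
        κ + η ≤ v (A.coeff i) + i * r := by
      have key : ∀ n : ℕ, n ≤ j₀ → ∃ e' : ℝ, 0 < e' ∧ ∀ i, 1 ≤ i → i < n → A.coeff i ≠ 0 →
          κ + e' ≤ v (A.coeff i) + i * r := by
        intro n
        induction n with
        | zero => exact fun _ => ⟨1, one_pos, fun i h1 h2 => absurd h2 (by omega)⟩
        | succ n ih =>
          intro hn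
          obtain ⟨e', he', h1⟩ := ih (by omega)
          by_cases h2 : A.coeff n = 0 ∨ n = 0
          · refine ⟨e', he', fun i hi1 hi2 hi3 => ?_⟩
            rcases Nat.lt_succ_iff_lt_or_eq.1 hi2 with h4 | rfl
            · exact h1 i hi1 h4 hi3
            · rcases h2 with h2 | h2
              · exact absurd h2 hi3
              · omega
          · push Not at h2
            have h3 : κ < v (A.coeff n) + n * r := by
              by_contra hc
              push Not at hc
              exact hmin n (by omega) ⟨by omega, by omega, h2.1, hc⟩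
            refine ⟨min e' (v (A.coeff n) + n * r - κ), lt_min he' (by linarith),
              fun i hi1 hi2 hi3 => ?_⟩
            rcases Nat.lt_succ_iff_lt_or_eq.1 hi2 with h4 | rfl
            · have := h1 i hi1 h4 hi3
              have := min_le_left e' (v (A.coeff n) + n * r - κ)
              linarith
            · have := min_le_right e' (v (A.coeff i) + i * r - κ)
              linarith
      exact key j₀ le_rfl
    have hp0 : (0 : ℝ) < p := by exact_mod_cast hp.out.pos
    set d := min ((v z - r) / 2) (η / (2 * p)) with hd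
    have hd0 : 0 < d := lt_min (by linarith) (by positivity)
    have hd1 : d ≤ (v z - r) / 2 := min_le_left _ _
    have hd2 : d ≤ η / (2 * p) := min_le_right _ _
    obtain ⟨g, hg, hg0, hgi⟩ := hclean (d / 2) (by linarith)
    refine ⟨g, hg, hg0, r + d, by linarith, by linarith, Or.inr ⟨j₀, hj1, by omega, ?_, ?_⟩⟩
    · rw [hsmall g j₀ hj1 (by omega)]
      exact hj0
    · intro i hi hij
      rw [hsmall g j₀ hj1 (by omega)]
      have hv : v (A.coeff j₀) = κ - j₀ * r := by linarith
      rw [hv]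
      rcases Nat.lt_or_gt_of_ne hij with h1 | h1
      · have hi1 : 1 ≤ i := Nat.one_le_iff_ne_zero.2 hi
        rw [hsmall g i hi1 (by omega)]
        intro h0
        have h2 := hηi i hi1 h1 h0
        have h3 : (j₀ : ℝ) * d ≤ p * d :=
          mul_le_mul_of_nonneg_right (by exact_mod_cast (by omega : j₀ ≤ p)) hd0.le
        have h4 : (p : ℝ) * d ≤ p * (η / (2 * p)) := mul_le_mul_of_nonneg_left hd2 hp0.le
        have h5 : (p : ℝ) * (η / (2 * p)) = η / 2 := by field_simp
        have h6 : 0 ≤ (i : ℝ) * d := by positivity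
        rw [h5] at h4
        nlinarith
      · refine Gt.of_ge (hgi i hi) ?_
        have h2 : (j₀ : ℝ) + 1 ≤ i := by exact_mod_cast h1
        have h3 : 0 ≤ ((i : ℝ) - (j₀ + 1)) * d := mul_nonneg (by linarith) hd0.le
        nlinarith

end Pool.Agent.TWJ
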