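import Pool.Agent.Lib.TWJ.ST
import Pool.Agent.Lib.TWJ.XC
import Pool.Agent.Lib.TWJ.EXG

/-!
# TANK W, SEC1: the normal form of a purely inseparable extension which is not henselian rational

* `exit_small`: a state of index `< p` gives `HRone`;
* `sec1`: if `K₀(al)` is not henselian rational, there is a `Seed`.
-/

set_option autoImplicit false

open Polynomial

namespace Pool.Agent.TWJ

open Pool.Agent.H15JM (RVal)
open Pool.Agent.LU1 (adj)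
open Pool.Agent.D2 (Ctx0)
open Pool.Agent.D2P (clI mem_clI adj_le mem_adj_self)
open Pool.Agent.TW (Ctx Full BD Fr LU HRone Dns)
open Pool.Agent.TWM

universe u

variable {k Ω : Type u} [Field k] [Field Ω] [Algebra k Ω] {v : RVal Ω} {r D : ℕ}

/-- The exit for the index `0`, as a hypothesis. -/
def ExitZero (p : ℕ) (v : RVal Ω) (k : Type u) [Field k] [Algebra k Ω] (r D : ℕ) : Prop :=
  ∀ {F : IntermediateField k Ω}, F.FG → Full v F → BD p v F →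
    Algebra.trdeg k F = (r + D : ℕ) → Dns v F → ∀ {z : Ω}, Transcendental F z →
    ∀ {r' κ₀ δ : ℝ}, r' < v z → ∀ {A : Polynomial Ω}, A ∈ PI F → Dst p v F κ₀ (A.coeff 0) →
    0 < δ → (∀ i : ℕ, i ≠ 0 → v.Ge (κ₀ + δ - i * r') (A.coeff i)) → ∀ {γ : Ω},
    γ ^ p = A.eval z → ∃ (F₂ : IntermediateField k Ω) (X₂ : Ω), F₂.FG ∧ Full v F₂ ∧
      Algebra.trdeg k F₂ = (r + D : ℕ) ∧ clI v (adj F₂ X₂) = clI v (adj (adj F z) γ)

/-- The tame exit, as a hypothesis. -/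
def ExitTame (p : ℕ) (v : RVal Ω) (k : Type u) [Field k] [Algebra k Ω] (r D : ℕ) : Prop :=
  ∀ {F : IntermediateField k Ω}, F.FG → Full v F → BD p v F →
    Algebra.trdeg k F = (r + D : ℕ) → Dns v F → ∀ {z : Ω}, Transcendental F z →
    ∀ {r' : ℝ}, r' < v z → ∀ {A : Polynomial Ω}, A ∈ PI F → ∀ {j₀ : ℕ}, 1 ≤ j₀ → j₀ < p →
    A.coeff j₀ ≠ 0 → (∀ i : ℕ, i ≠ 0 → i ≠ j₀ →
      Gt v (v (A.coeff j₀) + j₀ * r' - i * r') (A.coeff i)) → ∀ {γ : Ω},
    γ ^ p = A.eval z → ∃ (F₂ : IntermediateField k Ω) (X₂ : Ω), F₂.FG ∧ Full v F₂ ∧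
      Algebra.trdeg k F₂ = (r + D : ℕ) ∧ clI v (adj F₂ X₂) = clI v (adj (adj F z) γ)

/-- The exact jump, as a hypothesis. -/
def JumpExact (p : ℕ) (v : RVal Ω) (r D : ℕ) (K : IntermediateField k Ω) (a : Ω) : Prop :=
  ∀ (F : IntermediateField k Ω) (z : Ω) (r₀ κ : ℝ) (S : ℕ) (A : Polynomial Ω),
    Stt p v r D K a F z r₀ κ S A → Dns v F → p ≤ S → (∀ s, ¬ TL v F z s) →
    ∃ (F' : IntermediateField k Ω) (z' : Ω) (r' κ' : ℝ) (S' : ℕ) (A' : Polynomial Ω),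
      S' < S ∧ Stt p v r D K a F' z' r' κ' S' A'

theorem eval_mem_adj {F : IntermediateField k Ω} {z : Ω} {f : Polynomial Ω} (hf : f ∈ PI F) :
    f.eval z ∈ adj F z := by
  rw [eval_eq_sum_range]
  exact sum_mem fun i _ => mul_mem ((mem_adj_self F z).2 (hf i)) (pow_mem (mem_adj_self F z).1 i)

/-- **A state of index `< p` gives `HRone`.** -/
theorem exit_small [IsAlgClosed k] [IsAlgClosed Ω] (p : ℕ) [Fact p.Prime] [CharP k p] [CharP Ω p]
    (h : Ctx k v r) (hcv : CompleteV v)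
    (hLU : ∀ E : IntermediateField k Ω, E.FG → Full v E → Algebra.trdeg k E = (r + D : ℕ) →
      BD p v E → LU p v r E)
    (hX0 : ExitZero p v k r D) (hX1 : ExitTame p v k r D)
    {K₀ : IntermediateField k Ω} (hK : K₀.FG) (hKf : Full v K₀)
    (htr : Algebra.trdeg k K₀ = (r + D + 1 : ℕ)) {al : Ω} (hal : al ^ p ∈ K₀)
    (hBD : BD p v (adj K₀ al)) {F : IntermediateField k Ω} {z : Ω} {ρ κ : ℝ} {S : ℕ}
    {A : Polynomial Ω} (hs : Stt p v r D (clI v K₀) (al ^ p) F z ρ κ S A) (hd : Dns v F)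
    (hS : S < p) : HRone v (adj K₀ al) := by
  have hz0 : z ≠ 0 := by
    rintro rfl
    exact hs.tz isAlgebraic_zero
  obtain ⟨g, hg, hg0, r', hr1, hr2, hcase⟩ := choice hs.sl hS hz0
  obtain ⟨b, hb, hb0, c, hc, hrep⟩ := hs.rep
  have hAg : A - g ^ p ∈ PI F := sub_mem hs.sl.mem (pow_mem hg p)
  have hzK : z ∈ clI v K₀ := by
    rw [hs.cl]
    exact le_clI _ (mem_adj_self F z).1
  have hgK : g.eval z ∈ clI v K₀ := by
    rw [hs.cl]
    exact le_clI _ (eval_mem_adj hg)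
  have hγ : (al * b - (c + g.eval z)) ^ p = (A - g ^ p).eval z := by
    rw [sub_pow_char, add_pow_char, mul_pow, eval_sub, eval_pow, ← hrep]
    ring
  have hex : ∃ (F₂ : IntermediateField k Ω) (X₂ : Ω), F₂.FG ∧ Full v F₂ ∧
      Algebra.trdeg k F₂ = (r + D : ℕ) ∧
      clI v (adj F₂ X₂) = clI v (adj (adj F z) (al * b - (c + g.eval z))) := by
    rcases hcase with ⟨κ₀, δ, h1, h2, h3⟩ | ⟨j₀, h1, h2, h3, h4⟩
    · refine hX0 hs.fg hs.full hs.bd hs.tr hd hs.tz hr2 hAg (κ₀ := κ₀) ?_ h1 h3 hγ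
      rw [coeff_sub, coeff_pow_ite, if_pos (dvd_zero p), Nat.zero_div, hg0,
        zero_pow (Fact.out : p.Prime).ne_zero, sub_zero]
      exact h2
    · exact hX1 hs.fg hs.full hs.bd hs.tr hd hs.tz hr2 hAg h1 h2 h3 h4 hγ
  obtain ⟨F₂, X₂, h1, h2, h3, h4⟩ := hex
  refine exitg' p h hcv hLU hK hKf htr hal hBD h1 h2 h3 (X₂ := X₂) hb (add_mem hc hgK) hb0 ?_
  rw [h4, hs.cl]
  exact clI_adj_clI

/-- **SEC1.** -/
theorem sec1 [IsAlgClosed k] [IsAlgClosed Ω] (p : ℕ) [hp : Fact p.Prime] [CharP k p] [CharP Ω p]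
    (h : Ctx k v r) (hcv : CompleteV v)
    (hLU : ∀ E : IntermediateField k Ω, E.FG → Full v E → Algebra.trdeg k E = (r + D : ℕ) →
      BD p v E → LU p v r E)
    (hDn : ∀ E : IntermediateField k Ω, E.FG → Full v E → Algebra.trdeg k E = (r + D : ℕ) →
      BD p v E → Dns v E)
    (hX0 : ExitZero p v k r D) (hX1 : ExitTame p v k r D)
    {K₀ : IntermediateField k Ω} (hK : K₀.FG) (hKf : Full v K₀)
    (htr : Algebra.trdeg k K₀ = (r + D + 1 : ℕ)) {al : Ω} (hal : al ^ p ∈ K₀)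
    (hBD : BD p v (adj K₀ al)) (hJ : JumpExact p v r D (clI v K₀) (al ^ p))
    (h0 : ∃ (F : IntermediateField k Ω) (z : Ω) (ρ κ : ℝ) (S : ℕ) (A : Polynomial Ω),
      Stt p v r D (clI v K₀) (al ^ p) F z ρ κ S A)
    (hno : ¬ HRone v (adj K₀ al)) :
    ∃ q : ℕ, p ∣ q ∧ 0 < q ∧ MinS p v r D (clI v K₀) (al ^ p) q ∧
      ∃ (F : IntermediateField k Ω) (z : Ω) (s Dq e₀ c₀ : ℝ) (A : Polynomial Ω),
        Seed p v r D (clI v K₀) (al ^ p) q F z s Dq e₀ c₀ A := by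
  classical
  have hex : ∃ S : ℕ, ∃ (F : IntermediateField k Ω) (z : Ω) (ρ κ : ℝ) (A : Polynomial Ω),
      Stt p v r D (clI v K₀) (al ^ p) F z ρ κ S A := by
    obtain ⟨F, z, ρ, κ, S, A, h1⟩ := h0
    exact ⟨S, F, z, ρ, κ, A, h1⟩
  set q := Nat.find hex with hq
  obtain ⟨F, z, ρ, κ, A, hs⟩ := Nat.find_spec hex
  rw [← hq] at hs
  have hmin : MinS p v r D (clI v K₀) (al ^ p) q := fun F z ρ κ S A h1 =>
    Nat.find_min' hex ⟨F, z, ρ, κ, A, h1⟩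
  have hd := hDn F hs.fg hs.full hs.tr hs.bd
  have hpq : p ≤ q := by
    by_contra hlt
    exact hno (exit_small p h hcv hLU hX0 hX1 hK hKf htr hal hBD hs hd (not_le.1 hlt))
  have hq2 : 2 ≤ q := hp.out.two_le.trans hpq
  by_cases hT : ∃ s, TL v F z s
  · obtain ⟨s, hT⟩ := hT
    obtain ⟨h1, Dq, e₀, c₀, A₁, h2⟩ := hs.seed hmin hq2 hT
    exact ⟨q, h1, by omega, hmin, F, z, s, Dq, e₀, c₀, A₁, h2⟩
  · push Not at hT
    obtain ⟨F', z', r', κ', S', A', h1, h2⟩ := hJ F z ρ κ q A hs hd hpq hT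
    have h3 := hmin F' z' r' κ' S' A' h2
    omega

end Pool.Agent.TWJ
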