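import Pool.Agent.Lib.TWJ.X0ha
import Pool.Agent.Lib.TWJ.EXG
import Pool.Agent.Lib.TWM.D1
import Pool.Agent.Lib.TWJ.SEC

/-!
# TANK W, SEC1, row X0: the exit of index zero
-/

set_option autoImplicit false

open Polynomial

namespace Pool.Agent.TWJ

open Pool.Agent.H15JM (RVal)
open Pool.Agent.LU1 (adj)
open Pool.Agent.D2 (Ctx0)
open Pool.Agent.D2P (hen clI mem_clI mem_adj_self adj_le)
open Pool.Agent.LUC (Cl)
open Pool.Agent.TW
open Pool.Agent.TWM (PI Gt clI_mono le_clI cld_clI clI_hen)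

universe u

variable {k Ω : Type u} [Field k] [Field Ω] [Algebra k Ω] {v : RVal Ω}

namespace X0h

section

variable {F : IntermediateField k Ω} {z η : Ω} {ρ b₁ b : ℝ}

theorem GN_C {c : ℝ} {a : F} (ha : v.Ge c (a : Ω)) : GN v F η b c (C a) := by
  intro j
  rw [tc, Polynomial.map_C, taylor_C, coeff_C]
  split_ifs with hj
  · subst hj
    refine ha.mono ?_
    simp
  · exact RVal.Ge.zero

theorem GN_X : GN v F η b (min (v η) b) (X : F[X]) := by
  intro j
  rw [tc, Polynomial.map_X, taylor_X, coeff_add, coeff_X, coeff_C]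
  by_cases h0 : j = 0
  · subst h0
    rw [if_neg (by norm_num), if_pos rfl, zero_add]
    refine RVal.Ge.of_le ?_
    have := min_le_left (v η) b
    push_cast
    linarith
  · by_cases h1 : j = 1
    · subst h1
      rw [if_pos rfl, if_neg (by norm_num), add_zero]
      refine RVal.Ge.of_le ?_
      rw [v.map_one]
      have := min_le_right (v η) b
      push_cast
      linarith
    · rw [if_neg (fun h2 => h1 h2.symm), if_neg h0, add_zero]
      exact RVal.Ge.zero

end

/-- The contraction. -/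
theorem mem_of_contr {E : IntermediateField k Ω} {X z : Ω} {n : ℕ} (c : ℕ → Ω) {g r' : ℝ}
    (hg : 0 < g) (hz0 : z ≠ 0) (hr : r' < v z) (hX : v.Ge 0 X)
    (hsum : X = ∑ j ∈ Finset.range n, c j * z ^ j)
    (hrep : ∀ j < n, ∀ N : ℝ, ∃ B ∈ PI E, (∀ i, v.Ge (g - j * r') (B.coeff i)) ∧
      v.Ge N (c j - B.eval X)) : X ∈ clI v (adj E z) := by
  classical
  have hzE := mem_adj_self E z
  have key : ∀ m : ℕ, ∃ y ∈ adj E z, v.Ge (m * g) (X - y) ∧ v.Ge 0 y := by
    intro m
    induction m with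
    | zero =>
      refine ⟨0, zero_mem _, ?_, RVal.Ge.zero⟩
      rw [sub_zero, Nat.cast_zero, zero_mul]
      exact hX
    | succ m ih =>
      obtain ⟨y, hy, h1, h2⟩ := ih
      have h3 : ∀ j : ℕ, ∃ B : Polynomial Ω, j < n → (B ∈ PI E ∧
          (∀ i, v.Ge (g - j * r') (B.coeff i)) ∧
          v.Ge ((m + 1 : ℕ) * g - j * v z) (c j - B.eval X)) := by
        intro j
        by_cases hj : j < n
        · obtain ⟨B, hB, h4, h5⟩ := hrep j hj ((m + 1 : ℕ) * g - j * v z)
          exact ⟨B, fun _ => ⟨hB, h4, h5⟩⟩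
        · exact ⟨0, fun h => absurd h hj⟩
      choose B hB using h3
      have hzp : ∀ j : ℕ, v.Ge (j * v z) (z ^ j) := fun j => RVal.Ge.of_le (by
        rw [v.map_pow hz0])
      have hge : v.Ge ((m + 1 : ℕ) * g) (X - ∑ j ∈ Finset.range n, (B j).eval y * z ^ j) := by
        have e1 : X - ∑ j ∈ Finset.range n, (B j).eval y * z ^ j =
            ∑ j ∈ Finset.range n, ((c j - (B j).eval X) * z ^ j +
              ((B j).eval X - (B j).eval y) * z ^ j) := by
          have e2 : X - ∑ j ∈ Finset.range n, (B j).eval y * z ^ j =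
              (∑ j ∈ Finset.range n, c j * z ^ j) -
                ∑ j ∈ Finset.range n, (B j).eval y * z ^ j := by rw [← hsum]
          rw [e2, ← Finset.sum_sub_distrib]
          refine Finset.sum_congr rfl fun j _ => ?_
          ring
        rw [e1]
        refine RVal.Ge.sum _ _ fun j hj => RVal.Ge.add ?_ ?_
        · obtain ⟨-, -, h5⟩ := hB j (Finset.mem_range.1 hj)
          refine (h5.mul (hzp j)).mono (le_of_eq ?_)
          ring
        · obtain ⟨-, h4, -⟩ := hB j (Finset.mem_range.1 hj)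
          refine ((ge_eval_sub h4 hX h2 h1).mul (hzp j)).mono ?_
          have h6 : (0 : ℝ) ≤ j * (v z - r') := mul_nonneg (Nat.cast_nonneg j) (by linarith)
          push_cast
          nlinarith
      refine ⟨_, sum_mem fun j hj => mul_mem ?_ (pow_mem hzE.1 j), hge, ?_⟩
      · rw [eval_eq_sum_range]
        exact sum_mem fun i _ => mul_mem (hzE.2 ((hB j (Finset.mem_range.1 hj)).1 i))
          (pow_mem hy i)
      · have h6 := hX.sub (hge.mono (by positivity : (0 : ℝ) ≤ (m + 1 : ℕ) * g))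
        rwa [sub_sub_cancel] at h6
  refine mem_clI.2 fun N => ?_
  obtain ⟨m, hm⟩ := exists_nat_gt (N / g)
  obtain ⟨y, hy, h1, -⟩ := key m
  refine ⟨y, hy, h1.mono ?_⟩
  rw [div_lt_iff₀ hg] at hm
  exact hm.le

end X0h

open X0h

/-- The exit of index zero. -/
theorem exit_zero_h [IsAlgClosed k] [IsAlgClosed Ω] (p : ℕ) [hp : Fact p.Prime] [CharP k p]
    [CharP Ω p] {r D : ℕ} (h : Ctx k v r) {F : IntermediateField k Ω} (hF : F.FG)
    (hfull : Full v F) (hBD : BD p v F) (htr : Algebra.trdeg k F = (r + D : ℕ))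
    (hLU : ∀ E : IntermediateField k Ω, E.FG → Full v E →
      Algebra.trdeg k E = (r + D : ℕ) → BD p v E → LU p v r E)
    (hdn : Dns v F) {z : Ω} (hz : Transcendental F z) {r' κ₀ δ : ℝ} (hr : r' < v z)
    {A : Polynomial Ω} (hA : A ∈ PI F) (hdst : Dst p v F κ₀ (A.coeff 0)) (hδ : 0 < δ)
    (hE : ∀ i : ℕ, i ≠ 0 → v.Ge (κ₀ + δ - i * r') (A.coeff i)) {γ : Ω}
    (hγ : γ ^ p = A.eval z) :
    ∃ (F₂ : IntermediateField k Ω) (X₂ : Ω), F₂.FG ∧ Full v F₂ ∧
      Algebra.trdeg k F₂ = (r + D : ℕ) ∧ clI v (adj F₂ X₂) = clI v (adj (adj F z) γ) := by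
  classical
  have hp0 := hp.out.pos
  have hpR : (0 : ℝ) < p := by exact_mod_cast hp0
  have hp2 : (2 : ℝ) ≤ p := by exact_mod_cast hp.out.two_le
  have hz0 : z ≠ 0 := by
    rintro rfl
    exact hz isAlgebraic_zero
  set f₀ := A.coeff 0 with hf₀
  have hf₀F : f₀ ∈ F := hA 0
  obtain ⟨γ₀, hγ₀⟩ := IsAlgClosed.exists_pow_nat_eq f₀ hp0
  -- the distance of `γ₀`
  have hs : ∀ θ ∈ F, γ₀ - θ ≠ 0 ∧ v (γ₀ - θ) ≤ κ₀ / p := by
    intro θ hθ
    have e1 : (γ₀ - θ) ^ p = f₀ - θ ^ p := by rw [sub_pow_char, hγ₀]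
    have hne : γ₀ - θ ≠ 0 := by
      intro h0
      refine hdst.hi 1 one_pos θ hθ ?_
      rw [← e1, h0, zero_pow hp.out.ne_zero]
      exact RVal.Ge.zero
    refine ⟨hne, ?_⟩
    by_contra hcon
    push Not at hcon
    have h1 : κ₀ < p * v (γ₀ - θ) := by
      rw [div_lt_iff₀ hpR] at hcon
      linarith
    refine hdst.hi (p * v (γ₀ - θ) - κ₀) (by linarith) θ hθ ?_
    rw [← e1]
    refine RVal.Ge.of_le ?_
    rw [v.map_pow hne]
    linarith
  have hγ₀0 : γ₀ ≠ 0 := by
    have := (hs 0 F.zero_mem).1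
    rwa [sub_zero] at this
  have hγ₀a : IsAlgebraic F γ₀ := by
    refine ⟨X ^ p - C (⟨f₀, hf₀F⟩ : F), X_pow_sub_C_ne_zero hp0 _, ?_⟩
    rw [_root_.map_sub, _root_.map_pow, aeval_X, aeval_C, hγ₀]
    exact sub_self _
  by_cases hconst : ∀ i : ℕ, i ≠ 0 → A.coeff i = 0
  · -- the constant case
    have hA0 : A = C f₀ := by
      ext i
      rw [coeff_C]
      split_ifs with hi
      · rw [hi]
      · exact hconst i hi
    have hγe : γ = γ₀ := by
      have h1 : γ ^ p = γ₀ ^ p := by rw [hγ, hγ₀, hA0, eval_C]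
      exact frobenius_inj Ω p h1
    refine ⟨adj F γ, z, D2P.fg_adj hF γ, ?_, ?_, ?_⟩
    · intro g hg
      obtain ⟨m, hm, c, hc, hc0, hcv⟩ := hfull g hg
      exact ⟨m, hm, c, (mem_adj_self F γ).2 hc, hc0, hcv⟩
    · rw [hγe, trdeg_adj_alg hγ₀a, htr]
    · congr 1
      exact sup_right_comm F _ _
  -- `γ` is transcendental
  push Not at hconst
  obtain ⟨i₁, hi₁, hAi₁⟩ := hconst
  have hγtr : Transcendental F γ := by
    intro halg
    obtain ⟨A₀, hA₀⟩ := exists_lift hA
    have h1 : IsAlgebraic F (aeval z A₀) := by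
      rw [← eval_map_algebraMap, hA₀, ← hγ]
      exact halg.pow p
    refine hz (IsAlgebraic.of_aeval A₀ ?_ ?_ h1)
    · intro h2
      apply hAi₁
      rw [← hA₀, coeff_map, coeff_eq_zero_of_natDegree_lt (by omega), _root_.map_zero]
    · rw [mem_nonZeroDivisors_iff_ne_zero, leadingCoeff_ne_zero]
      rintro rfl
      apply hAi₁
      rw [← hA₀, Polynomial.map_zero, coeff_zero]
  have he0 : γ - γ₀ ≠ 0 := by
    intro h1
    exact hγtr (by rw [sub_eq_zero.1 h1]; exact hγ₀a)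
  -- the value of `e = γ - γ₀`
  have hev : (κ₀ + δ) / p ≤ v (γ - γ₀) := by
    have e1 : (γ - γ₀) ^ p = ∑ i ∈ Finset.range A.natDegree, A.coeff (i + 1) * z ^ (i + 1) := by
      rw [sub_pow_char, hγ, hγ₀, eval_eq_sum_range, Finset.sum_range_succ']
      rw [pow_zero, mul_one]
      exact add_sub_cancel_right _ _
    have h1 : v.Ge (κ₀ + δ) ((γ - γ₀) ^ p) := by
      rw [e1]
      refine RVal.Ge.sum _ _ fun i _ => ?_
      have h2 : v.Ge (((i + 1 : ℕ) : ℝ) * v z) (z ^ (i + 1)) := RVal.Ge.of_le (by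
        rw [v.map_pow hz0])
      refine ((hE (i + 1) (Nat.succ_ne_zero i)).mul h2).mono ?_
      have h3 : (0 : ℝ) ≤ ((i + 1 : ℕ) : ℝ) * (v z - r') :=
        mul_nonneg (Nat.cast_nonneg _) (by linarith)
      nlinarith
    have h2 := h1 (pow_ne_zero p he0)
    rw [v.map_pow he0] at h2
    rw [div_le_iff₀ hpR]
    linarith
  have hse : κ₀ / p < v (γ - γ₀) := lt_of_lt_of_le (by
    rw [div_lt_div_iff_of_pos_right hpR]
    linarith) hev
  -- the radius `b`
  obtain ⟨π, hπ, hπ0, hb1, hb2⟩ := hdn (κ₀ / p) (min (κ₀ / p + δ / (2 * p)) (v (γ - γ₀)))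
    (lt_min (by have : 0 < δ / (2 * p) := by positivity
                linarith) hse)
  have hb3 := lt_of_lt_of_le hb2 (min_le_left _ _)
  have hb4 := lt_of_lt_of_le hb2 (min_le_right _ _)
  set b := v π with hb
  have hpb : p * b < κ₀ + δ / 2 := by
    have h1 : p * b < p * (κ₀ / p + δ / (2 * p)) := mul_lt_mul_of_pos_left hb3 hpR
    have h2 : (p : ℝ) * (κ₀ / p + δ / (2 * p)) = κ₀ + δ / 2 := by field_simp
    linarith
  -- the small constant
  set Bd : ℝ := max (max ((p - 1) * v γ₀) (p * v (γ - γ₀) - v γ₀))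
    (p * b - min (v γ₀) b + δ) with hBd
  obtain ⟨ε, hεF, hε0, hε1, -⟩ := hdn Bd (Bd + 1) (by linarith)
  have hεa : (p - 1) * v γ₀ < v ε := ((le_max_left _ _).trans (le_max_left _ _)).trans_lt hε1
  have hεb : p * v (γ - γ₀) - v γ₀ < v ε :=
    ((le_max_right _ _).trans (le_max_left _ _)).trans_lt hε1
  have hεc : p * b - min (v γ₀) b + δ < v ε := (le_max_right _ _).trans_lt hε1
  -- the centre
  set Q : F[X] := X ^ p + (C (⟨ε, hεF⟩ : F) * X - C (⟨f₀, hf₀F⟩ : F)) with hQ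
  have hlow : (C (⟨ε, hεF⟩ : F) * X - C (⟨f₀, hf₀F⟩ : F)).degree < (p : WithBot ℕ) := by
    have h1 : C (⟨ε, hεF⟩ : F) * X - C (⟨f₀, hf₀F⟩ : F) =
        C (⟨ε, hεF⟩ : F) * X + C (-(⟨f₀, hf₀F⟩ : F)) := by rw [C_neg, sub_eq_add_neg]
    rw [h1]
    exact degree_linear_le.trans_lt (by exact_mod_cast hp.out.one_lt)
  have hQm : Q.Monic := monic_X_pow_add hlow
  have hQd : Q.natDegree = p := by
    rw [hQ, natDegree_add_eq_left_of_degree_lt, natDegree_X_pow]
    rwa [degree_X_pow]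
  obtain ⟨η, hη⟩ := IsAlgClosed.exists_aeval_eq_zero Ω Q (by
    rw [degree_eq_natDegree hQm.ne_zero, hQd]
    exact_mod_cast hp.out.ne_zero)
  have hηe : η ^ p - f₀ = -(ε * η) := by
    rw [hQ, _root_.map_add, _root_.map_sub, _root_.map_mul, _root_.map_pow, aeval_X, aeval_C,
      aeval_C] at hη
    change η ^ p + (ε * η - f₀) = 0 at hη
    linear_combination hη
  have hη0 : η ≠ 0 := by
    rintro rfl
    rw [zero_pow hp.out.ne_zero, mul_zero, neg_zero, zero_sub, neg_eq_zero] at hηe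
    exact hγ₀0 (pow_eq_zero_iff hp.out.ne_zero |>.1 (hγ₀.trans hηe))
  have hηp : (η - γ₀) ^ p = -(ε * η) := by rw [sub_pow_char, hγ₀, hηe]
  have hεη : ε * η ≠ 0 := mul_ne_zero hε0 hη0
  have hηγ0 : η - γ₀ ≠ 0 := by
    intro h1
    rw [h1, zero_pow hp.out.ne_zero] at hηp
    exact hεη (neg_eq_zero.1 hηp.symm)
  have hηv : p * v (η - γ₀) = v ε + v η := by
    rw [← v.map_pow hηγ0, hηp, v.map_neg _ hεη, v.map_mul hε0 hη0]
  have hηγ : v γ₀ ≤ v η := by
    by_contra hcon
    push Not at hcon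
    have h1 := v.add_of_lt hη0 (neg_ne_zero.2 hγ₀0) (by rwa [v.map_neg _ hγ₀0])
    rw [← sub_eq_add_neg] at h1
    rw [h1.2] at hηv
    have h2 : ((p : ℝ) - 1) * v η < (p - 1) * v γ₀ :=
      mul_lt_mul_of_pos_left hcon (by linarith)
    nlinarith
  have hηfar : v (γ - γ₀) < v (η - γ₀) := by
    have h1 : p * v (γ - γ₀) < p * v (η - γ₀) := by rw [hηv]; linarith
    exact lt_of_mul_lt_mul_left h1 hpR.le
  have hγη : γ - η ≠ 0 ∧ v (γ - η) = v (γ - γ₀) := by
    have h1 := v.add_of_lt he0 (neg_ne_zero.2 hηγ0) (by rwa [v.map_neg _ hηγ0])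
    rwa [show γ - γ₀ + -(η - γ₀) = γ - η by ring] at h1
  have hηa : IsAlgebraic F η := ⟨Q, hQm.ne_zero, hη⟩
  have hdeg : ∀ α : Ω, IsAlgebraic F α → κ₀ / p < v (γ - α) → p ≤ (minpoly F α).natDegree :=
    fun α hα hαv => deg_ge p h.toCtx0 hdn hγtr hf₀F hγ₀ hs he0 hse hα hαv
  have hmp : minpoly F η = Q := by
    refine (eq_of_monic_of_dvd_of_natDegree_le (minpoly.monic hηa.isIntegral) hQm
      (minpoly.dvd F η hη) ?_).symm
    rw [hQd]
    exact hdeg η hηa (by rw [hγη.2]; exact hse)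
  have hmin : IsMin v F γ η (κ₀ / p) := by
    refine ⟨?_, by rw [hγη.2]; exact hse, fun α hα hαv => ?_⟩
    · refine (separable_iff_derivative_ne_zero (minpoly.irreducible hηa.isIntegral)).mpr ?_
      rw [hmp, hQ, derivative_add, derivative_sub, derivative_C_mul_X, derivative_C, sub_zero,
        derivative_X_pow, (CharP.cast_eq_zero_iff F p p).2 dvd_rfl, C_0, zero_mul, zero_add]
      exact C_ne_zero.mpr fun h1 => hε0 (congrArg Subtype.val h1)
    · rw [hmp, hQd]
      exact hdeg α hα hαv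
  obtain ⟨b₁, ε', ⟨d⟩⟩ := exists_SD p h hF hfull hBD htr hLU hdn
    (cen_of_min hγtr hmin hπ hπ0 hb1 (by rw [hγη.2]; exact hb4))
  have hγne : γ ≠ η := sub_ne_zero.1 hγη.1
  have hbγ : b < v (γ - η) := by rw [hγη.2]; exact hb4
  -- the value of `q`
  have hq : v d.q ≤ p * b := by
    have hdeg' : (taylor η ((minpoly F η).map (algebraMap F Ω))).natDegree = p := by
      rw [natDegree_taylor, hmp, hQm.natDegree_map, hQd]
    have htop : tc F η (minpoly F η) p = 1 := by
      rw [tc, ← hdeg', natDegree_taylor, coeff_taylor_natDegree, hmp]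
      exact hQm.map _
    have h1 := d.q_val.1 p
    rw [htop] at h1
    have h2 := h1 one_ne_zero
    rw [v.map_one] at h2
    linarith
  -- the coefficients
  set c : ℕ → Ω := fun j => (if j = 0 then ε * γ else A.coeff j) * d.q⁻¹ with hc
  have hXsum : d.X = ∑ j ∈ Finset.range (A.natDegree + 1), c j * z ^ j := by
    have h1 : ∑ j ∈ Finset.range (A.natDegree + 1), c j * z ^ j =
        (A.eval z - f₀ + ε * γ) * d.q⁻¹ := by
      rw [eval_eq_sum_range, Finset.sum_range_succ', Finset.sum_range_succ', pow_zero, mul_one,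
        mul_one, ← hf₀, add_sub_cancel_right, add_mul, Finset.sum_mul]
      congr 1
      refine Finset.sum_congr rfl fun j _ => ?_
      simp only [hc, if_neg (Nat.succ_ne_zero j)]
      ring
    rw [h1, SD.X, hmp, hQ, _root_.map_add, _root_.map_sub, _root_.map_mul, _root_.map_pow,
      aeval_X, aeval_C, aeval_C, hγ, div_eq_mul_inv]
    change (A.eval z + (ε * γ - f₀)) * d.q⁻¹ = _
    ring
  have hqinv : Reg v F γ η b₁ b (-v d.q) d.q⁻¹ := by
    have h1 := reg_mem' h d le_rfl (inv_mem d.q_mem) (inv_ne_zero d.q_ne)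
    rwa [v.map_inv d.q_ne] at h1
  have hcreg : ∀ j : ℕ, Reg v F γ η b₁ b (δ / 2 - j * r') (c j) := by
    intro j
    by_cases hj : j = 0
    · subst hj
      simp only [hc]
      have h1 : Reg v F γ η b₁ b (v ε) ε := by
        have h2 := Reg.of_GN (z := γ) (b₁ := b₁) (GN_C (v := v) (η := η) (b := b)
          (a := (⟨ε, hεF⟩ : F)) (c := v ε) (fun _ => le_rfl))
        rwa [aeval_C] at h2
      have h2 : Reg v F γ η b₁ b (min (v η) b) γ := by
        have h3 := Reg.of_GN (z := γ) (b₁ := b₁) (GN_X (v := v) (F := F) (η := η) (b := b))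
        rwa [aeval_X] at h3
      refine Reg.mono ?_ ((h1.mul h2).mul hqinv)
      have h3 : min (v γ₀) b ≤ min (v η) b := min_le_min_right b hηγ
      push_cast
      linarith
    · simp only [hc, if_neg hj]
      have h1 : Reg v F γ η b₁ b (κ₀ + δ - j * r') (A.coeff j) := by
        have h2 := Reg.of_GN (z := γ) (b₁ := b₁) (GN_C (v := v) (η := η) (b := b)
          (a := (⟨A.coeff j, hA j⟩ : F)) (hE j hj))
        rwa [aeval_C] at h2
      refine Reg.mono ?_ (h1.mul hqinv)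
      linarith
  have hXp := d.X_pos h
  have hXmem : d.X ∈ clI v (adj d.S'.K z) := by
    refine mem_of_contr (n := A.natDegree + 1) (r' := r') c (show 0 < δ / 4 by positivity) hz0 hr
      (RVal.Ge.of_le hXp.2.le) hXsum fun j _ N => ?_
    obtain ⟨w, hw, hw0, hw1, hw2⟩ := dns_K h hdn d (δ / 4 - j * r') (δ / 2 - j * r')
      (by linarith)
    obtain ⟨B, hB, h1, h2⟩ := exists_rep h d hw hw0 (Reg.mono hw2.le (hcreg j)) N
    exact ⟨B, hB, fun i => (h1 i).mono hw1.le, Reg.ge hγne hbγ d.lt₂ h2⟩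
  -- the closures
  refine ⟨d.S'.K, z, Est.fg_K _, Est.full_K h _, Est.trdeg_K _, le_antisymm ?_ ?_⟩
  · refine clI_mono (adj_le ?_ ?_)
    · refine (E10.K_le_adj d).trans (adj_le ?_ (mem_adj_self _ _).1)
      exact fun a ha => (mem_adj_self _ _).2 ((mem_adj_self _ _).2 ha)
    · exact (mem_adj_self _ _).2 (mem_adj_self _ _).1
  · have h1 : clI v (adj d.S'.K d.X) = clI v (adj F γ) := by
      rw [← clI_hen, hen_eq h d hXp.2 (d.frac h), clI_hen]
    have h2 : adj F γ ≤ clI v (adj d.S'.K z) := by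
      refine (le_clI (v := v) _).trans ?_
      rw [← h1]
      refine TWM.clI_le (cld_clI v _) (adj_le ?_ hXmem)
      exact fun a ha => le_clI _ ((mem_adj_self _ _).2 ha)
    refine TWM.clI_le (cld_clI v _) (adj_le (adj_le ?_ ?_) ?_)
    · exact fun a ha => h2 ((mem_adj_self _ _).2 ha)
    · exact le_clI _ (mem_adj_self _ _).1
    · exact h2 (mem_adj_self _ _).1

/-- The exit of index zero, in the form of the assembly. -/
theorem exitZero_h [IsAlgClosed k] [IsAlgClosed Ω] (p : ℕ) [Fact p.Prime] [CharP k p]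
    [CharP Ω p] {r D : ℕ} (h : Ctx k v r)
    (hLU : ∀ E : IntermediateField k Ω, E.FG → Full v E →
      Algebra.trdeg k E = (r + D : ℕ) → BD p v E → LU p v r E) : ExitZero p v k r D :=
  fun hF hfull hBD htr hdn _ hz _ _ _ hr _ hA hdst hδ hE _ hγ =>
    exit_zero_h p h hF hfull hBD htr hLU hdn hz hr hA hdst hδ hE hγ

end Pool.Agent.TWJ
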