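import Pool.Agent.Lib.TWJ.TR
import Pool.Agent.Lib.TWJ.J10
import Pool.Agent.Lib.TWJ.X0h

/-!
# TANK W, SEC1: the alternative

* `seed_or_hrone`: `K₀(al)` is henselian rational, or there is a `Seed` of minimal index.
-/

set_option autoImplicit false

open Polynomial

namespace Pool.Agent.TWJ

open Pool.Agent.H15JM (RVal)
open Pool.Agent.LU1 (adj)
open Pool.Agent.D2 (Ctx0)
open Pool.Agent.D2P (clI mem_clI adj_le mem_adj_self)
open Pool.Agent.TW (Ctx Full BD Fr LU HRone Dns)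
open Pool.Agent.TWM

universe u

variable {k Ω : Type u} [Field k] [Field Ω] [Algebra k Ω] {v : RVal Ω} {r D : ℕ}

/-- **SEC1, the alternative.** `h0` is the existence of a state. -/
theorem seed_or_hrone [IsAlgClosed k] [IsAlgClosed Ω] (p : ℕ) [hp : Fact p.Prime] [CharP k p]
    [CharP Ω p] (h : Ctx k v r) (hcv : CompleteV v)
    (hLU : ∀ E : IntermediateField k Ω, E.FG → Full v E → Algebra.trdeg k E = (r + D : ℕ) →
      BD p v E → LU p v r E)
    (hDn : ∀ E : IntermediateField k Ω, E.FG → Full v E → Algebra.trdeg k E = (r + D : ℕ) →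
      BD p v E → Dns v E)
    {K₀ : IntermediateField k Ω} (hK : K₀.FG) (hKf : Full v K₀)
    (htr : Algebra.trdeg k K₀ = (r + D + 1 : ℕ)) (hBD₀ : BD p v K₀) {al : Ω} (hal : al ^ p ∈ K₀)
    (hBD : BD p v (adj K₀ al))
    (h0 : (∃ μ : ℝ, ∀ g ∈ clI v K₀, ¬ v.Ge μ (al ^ p - g ^ p)) →
      ∃ (F : IntermediateField k Ω) (z : Ω) (ρ κ : ℝ) (S : ℕ) (A : Polynomial Ω),
        Stt p v r D (clI v K₀) (al ^ p) F z ρ κ S A)
    (h1 : ∃ (F : IntermediateField k Ω) (z : Ω), F.FG ∧ Full v F ∧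
      Algebra.trdeg k F = (r + D : ℕ) ∧ clI v K₀ = clI v (adj F z)) :
    HRone v (adj K₀ al) ∨
    ∃ μ : ℝ, (∀ g ∈ clI v K₀, ¬ v.Ge μ (al ^ p - g ^ p)) ∧
      ∃ q : ℕ, p ∣ q ∧ 0 < q ∧ MinS p v r D (clI v K₀) (al ^ p) q ∧
        ∃ (F : IntermediateField k Ω) (z : Ω) (s Dq e₀ c₀ : ℝ) (A : Polynomial Ω),
          Seed p v r D (clI v K₀) (al ^ p) q F z s Dq e₀ c₀ A := by
  by_cases hmem : al ∈ clI v K₀
  · left
    obtain ⟨F, z, hF, hFf, hFt, hcl⟩ := h1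
    exact hrone_of_mem p h hcv hLU hK hKf htr hal hBD hmem hF hFf hFt hcl
  · by_cases hno : HRone v (adj K₀ al)
    · exact Or.inl hno
    · right
      obtain ⟨μ, hμ⟩ := exists_far (cld_clI v K₀) hmem
      refine ⟨μ, hμ, ?_⟩
      exact sec1 p h hcv hLU hDn (exitZero_h p h hLU) (exitTame p h hLU) hK hKf htr hal hBD
        (jumpExact p h hcv hLU hK htr hBD₀ rfl (le_clI K₀ hal) hμ) (h0 ⟨μ, hμ⟩) hno

end Pool.Agent.TWJ
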