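import Pool.Agent.Lib.TWJ.NoHit
import Pool.Agent.Lib.TWJ.SEC2

/-!
# TANK W: no critical jets

`clI K₀ = clI F(y)`, `y` of transcendental type over the closure of `F`, `ν` an upper bound of the
distances of `al ^ p` to the `p`-th powers of `clI K₀`. If `al ^ p` is a `p`-th power plus an element
of `clI F` plus an error of value `> ν`, then `K₀(al)` is henselian rational (`exit_base`). This is
the case if no jet of `f` at `y`, `al ^ p = f(y)` mod `p`-th powers, is critical (`nohit_exit0`).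

`nohit_hrone`: `al ^ p = f(y)` mod `p`-th powers and `> ν`; every jet of `f` at `y` of order `l ≠ 0`
divisible by `p` is a `p`-th power up to `> ν - l s`. Then `K₀(al)` is henselian rational, whatever
the linear jet.
-/

set_option autoImplicit false

open Polynomial

namespace Pool.Agent.TWJ

open Pool.Agent.H15JM (RVal)
open Pool.Agent.LU1 (VPos adj)
open Pool.Agent.D2 (Ctx0)
open Pool.Agent.D2P (hen clI mem_clI mem_hen le_hen hen_hen hen_mono mem_adj_self adj_le)
open Pool.Agent.TW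
open Pool.Agent.TWM (CompleteV cadj le_clI clI_mono clI_clI clI_adj_clI cld_clI cld_cadj Cld TL PI
  Gt algc le_algc PI_mono self_mem_cadj le_cadj cadj_le eval_mem mem_cadj C_mem_PI X_mem_PI
  hasse_mem_PI OI pbasis_clI GB.zero GB.centre GB.mono adj_range clI_hen gen_of_bas SL GB)

universe u

variable {k Ω : Type u} [Field k] [Field Ω] [Algebra k Ω] {v : RVal Ω} {r D : ℕ}

/-- The value group of `A` is dense if there is an element of transcendental type over `A`. -/
theorem TL.dns {A : IntermediateField k Ω} {z : Ω} {s : ℝ} (h : TL v A z s) : Dns v A := by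
  have hstep : ∀ c ∈ A, ∀ δ : ℝ, 0 < δ → ∃ c' ∈ A, v (z - c) < v (z - c') ∧
      s - δ ≤ v (z - c') := by
    intro c hc δ hδ
    have h1 := h.far c (isAlgebraic_algebraMap (⟨c, hc⟩ : A))
    obtain ⟨c', hc', h2⟩ := h.lim (min δ ((s - v (z - c)) / 2)) (lt_min hδ (by linarith [h1.2]))
    have h3 := h.far c' (isAlgebraic_algebraMap (⟨c', hc'⟩ : A))
    have h4 := h2 (sub_ne_zero.2 h3.1)
    refine ⟨c', hc', ?_, ?_⟩
    · have := min_le_right δ ((s - v (z - c)) / 2)
      linarith [h1.2]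
    · have := min_le_left δ ((s - v (z - c)) / 2)
      linarith
  have hval : ∀ c ∈ A, ∀ c' ∈ A, v (z - c) < v (z - c') →
      c - c' ≠ 0 ∧ v (c - c') = v (z - c) := by
    intro c hc c' hc' hlt
    have h1 := (h.far c (isAlgebraic_algebraMap (⟨c, hc⟩ : A))).1
    have h2 := (h.far c' (isAlgebraic_algebraMap (⟨c', hc'⟩ : A))).1
    have h3 : c - c' ≠ 0 := by
      intro h0
      rw [sub_eq_zero.1 h0] at hlt
      exact lt_irrefl _ hlt
    refine ⟨h3, ?_⟩
    have h4 : v.Ge (v (z - c)) (c - c') := by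
      have := (v.ge_self (z - c')).mono hlt.le
      have h5 := this.sub (v.ge_self (z - c))
      rwa [show z - c' - (z - c) = c - c' by ring] at h5
    refine le_antisymm ?_ (h4 h3)
    by_contra hlt2
    push Not at hlt2
    have h5 : v.Ge (min (v (c - c')) (v (z - c'))) (z - c) := by
      have h6 := ((v.ge_self (c - c')).mono (min_le_left (v (c - c')) (v (z - c')))).neg.add
        ((v.ge_self (z - c')).mono (min_le_right (v (c - c')) (v (z - c'))))
      rwa [show -(c - c') + (z - c') = z - c by ring] at h6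
    have h7 := h5 (sub_ne_zero.2 h1)
    rcases le_total (v (c - c')) (v (z - c')) with h8 | h8
    · rw [min_eq_left h8] at h7
      linarith
    · rw [min_eq_right h8] at h7
      linarith
  have hsmall : ∀ δ : ℝ, 0 < δ → ∃ c ∈ A, c ≠ 0 ∧ 0 < v c ∧ v c < δ := by
    intro δ hδ
    obtain ⟨c₁, hc₁, h1⟩ := h.lim (δ / 2) (by linarith)
    have h1' := h.far c₁ (isAlgebraic_algebraMap (⟨c₁, hc₁⟩ : A))
    have h1'' := h1 (sub_ne_zero.2 h1'.1)
    obtain ⟨c₂, hc₂, h2, -⟩ := hstep c₁ hc₁ 1 one_pos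
    obtain ⟨c₃, hc₃, h3, -⟩ := hstep c₂ hc₂ 1 one_pos
    have h2' := h.far c₂ (isAlgebraic_algebraMap (⟨c₂, hc₂⟩ : A))
    obtain ⟨h4, h5⟩ := hval c₁ hc₁ c₂ hc₂ h2
    obtain ⟨h6, h7⟩ := hval c₂ hc₂ c₃ hc₃ h3
    refine ⟨(c₂ - c₃) / (c₁ - c₂), div_mem (sub_mem hc₂ hc₃) (sub_mem hc₁ hc₂),
      div_ne_zero h6 h4, ?_, ?_⟩
    · rw [v.map_div h6 h4, h5, h7]
      linarith
    · rw [v.map_div h6 h4, h5, h7]
      linarith [h2'.2]
  intro a b hab
  obtain ⟨g, hg, hg0, h1, h2⟩ := hsmall (b - a) (by linarith)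
  refine ⟨g ^ (⌊a / v g⌋ + 1), zpow_mem hg _, zpow_ne_zero _ hg0, ?_, ?_⟩
  · rw [v.map_zpow hg0]
    have h3 := Int.lt_floor_add_one (a / v g)
    rw [div_lt_iff₀ h1] at h3
    push_cast
    exact h3
  · rw [v.map_zpow hg0]
    have h3 := Int.floor_le (a / v g)
    rw [le_div_iff₀ h1] at h3
    push_cast
    linarith

/-- A dense subfield. -/
theorem TL.of_clI {M : IntermediateField k Ω} {z : Ω} {s : ℝ} (h : TL v (clI v M) z s) :
    TL v M z s where
  lim := by
    intro ε hε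
    obtain ⟨a, ha, h1⟩ := h.lim ε hε
    obtain ⟨b, hb, h2⟩ := mem_clI.1 ha (s - ε)
    refine ⟨b, hb, ?_⟩
    have h3 := h1.add h2
    rwa [sub_add_sub_cancel] at h3
  far := fun θ hθ => h.far θ (D2P.isAlgebraic_mono (le_clI M) hθ)

/-- The transcendence of `z`. -/
theorem TL.transc {M : IntermediateField k Ω} {z : Ω} {s : ℝ} (h : TL v M z s) :
    Transcendental M z := fun h1 => (h.far z h1).1 rfl

/-- The distance to the `p`-th powers exists. -/
theorem exists_Dst {p : ℕ} {F : IntermediateField k Ω} {f : Ω} {ν : ℝ}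
    (h : ∀ g ∈ F, ¬ Gt v ν (f - g ^ p)) : ∃ κ₀ ≤ ν, Dst p v F κ₀ f := by
  have h1 : ∀ g ∈ F, f - g ^ p ≠ 0 ∧ v (f - g ^ p) ≤ ν := by
    intro g hg
    have h2 := h g hg
    rw [Gt] at h2
    push Not at h2
    exact h2
  set s : Set ℝ := {c | ∃ g ∈ F, c = v (f - g ^ p)} with hs
  have hne : s.Nonempty := ⟨_, 0, zero_mem F, rfl⟩
  have hbd : ∀ c ∈ s, c ≤ ν := by
    rintro c ⟨g, hg, rfl⟩
    exact (h1 g hg).2
  refine ⟨sSup s, csSup_le hne hbd, fun ε hε => ?_, fun e he g hg h2 => ?_⟩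
  · obtain ⟨c, ⟨g, hg, rfl⟩, h2⟩ := exists_lt_of_lt_csSup hne (show sSup s - ε < sSup s by linarith)
    exact ⟨g, hg, fun _ => h2.le⟩
  · have h3 := h2 (h1 g hg).1
    have h4 : v (f - g ^ p) ≤ sSup s := le_csSup ⟨ν, hbd⟩ ⟨g, hg, rfl⟩
    linarith

variable [IsAlgClosed Ω]

/-- A polynomial with small value at `y` has small coefficients at a near `θ` in the base. -/
theorem TL.small_at {M : IntermediateField k Ω} {y : Ω} {s : ℝ} (h : TL v M y s)
    {f : Polynomial Ω} (hf : f ∈ PI M) {ν : ℝ} (hν : Gt v ν (f.eval y)) :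
    ∃ θ ∈ M, ∃ r' δ : ℝ, 0 < δ ∧ r' < v (y - θ) ∧ GB v r' (ν + δ) (taylor θ f) := by
  by_cases h0 : f = 0
  · obtain ⟨θ, hθ, -⟩ := h.lim 1 one_pos
    refine ⟨θ, hθ, v (y - θ) - 1, 1, one_pos, by linarith, ?_⟩
    rw [h0, map_zero]
    exact GB.zero
  · have hfA : f ∈ PI (algc M) := PI_mono (le_algc M) hf
    have h1 := h.eval_ne hfA h0
    set η : ℝ := v (f.eval y) - ν with hη
    have hη0 : 0 < η := by
      have := hν h1
      linarith
    set N : ℕ := f.natDegree with hN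
    have hN0 : (0 : ℝ) < N + 1 := by positivity
    set δ₁ : ℝ := η / (2 * (N + 1)) with hδ₁
    have hδ₁0 : 0 < δ₁ := by positivity
    have hGB : GB v s (ν + η) (taylor y f) := by
      intro m
      have := h.weak hfA h0 m
      rwa [show v (f.eval y) = ν + η by rw [hη]; ring] at this
    have h2 : GB v (s - δ₁) (ν + η - N * (s - (s - δ₁))) (taylor y f) :=
      TWM.GB_radius (by rw [natDegree_taylor]) (by linarith) hGB
    have h3 : η / 2 ≤ η - N * δ₁ := by
      have e : (N : ℝ) * δ₁ = N * η / (2 * (N + 1)) := by rw [hδ₁]; ring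
      rw [e]
      have : (N : ℝ) * η / (2 * (N + 1)) ≤ η / 2 := by
        rw [div_le_div_iff₀ (by positivity) two_pos]
        nlinarith
      linarith
    obtain ⟨θ, hθ, h4⟩ := h.lim (δ₁ / 2) (by positivity)
    have hne := (h.far θ (isAlgebraic_algebraMap (⟨θ, hθ⟩ : M))).1
    have h5 := h4 (sub_ne_zero.2 hne)
    refine ⟨θ, hθ, s - δ₁, η / 2, by linarith, by linarith, ?_⟩
    refine GB.centre (z := y) (z' := θ) ?_ (h2.mono ?_)
    · rw [show θ - y = -(y - θ) by ring]
      exact (h4.mono (show s - δ₁ ≤ s - δ₁ / 2 by linarith)).neg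
    · rw [sub_sub_cancel]
      linarith

/-- **The exit**: `al ^ p` is near an element of the base, modulo `p`-th powers. -/
theorem exit_base [IsAlgClosed k] (p : ℕ) [hp : Fact p.Prime] [CharP k p] [CharP Ω p]
    (h : Ctx k v r) (hcv : CompleteV v)
    (hLU : ∀ E : IntermediateField k Ω, E.FG → Full v E → Algebra.trdeg k E = (r + D : ℕ) →
      BD p v E → LU p v r E)
    {K₀ : IntermediateField k Ω} (hK : K₀.FG) (hKf : Full v K₀)
    (htr : Algebra.trdeg k K₀ = (r + D + 1 : ℕ)) (hBDK : BD p v K₀) {al : Ω}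
    (hal : al ^ p ∈ K₀) (hBD : BD p v (adj K₀ al)) {F : IntermediateField k Ω} (hF : F.FG)
    (hFf : Full v F) (hFt : Algebra.trdeg k F = (r + D : ℕ)) {y : Ω} {s : ℝ}
    (hy : TL v (clI v F) y s) (hcl : clI v K₀ = cadj v (clI v F) y) {ν : ℝ} {g e : Ω}
    (hg : g ∈ clI v K₀) (he : e ∈ clI v F) (hw : Gt v ν (al ^ p - g ^ p - e))
    (hlev : ∀ g ∈ clI v K₀, ¬ Gt v ν (al ^ p - g ^ p)) : HRone v (adj K₀ al) := by
  classical
  have hp0 : 0 < p := hp.out.pos
  have hcl' : clI v K₀ = clI v (adj F y) := by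
    rw [hcl]
    exact clI_adj_clI
  have hyF : TL v F y s := TL.of_clI hy
  -- the base field
  obtain ⟨m, s₀, hsb, C₀, hC₀⟩ := id hBDK
  have hm : m = r + D + 1 := by
    have h4 := (hsb.trdeg p hK).1
    rw [htr] at h4
    exact_mod_cast h4.symm
  subst hm
  have hos : OI p v (clI v K₀) s₀ C₀ := (TWM.OI.of_orth_pb hC₀ hsb).cl
  have hpb : PBasis p (clI v K₀) s₀ := pbasis_clI hcv hsb hos
  have hBDc : BD p v (clI v K₀) := ⟨_, s₀, hpb, C₀, hos.orth⟩
  have hBDFy : BD p v (adj F y) := (BD_dense hBDc hpb (D2P.fg_adj hF y) hcl'.symm).2 (by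
    rw [HRLU.trdeg_adj (TL.transc hyF), hFt]
    push_cast
    rfl)
  have hBDF : BD p v F := BD.of_adj p hF (TL.transc hyF) hBDFy
  obtain ⟨t₀, ht₀⟩ := exists_pbasis p hF hFt
  obtain ⟨S, hS, -, -⟩ := hLU F hF hFf hFt hBDF D t₀ ht₀ ∅ (by simp)
  set M : IntermediateField k Ω := kr k S.s with hM
  have hMF : clI v M = clI v F := by
    rw [← clI_hen F, Fr.IsFr.hen_eq p h hS, clI_hen, P1.K_eq]
  have hyM : TL v M y s := TL.of_clI (by rw [hMF]; exact hy)
  set T : Fin (r + D + 1) → Ω := Fin.snoc S.s y with hT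
  have hadjM : adj M y = kr k T := by
    rw [hM, adj_range]
  have hTcl : clI v (kr k T) = clI v K₀ := by
    rw [← hadjM, hcl, ← clI_adj_clI, hMF]
  obtain ⟨hpT, hT0, C₁, hoT⟩ := gen_of_bas hBDc hpb hTcl
  -- the exact representation
  set a : Ω := al ^ p - g ^ p with ha
  have haK : a ∈ clI v K₀ := sub_mem (le_clI _ hal) (pow_mem hg p)
  have hlev' : ∀ g ∈ clI v K₀, ¬ Gt v ν (a - g ^ p) := by
    intro g' hg' h1
    refine hlev (g + g') (add_mem hg hg') ?_
    rwa [add_pow_char, ← sub_sub]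
  have hμ : ∀ g ∈ clI v K₀, ¬ v.Ge (ν + 1) (a - g ^ p) := by
    intro g' hg' h1
    exact hlev' g' hg' fun h2 => by
      have := h1 h2
      linarith
  obtain ⟨C₂, hC₂⟩ := exact_gen p h.toCtx0 hcv hTcl hoT hT0 (ν + 1) (v a) (∑ i, |v (T i)| + 1)
  set C₃ : ℝ := max C₂ (ν + 1) with hC₃
  have hMcl : M ≤ clI v F := by
    rw [← hMF]
    exact le_clI _
  obtain ⟨e₁, he₁, hee⟩ : ∃ e₁ ∈ M, v.Ge C₃ (e - e₁) := mem_clI.1 (by rw [hMF]; exact he) C₃
  have hwK : a - e ∈ cadj v M y := by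
    have h1 : cadj v M y = clI v K₀ := by
      rw [← hTcl, ← hadjM]
      rfl
    rw [h1]
    refine sub_mem haK ?_
    rw [hcl]
    exact le_cadj v _ y he
  obtain ⟨f, hf, hfw⟩ := hyM.dense hwK C₃
  have hC₃ν : ν < C₃ := lt_of_lt_of_le (by linarith) (le_max_right C₂ (ν + 1))
  have hgtC : ∀ x : Ω, v.Ge C₃ x → Gt v ν x := fun x hx h0 => hC₃ν.trans_le (hx h0)
  have hfy : Gt v ν (f.eval y) := by
    have h1 := TWM.Gt.sub hw (hgtC _ hfw)
    rwa [sub_sub_cancel] at h1
  have hyT : y ∈ kr k T := by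
    rw [← hadjM]
    exact (mem_adj_self M y).1
  have hMT : M ≤ kr k T := by
    rw [← hadjM]
    exact fun x hx => (mem_adj_self M y).2 hx
  have hfT : f.eval y ∈ kr k T := TWM.eval_mem (PI_mono hMT hf) hyT
  have hab : v.Ge C₂ (a - (e₁ + f.eval y)) := by
    have h1 := (hee.add hfw).mono (le_max_left C₂ (ν + 1))
    rwa [show e - e₁ + (a - e - f.eval y) = a - (e₁ + f.eval y) by ring] at h1
  obtain ⟨t', ht', htcl, φ, hφ, hφb⟩ := hC₂ a haK (v.ge_self _) hμ _
    (add_mem (hMT he₁) hfT) hab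
  -- the first slope
  obtain ⟨θ, hθ, r', δ, hδ, hr', hGB⟩ := TL.small_at hyM hf hfy
  set A : Polynomial Ω := C e₁ + taylor θ f with hA
  have hAM : A ∈ PI M := add_mem (C_mem_PI he₁) (TWM.taylor_mem_PI hf hθ)
  have hAev : A.eval (y - θ) = e₁ + f.eval y := by
    rw [hA, eval_add, eval_C, taylor_eval, sub_add_cancel]
  have hA0 : A.coeff 0 = e₁ + (taylor θ f).coeff 0 := by
    rw [hA, coeff_add, coeff_C_zero]
  have hAm : ∀ m : ℕ, m ≠ 0 → A.coeff m = (taylor θ f).coeff m := by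
    intro m hm
    rw [hA, coeff_add, coeff_C, if_neg hm, zero_add]
  have hT0' : Gt v ν ((taylor θ f).coeff 0) := fun h0 => by
    have := hGB 0 h0
    rw [Nat.cast_zero, zero_mul, sub_zero] at this
    linarith
  have hMK : M ≤ clI v K₀ := by
    rw [← hTcl]
    exact hMT.trans (le_clI _)
  obtain ⟨κ₀, hκ₀, hd⟩ := exists_Dst (v := v) (p := p) (F := M) (f := A.coeff 0) (ν := ν) (by
    intro g' hg' h1
    refine hlev' g' (hMK hg') ?_
    have h2 := TWM.Gt.add (TWM.Gt.sub (TWM.Gt.add hw (hgtC _ hee)) hT0') h1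
    rw [hA0] at h2
    rwa [show al ^ p - g ^ p - e + (e - e₁) - (taylor θ f).coeff 0 +
      (e₁ + (taylor θ f).coeff 0 - g' ^ p) = a - g' ^ p by rw [ha]; ring] at h2)
  have hSL : SL p v M (y - θ) r' κ₀ 0 A := by
    refine ⟨hAM, fun _ => hr', fun ε hε => ?_, fun e' he' g' hg' => ?_⟩
    · obtain ⟨g₀, hg₀, h1⟩ := hd.lo ε hε
      refine ⟨C g₀, C_mem_PI hg₀, fun m => ?_⟩
      rcases eq_or_ne m 0 with rfl | hm
      · rw [coeff_sub, ← C_pow, coeff_C_zero, Nat.cast_zero, zero_mul, sub_zero]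
        exact h1
      · rw [coeff_sub, ← C_pow, coeff_C, if_neg hm, sub_zero, hAm m hm]
        refine (hGB m).mono ?_
        linarith
    · refine ⟨0, le_rfl, fun h1 => hd.hi e' he' (g'.coeff 0) (hg' 0) ?_⟩
      rw [Nat.cast_zero, zero_mul, sub_zero, coeff_sub, coeff_pow_char p, if_pos (dvd_zero p),
        Nat.zero_div] at h1
      exact h1
  -- the new coordinates
  obtain ⟨hpt', -, C₄, hot'⟩ := gen_of_bas hBDc hpb htcl
  have ht'0 : ∀ i, t' i ≠ 0 := fun i => (ht' i).2.1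
  have hai : AlgebraicIndependent k t' := (hot'.mono (by
    rw [← htcl]
    exact le_clI _) le_rfl).algInd ht'0
  have hval : ∀ i, v (t' i) = v (T i) := by
    intro i
    refine val_eq_of_near (c := ∑ i, |v (T i)| + 1) (hT0 i) ?_ (ht' i).2.2
    have h1 : |v (T i)| ≤ ∑ i, |v (T i)| :=
      Finset.single_le_sum (f := fun i => |v (T i)|) (fun i _ => abs_nonneg _) (Finset.mem_univ i)
    have h2 := le_abs_self (v (T i))
    linarith
  have hinit : Fin.snoc (Fin.init t') (t' (Fin.last (r + D))) = t' := Fin.snoc_init_self t'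
  obtain ⟨R', hR'⟩ := exists_frame S (t := Fin.init t')
    (hai.comp _ (Fin.castSucc_injective _)) (fun i => ht'0 _) fun i => by
      rw [Fin.init, hval, hT, Fin.snoc_castSucc]
  have hR'K : R'.K = kr k (Fin.init t') := by rw [P1.K_eq, hR']
  have hTi : ∀ i : Fin (r + D), T i.castSucc = S.s i := fun i => by rw [hT, Fin.snoc_castSucc]
  have hTl : T (Fin.last (r + D)) = y := by rw [hT, Fin.snoc_last]
  -- the transport
  have hiff : ∀ x : kr k T, (x : Ω) ∈ M ↔ (φ.e x : Ω) ∈ R'.K := by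
    intro x
    have h1 := mem_kr_iff φ hφ Fin.castSucc x
    have e1 : T ∘ Fin.castSucc = S.s := funext hTi
    have e2 : t' ∘ Fin.castSucc = Fin.init t' := rfl
    rw [e1, e2] at h1
    rw [hR'K]
    exact h1
  have hyθ : y - θ ∈ kr k T := sub_mem hyT (hMT hθ)
  have hadj' : adj R'.K (t' (Fin.last (r + D))) = kr k t' := by
    rw [hR'K, adj_range, hinit]
  have hR't : R'.K ≤ kr k t' := by
    rw [← hadj']
    exact fun x hx => (mem_adj_self _ _).2 hx
  obtain ⟨A', hA', hA'ev⟩ := SL.viso φ hMT hR't hiff (z := ⟨y - θ, hyθ⟩) hSL (by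
    show A.eval (y - θ) ∈ _
    rw [hAev]
    exact add_mem (hMT he₁) hfT)
  set z : Ω := (φ.e ⟨y - θ, hyθ⟩ : Ω) with hz
  have hze : z = t' (Fin.last (r + D)) - (φ.e ⟨θ, hMT hθ⟩ : Ω) := by
    have h1 : (⟨y - θ, hyθ⟩ : kr k T) = ⟨T (Fin.last (r + D)), by rw [hTl]; exact hyT⟩ -
        ⟨θ, hMT hθ⟩ := by
      apply Subtype.ext
      show y - θ = T (Fin.last (r + D)) - θ
      rw [hTl]
    rw [hz, h1, map_sub, AddSubgroupClass.coe_sub, hφ]
  have hθ' : (φ.e ⟨θ, hMT hθ⟩ : Ω) ∈ R'.K := (hiff _).1 hθ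
  have hadjz : adj R'.K z = kr k t' := by
    rw [← hadj', hze]
    refine le_antisymm (adj_le (fun x hx => (mem_adj_self _ _).2 hx) ?_)
      (adj_le (fun x hx => (mem_adj_self _ _).2 hx) ?_)
    · exact sub_mem (mem_adj_self _ _).1 ((mem_adj_self _ _).2 hθ')
    · have h1 := add_mem (mem_adj_self R'.K (t' (Fin.last (r + D)) - (φ.e ⟨θ, hMT hθ⟩ : Ω))).1
        ((mem_adj_self R'.K (t' (Fin.last (r + D)) - (φ.e ⟨θ, hMT hθ⟩ : Ω))).2 hθ')
      rwa [sub_add_cancel] at h1
  have htz : Transcendental R'.K z := by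
    intro h1
    have h2 : Transcendental R'.K (t' (Fin.last (r + D))) := by
      rw [hR'K]
      exact tr_last hai
    apply h2
    have h3 : IsAlgebraic R'.K (φ.e ⟨θ, hMT hθ⟩ : Ω) := isAlgebraic_algebraMap (⟨_, hθ'⟩ : R'.K)
    have h4 := h1.add h3
    rwa [hze, sub_add_cancel] at h4
  have hFG' : (kr k t').FG := IntermediateField.fg_adjoin_of_finite (Set.finite_range _)
  have hbd' : BD p v (kr k t') := (BD_dense hBDc hpb hFG' htcl).2 (by
    rw [trdeg_adjoin_eq hai.to_subtype_range]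
    have h2 := Cardinal.mk_range_eq_of_injective hai.injective
    simp at h2 ⊢
    rw [h2, add_assoc])
  have hbd : BD p v R'.K := by
    refine BD.of_adj p (Est.fg_K R') htz ?_
    rw [hadjz]
    exact hbd'
  have hst : Stt p v r D (clI v K₀) (al ^ p) R'.K z r' κ₀ 0 A' := by
    refine ⟨⟨R', rfl⟩, Est.fg_K R', Est.full_K h R', Est.trdeg_K R', hbd, htz, ?_,
      ⟨1, one_mem _, one_ne_zero, g, hg, ?_⟩, hA'⟩
    · rw [hadjz, htcl]
    · rw [one_pow, mul_one, hA'ev]
      show a = _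
      rw [← hφb]
      congr 2
      exact Subtype.ext hAev.symm
  have hd' : Dns v R'.K := by
    intro c₁ c₂ hc
    obtain ⟨x, hx, hx0, h1, h2⟩ := TL.dns hyM c₁ c₂ hc
    refine ⟨(φ.e ⟨x, hMT hx⟩ : Ω), (hiff _).1 hx, fun h3 => hx0 ?_, ?_, ?_⟩
    · exact (φ.coe_eq_zero ⟨x, hMT hx⟩).1 h3
    · rw [φ.val ⟨x, hMT hx⟩ hx0]
      exact h1
    · rw [φ.val ⟨x, hMT hx⟩ hx0]
      exact h2
  exact exit_small p h hcv hLU (exitZero_h p h hLU) (exitTame p h hLU) hK hKf htr hal hBD hst hd'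
    hp0

omit [IsAlgClosed Ω] in
/-- Small jets give small terms near the centre. -/
theorem exists_near_terms {s μ : ℝ} (b : ℕ → Ω) (S : Finset ℕ) (hS : ∀ l ∈ S, 1 ≤ l)
    (hb : ∀ l ∈ S, Gt v (μ - l * s) (b l)) : ∃ δ : ℝ, 0 < δ ∧
      ∀ t, v.Ge (s - δ) t → ∀ l ∈ S, Gt v μ (b l * t ^ l) := by
  classical
  induction S using Finset.induction_on with
  | empty => exact ⟨1, one_pos, fun t _ l hl => absurd hl (Finset.notMem_empty l)⟩
  | insert m S hm ih =>
    obtain ⟨δ, hδ, hi⟩ := ih (fun l hl => hS l (Finset.mem_insert_of_mem hl))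
      (fun l hl => hb l (Finset.mem_insert_of_mem hl))
    have hm1 := hS m (Finset.mem_insert_self m S)
    by_cases hz0 : b m = 0
    · refine ⟨δ, hδ, fun t ht l hl => ?_⟩
      rcases Finset.mem_insert.1 hl with rfl | hl
      · rw [hz0, zero_mul]
        exact TWM.Gt.zero
      · exact hi t ht l hl
    · have hgt := hb m (Finset.mem_insert_self m S) hz0
      set η : ℝ := v (b m) - (μ - m * s) with hη
      have hη0 : 0 < η := by rw [hη]; linarith
      refine ⟨min δ (η / (2 * (m + 1))), lt_min hδ (by positivity), fun t ht l hl => ?_⟩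
      rcases Finset.mem_insert.1 hl with rfl | hl
      · intro h0
        have ht0 : t ≠ 0 := fun h4 => h0 (by rw [h4, zero_pow (by omega), mul_zero])
        rw [v.map_mul hz0 (pow_ne_zero _ ht0), v.map_pow ht0]
        have h6 := ht ht0
        have h7 : min δ (η / (2 * (l + 1))) ≤ η / (2 * (l + 1)) := min_le_right _ _
        have h8 : (l : ℝ) * (η / (2 * (l + 1))) < η := by
          rw [mul_div_assoc', div_lt_iff₀ (by positivity)]
          have : (0 : ℝ) ≤ l := Nat.cast_nonneg l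
          nlinarith
        have h9 : (l : ℝ) * (s - η / (2 * (l + 1))) ≤ l * v t :=
          mul_le_mul_of_nonneg_left (by linarith) (Nat.cast_nonneg l)
        rw [mul_sub] at h9
        linarith
      · exact hi t (ht.mono (by
          have := min_le_left δ (η / (2 * (m + 1)))
          linarith)) l hl

/-- **No critical jets => `HRone`**: no jet of order prime to `p` of `f` at `y` is critical, and
those of order `l ≠ 0` divisible by `p` are `p`-th powers up to `> ν - l s`. -/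
theorem nohit_exit0 [IsAlgClosed k] (p : ℕ) [hp : Fact p.Prime] [CharP k p] [CharP Ω p]
    (h : Ctx k v r) (hcv : CompleteV v)
    (hLU : ∀ E : IntermediateField k Ω, E.FG → Full v E → Algebra.trdeg k E = (r + D : ℕ) →
      BD p v E → LU p v r E)
    {K₀ : IntermediateField k Ω} (hK : K₀.FG) (hKf : Full v K₀)
    (htr : Algebra.trdeg k K₀ = (r + D + 1 : ℕ)) (hBDK : BD p v K₀) {al : Ω}
    (hal : al ^ p ∈ K₀) (hBD : BD p v (adj K₀ al)) {F : IntermediateField k Ω} (hF : F.FG)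
    (hFf : Full v F) (hFt : Algebra.trdeg k F = (r + D : ℕ)) {y : Ω} {s : ℝ}
    (hy : TL v (clI v F) y s) (hcl : clI v K₀ = cadj v (clI v F) y) {ν : ℝ}
    {f : Polynomial Ω} (hf : f ∈ PI (clI v F)) {g : Ω} (hg : g ∈ clI v K₀)
    (hw : Gt v ν (al ^ p - g ^ p - f.eval y))
    (h1 : ∀ l : ℕ, ¬ p ∣ l → Gt v (ν - l * s) ((taylor y f).coeff l))
    (hit : ∀ l : ℕ, p ∣ l → l ≠ 0 → ∃ w ∈ clI v K₀,
      Gt v (ν - l * s) ((taylor y f).coeff l - w ^ p))
    (hlev : ∀ g ∈ clI v K₀, ¬ Gt v ν (al ^ p - g ^ p)) : HRone v (adj K₀ al) := by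
  classical
  choose! w hwK hwl using hit
  set S : Finset ℕ := Finset.Icc 1 f.natDegree with hS
  -- the errors
  set b : ℕ → Ω := fun l => if p ∣ l then (taylor y f).coeff l - w l ^ p else (taylor y f).coeff l
    with hb
  have hbl : ∀ l ∈ S, Gt v (ν - l * s) (b l) := by
    intro l hl
    have hl1 := (Finset.mem_Icc.1 hl).1
    by_cases hpl : p ∣ l
    · rw [hb]
      simp only [if_pos hpl]
      exact hwl l hpl (by omega)
    · rw [hb]
      simp only [if_neg hpl]
      exact h1 l hpl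
  obtain ⟨δ, hδ, hn⟩ := exists_near_terms b S (fun l hl => (Finset.mem_Icc.1 hl).1) hbl
  obtain ⟨ψ, hψF, hψ⟩ := hy.lim δ hδ
  have hyK : y ∈ clI v K₀ := by
    rw [hcl]
    exact self_mem_cadj v _ y
  have hψK : ψ ∈ clI v K₀ := by
    rw [hcl]
    exact le_cadj v _ y hψF
  set G : Ω := ∑ l ∈ S, if p ∣ l then w l * (ψ - y) ^ (l / p) else 0 with hG
  have hGK : G ∈ clI v K₀ := by
    refine sum_mem fun l hl => ?_
    split_ifs with hpl
    · exact mul_mem (hwK l hpl (by have := (Finset.mem_Icc.1 hl).1; omega))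
        (pow_mem (sub_mem hψK hyK) _)
    · exact zero_mem _
  have hGp : G ^ p = ∑ l ∈ S, if p ∣ l then w l ^ p * (ψ - y) ^ l else 0 := by
    rw [hG, sum_pow_char]
    refine Finset.sum_congr rfl fun l _ => ?_
    split_ifs with hpl
    · rw [mul_pow, ← pow_mul, Nat.div_mul_cancel hpl]
    · exact zero_pow hp.out.ne_zero
  have e : f.eval ψ - f.eval y = ∑ l ∈ S, (taylor y f).coeff l * (ψ - y) ^ l := by
    have e1 : f.eval ψ = (taylor y f).eval (ψ - y) := by rw [taylor_eval, sub_add_cancel]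
    rw [e1, eval_eq_sum_range, natDegree_taylor, Finset.sum_range_eq_add_Ico _ (Nat.succ_pos _),
      taylor_coeff_zero, pow_zero, mul_one, add_sub_cancel_left]
    rfl
  have herr : Gt v ν (f.eval ψ - f.eval y - G ^ p) := by
    rw [e, hGp, ← Finset.sum_sub_distrib]
    refine TWM.Gt.sum _ _ fun l hl => ?_
    have h2 := hn (ψ - y) (TWM.ge_sub_comm hψ) l hl
    have e2 : (taylor y f).coeff l * (ψ - y) ^ l -
        (if p ∣ l then w l ^ p * (ψ - y) ^ l else 0) = b l * (ψ - y) ^ l := by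
      rw [hb]
      by_cases hpl : p ∣ l
      · simp only [if_pos hpl]
        ring
      · simp only [if_neg hpl, sub_zero]
    rw [e2]
    exact h2
  refine exit_base p h hcv hLU hK hKf htr hBDK hal hBD hF hFf hFt hy hcl (ν := ν)
    (g := g - G) (e := f.eval ψ) (sub_mem hg hGK) (TWM.eval_mem hf hψF) ?_ hlev
  rw [sub_pow_char, show al ^ p - (g ^ p - G ^ p) - f.eval ψ =
    (al ^ p - g ^ p - f.eval y) - (f.eval ψ - f.eval y - G ^ p) by ring]
  exact TWM.Gt.sub hw herr

/-- **No hit => `HRone`**: no condition on the linear jet of `f` at `y`. -/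
theorem nohit_hrone [IsAlgClosed k] (p : ℕ) [hp : Fact p.Prime] [CharP k p] [CharP Ω p]
    (h : Ctx k v r) (hcv : CompleteV v)
    (hLU : ∀ E : IntermediateField k Ω, E.FG → Full v E → Algebra.trdeg k E = (r + D : ℕ) →
      BD p v E → LU p v r E)
    {K₀ : IntermediateField k Ω} (hK : K₀.FG) (hKf : Full v K₀)
    (htr : Algebra.trdeg k K₀ = (r + D + 1 : ℕ)) (hBDK : BD p v K₀) {al : Ω}
    (hal : al ^ p ∈ K₀) (hBD : BD p v (adj K₀ al)) {F : IntermediateField k Ω} (hF : F.FG)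
    (hFf : Full v F) (hFt : Algebra.trdeg k F = (r + D : ℕ)) {y : Ω} {s : ℝ}
    (hy : TL v (clI v F) y s) (hcl : clI v K₀ = cadj v (clI v F) y) {ν : ℝ}
    {f : Polynomial Ω} (hf : f ∈ PI (clI v F)) {g : Ω} (hg : g ∈ clI v K₀)
    (hw : Gt v ν (al ^ p - g ^ p - f.eval y))
    (hit : ∀ l : ℕ, p ∣ l → l ≠ 0 → ∃ w ∈ clI v K₀,
      Gt v (ν - l * s) ((taylor y f).coeff l - w ^ p))
    (hlev : ∀ g ∈ clI v K₀, ¬ Gt v ν (al ^ p - g ^ p)) : HRone v (adj K₀ al) := by
  have hmono : ∀ (c c' : ℝ) (x : Ω), c' ≤ c → Gt v c x → Gt v c' x :=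
    fun c c' x hc hx h0 => hc.trans_lt (hx h0)
  by_cases hc : Gt v (ν - s) ((taylor y f).coeff 1)
  · refine nohit_exit0 p h hcv hLU hK hKf htr hBDK hal hBD hF hFf hFt hy hcl hf hg hw ?_ hit hlev
    intro l hpl
    have hl0 : l ≠ 0 := by
      rintro rfl
      exact hpl (dvd_zero p)
    rcases eq_or_ne l 1 with rfl | hl1
    · rwa [Nat.cast_one, one_mul]
    by_cases h1 : (taylor y f).coeff 1 = 0
    · -- the derivative is `0`
      have hder : (derivative f).eval y = 0 := by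
        rw [← taylor_coeff_one, h1]
      have hdm : derivative f ∈ PI (algc (clI v F)) := by
        intro i
        rw [coeff_derivative]
        exact mul_mem (le_algc _ (hf _)) (by exact_mod_cast natCast_mem (algc (clI v F)) (i + 1))
      have hd0 : derivative f = 0 := by
        by_contra h2
        exact hy.eval_ne hdm h2 hder
      have e : derivative (taylor y f) = 0 := by
        have e2 : taylor y (derivative f) = derivative (taylor y f) := by
          rw [taylor_apply, taylor_apply, derivative_comp]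
          simp
        rw [← e2, hd0, map_zero]
      obtain ⟨m, rfl⟩ : ∃ m, l = m + 1 := ⟨l - 1, by omega⟩
      have h3 := congrArg (fun g : Polynomial Ω => g.coeff m) e
      simp only [coeff_derivative, coeff_zero] at h3
      have h4 : ((m : Ω) + 1) ≠ 0 := by
        intro h5
        apply hpl
        rw [← CharP.cast_eq_zero_iff Ω p]
        push_cast
        exact h5
      rw [(mul_eq_zero.1 h3).resolve_right h4]
      exact TWM.Gt.zero
    · have h2 := TL.jet_prime p hy hf h1 (l := l) (by omega) hpl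
      have h3 := hc h1
      exact hmono _ _ _ (by linarith) h2
  · rw [Gt] at hc
    push Not at hc
    obtain ⟨h1, h2⟩ := hc
    refine nohit_exit p h hcv hLU hK hKf htr hal hBD hF hFf hFt hy hcl hf hg h1
      (hmono _ _ _ (by linarith) hw) fun l hpl hl => ?_
    obtain ⟨w, hw1, hw2⟩ := hit l hpl hl
    exact ⟨w, hw1, hmono _ _ _ (by linarith) hw2⟩

end Pool.Agent.TWJ
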