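import Pool.Agent.Lib.TWJ.Defs

/-!
# TANK W, row CON: the combinatorics of the frame changes

* `hm Q n = Q_n(X, 1)`, `Q_n` the component of degree `n`; `ev1 h Q = Q(h(T), T)`;
* `ev1_coeff_at`, `ev1_coeff_succ`: the first coefficients of `Q(λ T + c T², T)`;
* `pick_tilt`, `pick_twist`: the choice of the parameters.
-/

set_option autoImplicit false

open Polynomial

namespace Pool.Agent.TWJ

universe u

section Alg

variable {k : Type u} [Field k]

/-- `Q_n(X, 1)`. -/
noncomputable def hm (Q : k[X][X]) (n : ℕ) : k[X] :=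
  ∑ x ∈ Finset.HasAntidiagonal.antidiagonal n, C ((Q.coeff x.2).coeff x.1) * X ^ x.1

/-- `Q(h(T), T)`. -/
noncomputable def ev1 (h : k[X]) : k[X][X] →+* k[X] := eval₂RingHom (eval₂RingHom C h) X

theorem hm_eval (Q : k[X][X]) (n : ℕ) (lam : k) : (hm Q n).eval lam =
    ∑ x ∈ Finset.HasAntidiagonal.antidiagonal n, (Q.coeff x.2).coeff x.1 * lam ^ x.1 := by
  rw [hm, eval_finsetSum]
  refine Finset.sum_congr rfl fun x _ => ?_
  rw [eval_mul, eval_C, eval_pow, eval_X]

theorem hm_coeff (Q : k[X][X]) {i j n : ℕ} (h : i + j = n) :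
    (hm Q n).coeff i = (Q.coeff j).coeff i := by
  classical
  rw [hm, finsetSum_coeff, Finset.sum_eq_single (i, j)]
  · rw [coeff_C_mul_X_pow, if_pos rfl]
  · rintro ⟨i', j'⟩ h1 h2
    rw [Finset.HasAntidiagonal.mem_antidiagonal] at h1
    rw [coeff_C_mul_X_pow, if_neg]
    rintro rfl
    apply h2
    simp only at h1 ⊢
    congr 1
    omega
  · intro h1
    exact absurd (Finset.HasAntidiagonal.mem_antidiagonal.2 h) h1

theorem hm_congr {Q Q' : k[X][X]} {n : ℕ}
    (h : ∀ i j, i + j = n → (Q.coeff j).coeff i = (Q'.coeff j).coeff i) : hm Q n = hm Q' n := by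
  rw [hm, hm]
  refine Finset.sum_congr rfl fun x hx => ?_
  rw [h x.1 x.2 (Finset.HasAntidiagonal.mem_antidiagonal.1 hx)]

theorem ev1_coeff (lam c : k) (Q : k[X][X]) (n : ℕ) :
    (ev1 (C lam * X + C c * X ^ 2) Q).coeff n = ∑ m ∈ Finset.range (n + 1),
      ∑ x ∈ Finset.HasAntidiagonal.antidiagonal m, (Q.coeff x.2).coeff x.1 *
        ((C lam + C c * X) ^ x.1).coeff (n - m) := by
  classical
  induction Q using Polynomial.induction_on' with
  | add Q Q' h h' =>
    rw [map_add, coeff_add, h, h', ← Finset.sum_add_distrib]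
    refine Finset.sum_congr rfl fun m _ => ?_
    rw [← Finset.sum_add_distrib]
    refine Finset.sum_congr rfl fun x _ => ?_
    rw [coeff_add, coeff_add, add_mul]
  | monomial j f =>
    induction f using Polynomial.induction_on' with
    | add f f' h h' =>
      rw [map_add, map_add, coeff_add, h, h', ← Finset.sum_add_distrib]
      refine Finset.sum_congr rfl fun m _ => ?_
      rw [← Finset.sum_add_distrib]
      refine Finset.sum_congr rfl fun x _ => ?_
      rw [coeff_add, coeff_add, add_mul]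
    | monomial i a =>
      have e1 : ev1 (C lam * X + C c * X ^ 2) (monomial j (monomial i a)) =
          C a * (C lam + C c * X) ^ i * X ^ (i + j) := by
        rw [ev1, coe_eval₂RingHom, eval₂_monomial, coe_eval₂RingHom, eval₂_monomial]
        have e2 : (C lam * X + C c * X ^ 2 : k[X]) = (C lam + C c * X) * X := by ring
        rw [e2, mul_pow, pow_add]
        ring
      rw [e1, coeff_mul_X_pow']
      have e3 : ∀ x : ℕ × ℕ, x ≠ (i, j) →
          ((monomial j (monomial i a) : k[X][X]).coeff x.2).coeff x.1 = 0 := by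
        rintro ⟨i', j'⟩ hx
        rw [coeff_monomial]
        split_ifs with h1
        · rw [coeff_monomial, if_neg]
          rintro rfl
          exact hx (by rw [h1])
        · rw [coeff_zero]
      split_ifs with h1
      · rw [Finset.sum_eq_single (i + j), Finset.sum_eq_single (i, j)]
        · rw [coeff_monomial, if_pos rfl, coeff_monomial, if_pos rfl, coeff_C_mul]
        · intro x _ hx
          rw [e3 x hx, zero_mul]
        · intro h2
          exact (h2 (Finset.HasAntidiagonal.mem_antidiagonal.2 rfl)).elim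
        · intro m _ hm
          refine Finset.sum_eq_zero fun x hx => ?_
          rw [e3 x, zero_mul]
          rintro rfl
          exact hm (Finset.HasAntidiagonal.mem_antidiagonal.1 hx).symm
        · intro h2
          exact absurd (Finset.mem_range.2 (by omega)) h2
      · refine (Finset.sum_eq_zero fun m hm => Finset.sum_eq_zero fun x hx => ?_).symm
        rw [e3 x, zero_mul]
        rintro rfl
        rw [Finset.mem_range] at hm
        rw [Finset.HasAntidiagonal.mem_antidiagonal] at hx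
        simp only at hx
        omega

theorem coeff_pow_dvd {p : ℕ} [Fact p.Prime] [CharP k p] (f : k[X]) {i n : ℕ} (hi : p ∣ i)
    (hn : ¬ p ∣ n) : (f ^ i).coeff n = 0 := by
  obtain ⟨i', rfl⟩ := hi
  rw [mul_comm, pow_mul, ← map_frobenius_expand p, coeff_map,
    coeff_expand (Fact.out : p.Prime).pos, if_neg hn, map_zero]

theorem lin_coeff_zero (lam c : k) (i : ℕ) :
    ((C lam + C c * X : k[X]) ^ i).coeff 0 = lam ^ i := by
  rw [coeff_zero_eq_eval_zero]
  simp

theorem lin_coeff_one (lam c : k) (i : ℕ) :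
    ((C lam + C c * X : k[X]) ^ i).coeff 1 = i * lam ^ (i - 1) * c := by
  have h1 : ((C lam + C c * X : k[X]) ^ i).coeff 1 =
      (derivative ((C lam + C c * X : k[X]) ^ i)).coeff 0 := by
    rw [coeff_derivative]
    simp
  rw [h1, coeff_zero_eq_eval_zero, derivative_pow]
  simp

section Low

variable {p : ℕ} [Fact p.Prime] [CharP k p] {Q : k[X][X]} {d : ℕ}

theorem ev1_coeff_low (hlow : ∀ i j, i + j < d → (Q.coeff j).coeff i = 0 ∨ (p ∣ i ∧ p ∣ j))
    (lam c : k) {n : ℕ} (hn : ¬ p ∣ n) (hdn : d ≤ n) :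
    (ev1 (C lam * X + C c * X ^ 2) Q).coeff n = ∑ m ∈ Finset.Ico d (n + 1),
      ∑ x ∈ Finset.HasAntidiagonal.antidiagonal m, (Q.coeff x.2).coeff x.1 *
        ((C lam + C c * X) ^ x.1).coeff (n - m) := by
  rw [ev1_coeff, ← Finset.sum_range_add_sum_Ico _ (by omega : d ≤ n + 1), add_eq_right]
  refine Finset.sum_eq_zero fun m hm => Finset.sum_eq_zero fun x hx => ?_
  rw [Finset.mem_range] at hm
  rw [Finset.HasAntidiagonal.mem_antidiagonal] at hx
  rcases hlow x.1 x.2 (by omega) with h | ⟨h1, h2⟩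
  · rw [h, zero_mul]
  · rw [coeff_pow_dvd (p := p) _ h1, mul_zero]
    intro h3
    apply hn
    have h4 : p ∣ m := by
      rw [← hx]
      exact dvd_add h1 h2
    have h5 : n = (n - m) + m := by omega
    rw [h5]
    exact dvd_add h3 h4

theorem ev1_coeff_at (hlow : ∀ i j, i + j < d → (Q.coeff j).coeff i = 0 ∨ (p ∣ i ∧ p ∣ j))
    (lam c : k) (hd : ¬ p ∣ d) :
    (ev1 (C lam * X + C c * X ^ 2) Q).coeff d = (hm Q d).eval lam := by
  rw [ev1_coeff_low hlow lam c hd le_rfl, Nat.Ico_succ_singleton, Finset.sum_singleton, hm_eval]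
  refine Finset.sum_congr rfl fun x _ => ?_
  rw [Nat.sub_self, lin_coeff_zero]

theorem hm_derivative_eval (Q : k[X][X]) (d : ℕ) (lam : k) : (derivative (hm Q d)).eval lam =
    ∑ x ∈ Finset.HasAntidiagonal.antidiagonal d, (Q.coeff x.2).coeff x.1 * (x.1 * lam ^ (x.1 - 1)) := by
  rw [hm, derivative_sum, eval_finsetSum]
  refine Finset.sum_congr rfl fun x _ => ?_
  rw [derivative_C_mul_X_pow]
  simp only [eval_mul, eval_C, eval_pow, eval_X, map_mul, map_natCast, eval_natCast]
  ring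

theorem ev1_coeff_succ (hlow : ∀ i j, i + j < d → (Q.coeff j).coeff i = 0 ∨ (p ∣ i ∧ p ∣ j))
    (lam c : k) (hd : ¬ p ∣ d + 1) :
    (ev1 (C lam * X + C c * X ^ 2) Q).coeff (d + 1) =
      (hm Q (d + 1)).eval lam + c * (derivative (hm Q d)).eval lam := by
  rw [ev1_coeff_low hlow lam c hd (Nat.le_succ d),
    Finset.sum_Ico_succ_top (by omega : d ≤ d + 1), Nat.Ico_succ_singleton, Finset.sum_singleton,
    add_comm, hm_eval, hm_derivative_eval]
  congr 1
  · refine Finset.sum_congr rfl fun x _ => ?_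
    rw [Nat.sub_self, lin_coeff_zero]
  · rw [Finset.mul_sum]
    refine Finset.sum_congr rfl fun x _ => ?_
    rw [Nat.add_sub_cancel_left, lin_coeff_one]
    ring

end Low

/-- Without the quadratic term. -/
theorem ev1_lin_coeff (lam : k) (Q : k[X][X]) (n : ℕ) :
    (ev1 (C lam * X) Q).coeff n = (hm Q n).eval lam := by
  have h1 : (C lam * X : k[X]) = C lam * X + C 0 * X ^ 2 := by
    rw [C_0, zero_mul, add_zero]
  rw [h1, ev1_coeff, hm_eval, Finset.sum_range_succ, Finset.sum_eq_zero, zero_add]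
  · refine Finset.sum_congr rfl fun x _ => ?_
    rw [Nat.sub_self, lin_coeff_zero]
  · intro m hm
    refine Finset.sum_eq_zero fun x _ => ?_
    rw [Finset.mem_range] at hm
    rw [C_0, zero_mul, add_zero, ← C_pow, coeff_C, if_neg (by omega), mul_zero]

/-- The twist: multiplication by `(1 + c w)^m`. -/
theorem twist_coeff (lam c : k) (m : ℕ) {Q : k[X][X]} {d : ℕ}
    (hlow : ∀ i j, i + j < d → (Q.coeff j).coeff i = 0) :
    (ev1 (C lam * X) ((C (1 + C c * X)) ^ m * Q)).coeff (d + 1) =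
      (hm Q (d + 1)).eval lam + m * (c * lam) * (hm Q d).eval lam := by
  have h1 : ev1 (C lam * X) (C (1 + C c * X)) = C 1 + C (c * lam) * X := by
    rw [ev1, coe_eval₂RingHom, eval₂_C, map_add, map_one, map_mul, coe_eval₂RingHom, eval₂_C,
      eval₂_X, C_1, C_mul]
    ring
  have h0 : ∀ n < d, (hm Q n).eval lam = 0 := by
    intro n hn
    rw [hm_eval]
    refine Finset.sum_eq_zero fun x hx => ?_
    rw [hlow x.1 x.2 (by rw [Finset.HasAntidiagonal.mem_antidiagonal.1 hx]; exact hn), zero_mul]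
  rw [map_mul, map_pow, h1, coeff_mul, Finset.sum_eq_add_of_mem (0, d + 1) (1, d)]
  · rw [lin_coeff_zero, lin_coeff_one, ev1_lin_coeff, ev1_lin_coeff, one_pow, one_mul, one_pow,
      mul_one]
  · exact Finset.HasAntidiagonal.mem_antidiagonal.2 (Nat.zero_add _)
  · exact Finset.HasAntidiagonal.mem_antidiagonal.2 (Nat.add_comm _ _)
  · intro h
    have := congrArg Prod.fst h
    simp at this
  · rintro ⟨x, y⟩ hx ⟨h2, h3⟩
    rw [Finset.HasAntidiagonal.mem_antidiagonal] at hx
    simp only at hx ⊢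
    have h4 : y < d := by
      rcases Nat.lt_or_ge y d with h | h
      · exact h
      · exfalso
        rcases Nat.eq_or_lt_of_le h with h5 | h5
        · exact h3 (by rw [Prod.mk.injEq]; omega)
        · exact h2 (by rw [Prod.mk.injEq]; omega)
    rw [ev1_lin_coeff, h0 y h4, mul_zero]

/-! ### The choice of the parameters -/

theorem exists_nonroot [Infinite k] {f : k[X]} (hf : f ≠ 0) {bad : Set k} (hb : bad.Finite) :
    ∃ x, x ∉ bad ∧ f.eval x ≠ 0 := by
  obtain ⟨x, hx⟩ := (hb.union (f.rootSet_finite k)).exists_notMem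
  rw [Set.mem_union, not_or] at hx
  refine ⟨x, hx.1, fun h => hx.2 ?_⟩
  rw [mem_rootSet]
  exact ⟨hf, by rwa [← coe_aeval_eq_eval] at h⟩

theorem exists_affine [Infinite k] {a b : k} (hb : b ≠ 0) {bad : Set k} (hbad : bad.Finite) :
    ∃ c, c ∉ bad ∧ a + c * b ≠ 0 := by
  obtain ⟨c, hc, h⟩ := exists_nonroot (f := C b * X + C a) (by
    intro h
    have h1 := congrArg (fun f : k[X] => f.coeff 1) h
    simp only [coeff_add, coeff_C_mul, coeff_X_one, mul_one, coeff_C, coeff_zero] at h1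
    simp only [one_ne_zero, if_false, add_zero] at h1
    exact hb h1) hbad
  refine ⟨c, hc, fun h1 => h ?_⟩
  rw [eval_add, eval_mul, eval_C, eval_X, eval_C]
  linear_combination h1

theorem pick_tilt [Infinite k] {p : ℕ} [Fact p.Prime] [CharP k p] {Q : k[X][X]} {d q : ℕ}
    (hq : p ∣ q) (hdq : d < q)
    (hlow : ∀ i j, i + j < d → (Q.coeff j).coeff i = 0 ∨ (p ∣ i ∧ p ∣ j)) {i₁ j₁ : ℕ}
    (hd : i₁ + j₁ = d) (h1 : (Q.coeff j₁).coeff i₁ ≠ 0) (h2 : ¬ (p ∣ i₁ ∧ p ∣ j₁))
    (bad : k → k → Prop) (hb0 : {lam | bad lam 0}.Finite) (hb : ∀ lam, {c | bad lam c}.Finite) :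
    ∃ lam c, ¬ bad lam c ∧ ∃ i₀ < q, ¬ p ∣ i₀ ∧ ∀ P : k[X][X],
      (∀ i j, i + j < q → (P.coeff j).coeff i = (Q.coeff j).coeff i) →
      (ev1 (C lam * X + C c * X ^ 2) P).coeff i₀ ≠ 0 := by
  have hp := (Fact.out : p.Prime)
  have hPlow : ∀ P : k[X][X], (∀ i j, i + j < q → (P.coeff j).coeff i = (Q.coeff j).coeff i) →
      ∀ i j, i + j < d → (P.coeff j).coeff i = 0 ∨ (p ∣ i ∧ p ∣ j) := by
    intro P hP i j hij
    rw [hP i j (by omega)]
    exact hlow i j hij
  have hPd : ∀ P : k[X][X], (∀ i j, i + j < q → (P.coeff j).coeff i = (Q.coeff j).coeff i) →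
      ∀ n < q, hm P n = hm Q n := by
    intro P hP n hn
    exact hm_congr fun i j hij => hP i j (by omega)
  by_cases hpd : p ∣ d
  · have hd1 : ¬ p ∣ d + 1 := fun h => hp.one_lt.ne' (Nat.dvd_one.1 ((Nat.dvd_add_right hpd).1 h))
    have hdq' : d + 1 < q := by
      obtain ⟨a, rfl⟩ := hpd
      obtain ⟨b, rfl⟩ := hq
      have h3 : a < b := lt_of_mul_lt_mul_left hdq (Nat.zero_le p)
      have h4 : p * (a + 1) ≤ p * b := Nat.mul_le_mul_left p h3
      have h5 := hp.two_le
      rw [mul_add, mul_one] at h4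
      omega
    have hi : ¬ p ∣ i₁ := by
      intro h
      refine h2 ⟨h, ?_⟩
      rw [← hd] at hpd
      exact (Nat.dvd_add_right h).1 hpd
    have hi0 : i₁ ≠ 0 := fun h => hi (by rw [h]; exact dvd_zero p)
    have hD : derivative (hm Q d) ≠ 0 := by
      intro h
      have h3 := congrArg (fun f : k[X] => f.coeff (i₁ - 1)) h
      simp only [coeff_derivative, coeff_zero] at h3
      have h4 : i₁ - 1 + 1 = i₁ := by omega
      rw [h4, hm_coeff Q hd] at h3
      have h5 : (((i₁ - 1 : ℕ) : k) + 1) = (i₁ : k) := by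
        rw [← Nat.cast_succ, Nat.succ_eq_add_one, h4]
      rw [h5] at h3
      rcases mul_eq_zero.1 h3 with h6 | h6
      · exact h1 h6
      · exact hi ((CharP.cast_eq_zero_iff k p i₁).1 h6)
    obtain ⟨lam, -, hlam⟩ := exists_nonroot hD Set.finite_empty
    obtain ⟨c, hc, hcE⟩ := exists_affine (a := (hm Q (d + 1)).eval lam) hlam (hb lam)
    refine ⟨lam, c, hc, d + 1, hdq', hd1, fun P hP => ?_⟩
    rw [ev1_coeff_succ (hPlow P hP) lam c hd1, hPd P hP _ hdq', hPd P hP _ hdq]
    exact hcE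
  · have hH : hm Q d ≠ 0 := by
      intro h
      apply h1
      rw [← hm_coeff Q hd, h, coeff_zero]
    obtain ⟨lam, hl, hlam⟩ := exists_nonroot hH hb0
    refine ⟨lam, 0, hl, d, hdq, hpd, fun P hP => ?_⟩
    rw [ev1_coeff_at (hPlow P hP) lam 0 hpd, hPd P hP _ hdq]
    exact hlam

theorem pick_twist [Infinite k] {p : ℕ} [Fact p.Prime] [CharP k p] {Q : k[X][X]} {d q : ℕ}
    (hq : p ∣ q) (hdq : d < q) (hpd : p ∣ d)
    (hlow : ∀ i j, i + j < d → (Q.coeff j).coeff i = 0) {i₁ j₁ : ℕ}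
    (hd : i₁ + j₁ = d) (h1 : (Q.coeff j₁).coeff i₁ ≠ 0) {x : ℤ} (hx : ¬ (p : ℤ) ∣ x)
    (bad : k → Prop) (hb : {lam | bad lam}.Finite) :
    ∃ lam c, ¬ bad lam ∧ ∃ i₀ < q, ¬ p ∣ i₀ ∧ ∀ P : k[X][X],
      (∀ i j, i + j < q → (P.coeff j).coeff i = (Q.coeff j).coeff i) →
      ∀ m : ℕ, (p : ℤ) ∣ m + x → (ev1 (C lam * X) ((C (1 + C c * X)) ^ m * P)).coeff i₀ ≠ 0 := by
  have hp := (Fact.out : p.Prime)
  have hd1 : ¬ p ∣ d + 1 := fun h => hp.one_lt.ne' (Nat.dvd_one.1 ((Nat.dvd_add_right hpd).1 h))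
  have hdq' : d + 1 < q := by
    obtain ⟨a, rfl⟩ := hpd
    obtain ⟨b, rfl⟩ := hq
    have h3 : a < b := lt_of_mul_lt_mul_left hdq (Nat.zero_le p)
    have h4 : p * (a + 1) ≤ p * b := Nat.mul_le_mul_left p h3
    have h5 := hp.two_le
    rw [mul_add, mul_one] at h4
    omega
  have hH : hm Q d ≠ 0 := by
    intro h
    apply h1
    rw [← hm_coeff Q hd, h, coeff_zero]
  obtain ⟨lam, hl, hlam⟩ := exists_nonroot (mul_ne_zero X_ne_zero hH) hb
  rw [eval_mul, eval_X] at hlam
  have hx0 : (x : k) ≠ 0 := fun h => hx ((CharP.intCast_eq_zero_iff k p x).1 h)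
  obtain ⟨c, -, hcE⟩ := exists_affine (a := (hm Q (d + 1)).eval lam)
    (mul_ne_zero hx0 hlam) Set.finite_empty
  refine ⟨lam, -c, hl, d + 1, hdq', hd1, fun P hP m hm' => ?_⟩
  have hPd : ∀ n < q, hm P n = hm Q n := fun n hn => hm_congr fun i j hij => hP i j (by omega)
  rw [twist_coeff lam (-c) m (fun i j hij => by rw [hP i j (by omega)]; exact hlow i j hij),
    hPd _ hdq', hPd _ hdq]
  have h3 : (m : k) = - (x : k) := by
    have h4 := (CharP.intCast_eq_zero_iff k p (m + x)).2 hm'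
    push_cast at h4
    linear_combination h4
  rw [h3]
  intro h4
  apply hcE
  linear_combination h4

end Alg

end Pool.Agent.TWJ
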