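import Pool.Agent.Lib.TWJ.CON1
import Pool.Agent.Lib.TWM.B1

/-!
# TANK W, row CON: frame changes

* `ev2 w T f` is the value of `f` at `(w, T)`; `sb f` substitutes `f` for the inner variable;
* `Frk.tilt`, `evQ_tilt`: the tilt `w = w' + λ T + c T²`;
* `Frk.twist`, `evQ_twist`: the twist `M' g = M g * (1 + c w) ^ χ g`.
-/

set_option autoImplicit false

open Polynomial

namespace Pool.Agent.TWJ

open Pool.Agent.H15JM (RVal)
open Pool.Agent.D2 (Ctx0)
open Pool.Agent.D2P (clI)
open Pool.Agent.TWM (MS Gt)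

universe u

variable {k Ω : Type u} [Field k] [Field Ω] [Algebra k Ω] {v : RVal Ω} {G : AddSubgroup ℝ}
  {M : ℝ → Ω} {w T : Ω} {K : IntermediateField k Ω}

/-- The value at `(w, T)`. -/
noncomputable def ev2 (w T : Ω) : k[X][X] →+* Ω := eval₂RingHom (eval₂RingHom (algebraMap k Ω) w) T

theorem ev2_eq (w T : Ω) (f : k[X][X]) :
    (f.map (mapRingHom (algebraMap k Ω))).evalEval w T = ev2 w T f := by
  induction f using Polynomial.induction_on' with
  | add f g hf hg => rw [Polynomial.map_add, evalEval_add, hf, hg, map_add]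
  | monomial j g =>
    rw [map_monomial, ev2, coe_eval₂RingHom, eval₂_monomial, coe_mapRingHom,
      ← C_mul_X_pow_eq_monomial, evalEval_mul, evalEval_pow, evalEval_C, evalEval_X, eval_map,
      coe_eval₂RingHom]

theorem ev2_C (w T : Ω) (f : k[X]) : ev2 w T (C f) = aeval w f := by
  rw [ev2, coe_eval₂RingHom, eval₂_C, coe_eval₂RingHom]
  rfl

theorem ev2_X (w T : Ω) : ev2 (k := k) w T X = T := by
  rw [ev2, coe_eval₂RingHom, eval₂_X]

theorem ev2_eq_sum (w T : Ω) (f : k[X][X]) : ev2 w T f = f.sum fun j g => aeval w g * T ^ j := by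
  rw [ev2, coe_eval₂RingHom, eval₂_def]
  rfl

theorem evQ_eq (P : ℝ →₀ k[X][X]) : evQ M w T P = ∑ g ∈ P.support, M g * ev2 w T (P g) := by
  rw [evQ, Finsupp.sum]
  exact Finset.sum_congr rfl fun g _ => by rw [ev2_eq]

theorem evQ_eq_of_subset {P : ℝ →₀ k[X][X]} {S : Finset ℝ} (hS : P.support ⊆ S) :
    evQ M w T P = ∑ g ∈ S, M g * ev2 w T (P g) := by
  rw [evQ_eq]
  refine Finset.sum_subset hS fun g _ hg => ?_
  rw [Finsupp.notMem_support_iff.1 hg, map_zero, mul_zero]

/-- The substitution of `f` for the inner variable. -/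
noncomputable def sb (f : k[X][X]) : k[X][X] →+* k[X][X] :=
  eval₂RingHom (eval₂RingHom (C.comp C) f) X

theorem sb_C (f : k[X][X]) (g : k[X]) : sb f (C g) = g.eval₂ (C.comp C) f := by
  rw [sb, coe_eval₂RingHom, eval₂_C, coe_eval₂RingHom]

theorem sb_X (f : k[X][X]) : sb f X = X := by
  rw [sb, coe_eval₂RingHom, eval₂_X]

theorem ev2_sb (w T : Ω) (f P : k[X][X]) : ev2 w T (sb f P) = ev2 (ev2 w T f) T P := by
  have h2 : ∀ q : k[X], ev2 w T (q.eval₂ (C.comp C) f) = aeval (ev2 w T f) q := by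
    intro q
    induction q using Polynomial.induction_on' with
    | add q₁ q₂ h₁ h₂ => rw [eval₂_add, map_add, h₁, h₂, map_add]
    | monomial n c =>
      rw [eval₂_monomial, map_mul, map_pow, RingHom.comp_apply, ev2_C, aeval_C, aeval_monomial]
  induction P using Polynomial.induction_on' with
  | add P Q h₁ h₂ => rw [map_add, map_add, h₁, h₂, map_add]
  | monomial n q =>
    rw [← C_mul_X_pow_eq_monomial, map_mul, map_pow, sb_C, sb_X, map_mul, map_pow, ev2_X, h2,
      map_mul, map_pow, ev2_X, ev2_C]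

/-- The coefficients at the inner variable `0`. -/
theorem sb_coeff (f P : k[X][X]) (n : ℕ) :
    ((sb f P).coeff n).coeff 0 = (ev1 (f.map (evalRingHom 0)) P).coeff n := by
  have h1 : (sb f P).map (evalRingHom 0) = ev1 (f.map (evalRingHom 0)) P := by
    have h2 : ∀ q : k[X], (q.eval₂ (C.comp C) f).map (evalRingHom 0) =
        q.eval₂ C (f.map (evalRingHom 0)) := by
      intro q
      induction q using Polynomial.induction_on' with
      | add q₁ q₂ h₁ h₂ => rw [eval₂_add, Polynomial.map_add, h₁, h₂, eval₂_add]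
      | monomial n c =>
        rw [eval₂_monomial, Polynomial.map_mul, Polynomial.map_pow, RingHom.comp_apply, map_C,
          eval₂_monomial, coe_evalRingHom, eval_C]
    induction P using Polynomial.induction_on' with
    | add P Q h₁ h₂ => rw [map_add, Polynomial.map_add, h₁, h₂, map_add]
    | monomial n q =>
      rw [← C_mul_X_pow_eq_monomial, map_mul, map_pow, sb_C, sb_X, Polynomial.map_mul,
        Polynomial.map_pow, h2, map_X, map_mul, map_pow, ev1, coe_eval₂RingHom, eval₂_C, eval₂_X,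
        coe_eval₂RingHom]
  rw [← h1, coeff_map, coe_evalRingHom, coeff_zero_eq_eval_zero]

/-- `w + λ T + c T²`. -/
noncomputable def tl (lam c : k) : k[X][X] := C X + (C (C lam) * X + C (C c) * X ^ 2)

theorem ev2_tl (w T : Ω) (lam c : k) :
    ev2 w T (tl lam c) = w + (algebraMap k Ω lam * T + algebraMap k Ω c * T ^ 2) := by
  simp only [tl, map_add, map_mul, map_pow, ev2_C, ev2_X, aeval_X, aeval_C]

theorem tl_map (lam c : k) :
    (tl lam c).map (evalRingHom 0) = C lam * X + C c * X ^ 2 := by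
  simp [tl]

/-! ### Bounds -/

theorem ge_aeval (h0 : Ctx0 k v) (hw : v.Ge 0 w) (f : k[X]) : v.Ge 0 (aeval w f) := by
  rw [aeval_eq_sum_range]
  refine RVal.Ge.sum _ _ fun i _ => ?_
  rw [Algebra.smul_def]
  have h1 := (h0.ge (f.coeff i)).mul (TWM.ge_pow hw i)
  rwa [mul_zero, add_zero] at h1

theorem ge_ev2 (h0 : Ctx0 k v) (hw : v.Ge 0 w) (hT : v.Ge 0 T) (f : k[X][X]) :
    v.Ge 0 (ev2 w T f) := by
  rw [ev2_eq_sum, Polynomial.sum]
  refine RVal.Ge.sum _ _ fun j _ => ?_
  have h1 := (ge_aeval h0 hw (f.coeff j)).mul (TWM.ge_pow hT j)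
  rwa [mul_zero, add_zero] at h1

theorem Frk.gew (hfr : Frk v G M w T K) : v.Ge 0 w := fun _ => hfr.wpos.le

theorem Frk.geT (hfr : Frk v G M w T K) : v.Ge 0 T := fun _ => hfr.tpos.le

theorem ge_evQ (h0 : Ctx0 k v) (hfr : Frk v G M w T K) {μ : ℝ} {P : ℝ →₀ k[X][X]}
    (hP : InCt G μ P) : v.Ge μ (evQ M w T P) := by
  rw [evQ_eq]
  refine RVal.Ge.sum _ _ fun g hg => ?_
  obtain ⟨h1, h2⟩ := hP g (Finsupp.mem_support_iff.1 hg)
  have h3 : v.Ge g (M g) := fun _ => (hfr.ms.val g h1).ge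
  exact (h3.mul (ge_ev2 h0 hfr.gew hfr.geT (P g))).mono (by linarith)

/-! ### The tilt -/

theorem InCt.mapRange {μ : ℝ} {P : ℝ →₀ k[X][X]} (hP : InCt G μ P) (f : k[X][X] →+* k[X][X]) :
    InCt G μ (P.mapRange f (map_zero f)) := by
  intro g hg
  refine hP g fun h1 => hg ?_
  rw [Finsupp.mapRange_apply, h1, map_zero]

theorem evQ_tilt {w' : Ω} {lam c : k}
    (hw : w = w' + (algebraMap k Ω lam * T + algebraMap k Ω c * T ^ 2)) (P : ℝ →₀ k[X][X]) :
    evQ M w T P = evQ M w' T (P.mapRange (sb (tl lam c)) (map_zero _)) := by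
  rw [evQ_eq, evQ_eq_of_subset (Finsupp.support_mapRange (hf := map_zero _))]
  refine Finset.sum_congr rfl fun g _ => ?_
  rw [Finsupp.mapRange_apply, ev2_sb, ev2_tl, ← hw]

theorem Frk.tilt (h0 : Ctx0 k v) (hfr : Frk v G M w T K) {lam c : k}
    (hne : w ≠ algebraMap k Ω lam * T + algebraMap k Ω c * T ^ 2) :
    Frk v G M (w - (algebraMap k Ω lam * T + algebraMap k Ω c * T ^ 2)) T K := by
  set e : Ω := algebraMap k Ω lam * T + algebraMap k Ω c * T ^ 2 with he
  have hge : Gt v 0 e := by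
    have hT : Gt v 0 T := fun _ => hfr.tpos
    have h1 : Gt v 0 (T * algebraMap k Ω lam) := by
      have := hT.mul_ge (h0.ge lam)
      rwa [add_zero] at this
    have h2 : Gt v 0 (T * (T * algebraMap k Ω c)) := by
      have := hT.mul_ge (hfr.geT.mul (h0.ge c))
      rwa [add_zero, add_zero] at this
    have h3 : e = T * algebraMap k Ω lam + T * (T * algebraMap k Ω c) := by rw [he]; ring
    rw [h3]
    exact h1.add h2
  have hgw : Gt v 0 w := fun _ => hfr.wpos
  have hw0 : w - e ≠ 0 := sub_ne_zero.2 hne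
  refine ⟨hfr.ms, hfr.fg, hw0, (hgw.sub hge) hw0, hfr.tne, hfr.tpos, ?_⟩
  rw [hfr.eq]
  congr 1
  refine le_antisymm (IntermediateField.adjoin_le_iff.2 ?_) (IntermediateField.adjoin_le_iff.2 ?_)
  · set L := IntermediateField.adjoin k (M '' (G : Set ℝ) ∪ {w - e, T}) with hL
    have hT : T ∈ L := IntermediateField.subset_adjoin k _ (Or.inr (Or.inr rfl))
    have hw : w - e ∈ L := IntermediateField.subset_adjoin k _ (Or.inr (Or.inl rfl))
    have heL : e ∈ L := add_mem (mul_mem (algebraMap_mem L lam) hT)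
      (mul_mem (algebraMap_mem L c) (pow_mem hT 2))
    rintro x (hx | hx | hx)
    · exact IntermediateField.subset_adjoin k _ (Or.inl hx)
    · rw [hx]
      have h1 := add_mem hw heL
      rwa [sub_add_cancel] at h1
    · rw [Set.mem_singleton_iff] at hx
      rw [hx]
      exact hT
  · set L := IntermediateField.adjoin k (M '' (G : Set ℝ) ∪ {w, T}) with hL
    have hT : T ∈ L := IntermediateField.subset_adjoin k _ (Or.inr (Or.inr rfl))
    have hw : w ∈ L := IntermediateField.subset_adjoin k _ (Or.inr (Or.inl rfl))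
    have heL : e ∈ L := add_mem (mul_mem (algebraMap_mem L lam) hT)
      (mul_mem (algebraMap_mem L c) (pow_mem hT 2))
    rintro x (hx | hx | hx)
    · exact IntermediateField.subset_adjoin k _ (Or.inl hx)
    · rw [hx]
      exact sub_mem hw heL
    · rw [Set.mem_singleton_iff] at hx
      rw [hx]
      exact hT

/-! ### The twist -/

/-- `M g * (1 + c w) ^ χ g`. -/
noncomputable def tws (k : Type u) {Ω : Type u} [Field k] [Field Ω] [Algebra k Ω] (M : ℝ → Ω)
    (w : Ω) (c : k) (χ : ℝ → ℤ) (g : ℝ) : Ω := M g * (1 + algebraMap k Ω c * w) ^ χ g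

theorem Frk.unit (h0 : Ctx0 k v) (hfr : Frk v G M w T K) (c : k) :
    1 + algebraMap k Ω c * w ≠ 0 ∧ v (1 + algebraMap k Ω c * w) = 0 := by
  by_cases h1 : algebraMap k Ω c * w = 0
  · rw [h1, add_zero]
    exact ⟨one_ne_zero, v.map_one⟩
  · have h2 : v 1 < v (algebraMap k Ω c * w) := by
      have hgw : Gt v 0 w := fun _ => hfr.wpos
      have h3 := hgw.mul_ge (h0.ge c)
      rw [add_zero, mul_comm] at h3
      rw [v.map_one]
      exact h3 h1
    have h4 := v.add_of_lt one_ne_zero h1 h2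
    rw [v.map_one] at h4
    exact h4

theorem Frk.twist (h0 : Ctx0 k v) (hfr : Frk v G M w T K) (c : k) {χ : ℝ → ℤ}
    (hχ : ∀ g ∈ G, ∀ h ∈ G, χ (g + h) = χ g + χ h) : Frk v G (tws k M w c χ) w T K := by
  obtain ⟨hu, hvu⟩ := hfr.unit h0 c
  set e : Ω := 1 + algebraMap k Ω c * w with he
  refine ⟨⟨fun g hg => mul_ne_zero (hfr.ms.ne g hg) (zpow_ne_zero _ hu), fun g hg => ?_,
    fun g hg h hh => ?_⟩, hfr.fg, hfr.wne, hfr.wpos, hfr.tne, hfr.tpos, ?_⟩
  · rw [tws, v.map_mul (hfr.ms.ne g hg) (zpow_ne_zero _ hu), v.map_zpow hu, hvu, mul_zero,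
      add_zero, hfr.ms.val g hg]
  · rw [tws, tws, tws, hfr.ms.mul g hg h hh, hχ g hg h hh, zpow_add₀ hu]
    ring
  · rw [hfr.eq]
    congr 1
    refine le_antisymm (IntermediateField.adjoin_le_iff.2 ?_)
      (IntermediateField.adjoin_le_iff.2 ?_)
    · set L := IntermediateField.adjoin k (tws k M w c χ '' (G : Set ℝ) ∪ {w, T}) with hL
      have hT : T ∈ L := IntermediateField.subset_adjoin k _ (Or.inr (Or.inr rfl))
      have hw : w ∈ L := IntermediateField.subset_adjoin k _ (Or.inr (Or.inl rfl))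
      have heL : e ∈ L := add_mem (one_mem L) (mul_mem (algebraMap_mem L c) hw)
      rintro x (hx | hx | hx)
      · obtain ⟨g, hg, rfl⟩ := hx
        have h1 : tws k M w c χ g ∈ L := IntermediateField.subset_adjoin k _ (Or.inl ⟨g, hg, rfl⟩)
        have h2 : M g = tws k M w c χ g * (e ^ χ g)⁻¹ := by
          rw [tws, mul_assoc, mul_inv_cancel₀ (zpow_ne_zero _ hu), mul_one]
        rw [h2]
        exact mul_mem h1 (inv_mem (zpow_mem heL _))
      · rw [hx]
        exact hw
      · rw [Set.mem_singleton_iff] at hx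
        rw [hx]
        exact hT
    · set L := IntermediateField.adjoin k (M '' (G : Set ℝ) ∪ {w, T}) with hL
      have hT : T ∈ L := IntermediateField.subset_adjoin k _ (Or.inr (Or.inr rfl))
      have hw : w ∈ L := IntermediateField.subset_adjoin k _ (Or.inr (Or.inl rfl))
      have heL : e ∈ L := add_mem (one_mem L) (mul_mem (algebraMap_mem L c) hw)
      rintro x (hx | hx | hx)
      · obtain ⟨g, hg, rfl⟩ := hx
        have h1 : M g ∈ L := IntermediateField.subset_adjoin k _ (Or.inl ⟨g, hg, rfl⟩)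
        exact mul_mem h1 (zpow_mem heL _)
      · rw [hx]
        exact hw
      · rw [Set.mem_singleton_iff] at hx
        rw [hx]
        exact hT

/-- The Laurent polynomial in the twisted frame. -/
noncomputable def twP (c : k) (m : ℝ → ℕ) (P : ℝ →₀ k[X][X]) : ℝ →₀ k[X][X] :=
  Finsupp.onFinset P.support (fun g => (C (1 + C c * X)) ^ m g * P g) fun g hg => by
    rw [Finsupp.mem_support_iff]
    intro h
    exact hg (by rw [h, mul_zero])

theorem twP_apply (c : k) (m : ℝ → ℕ) (P : ℝ →₀ k[X][X]) (g : ℝ) :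
    twP c m P g = (C (1 + C c * X)) ^ m g * P g := rfl

theorem InCt.twP {μ : ℝ} {P : ℝ →₀ k[X][X]} (hP : InCt G μ P) (c : k) (m : ℝ → ℕ) :
    InCt G μ (twP c m P) := by
  intro g hg
  refine hP g fun h1 => hg ?_
  rw [twP_apply, h1, mul_zero]

/-- **The twist**: the Laurent polynomial in the twisted frame, up to a large value. -/
theorem evQ_twist {p : ℕ} [Fact p.Prime] [CharP k p] [CharP Ω p] (h0 : Ctx0 k v)
    (hfr : Frk v G M w T K) (c : k) (χ : ℝ → ℤ) {μ : ℝ} {P : ℝ →₀ k[X][X]} (hP : InCt G μ P)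
    (B : ℝ) : ∃ m : ℝ → ℕ, (∀ g ∈ P.support, (p : ℤ) ∣ m g + χ g) ∧
      v.Ge B (evQ M w T P - evQ (tws k M w c χ) w T (twP c m P)) := by
  classical
  obtain ⟨hu, hvu⟩ := hfr.unit h0 c
  have hp := (Fact.out : p.Prime)
  -- the exponent
  obtain ⟨N₀, hN₀⟩ := exists_nat_ge ((B - μ) / v w)
  obtain ⟨N₁, hN₁⟩ : ∃ N₁ : ℕ, ∀ g ∈ P.support, χ g ≤ N₁ :=
    ⟨P.support.sup fun g => (χ g).toNat, fun g hg => (Int.self_le_toNat _).trans
      (by exact_mod_cast Finset.le_sup (f := fun g => (χ g).toNat) hg)⟩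
  set N : ℕ := N₀ + N₁ + 1 with hN
  have hpN : N < p ^ N := Nat.lt_pow_self hp.one_lt
  have hle : ∀ g ∈ P.support, 0 ≤ ((p ^ N : ℕ) : ℤ) - χ g := by
    intro g hg
    have h1 := hN₁ g hg
    have h2 : ((N : ℕ) : ℤ) < ((p ^ N : ℕ) : ℤ) := by exact_mod_cast hpN
    omega
  refine ⟨fun g => (((p ^ N : ℕ) : ℤ) - χ g).toNat, fun g hg => ?_, ?_⟩
  · rw [Int.toNat_of_nonneg (hle g hg), sub_add_cancel]
    push_cast
    exact dvd_pow_self _ (by omega)
  · rw [evQ_eq, evQ_eq_of_subset (P := twP c _ P) (S := P.support)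
      Finsupp.support_onFinset_subset, ← Finset.sum_sub_distrib]
    refine RVal.Ge.sum _ _ fun g hg => ?_
    obtain ⟨h1, h2⟩ := hP g (Finsupp.mem_support_iff.1 hg)
    have e1 : ev2 w T (twP c (fun g => (((p ^ N : ℕ) : ℤ) - χ g).toNat) P g) =
        (1 + algebraMap k Ω c * w) ^ ((((p ^ N : ℕ) : ℤ) - χ g).toNat : ℕ) *
          ev2 w T (P g) := by
      rw [twP_apply, map_mul, map_pow, ev2_C]
      simp only [map_add, map_one, map_mul, aeval_C, aeval_X]
    have e2 : (1 + algebraMap k Ω c * w) ^ χ g *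
        (1 + algebraMap k Ω c * w) ^ ((((p ^ N : ℕ) : ℤ) - χ g).toNat : ℕ) =
        1 + (algebraMap k Ω c * w) ^ p ^ N := by
      rw [← zpow_natCast, Int.toNat_of_nonneg (hle g hg), ← zpow_add₀ hu, add_sub_cancel,
        zpow_natCast, add_pow_char_pow, one_pow]
    have e3 : M g * ev2 w T (P g) - tws k M w c χ g *
        ev2 w T (twP c (fun g => (((p ^ N : ℕ) : ℤ) - χ g).toNat) P g) =
        - (M g * (w ^ p ^ N * (algebraMap k Ω c ^ p ^ N * ev2 w T (P g)))) := by
      rw [e1, tws]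
      linear_combination - (M g * ev2 w T (P g)) * e2
    rw [e3]
    have h3 : v.Ge g (M g) := fun _ => (hfr.ms.val g h1).ge
    have h4 : v.Ge (v w) w := v.ge_self w
    have h5 := h3.mul ((TWM.ge_pow h4 (p ^ N)).mul
      ((TWM.ge_pow (h0.ge c) (p ^ N)).mul (ge_ev2 h0 hfr.gew hfr.geT (P g))))
    refine (h5.mono ?_).neg
    have h6 : (B - μ) / v w * v w = B - μ := div_mul_cancel₀ _ hfr.wpos.ne'
    have h7 : ((N₀ : ℕ) : ℝ) ≤ ((p ^ N : ℕ) : ℝ) := by exact_mod_cast (by omega)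
    have h8 : (B - μ) / v w * v w ≤ ((p ^ N : ℕ) : ℝ) * v w :=
      mul_le_mul_of_nonneg_right (hN₀.trans h7) hfr.wpos.le
    rw [mul_zero]
    linarith

end Pool.Agent.TWJ
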