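import Pool.Agent.Lib.TWJ.CON2
import Pool.Agent.Lib.TWJ.EXG
import Pool.Agent.Lib.TWJ.XC
import Pool.Agent.Lib.TW_NFG.P1
import Pool.Agent.Lib.TW.Estar

/-!
# TANK W, row CON: the index of a representation at a frame

* `Frk.basis`: a frame has a basis of monomials, of the right cardinality;
* `sl_frame`: if the coefficient of `T ^ i₀`, `p ∤ i₀`, at the least exponent is a unit, the index
  is `≤ i₀`.
-/

set_option autoImplicit false

open Polynomial

namespace Pool.Agent.TWJ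

open Pool.Agent.H15JM (RVal)
open Pool.Agent.LU1 (adj)
open Pool.Agent.D2 (Ctx0)
open Pool.Agent.D2P (clI mem_clI mem_adj_self adj_le)
open Pool.Agent.TW
open Pool.Agent.TWM (MS Gt SL GB PI mem_PI CompleteV OI le_clI adj_range pbasis_clI gen_of_bas
  transcendental_kr)

universe u

variable {k Ω : Type u} [Field k] [Field Ω] [Algebra k Ω] {v : RVal Ω} {G : AddSubgroup ℝ}
  {M : ℝ → Ω} {w T : Ω} {K : IntermediateField k Ω} {r : ℕ}

/-! ### The coefficients -/

/-- The coefficient of `T ^ j`. -/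
noncomputable def cj (M : ℝ → Ω) (w : Ω) (P : ℝ →₀ k[X][X]) (j : ℕ) : Ω :=
  ∑ g ∈ P.support, M g * aeval w ((P g).coeff j)

theorem evQ_eq_cj (P : ℝ →₀ k[X][X]) : ∃ N : ℕ, (∀ j, N ≤ j → ∀ g, (P g).coeff j = 0) ∧
    evQ M w T P = ∑ j ∈ Finset.range N, cj M w P j * T ^ j := by
  classical
  set N : ℕ := (P.support.sup fun g => (P g).natDegree) + 1 with hN
  have hdeg : ∀ g ∈ P.support, (P g).natDegree < N := fun g hg =>
    Nat.lt_succ_of_le (Finset.le_sup (f := fun g => (P g).natDegree) hg)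
  refine ⟨N, fun j hj g => ?_, ?_⟩
  · by_cases hg : g ∈ P.support
    · exact coeff_eq_zero_of_natDegree_lt ((hdeg g hg).trans_le hj)
    · rw [Finsupp.notMem_support_iff.1 hg, coeff_zero]
  · rw [evQ_eq]
    have h1 : ∀ g ∈ P.support, M g * ev2 w T (P g) =
        ∑ j ∈ Finset.range N, M g * aeval w ((P g).coeff j) * T ^ j := by
      intro g hg
      rw [ev2_eq_sum, sum_over_range' (P g) (fun j => by rw [map_zero, zero_mul]) N (hdeg g hg),
        Finset.mul_sum]
      exact Finset.sum_congr rfl fun j _ => by rw [mul_assoc]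
    rw [Finset.sum_congr rfl h1, Finset.sum_comm]
    refine Finset.sum_congr rfl fun j _ => ?_
    rw [cj, Finset.sum_mul]

theorem cj_ge (h0 : Ctx0 k v) (hfr : Frk v G M w T K) {μ : ℝ} {P : ℝ →₀ k[X][X]}
    (hP : InCt G μ P) (j : ℕ) : v.Ge μ (cj M w P j) := by
  refine RVal.Ge.sum _ _ fun g hg => ?_
  obtain ⟨h1, h2⟩ := hP g (Finsupp.mem_support_iff.1 hg)
  have h3 : v.Ge g (M g) := fun _ => (hfr.ms.val g h1).ge
  exact (h3.mul (ge_aeval h0 hfr.gew ((P g).coeff j))).mono (by linarith)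

/-- A polynomial with a constant term at `w`. -/
theorem val_aeval_unit (h0 : Ctx0 k v) (hfr : Frk v G M w T K) {f : k[X]} (hf : f.coeff 0 ≠ 0) :
    aeval w f ≠ 0 ∧ v (aeval w f) = 0 := by
  have h1 : aeval w f = algebraMap k Ω (f.coeff 0) + aeval w f.divX * w := by
    conv_lhs => rw [← divX_mul_X_add f]
    rw [map_add, map_mul, aeval_X, aeval_C, add_comm]
  have h2 : algebraMap k Ω (f.coeff 0) ≠ 0 := by
    rwa [Ne, map_eq_zero]
  have h3 : v (algebraMap k Ω (f.coeff 0)) = 0 := h0.triv _ hf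
  by_cases h4 : aeval w f.divX * w = 0
  · rw [h1, h4, add_zero]
    exact ⟨h2, h3⟩
  · have hgw : Gt v 0 w := fun _ => hfr.wpos
    have h5 := hgw.mul_ge (ge_aeval h0 hfr.gew f.divX)
    rw [add_zero, mul_comm] at h5
    have h6 := v.add_of_lt h2 h4 (by rw [h3]; exact h5 h4)
    rw [h1]
    rw [h3] at h6
    exact h6

theorem cj_val (h0 : Ctx0 k v) (hfr : Frk v G M w T K) {μ : ℝ} {P : ℝ →₀ k[X][X]}
    (hP : InCt G μ P) (hμ : μ ∈ G) {j : ℕ} (hj : ((P μ).coeff j).coeff 0 ≠ 0) :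
    cj M w P j ≠ 0 ∧ v (cj M w P j) = μ := by
  classical
  have hμs : μ ∈ P.support := by
    rw [Finsupp.mem_support_iff]
    rintro h
    rw [h, coeff_zero, coeff_zero] at hj
    exact hj rfl
  obtain ⟨h1, h2⟩ := val_aeval_unit h0 hfr hj
  have h3 : M μ * aeval w ((P μ).coeff j) ≠ 0 := mul_ne_zero (hfr.ms.ne μ hμ) h1
  have h4 : v (M μ * aeval w ((P μ).coeff j)) = μ := by
    rw [v.map_mul (hfr.ms.ne μ hμ) h1, h2, add_zero, hfr.ms.val μ hμ]
  have h5 : cj M w P j = M μ * aeval w ((P μ).coeff j) +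
      ∑ g ∈ P.support.erase μ, M g * aeval w ((P g).coeff j) := by
    rw [cj, Finset.add_sum_erase _ (fun g => M g * aeval w ((P g).coeff j)) hμs]
  have h6 : Gt v μ (∑ g ∈ P.support.erase μ, M g * aeval w ((P g).coeff j)) := by
    refine Gt.sum _ _ fun g hg => ?_
    rw [Finset.mem_erase] at hg
    obtain ⟨h7, h8⟩ := hP g (Finsupp.mem_support_iff.1 hg.2)
    have h9 : v.Ge g (M g) := fun _ => (hfr.ms.val g h7).ge
    exact Gt.of_ge ((h9.mul (ge_aeval h0 hfr.gew ((P g).coeff j))).mono (by rw [add_zero]))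
      (lt_of_le_of_ne h8 (Ne.symm hg.1))
  by_cases h7 : ∑ g ∈ P.support.erase μ, M g * aeval w ((P g).coeff j) = 0
  · rw [h5, h7, add_zero]
    exact ⟨h3, h4⟩
  · have h8 := v.add_of_lt h3 h7 (by rw [h4]; exact h6 h7)
    rw [h4] at h8
    rw [h5]
    exact h8

/-! ### The basis of a frame -/

theorem exists_basis (hM : MS v G M) (hG : G.FG) :
    ∃ (s : ℕ) (x : Fin s → Ω), (∀ i, x i ≠ 0) ∧ (LinearIndependent ℚ fun i => v (x i)) ∧
      IntermediateField.adjoin k (Set.range x) =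
        IntermediateField.adjoin k (M '' (G : Set ℝ)) := by
  classical
  obtain ⟨s, x, hx, hind, hGG, hMM, -⟩ := TWN.exists_x k hM hG
  refine ⟨s, x, hx, hind, le_antisymm ?_ ?_⟩
  · rw [IntermediateField.adjoin_le_iff]
    rintro _ ⟨i, rfl⟩
    have h1 : TWM.vl v x (Pi.single i 1) ∈ G := by
      rw [← hGG]
      exact ⟨_, rfl⟩
    have h2 : M (TWM.vl v x (Pi.single i 1)) = x i := by
      rw [← hMM _ h1, TWM.MM_vl hind, mx, Finset.prod_eq_single i]
      · rw [Pi.single_eq_same, zpow_one]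
      · intro j _ hj
        rw [Pi.single_eq_of_ne hj, zpow_zero]
      · intro h
        exact absurd (Finset.mem_univ i) h
    rw [SetLike.mem_coe, ← h2]
    exact IntermediateField.subset_adjoin k _ ⟨_, h1, rfl⟩
  · rw [IntermediateField.adjoin_le_iff]
    rintro _ ⟨g, hg, rfl⟩
    have hg' : g ∈ G := hg
    rw [← hMM g hg', SetLike.mem_coe]
    have h2 : ∀ i, x i ∈ IntermediateField.adjoin k (Set.range x) := fun i =>
      IntermediateField.subset_adjoin k _ ⟨i, rfl⟩
    exact TWM.MM_mem hind h2 g (by rw [hGG]; exact hg')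

theorem adjoin_snoc_snoc {s : ℕ} (x : Fin s → Ω)
    (hx : IntermediateField.adjoin k (Set.range x) =
      IntermediateField.adjoin k (M '' (G : Set ℝ))) (w T : Ω) :
    kr k (Fin.snoc (Fin.append x (fun _ : Fin 1 => w)) T : Fin (s + 1 + 1) → Ω) =
      IntermediateField.adjoin k (M '' (G : Set ℝ) ∪ {w, T}) := by
  apply le_antisymm
  · rw [kr, IntermediateField.adjoin_le_iff]
    rintro _ ⟨i, rfl⟩
    have hxm : ∀ i, x i ∈ IntermediateField.adjoin k (M '' (G : Set ℝ) ∪ {w, T}) := by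
      intro i
      have h1 : x i ∈ IntermediateField.adjoin k (M '' (G : Set ℝ)) := by
        rw [← hx]
        exact IntermediateField.subset_adjoin k _ ⟨i, rfl⟩
      exact IntermediateField.adjoin.mono k _ _ Set.subset_union_left h1
    rw [SetLike.mem_coe]
    refine Fin.lastCases ?_ (fun i => ?_) i
    · rw [Fin.snoc_last]
      exact IntermediateField.subset_adjoin k _ (Or.inr (Or.inr rfl))
    · rw [Fin.snoc_castSucc]
      refine Fin.addCases (fun i => ?_) (fun j => ?_) i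
      · rw [Fin.append_left]
        exact hxm i
      · rw [Fin.append_right]
        exact IntermediateField.subset_adjoin k _ (Or.inr (Or.inl rfl))
  · rw [IntermediateField.adjoin_le_iff]
    set t : Fin (s + 1 + 1) → Ω := Fin.snoc (Fin.append x (fun _ : Fin 1 => w)) T with ht
    rintro y (⟨g, hg, rfl⟩ | hy | hy)
    · have h1 : M g ∈ IntermediateField.adjoin k (Set.range x) := by
        rw [hx]
        exact IntermediateField.subset_adjoin k _ ⟨g, hg, rfl⟩
      refine IntermediateField.adjoin.mono k _ _ ?_ h1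
      rintro _ ⟨i, rfl⟩
      exact ⟨Fin.castSucc (Fin.castAdd 1 i), by rw [ht, Fin.snoc_castSucc, Fin.append_left]⟩
    · rw [hy]
      exact IntermediateField.subset_adjoin k _
        ⟨Fin.castSucc (Fin.natAdd s 0), by rw [ht, Fin.snoc_castSucc, Fin.append_right]⟩
    · rw [Set.mem_singleton_iff] at hy
      rw [hy]
      exact IntermediateField.subset_adjoin k _ ⟨Fin.last _, by rw [ht, Fin.snoc_last]⟩

/-- The basis of a frame, of the right cardinality. -/
theorem Frk.basis [IsAlgClosed k] (p : ℕ) [Fact p.Prime] [CharP k p] [CharP Ω p]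
    (h : Ctx k v r) (hcv : CompleteV v) {K₀ : IntermediateField k Ω} (hK₀ : K₀.FG)
    (htr : Algebra.trdeg k K₀ = (r + 2 : ℕ)) (hBD : BD p v K₀) (hK : K = clI v K₀)
    (hfr : Frk v G M w T K) : ∃ x : Fin r → Ω, (∀ i, x i ≠ 0) ∧
      (LinearIndependent ℚ fun i => v (x i)) ∧
      (∀ g ∈ G, M g ∈ IntermediateField.adjoin k (Set.range x)) ∧
      kr k (Fin.snoc (Fin.append x (fun _ : Fin 1 => w)) T : Fin (r + 1 + 1) → Ω) =
        IntermediateField.adjoin k (M '' (G : Set ℝ) ∪ {w, T}) ∧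
      BD p v K ∧ ∃ t₀ : Fin (r + 1 + 1) → Ω, PBasis p K t₀ := by
  classical
  obtain ⟨m, s, hs, C, hC⟩ := id hBD
  have hm : m = r + 1 + 1 := by
    have h4 := (hs.trdeg p hK₀).1
    rw [htr] at h4
    have h5 : ((r + 2 : ℕ) : Cardinal.{u}) = (m : Cardinal.{u}) := h4
    have h6 : r + 2 = m := by exact_mod_cast h5
    omega
  subst hm
  have hos : OI p v (clI v K₀) s C := (OI.of_orth_pb hC hs).cl
  have hpb : PBasis p (clI v K₀) s := pbasis_clI hcv hs hos
  have hBD' : BD p v (clI v K₀) := ⟨_, s, hpb, C, hos.orth⟩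
  rw [← hK] at hpb hBD'
  obtain ⟨n, x, hx, hind, hadj⟩ := exists_basis (k := k) hfr.ms hfr.fg
  have hkr := adjoin_snoc_snoc x hadj w T
  -- the count
  have hge := (BD_dense hBD' hpb (M := kr k (Fin.snoc (Fin.append x (fun _ : Fin 1 => w)) T :
    Fin (n + 1 + 1) → Ω)) (IntermediateField.fg_adjoin_of_finite (Set.finite_range _))
    (by rw [hkr]; exact hfr.eq.symm)).1
  have hle : Algebra.trdeg k (kr k (Fin.snoc (Fin.append x (fun _ : Fin 1 => w)) T :
      Fin (n + 1 + 1) → Ω)) ≤ ((n + 1 + 1 : ℕ) : Cardinal.{u}) := by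
    refine (trdeg_adjoin_le _).trans ?_
    have h1 := Cardinal.mk_range_le_lift (f := (Fin.snoc (Fin.append x (fun _ : Fin 1 => w)) T :
      Fin (n + 1 + 1) → Ω))
    simpa using h1
  have hrn : r ≤ n := by
    have h1 : ((r + 1 + 1 : ℕ) : Cardinal.{u}) ≤ ((n + 1 + 1 : ℕ) : Cardinal.{u}) := hge.trans hle
    have h2 : r + 1 + 1 ≤ n + 1 + 1 := by exact_mod_cast h1
    omega
  have hnr : n ≤ r := by
    obtain ⟨X, hX0, hXi, hX⟩ := h.rank
    have h2 := linearIndependent_le_span' (fun i => v (x i)) hind (Set.range fun i => v (X i)) (by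
      rintro _ ⟨i, rfl⟩
      exact hX _ (hx i))
    have h3 : Fintype.card (Set.range fun i => v (X i)) ≤ r := by
      have := Fintype.card_range_le fun i => v (X i)
      simpa using this
    rw [Cardinal.mk_fin] at h2
    have h4 : n ≤ Fintype.card (Set.range fun i => v (X i)) := by exact_mod_cast h2
    exact h4.trans h3
  obtain rfl : n = r := le_antisymm hnr hrn
  refine ⟨x, hx, hind, fun g hg => ?_, hkr, hBD', s, hpb⟩
  rw [hadj]
  exact IntermediateField.subset_adjoin k _ ⟨g, hg, rfl⟩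

/-! ### The index at a frame -/

theorem sl_frame {p : ℕ} [Fact p.Prime] [CharP Ω p] (h0 : Ctx0 k v) (hfr : Frk v G M w T K)
    {μ : ℝ} {P : ℝ →₀ k[X][X]} (hP : InCt G μ P) (hμ : μ ∈ G) {i₀ : ℕ} (hi₀ : ¬ p ∣ i₀)
    (hc : ((P μ).coeff i₀).coeff 0 ≠ 0) {F : IntermediateField k Ω} (hMF : ∀ g ∈ G, M g ∈ F)
    (hwF : w ∈ F) : ∃ A : Polynomial Ω, SL p v F T 0 μ i₀ A ∧ A.eval T = evQ M w T P := by
  classical
  have hp0 : p ≠ 0 := (Fact.out : p.Prime).ne_zero
  obtain ⟨N, hN, hev⟩ := evQ_eq_cj (M := M) (w := w) (T := T) P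
  have hcj0 : ∀ j, N ≤ j → cj M w P j = 0 := by
    intro j hj
    rw [cj]
    refine Finset.sum_eq_zero fun g _ => ?_
    rw [hN j hj g, map_zero, mul_zero]
  set A : Polynomial Ω := ∑ j ∈ Finset.range N, Polynomial.C (cj M w P j) * X ^ j with hA
  have hcoef : ∀ j, A.coeff j = cj M w P j := by
    intro j
    rw [hA, finsetSum_coeff]
    simp only [coeff_C_mul_X_pow]
    rw [Finset.sum_ite_eq]
    split_ifs with h
    · rfl
    · rw [Finset.mem_range, not_lt] at h
      rw [hcj0 j h]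
  have hmem : ∀ j, cj M w P j ∈ F := by
    intro j
    rw [cj]
    refine sum_mem fun g hg => ?_
    obtain ⟨h1, -⟩ := hP g (Finsupp.mem_support_iff.1 hg)
    refine mul_mem (hMF g h1) ?_
    rw [aeval_eq_sum_range]
    refine sum_mem fun i _ => ?_
    rw [Algebra.smul_def]
    exact mul_mem (algebraMap_mem F _) (pow_mem hwF i)
  refine ⟨A, ⟨fun j => by rw [hcoef]; exact hmem j, fun _ => hfr.tpos, fun ε hε => ?_,
    fun e he g hg => ?_⟩, ?_⟩
  · refine ⟨0, zero_mem _, fun j => ?_⟩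
    rw [zero_pow hp0, sub_zero, hcoef, mul_zero, sub_zero]
    exact (cj_ge h0 hfr hP j).mono (by linarith)
  · refine ⟨i₀, le_rfl, ?_⟩
    rw [coeff_sub, coeff_pow_char' p g hi₀, sub_zero, hcoef, mul_zero, sub_zero]
    obtain ⟨h1, h2⟩ := cj_val h0 hfr hP hμ hc
    intro h3
    have h4 := h3 h1
    rw [h2] at h4
    linarith
  · rw [hev, hA, eval_finsetSum]
    refine Finset.sum_congr rfl fun j _ => ?_
    rw [eval_mul, eval_C, eval_pow, eval_X]

end Pool.Agent.TWJ
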