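import Pool.Agent.Lib.TWJ.CON3
import Pool.Agent.Lib.TWJ.EX

/-!
# TANK W, row CON: the order constraint of the states of minimal index (two more variables)

* `state_of_rep`: a representation of `a` at a frame of `K` with a unit coefficient of `T ^ i₀`,
  `p ∤ i₀`, gives a state of index `i₀`;
* `con`: if all the states of `(K, a)` have an index `≥ q`, `p ∣ q`, the leading form `Q` of the
  representations of `a` at a frame has only monomials which are `p`-th powers in degree `< q`.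
-/

set_option autoImplicit false

open Polynomial

namespace Pool.Agent.TWJ

open Pool.Agent.H15JM (RVal)
open Pool.Agent.LU1 (adj)
open Pool.Agent.D2 (Ctx0)
open Pool.Agent.D2P (clI mem_clI mem_adj_self adj_le)
open Pool.Agent.TW
open Pool.Agent.TWM (MS Gt SL CompleteV OI le_clI adj_range gen_of_bas transcendental_kr)
open Pool.Agent.TWN (pdv)

universe u

variable {k Ω : Type u} [Field k] [Field Ω] [Algebra k Ω] {v : RVal Ω} {G : AddSubgroup ℝ}
  {M : ℝ → Ω} {w T : Ω} {K : IntermediateField k Ω} {r : ℕ}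

/-- The value of the image under an isometry. -/
theorem viso_val {N N' : IntermediateField k Ω} (φ : VIso v N N') {x y : Ω} (hx : x ∈ N)
    (h : (φ.e ⟨x, hx⟩ : Ω) = y) (hx0 : x ≠ 0) : v y = v x := by
  rw [← h]
  exact φ.val ⟨x, hx⟩ hx0

/-- **The state of a representation.** -/
theorem state_of_rep [IsAlgClosed k] [IsAlgClosed Ω] (p : ℕ) [Fact p.Prime] [CharP k p]
    [CharP Ω p] (h : Ctx k v r) (hcv : CompleteV v) {K₀ : IntermediateField k Ω} (hK₀ : K₀.FG)
    (htr : Algebra.trdeg k K₀ = (r + 2 : ℕ)) (hBD : BD p v K₀) (hK : K = clI v K₀) {a : Ω}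
    (ha : a ∈ K) {μ₁ : ℝ} (hμ₁ : ∀ g ∈ K, ¬ v.Ge μ₁ (a - g ^ p)) (hfr : Frk v G M w T K)
    {μ : ℝ} (hμ : μ ∈ G) :
    ∃ C₂ : ℝ, ∀ h ∈ K, h ≠ 0 → v h = 0 → ∀ g ∈ K, ∀ P : ℝ →₀ k[X][X], InCt G μ P →
      ∀ i₀ : ℕ, ¬ p ∣ i₀ → ((P μ).coeff i₀).coeff 0 ≠ 0 →
        v.Ge C₂ (a * h ^ p - (g ^ p + evQ M w T P)) →
          ∃ F z A, Stt p v r 1 K a F z 0 μ i₀ A := by
  classical
  have h0 := h.toCtx0
  obtain ⟨x, hx, hind, hMx, hkr, hBDK, t₀, ht₀⟩ := hfr.basis p h hcv hK₀ htr hBD hK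
  set t : Fin (r + 1 + 1) → Ω := Fin.snoc (Fin.append x (fun _ : Fin 1 => w)) T with ht
  have hcl : clI v (kr k t) = K := by
    rw [hkr]
    exact hfr.eq.symm
  obtain ⟨hpbt, ht0, c₁, hc₁⟩ := gen_of_bas hBDK ht₀ hcl
  obtain ⟨C₂, hC₂⟩ := exact_gen p h0 hcv hcl hc₁ ht0 μ₁ μ 0
  have htl : t (Fin.last (r + 1)) = T := by rw [ht, Fin.snoc_last]
  have htx : ∀ i : Fin r, t (Fin.castSucc (Fin.castAdd 1 i)) = x i := fun i => by
    rw [ht, Fin.snoc_castSucc, Fin.append_left]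
  have htw : ∀ j : Fin 1, t (Fin.castSucc (Fin.natAdd r j)) = w := fun j => by
    rw [ht, Fin.snoc_castSucc, Fin.append_right]
  have htm : ∀ i, t i ∈ kr k t := fun i => IntermediateField.subset_adjoin k _ ⟨i, rfl⟩
  refine ⟨max C₂ μ, fun hh hhK hh0 hvh g hg P hP i₀ hi₀ hc hrep => ?_⟩
  set a' : Ω := a * hh ^ p - g ^ p with ha'
  set b : Ω := evQ M w T P with hb
  have hab : v.Ge (max C₂ μ) (a' - b) := by
    have h1 : a' - b = a * hh ^ p - (g ^ p + evQ M w T P) := by rw [ha', hb]; ring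
    rw [h1]
    exact hrep
  have ha'K : a' ∈ K := sub_mem (mul_mem ha (pow_mem hhK p)) (pow_mem hg p)
  have hge : v.Ge μ a' := by
    have h1 := (hab.mono (le_max_right C₂ μ)).add (ge_evQ h0 hfr hP)
    rwa [← hb, sub_add_cancel] at h1
  have hfar : ∀ f ∈ K, ¬ v.Ge μ₁ (a' - f ^ p) := by
    intro f hf h1
    refine hμ₁ ((g + f) / hh) (div_mem (add_mem hg hf) hhK) ?_
    have h2 : a - ((g + f) / hh) ^ p = (a' - f ^ p) * (hh ^ p)⁻¹ := by
      have h3 : hh ^ p ≠ 0 := pow_ne_zero p hh0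
      rw [ha', div_pow, add_pow_char]
      field_simp
      ring
    rw [h2]
    have h4 : v.Ge 0 ((hh ^ p)⁻¹) := fun _ => by
      rw [v.map_inv (pow_ne_zero p hh0), v.map_pow hh0, hvh, mul_zero, neg_zero]
    have h5 := h1.mul h4
    rwa [add_zero] at h5
  -- the polynomial at the frame
  set F₀ : IntermediateField k Ω := kr k fun i : Fin (r + 1) => t i.castSucc with hF₀
  have hxF : IntermediateField.adjoin k (Set.range x) ≤ F₀ := by
    rw [IntermediateField.adjoin_le_iff]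
    rintro _ ⟨i, rfl⟩
    exact IntermediateField.subset_adjoin k _ ⟨Fin.castAdd 1 i, htx i⟩
  have hwF : w ∈ F₀ := IntermediateField.subset_adjoin k _ ⟨Fin.natAdd r 0, htw 0⟩
  obtain ⟨A₀, hSL, hA₀⟩ := sl_frame h0 hfr hP hμ hi₀ hc (fun g hg => hxF (hMx g hg)) hwF
  have hF₀t : F₀ ≤ kr k t := by
    rw [hF₀, kr, IntermediateField.adjoin_le_iff]
    rintro _ ⟨i, rfl⟩
    exact htm i.castSucc
  have hbt : b ∈ kr k t := by
    rw [hb, ← hA₀, eval_eq_sum_range]
    refine sum_mem fun i _ => mul_mem (hF₀t (hSL.mem i)) (pow_mem ?_ i)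
    rw [← htl]
    exact htm _
  obtain ⟨t', ht', hcl', φ, hφ, hφb⟩ := hC₂ a' ha'K hge hfar b hbt
    (hab.mono (le_max_left C₂ μ))
  rw [← htl] at hSL hA₀
  have hA₀m : A₀.eval (t (Fin.last (r + 1))) ∈ kr k t := by
    rw [hA₀, htl]
    exact hbt
  obtain ⟨A, hSLA, hAe⟩ := SL.near φ hφ hSL hA₀m
  -- values
  have hval : ∀ i, v (t' i) = v (t i) := fun i => viso_val φ (htm i) (hφ i (htm i)) (ht0 i)
  -- the independence
  obtain ⟨-, ht'0, C₃, hC₃⟩ := gen_of_bas hBDK ht₀ hcl'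
  have hle' : kr k t' ≤ K := by
    rw [← hcl']
    exact le_clI _
  have hoi' : OI p v (kr k t') t' C₃ := hC₃.mono hle' le_rfl
  have hai : AlgebraicIndependent k t' := hoi'.algInd ht'0
  have hpb' : PBasis p (kr k t') t' := hoi'.pbasis_kr ht'0
  have hBDt : BD p v (kr k t') := ⟨_, t', hpb', C₃, hoi'.orth⟩
  -- the frame
  let R : Fr k v r 1 :=
    { x := fun i => t' (Fin.castSucc (Fin.castAdd 1 i))
      y := fun j => t' (Fin.castSucc (Fin.natAdd r j))
      x_ne := fun i => ht'0 _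
      x_ind := by
        have h1 : (fun i : Fin r => v (t' (Fin.castSucc (Fin.castAdd 1 i)))) =
            fun i => v (x i) := by
          funext i
          rw [hval, htx]
        rw [h1]
        exact hind
      y_ne := fun j => ht'0 _
      y_pos := fun j => by
        rw [hval, htw]
        exact hfr.wpos
      alg := by
        have h1 := hai.comp (fun o : Fin r ⊕ Fin 1 => Fin.castSucc (finSumFinEquiv o))
          ((Fin.castSucc_injective _).comp finSumFinEquiv.injective)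
        convert h1 using 1
        funext o
        rcases o with o | o
        · rfl
        · rfl }
  set F : IntermediateField k Ω := kr k fun i : Fin (r + 1) => t' i.castSucc with hF
  have hRs : R.s = fun i : Fin (r + 1) => t' i.castSucc := by
    funext i
    rw [Fr.s]
    refine Fin.addCases (fun i => ?_) (fun j => ?_) i
    · rw [Fin.append_left]
    · rw [Fin.append_right]
  have hFR : F = R.K := by
    rw [P4bAux.K_eq, hRs]
  have hFfg : F.FG := IntermediateField.fg_adjoin_of_finite (Set.finite_range _)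
  have hadj : adj F (t' (Fin.last (r + 1))) = kr k t' := by
    rw [hF, adj_range]
    congr 2
    exact Fin.snoc_init_self t'
  have htz : Transcendental F (t' (Fin.last (r + 1))) := by
    refine transcendental_kr (hai.comp _ (Fin.castSucc_injective _)) ?_
    have h4 := hai.comp (fun o : Option (Fin (r + 1)) => o.elim (Fin.last (r + 1)) Fin.castSucc)
      (by
        rintro (_ | i) (_ | j) hij
        · rfl
        · exact absurd hij.symm (Fin.castSucc_lt_last j).ne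
        · exact absurd hij (Fin.castSucc_lt_last i).ne
        · exact congrArg some (Fin.castSucc_injective _ hij))
    convert h4 using 1
    funext o
    rcases o with _ | o
    · rfl
    · rfl
  refine ⟨F, t' (Fin.last (r + 1)), A, ⟨R, hFR⟩, hFfg, ?_, ?_, ?_, htz, ?_, ?_, hSLA⟩
  · rw [hFR]
    exact Est.full_K h R
  · rw [hFR]
    exact Fr.trdeg_K R
  · refine BD.of_adj p hFfg htz ?_
    rw [hadj]
    exact hBDt
  · rw [hadj]
    exact hcl'.symm
  · refine ⟨hh, hhK, hh0, g, hg, ?_⟩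
    rw [hAe, ← ha', ← hφb]
    congr 2
    apply Subtype.ext
    show b = A₀.eval (t (Fin.last (r + 1)))
    rw [hA₀, htl]

/-- The lines through the origin which contain `w`. -/
theorem finite_bad (hT : T ≠ 0) (w : Ω) (n : ℕ) (e : Ω) :
    {c : k | w = e + algebraMap k Ω c * T ^ n}.Finite := by
  refine Set.Subsingleton.finite fun c hc c' hc' => ?_
  have h1 : algebraMap k Ω c * T ^ n = algebraMap k Ω c' * T ^ n := by
    have h2 : w = e + algebraMap k Ω c * T ^ n := hc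
    have h3 : w = e + algebraMap k Ω c' * T ^ n := hc'
    rw [h2] at h3
    exact add_left_cancel h3
  exact (algebraMap k Ω).injective (mul_right_cancel₀ (pow_ne_zero n hT) h1)

/-- **Row CON.** The order constraint. -/
theorem con [IsAlgClosed k] [IsAlgClosed Ω] (p : ℕ) [Fact p.Prime] [CharP k p]
    [CharP Ω p] (h : Ctx k v r) (hcv : CompleteV v) {K₀ : IntermediateField k Ω} (hK₀ : K₀.FG)
    (htr : Algebra.trdeg k K₀ = (r + 2 : ℕ)) (hBD : BD p v K₀) (hK : K = clI v K₀) {a : Ω}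
    (ha : a ∈ K) {μ₁ : ℝ} (hμ₁ : ∀ g ∈ K, ¬ v.Ge μ₁ (a - g ^ p)) {q : ℕ} (hq : p ∣ q)
    (hmin : MinS p v r 1 K a q) (hfr : Frk v G M w T K) {μ : ℝ} (hμ : μ ∈ G) {Q : k[X][X]}
    (hrep : ∀ C : ℝ, ∃ h ∈ K, h ≠ 0 ∧ v h = 0 ∧ ∃ g ∈ K, ∃ P : ℝ →₀ k[X][X], InCt G μ P ∧
      (∀ i j, i + j < q → ((P μ).coeff j).coeff i = (Q.coeff j).coeff i) ∧
      v.Ge C (a * h ^ p - (g ^ p + evQ M w T P))) :
    ∀ i j, i + j < q → (pdv p G μ ∧ p ∣ i ∧ p ∣ j) ∨ (Q.coeff j).coeff i = 0 := by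
  classical
  have h0 := h.toCtx0
  have hp := (Fact.out : p.Prime)
  have hinf : Infinite k := IsAlgClosed.instInfinite
  by_contra hcon
  push Not at hcon
  obtain ⟨i₂, j₂, hij₂, hpd₂, hQ₂⟩ := hcon
  -- the least degree
  have hex : ∃ n, ∃ i j, i + j = n ∧ (Q.coeff j).coeff i ≠ 0 ∧
      ¬ (pdv p G μ ∧ p ∣ i ∧ p ∣ j) :=
    ⟨i₂ + j₂, i₂, j₂, rfl, hQ₂, fun h1 => hpd₂ h1.1 h1.2.1 h1.2.2⟩
  set d := Nat.find hex with hd
  obtain ⟨i₁, j₁, hij₁, hQ₁, hpd₁⟩ := Nat.find_spec hex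
  rw [← hd] at hij₁
  have hdq : d < q := (Nat.find_min' hex ⟨i₂, j₂, rfl, hQ₂, fun h1 =>
    hpd₂ h1.1 h1.2.1 h1.2.2⟩).trans_lt hij₂
  have hlow : ∀ i j, i + j < d → (Q.coeff j).coeff i = 0 ∨ (pdv p G μ ∧ p ∣ i ∧ p ∣ j) := by
    intro i j hij
    by_contra hno
    push Not at hno
    exact Nat.find_min hex hij ⟨i, j, rfl, hno.1, fun h1 => hno.2 h1.1 h1.2.1 h1.2.2⟩
  by_cases hA : ∃ i j, i + j = d ∧ (Q.coeff j).coeff i ≠ 0 ∧ ¬ (p ∣ i ∧ p ∣ j)
  · -- a tilt
    obtain ⟨i₃, j₃, hij₃, hQ₃, hpd₃⟩ := hA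
    obtain ⟨lam, c, hbad, i₀, hi₀q, hi₀, hP⟩ := pick_tilt (p := p) hq hdq
      (fun i j hij => (hlow i j hij).imp_right fun h1 => h1.2) hij₃ hQ₃ hpd₃
      (fun lam c => w = algebraMap k Ω lam * T + algebraMap k Ω c * T ^ 2)
      (by
        have h1 := finite_bad (k := k) hfr.tne w 1 0
        refine h1.subset fun lam hlam => ?_
        have h2 : w = algebraMap k Ω lam * T + algebraMap k Ω 0 * T ^ 2 := hlam
        show w = 0 + algebraMap k Ω lam * T ^ 1
        rw [h2, map_zero]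
        ring)
      (fun lam => finite_bad (k := k) hfr.tne w 2 _)
    have hfr' := hfr.tilt h0 hbad
    obtain ⟨C₂, hC₂⟩ := state_of_rep p h hcv hK₀ htr hBD hK ha hμ₁ hfr' hμ
    obtain ⟨hh, hhK, hh0, hvh, g, hg, P, hPi, hPQ, hrep'⟩ := hrep C₂
    rw [evQ_tilt (w' := w - (algebraMap k Ω lam * T + algebraMap k Ω c * T ^ 2))
      (lam := lam) (c := c) (by ring) P] at hrep'
    obtain ⟨F, z, A, hst⟩ := hC₂ hh hhK hh0 hvh g hg _ (hPi.mapRange _) i₀ hi₀ (by
      rw [Finsupp.mapRange_apply, sb_coeff, tl_map]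
      exact hP (P μ) hPQ) hrep'
    have := hmin F z 0 μ i₀ A hst
    omega
  · -- a twist
    push Not at hA
    have hpij := hA i₁ j₁ hij₁ hQ₁
    have hnpd : ¬ pdv p G μ := fun h1 => hpd₁ ⟨h1, hpij⟩
    have hpd : p ∣ d := by
      rw [← hij₁]
      exact dvd_add hpij.1 hpij.2
    obtain ⟨χ, hχ, hχμ⟩ := TWN.exists_kappa hfr.fg hp hμ hnpd 1 1
    have hx : ¬ (p : ℤ) ∣ χ μ := by
      intro h1
      have h2 : (p : ℤ) ∣ 1 := by
        rw [pow_one] at hχμ
        have h3 := dvd_add hχμ h1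
        rwa [sub_add_cancel] at h3
      exact hp.one_lt.ne' (by exact_mod_cast Int.eq_one_of_dvd_one (by positivity) h2)
    obtain ⟨lam, c, hbad, i₀, hi₀q, hi₀, hP⟩ := pick_twist (p := p) hq hdq hpd
      (fun i j hij => (hlow i j hij).resolve_right fun h1 => hnpd h1.1) hij₁ hQ₁ hx
      (fun lam => w = 0 + algebraMap k Ω lam * T ^ 1) (finite_bad (k := k) hfr.tne w 1 0)
    have hne : w ≠ algebraMap k Ω lam * T + algebraMap k Ω (0 : k) * T ^ 2 := by
      intro h1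
      apply hbad
      rw [map_zero] at h1
      rw [h1]
      ring
    have hfr' := (hfr.twist h0 c hχ).tilt h0 hne
    obtain ⟨C₂, hC₂⟩ := state_of_rep p h hcv hK₀ htr hBD hK ha hμ₁ hfr' hμ
    obtain ⟨hh, hhK, hh0, hvh, g, hg, P, hPi, hPQ, hrep'⟩ := hrep C₂
    have hPμ : μ ∈ P.support := by
      rw [Finsupp.mem_support_iff]
      intro h1
      apply hQ₁
      rw [← hPQ i₁ j₁ (by omega), h1, coeff_zero, coeff_zero]
    obtain ⟨m, hm, herr⟩ := evQ_twist (p := p) h0 hfr c χ hPi C₂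
    have hrep'' := hrep'.add herr
    rw [show a * hh ^ p - (g ^ p + evQ M w T P) +
      (evQ M w T P - evQ (tws k M w c χ) w T (twP c m P)) =
      a * hh ^ p - (g ^ p + evQ (tws k M w c χ) w T (twP c m P)) by ring,
      evQ_tilt (w' := w - (algebraMap k Ω lam * T + algebraMap k Ω (0 : k) * T ^ 2))
      (lam := lam) (c := 0) (by ring) (twP c m P)] at hrep''
    obtain ⟨F, z, A, hst⟩ := hC₂ hh hhK hh0 hvh g hg _ ((hPi.twP c m).mapRange _) i₀ hi₀ (by
      rw [Finsupp.mapRange_apply, sb_coeff, tl_map, C_0, zero_mul, add_zero, twP_apply]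
      exact hP (P μ) hPQ (m μ) (hm μ hPμ)) hrep''
    have := hmin F z 0 μ i₀ A hst
    omega

end Pool.Agent.TWJ
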