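import Pool.Agent.Lib.TWJ.EXG
import Pool.Agent.Lib.TWM.A2

/-!
# TANK W: the exit when the purely inseparable element is linear in a coordinate

`K₀` has the closure of `F(y)`, `y` of transcendental type and radius `s` over the closure of `F`,
`al ^ p ∈ K₀` and `al ^ p = e + e₁ y + g ^ p` up to elements of value `> v e₁ + s`, `g` in the
closure of `K₀`, `e₁ ≠ 0` and `e` in the closure of `F`: then `K₀(al)` is henselian rational, its
closure is the closure of `F(al - g)`.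
-/

set_option autoImplicit false

open Polynomial

namespace Pool.Agent.TWJ

open Pool.Agent.H15JM (RVal)
open Pool.Agent.LU1 (VPos adj)
open Pool.Agent.D2 (Ctx0)
open Pool.Agent.D2P (clI mem_clI mem_adj_self adj_le)
open Pool.Agent.TW
open Pool.Agent.TWM

universe u

variable {k Ω : Type u} [Field k] [Field Ω] [Algebra k Ω] {v : RVal Ω} {r D : ℕ}

/-- The closures: `A(y)(al) = A(al - g)`. -/
theorem cadj_of_lin [IsAlgClosed Ω] {p : ℕ} [Fact p.Prime] [CharP Ω p]
    {A : IntermediateField k Ω} {y : Ω} {s : ℝ} (hy : TL v A y s) {al g e e₁ : Ω} (he : e ∈ A)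
    (he₁ : e₁ ∈ A) (h1 : e₁ ≠ 0) (hg : g ∈ cadj v A y) (hal : al ^ p ∈ cadj v A y)
    (hw : Gt v (v e₁ + s) (al ^ p - g ^ p - (e₁ * y + e))) :
    cadj v (cadj v A y) (al - g) = cadj v A (al - g) := by
  have h2 : (al - g) ^ p = al ^ p - g ^ p := sub_pow_char _ _
  have h3 : (al - g) ^ p ∈ cadj v A y := by
    rw [h2]
    exact sub_mem hal (pow_mem hg p)
  obtain ⟨-, h4⟩ := hy.generator (w := (al - g) ^ p) he₁ h1 he h3 (by rw [h2]; exact hw)
  apply le_antisymm
  · refine cadj_le (cld_cadj v A _) ?_ (self_mem_cadj v A _)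
    rw [← h4]
    exact cadj_le (cld_cadj v A _) (le_cadj v A _) (pow_mem (self_mem_cadj v A _) p)
  · exact cadj_le (cld_cadj v _ _) ((le_cadj v A y).trans (le_cadj v _ _)) (self_mem_cadj v _ _)

/-- **Exit, linear in a coordinate.** -/
theorem exit_lin [IsAlgClosed k] [IsAlgClosed Ω] (p : ℕ) [Fact p.Prime] [CharP k p] [CharP Ω p]
    (h : Ctx k v r) (hcv : CompleteV v)
    (hLU : ∀ E : IntermediateField k Ω, E.FG → Full v E → Algebra.trdeg k E = (r + D : ℕ) →
      BD p v E → LU p v r E)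
    {K₀ : IntermediateField k Ω} (hK : K₀.FG) (hKf : Full v K₀)
    (htr : Algebra.trdeg k K₀ = (r + D + 1 : ℕ)) {al : Ω} (hal : al ^ p ∈ K₀)
    (hBD : BD p v (adj K₀ al)) {F : IntermediateField k Ω} (hF : F.FG) (hFf : Full v F)
    (hFt : Algebra.trdeg k F = (r + D : ℕ)) {y : Ω} {s : ℝ} (hy : TL v (clI v F) y s)
    (hcl : clI v K₀ = cadj v (clI v F) y) {g e e₁ : Ω} (he : e ∈ clI v F) (he₁ : e₁ ∈ clI v F)
    (h1 : e₁ ≠ 0) (hg : g ∈ clI v K₀)
    (hw : Gt v (v e₁ + s) (al ^ p - g ^ p - (e₁ * y + e))) : HRone v (adj K₀ al) := by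
  have h2 := cadj_of_lin hy he he₁ h1 (hcl ▸ hg) (hcl ▸ le_clI K₀ hal) hw
  refine exitg' p h hcv hLU hK hKf htr hal hBD hF hFf hFt (X₂ := al - g) (g₁ := 1) (g₂ := g)
    (one_mem _) hg one_ne_zero ?_
  rw [mul_one]
  rw [← hcl] at h2
  exact h2.trans clI_adj_clI

end Pool.Agent.TWJ
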