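import Pool.Agent.Lib.TWJ.XC
import Pool.Agent.Lib.TWM.S3a

/-!
# TANK W: changes of a state

* `exists_splice`: `p`-th powers may be chosen independently for the indices `≤ S` and `> S`;
* `SL.shift`: translation of the coordinate;
* `SL.radius`: a bigger radius.
-/

set_option autoImplicit false

open Polynomial

namespace Pool.Agent.TWJ

open Pool.Agent.H15JM (RVal)
open Pool.Agent.TWM

universe u

variable {k Ω : Type u} [Field k] [Field Ω] [Algebra k Ω] {v : RVal Ω}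
  {F : IntermediateField k Ω} {z : Ω} {r κ : ℝ} {S : ℕ} {A : Polynomial Ω}

/-- The coefficients of index `≤ S` of `A - g ^ p` and the other ones of `A - g₁ ^ p`. -/
theorem exists_splice (p : ℕ) [hp : Fact p.Prime] [CharP Ω p] {g g₁ : Polynomial Ω}
    (hg : g ∈ PI F) (hg₁ : g₁ ∈ PI F) (A : Polynomial Ω) (S : ℕ) :
    ∃ g' ∈ PI F, (∀ m, m ≤ S → (A - g' ^ p).coeff m = (A - g ^ p).coeff m) ∧
      ∀ m, S < m → (A - g' ^ p).coeff m = (A - g₁ ^ p).coeff m := by
  classical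
  obtain ⟨g', hg', h⟩ := exists_glue F (zero_mem F) hg hg₁ (fun j => p * j ≤ S)
  rw [taylor_zero, taylor_zero, taylor_zero] at h
  refine ⟨g', hg', fun m hm => ?_, fun m hm => ?_⟩
  · rw [coeff_sub, coeff_sub, coeff_pow_ite, coeff_pow_ite]
    split_ifs with hd
    · rw [h, if_pos (by rw [Nat.mul_div_cancel' hd]; exact hm)]
    · rfl
  · rw [coeff_sub, coeff_sub, coeff_pow_ite, coeff_pow_ite]
    split_ifs with hd
    · rw [h, if_neg (by rw [Nat.mul_div_cancel' hd]; omega)]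
    · rfl

/-- Translation of the coordinate. -/
theorem SL.shift {p : ℕ} [hp : Fact p.Prime] [CharP Ω p] (h : SL p v F z r κ S A) {θ : Ω}
    (hθ : θ ∈ F) (hg : Gt v r (z - θ)) : SL p v F (z - θ) r κ S (A.comp (X + C θ)) := by
  have hcomp : ∀ f : Polynomial Ω, f.comp (X + C θ) = taylor θ f := fun f => rfl
  have hgt : Gt v r θ := by
    have := h.gt.sub hg
    rwa [sub_sub_cancel] at this
  obtain ⟨δ, hδ, hθδ⟩ : ∃ δ : ℝ, 0 < δ ∧ v.Ge (r + δ) θ := by
    by_cases h0 : θ = 0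
    · exact ⟨1, one_pos, by rw [h0]; exact RVal.Ge.zero⟩
    · refine ⟨v θ - r, by linarith [hgt h0], fun _ => ?_⟩
      linarith
  have hθr : v.Ge r θ := hθδ.mono (by linarith)
  have key : ∀ g : Polynomial Ω, taylor θ A - (taylor θ g) ^ p = taylor θ (A - g ^ p) := by
    intro g
    rw [map_sub, taylor_pow]
  rw [hcomp]
  refine ⟨taylor_mem_PI h.mem hθ, hg, fun ε hε => ?_, fun e he g hg' => ?_⟩
  · obtain ⟨g, hg', h1⟩ := h.lo ε hε
    exact ⟨taylor θ g, taylor_mem_PI hg' hθ, by rw [key]; exact GB_taylor hθr h1⟩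
  · by_contra hno
    push Not at hno
    obtain ⟨g₁, hg₁, h1⟩ := h.lo (δ / 2) (by linarith)
    have h2 : GB v r (κ - δ / 2) (taylor θ A - (taylor θ g₁) ^ p) := by
      rw [key]
      exact GB_taylor hθr h1
    obtain ⟨g', hg'', h3, h4⟩ := exists_splice p hg' (taylor_mem_PI hg₁ hθ) (taylor θ A) S
    obtain ⟨m, hm, hbad⟩ := h.hi (min e (δ / 2)) (lt_min he (by linarith)) (taylor (-θ) g')
      (taylor_mem_PI hg'' (neg_mem hθ))
    apply hbad
    have h5 : A - (taylor (-θ) g') ^ p = taylor (-θ) (taylor θ A - g' ^ p) := by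
      rw [map_sub, taylor_taylor, neg_add_cancel, taylor_zero, taylor_pow]
    rw [h5]
    refine taylor_coeff_ge' fun n hn => ?_
    rcases Nat.lt_or_ge S n with hS | hS
    · rw [h4 n hS]
      refine ((h2 n).mul (ge_pow hθδ.neg (n - m))).mono ?_
      have h6 : ((n - m : ℕ) : ℝ) = n - m := by rw [Nat.cast_sub hn]
      have h7 : (1 : ℝ) ≤ (n : ℝ) - m := by
        rw [← h6]
        exact_mod_cast (by omega : 1 ≤ n - m)
      have h8 : 0 ≤ ((n : ℝ) - m - 1) * δ := mul_nonneg (by linarith) hδ.le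
      have h9 := min_le_right e (δ / 2)
      rw [h6]
      nlinarith
    · rw [h3 n hS]
      refine ((hno n hS).mul (ge_pow hθr.neg (n - m))).mono ?_
      have h6 : ((n - m : ℕ) : ℝ) = n - m := by rw [Nat.cast_sub hn]
      have h9 := min_le_left e (δ / 2)
      rw [h6]
      nlinarith

/-- A bigger radius. -/
theorem SL.radius {p : ℕ} [hp : Fact p.Prime] [CharP Ω p] (h : SL p v F z r κ S A) {r₁ : ℝ}
    (hr : r ≤ r₁) (hr₁ : Gt v r₁ z) :
    ∃ κ₁ : ℝ, κ ≤ κ₁ ∧ κ₁ ≤ κ + S * (r₁ - r) ∧ SL p v F z r₁ κ₁ S A := by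
  rcases eq_or_lt_of_le hr with rfl | hr
  · exact ⟨κ, le_rfl, by simp, h⟩
  have hS0 : (0 : ℝ) ≤ S := Nat.cast_nonneg S
  set X : Set ℝ := {c | ∃ g ∈ PI F, GB v r₁ c (A - g ^ p)} with hX
  have hup : ∀ {c : ℝ} {g : Polynomial Ω}, GB v r c (A - g ^ p) → GB v r₁ c (A - g ^ p) :=
    fun hg => hg.radius_le hr.le
  have hmem : ∀ ε : ℝ, 0 < ε → κ - ε ∈ X := by
    intro ε hε
    obtain ⟨g, hg, h1⟩ := h.lo ε hε
    exact ⟨g, hg, hup h1⟩
  have hbd : ∀ c ∈ X, c ≤ κ + S * (r₁ - r) := by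
    rintro c ⟨g, hg, h1⟩
    refine le_of_forall_pos_le_add fun e he => ?_
    obtain ⟨m, hm, hbad⟩ := h.hi e he g hg
    by_contra hlt
    push Not at hlt
    apply hbad
    refine (h1 m).mono ?_
    have h2 : (m : ℝ) ≤ S := by exact_mod_cast hm
    have h3 : (m : ℝ) * (r₁ - r) ≤ S * (r₁ - r) := mul_le_mul_of_nonneg_right h2 (by linarith)
    nlinarith
  have hne : X.Nonempty := ⟨_, hmem 1 one_pos⟩
  have hBA : BddAbove X := ⟨_, hbd⟩
  set κ₁ := sSup X with hκ₁
  have hle : κ ≤ κ₁ := by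
    refine le_of_forall_pos_le_add fun ε hε => ?_
    have := le_csSup hBA (hmem ε hε)
    linarith
  have hge : κ₁ ≤ κ + S * (r₁ - r) := csSup_le hne hbd
  refine ⟨κ₁, hle, hge, h.mem, hr₁, fun ε hε => ?_, fun e he g hg => ?_⟩
  · obtain ⟨c, ⟨g, hg, h1⟩, h2⟩ := exists_lt_of_lt_csSup hne (show κ₁ - ε < κ₁ by linarith)
    exact ⟨g, hg, h1.mono h2.le⟩
  · by_contra hno
    push Not at hno
    set d := r₁ - r with hd
    have hd0 : 0 < d := by rw [hd]; linarith
    obtain ⟨g₁, hg₁, h1⟩ := h.lo (d / 2) (by linarith)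
    obtain ⟨g', hg', h3, h4⟩ := exists_splice p hg hg₁ A S
    have h5 : κ₁ + min e (d / 2) ∈ X := by
      refine ⟨g', hg', fun m => ?_⟩
      rcases Nat.lt_or_ge S m with hS | hS
      · rw [h4 m hS]
        refine (h1 m).mono ?_
        have h6 : (S : ℝ) + 1 ≤ m := by exact_mod_cast hS
        have h7 : ((S : ℝ) + 1) * d ≤ m * d := mul_le_mul_of_nonneg_right h6 hd0.le
        have h8 := min_le_right e (d / 2)
        have h9 : (m : ℝ) * d = m * r₁ - m * r := by rw [hd]; ring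
        nlinarith
      · rw [h3 m hS]
        refine (hno m hS).mono ?_
        have h8 := min_le_left e (d / 2)
        linarith
    have h6 := le_csSup hBA h5
    have h7 : 0 < min e (d / 2) := lt_min he (by linarith)
    linarith

end Pool.Agent.TWJ
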