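import Pool.Agent.Lib.TWJ.Defs
import Pool.Agent.Lib.TWM.S4

/-!
# TANK W, SEC1: smaller discs

* `sl_move`: the index does not grow when the disc gets smaller;
* `exists_mix`: polynomials with prescribed cleaning of the low and of the high indices.
-/

set_option autoImplicit false

open Polynomial

namespace Pool.Agent.TWJ

open Pool.Agent.H15JM (RVal)
open Pool.Agent.TWM

universe u

variable {k Ω : Type u} [Field k] [Field Ω] [Algebra k Ω] {v : RVal Ω} {p : ℕ}
  {F : IntermediateField k Ω} {z θ : Ω} {r c κ : ℝ} {S : ℕ} {A : Polynomial Ω}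

/-- Cleaning of the low indices with `g` and of the high indices with `g₀`. -/
theorem exists_mix [Fact p.Prime] [CharP Ω p] (A : Polynomial Ω) {g g₀ : Polynomial Ω}
    (hg : g ∈ PI F) (hg₀ : g₀ ∈ PI F) (P : ℕ → Prop) [DecidablePred P] :
    ∃ g' ∈ PI F, (∀ j, g'.coeff j = if P (p * j) then g.coeff j else g₀.coeff j) ∧
      ∀ n, (A - g' ^ p).coeff n = if P n then (A - g ^ p).coeff n else (A - g₀ ^ p).coeff n := by
  classical
  obtain ⟨g', hg', h7⟩ := exists_glue F (zero_mem F) hg hg₀ (fun j => P (p * j))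
  refine ⟨g', hg', fun j => by simpa only [taylor_zero] using h7 j, fun n => ?_⟩
  simp only [taylor_zero] at h7
  rw [coeff_sub, coeff_sub, coeff_sub, coeff_pow_ite, coeff_pow_ite, coeff_pow_ite]
  by_cases hn : p ∣ n
  · rw [if_pos hn, if_pos hn, if_pos hn, h7, Nat.mul_div_cancel' hn]
    split_ifs <;> rfl
  · rw [if_neg hn, if_neg hn, if_neg hn]
    split_ifs <;> rfl

theorem taylor_neg_taylor (θ : Ω) (f : Polynomial Ω) : taylor (-θ) (taylor θ f) = f := by
  rw [taylor_taylor, neg_add_cancel, taylor_zero]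

/-- The bound for the Gauss value on a smaller disc. -/
theorem sl_le_of_GB [Fact p.Prime] [CharP Ω p] (h : SL p v F z r κ S A) (hθ : θ ∈ F)
    (hrθ : Gt v r θ) (hrc : r ≤ c) {g : Polynomial Ω} (hg : g ∈ PI F) {κ' : ℝ}
    (h1 : ∀ m ≤ S, v.Ge (κ' - m * c) ((taylor θ A - g ^ p).coeff m)) :
    κ' ≤ κ + S * (c - r) := by
  classical
  by_contra hlt
  rw [not_le] at hlt
  set e : ℝ := (κ' - (κ + S * (c - r))) with he
  have he0 : 0 < e := by rw [he]; linarith
  -- a number between `r` and `v θ`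
  obtain ⟨b, hbr, hbθ⟩ : ∃ b : ℝ, r < b ∧ v.Ge b θ := by
    by_cases h0 : θ = 0
    · exact ⟨r + 1, by linarith, by rw [h0]; exact RVal.Ge.zero⟩
    · exact ⟨v θ, hrθ h0, RVal.Ge.of_le le_rfl⟩
  obtain ⟨g₀, hg₀, h5⟩ := h.lo ((b - r) / 2) (by linarith)
  have hψr : v.Ge r θ := hrθ.ge
  have h6 := GB_taylor hψr h5
  rw [map_sub, taylor_pow] at h6
  obtain ⟨g', hg', -, hco⟩ := exists_mix (taylor θ A) hg (TWM.taylor_mem_PI hg₀ hθ)
    (fun n => n ≤ S)
  have hlow : ∀ n, n ≤ S → v.Ge (κ + e - n * r) ((taylor θ A - g' ^ p).coeff n) := by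
    intro n hn
    rw [hco, if_pos hn]
    refine (h1 n hn).mono ?_
    have h9 : (n : ℝ) ≤ S := by exact_mod_cast hn
    have h11 : (n : ℝ) * (c - r) ≤ S * (c - r) := mul_le_mul_of_nonneg_right h9 (by linarith)
    have h13 : κ' = κ + S * (c - r) + e := by rw [he]; ring
    nlinarith
  have hhigh : ∀ n, S < n → v.Ge (κ - (b - r) / 2 - n * r)
      ((taylor θ A - g' ^ p).coeff n) := by
    intro n hn
    rw [hco, if_neg (not_le.2 hn)]
    exact h6 n
  have hgm : taylor (-θ) g' ∈ PI F := TWM.taylor_mem_PI hg' (neg_mem hθ)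
  obtain ⟨m, hm, h8⟩ := h.hi (min e ((b - r) / 2)) (lt_min he0 (by linarith)) _ hgm
  apply h8
  have h9 : A - taylor (-θ) g' ^ p = taylor (-θ) (taylor θ A - g' ^ p) := by
    rw [map_sub, taylor_pow, taylor_neg_taylor]
  rw [h9]
  refine taylor_coeff_ge' fun n hn => ?_
  have hψ' : v.Ge b (-θ) := RVal.Ge.neg hbθ
  have h10 : ((n - m : ℕ) : ℝ) = n - m := Nat.cast_sub hn
  rcases le_or_gt n S with h11 | h11
  · refine (RVal.Ge.mul (hlow n h11) (ge_pow hψ' (n - m))).mono ?_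
    have h12 := min_le_left e ((b - r) / 2)
    have h13 : (0 : ℝ) ≤ ((n - m : ℕ) : ℝ) := Nat.cast_nonneg _
    have h14 : 0 ≤ ((n - m : ℕ) : ℝ) * (b - r) := mul_nonneg h13 (by linarith)
    rw [h10] at h14 ⊢
    nlinarith
  · refine (RVal.Ge.mul (hhigh n h11) (ge_pow hψ' (n - m))).mono ?_
    have h12 := min_le_right e ((b - r) / 2)
    have h13 : (1 : ℝ) ≤ ((n - m : ℕ) : ℝ) := by
      exact_mod_cast (by omega : 1 ≤ n - m)
    have h14 : (b - r) ≤ ((n - m : ℕ) : ℝ) * (b - r) :=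
      le_mul_of_one_le_left (by linarith) h13
    rw [h10] at h14 ⊢
    nlinarith

/-- **The index on a smaller disc.** -/
theorem sl_move [Fact p.Prime] [CharP Ω p] (h : SL p v F z r κ S A) (hθ : θ ∈ F)
    (hrθ : Gt v r θ) (hrc : r ≤ c) (hc : Gt v c (z - θ)) :
    ∃ κ' : ℝ, κ ≤ κ' ∧ SL p v F (z - θ) c κ' S (taylor θ A) := by
  classical
  let X : Set ℝ := {κ' | ∃ g ∈ PI F, GB v c κ' (taylor θ A - g ^ p)}
  have hX : ∀ {κ' : ℝ} {g : Polynomial Ω}, g ∈ PI F → GB v r κ' (A - g ^ p) → κ' ∈ X := by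
    intro κ' g hgm hg
    refine ⟨taylor θ g, TWM.taylor_mem_PI hgm hθ, fun m => ?_⟩
    have h1 := GB_taylor hrθ.ge hg m
    rw [map_sub, taylor_pow] at h1
    refine h1.mono ?_
    have : (0 : ℝ) ≤ m := Nat.cast_nonneg m
    nlinarith
  have hne : X.Nonempty := by
    obtain ⟨g, hg, h1⟩ := h.lo 1 one_pos
    exact ⟨κ - 1, hX hg h1⟩
  have hbd : ∀ κ' ∈ X, κ' ≤ κ + S * (c - r) := by
    rintro κ' ⟨g, hg, h1⟩
    exact sl_le_of_GB h hθ hrθ hrc hg fun m _ => h1 m
  have hbdd : BddAbove X := ⟨_, fun κ' hκ' => hbd κ' hκ'⟩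
  have hle : sSup X ≤ κ + S * (c - r) := csSup_le hne hbd
  have hκ : κ ≤ sSup X := by
    refine le_of_forall_pos_lt_add fun ε hε => ?_
    obtain ⟨g, hg, h1⟩ := h.lo (ε / 2) (by linarith)
    have h2 := le_csSup hbdd (hX hg h1)
    linarith
  refine ⟨sSup X, hκ, TWM.taylor_mem_PI h.mem hθ, hc, fun ε hε => ?_, fun e he g hg => ?_⟩
  · obtain ⟨κ', ⟨g, hg, h1⟩, h2⟩ := exists_lt_of_lt_csSup hne (sub_lt_self (sSup X) hε)
    exact ⟨g, hg, GB_mono h2.le h1⟩
  · by_contra hno
    push Not at hno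
    -- the low indices are good
    have hlow : ∀ m ≤ S, v.Ge (sSup X + e - m * c) ((taylor θ A - g ^ p).coeff m) := fun m hm =>
      hno m hm
    have h2 := sl_le_of_GB h hθ hrθ hrc hg hlow
    rcases hrc.lt_or_eq with h3 | h3
    · -- the high indices
      obtain ⟨g₀, hg₀, h1⟩ := h.lo ((c - r) / 2) (by linarith)
      have h4 := GB_taylor hrθ.ge h1
      rw [map_sub, taylor_pow] at h4
      obtain ⟨g', hg', -, hco⟩ := exists_mix (taylor θ A) hg (TWM.taylor_mem_PI hg₀ hθ)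
        (fun n => n ≤ S)
      have h5 : sSup X + min e ((c - r) / 2) ∈ X := by
        refine ⟨g', hg', fun m => ?_⟩
        rw [hco]
        split_ifs with h6
        · exact (hlow m h6).mono (by linarith [min_le_left e ((c - r) / 2)])
        · refine (h4 m).mono ?_
          have h7 : ((S : ℝ) + 1) ≤ m := by exact_mod_cast (not_le.1 h6)
          have h8 : ((S : ℝ) + 1) * (c - r) ≤ m * (c - r) :=
            mul_le_mul_of_nonneg_right h7 (by linarith)
          have h9 := min_le_right e ((c - r) / 2)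
          nlinarith
      have h6 := le_csSup hbdd h5
      have h7 : 0 < min e ((c - r) / 2) := lt_min he (by linarith)
      linarith
    · subst h3
      rw [sub_self, mul_zero, add_zero] at h2
      linarith

end Pool.Agent.TWJ
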