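import Pool.Agent.Lib.TWJ.EXG
import Pool.Agent.Lib.TWM.A2

/-!
# TANK W: the TOP principle (elimination)

`K₀` closed up to `F₂(y)`, `al ^ p = a`, `a g₁ ^ p - g₂ ^ p = f(y)` with `f` over `clI v F₂` of which
`y` is a function (`f` linear, or the linear jet of `f` at `y` dominates): `HRone v (adj K₀ al)`.
-/

set_option autoImplicit false

open Polynomial

namespace Pool.Agent.TWJ

open Pool.Agent.H15JM (RVal)
open Pool.Agent.LU1 (VPos adj)
open Pool.Agent.LUC (Cl clF)
open Pool.Agent.D2 (Ctx0)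
open Pool.Agent.D2P (hen clI mem_clI mem_hen le_hen hen_hen hen_mono mem_adj_self adj_le)
open Pool.Agent.TW
open Pool.Agent.TWM (CompleteV cadj le_clI clI_mono clI_clI clI_adj_clI cld_clI cld_cadj Cld TL PI
  Gt algc le_algc PI_mono self_mem_cadj le_cadj cadj_le eval_mem mem_cadj)

universe u

variable {k Ω : Type u} [Field k] [Field Ω] [Algebra k Ω] {v : RVal Ω} {r D : ℕ}

/-! ### The linear jet dominates -/

/-- `f(z)` generates `A⟨z⟩` if its linear jet dominates the jets of order divisible by `p`. -/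
theorem TL.top [IsAlgClosed Ω] (p : ℕ) [Fact p.Prime] [CharP Ω p] {A : IntermediateField k Ω}
    {z : Ω} {s : ℝ} (h : TL v A z s) {f : Polynomial Ω} (hf : f ∈ PI A)
    (h1 : (taylor z f).coeff 1 ≠ 0)
    (hst : ∀ l : ℕ, p ∣ l → l ≠ 0 → Gt v (v ((taylor z f).coeff 1) + s - l * s)
      ((taylor z f).coeff l)) :
    TL v A (f.eval z) (v ((taylor z f).coeff 1) + s) ∧ cadj v A (f.eval z) = cadj v A z := by
  classical
  -- all the jets of order `≥ 2`
  have hder : (taylor z (derivative f)).coeff 0 = (taylor z f).coeff 1 := by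
    rw [taylor_coeff_zero, taylor_coeff_one]
  have hdm : derivative f ∈ PI (algc A) := by
    intro i
    rw [coeff_derivative]
    exact mul_mem (le_algc A (hf _)) (by exact_mod_cast natCast_mem (algc A) (i + 1))
  have hd0 : derivative f ≠ 0 := by
    intro h0
    rw [h0, map_zero, coeff_zero] at hder
    exact h1 hder.symm
  have hdl : ∀ l : ℕ, (taylor z (derivative f)).coeff l =
      ((l + 1 : ℕ) : Ω) * (taylor z f).coeff (l + 1) := by
    intro l
    have e : taylor z (derivative f) = derivative (taylor z f) := by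
      rw [taylor_apply, taylor_apply, derivative_comp]
      simp
    rw [e, coeff_derivative, mul_comm]
    push_cast
    rfl
  have hst' : ∀ l : ℕ, 2 ≤ l → Gt v (v ((taylor z f).coeff 1) + s - l * s)
      ((taylor z f).coeff l) := by
    intro l hl
    by_cases hp : p ∣ l
    · exact hst l hp (by omega)
    intro h0
    obtain ⟨m, rfl⟩ : ∃ m, l = m + 1 := ⟨l - 1, by omega⟩
    obtain ⟨hn0, hnv⟩ := TWM.val_natCast (v := v) (Ω := Ω) p hp
    have h2 := h.strict hdm hd0 (l := m) (by omega) (by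
      rw [hdl]
      exact mul_ne_zero hn0 h0)
    rw [hdl, v.map_mul hn0 h0, hnv, zero_add] at h2
    have h3 : (derivative f).eval z = (taylor z f).coeff 1 := by
      rw [← hder, taylor_coeff_zero]
    rw [h3] at h2
    push_cast
    linarith
  -- the values of the jets near `z`
  have hfin : ∃ δ : ℝ, 0 < δ ∧ ∀ ψ, v.Ge (s - δ) (z - ψ) →
      ((derivative f).eval ψ ≠ 0 ∧ v ((derivative f).eval ψ) = v ((taylor z f).coeff 1)) ∧
      ∀ l ∈ Finset.Icc 2 f.natDegree,
        Gt v (v ((taylor z f).coeff 1) + s) ((taylor ψ f).coeff l * (z - ψ) ^ l) := by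
    obtain ⟨δ₁, hδ₁, hn1⟩ := h.near_val hdm hd0
    have key : ∀ S : Finset ℕ, (∀ l ∈ S, 2 ≤ l) → ∃ δ : ℝ, 0 < δ ∧
        ∀ ψ, v.Ge (s - δ) (z - ψ) → ∀ l ∈ S,
          Gt v (v ((taylor z f).coeff 1) + s) ((taylor ψ f).coeff l * (z - ψ) ^ l) := by
      intro S
      induction S using Finset.induction_on with
      | empty => exact fun _ => ⟨1, one_pos, fun ψ _ l hl => absurd hl (Finset.notMem_empty l)⟩
      | insert m S hm ih =>
        intro hS
        obtain ⟨δ, hδ, hi⟩ := ih fun l hl => hS l (Finset.mem_insert_of_mem hl)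
        have hm2 := hS m (Finset.mem_insert_self m S)
        have hco : ∀ ψ : Ω, (taylor ψ f).coeff m = (hasseDeriv m f).eval ψ := fun ψ => by
          rw [taylor_coeff]
        by_cases hz0 : hasseDeriv m f = 0
        · refine ⟨δ, hδ, fun ψ hψ l hl => ?_⟩
          rcases Finset.mem_insert.1 hl with rfl | hl
          · rw [hco, hz0, eval_zero, zero_mul]
            exact TWM.Gt.zero
          · exact hi ψ hψ l hl
        · have hmm : hasseDeriv m f ∈ PI (algc A) :=
            TWM.hasse_mem_PI (PI_mono (le_algc A) hf) m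
          obtain ⟨δ₂, hδ₂, hn2⟩ := h.near_val hmm hz0
          have hne := h.eval_ne hmm hz0
          have hgt : v ((taylor z f).coeff 1) + s - m * s < v ((hasseDeriv m f).eval z) := by
            have h3 := hst' m hm2
            rw [hco] at h3
            exact h3 hne
          set μ : ℝ := v ((hasseDeriv m f).eval z) - (v ((taylor z f).coeff 1) + s - m * s) with hμ
          have hμ0 : 0 < μ := by rw [hμ]; linarith
          refine ⟨min δ (min δ₂ (μ / (2 * (m + 1)))), lt_min hδ (lt_min hδ₂ (by positivity)),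
            fun ψ hψ l hl => ?_⟩
          rcases Finset.mem_insert.1 hl with rfl | hl
          · intro h0
            have hzψ : z - ψ ≠ 0 := fun h4 => h0 (by
              rw [h4, zero_pow (by omega), mul_zero])
            rw [hco] at h0 ⊢
            obtain ⟨h4, h5⟩ := hn2 ψ (hψ.mono (by
              have := (min_le_right δ (min δ₂ (μ / (2 * (l + 1))))).trans (min_le_left _ _)
              linarith))
            rw [v.map_mul h4 (pow_ne_zero _ hzψ), v.map_pow hzψ, h5]
            have h6 := hψ hzψ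
            have h7 : min δ (min δ₂ (μ / (2 * (l + 1)))) ≤ μ / (2 * (l + 1)) :=
              (min_le_right _ _).trans (min_le_right _ _)
            have h8 : (l : ℝ) * (μ / (2 * (l + 1))) < μ := by
              rw [mul_div_assoc', div_lt_iff₀ (by positivity)]
              have : (0 : ℝ) ≤ l := Nat.cast_nonneg l
              nlinarith
            have h9 : (l : ℝ) * (s - μ / (2 * (l + 1))) ≤ l * v (z - ψ) :=
              mul_le_mul_of_nonneg_left (by linarith) (Nat.cast_nonneg l)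
            rw [mul_sub] at h9
            linarith
          · exact hi ψ (hψ.mono (by
              have := min_le_left δ (min δ₂ (μ / (2 * (m + 1))))
              linarith)) l hl
    obtain ⟨δ₂, hδ₂, hn2⟩ := key (Finset.Icc 2 f.natDegree) fun l hl => (Finset.mem_Icc.1 hl).1
    refine ⟨min δ₁ δ₂, lt_min hδ₁ hδ₂, fun ψ hψ => ⟨?_, ?_⟩⟩
    · obtain ⟨h4, h5⟩ := hn1 ψ (hψ.mono (by have := min_le_left δ₁ δ₂; linarith))
      refine ⟨h4, ?_⟩
      rw [h5, ← hder, taylor_coeff_zero]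
    · exact hn2 ψ (hψ.mono (by have := min_le_right δ₁ δ₂; linarith))
  obtain ⟨δ, hδ, hnear⟩ := hfin
  obtain ⟨ψ, hψA, hψ⟩ := h.lim δ hδ
  obtain ⟨⟨hc0, hcv⟩, hjet⟩ := hnear ψ hψ
  have hcA : (derivative f).eval ψ ∈ A := eval_mem (by
    intro i
    rw [coeff_derivative]
    exact mul_mem (hf _) (by exact_mod_cast natCast_mem A (i + 1))) hψA
  have hfA : f.eval ψ - (derivative f).eval ψ * ψ ∈ A :=
    sub_mem (eval_mem hf hψA) (mul_mem hcA hψA)
  have hzm : f.eval z ∈ cadj v A z := eval_mem (fun i => le_cadj v A z (hf i)) (self_mem_cadj v A z)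
  have hgt : Gt v (v ((derivative f).eval ψ) + s)
      (f.eval z - ((derivative f).eval ψ * z + (f.eval ψ - (derivative f).eval ψ * ψ))) := by
    have e : f.eval z - ((derivative f).eval ψ * z + (f.eval ψ - (derivative f).eval ψ * ψ)) =
        ∑ l ∈ Finset.Icc 2 f.natDegree, (taylor ψ f).coeff l * (z - ψ) ^ l := by
      have e1 : f.eval z = (taylor ψ f).eval (z - ψ) := by rw [taylor_eval, sub_add_cancel]
      rw [e1, eval_eq_sum_range' (n := f.natDegree + 2) (by rw [natDegree_taylor]; omega)]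
      rw [Finset.sum_range_succ', Finset.sum_range_succ', taylor_coeff_zero]
      have e2 : (taylor ψ f).coeff 1 = (derivative f).eval ψ := taylor_coeff_one ψ f
      have e3 : ∑ l ∈ Finset.Icc 2 f.natDegree, (taylor ψ f).coeff l * (z - ψ) ^ l =
          ∑ l ∈ Finset.range f.natDegree, (taylor ψ f).coeff (l + 1 + 1) * (z - ψ) ^ (l + 1 + 1) := by
        by_cases hn : f.natDegree = 0
        · rw [hn]
          rfl
        obtain ⟨N, hN⟩ : ∃ N, f.natDegree = N + 1 := ⟨f.natDegree - 1, by omega⟩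
        rw [hN, Finset.sum_range_succ]
        have e4 : (taylor ψ f).coeff (N + 1 + 1) = 0 :=
          coeff_eq_zero_of_natDegree_lt (by rw [natDegree_taylor]; omega)
        rw [e4, zero_mul, add_zero]
        have e5 : Finset.Icc 2 (N + 1) = (Finset.range N).image fun i => i + 2 := by
          ext i
          simp only [Finset.mem_Icc, Finset.mem_image, Finset.mem_range]
          constructor
          · rintro ⟨h4, h5⟩
            exact ⟨i - 2, by omega, by omega⟩
          · rintro ⟨j, hj, rfl⟩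
            omega
        rw [e5, Finset.sum_image fun i _ j _ hij => by simpa using hij]
      rw [e3, show (0 + 1 : ℕ) = 1 from rfl, e2, pow_one, pow_zero, mul_one]
      ring
    rw [e, hcv]
    exact TWM.Gt.sum _ _ hjet
  have h5 := TWM.TL.generator h hcA hc0 hfA hzm hgt
  rwa [hcv] at h5

/-! ### The exit -/

/-- **ELIMINATION.**  `clI K₀ = clI F₂(y)` and `y` is in the closure of `F₂(al g₁ - g₂)`. -/
theorem top_hrone [IsAlgClosed k] [IsAlgClosed Ω] (p : ℕ) [Fact p.Prime] [CharP k p] [CharP Ω p]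
    (h : Ctx k v r) (hcv : CompleteV v)
    (hLU : ∀ E : IntermediateField k Ω, E.FG → Full v E → Algebra.trdeg k E = (r + D : ℕ) →
      BD p v E → LU p v r E)
    {K₀ : IntermediateField k Ω} (hK : K₀.FG) (hKf : Full v K₀)
    (htr : Algebra.trdeg k K₀ = (r + D + 1 : ℕ)) {al : Ω} (hal : al ^ p ∈ K₀)
    (hBD : BD p v (adj K₀ al))
    {F₂ : IntermediateField k Ω} (h1 : F₂.FG) (h2 : Full v F₂)
    (h3 : Algebra.trdeg k F₂ = (r + D : ℕ)) {y g₁ g₂ : Ω} (hg₁ : g₁ ∈ clI v K₀)
    (hg₂ : g₂ ∈ clI v K₀) (hg0 : g₁ ≠ 0) (hcl : clI v K₀ = clI v (adj F₂ y))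
    (hy : y ∈ clI v (adj F₂ (al * g₁ - g₂))) : HRone v (adj K₀ al) := by
  refine exitg' p h hcv hLU hK hKf htr hal hBD h1 h2 h3 (X₂ := al * g₁ - g₂) hg₁ hg₂ hg0 ?_
  have hF : F₂ ≤ clI v (adj F₂ (al * g₁ - g₂)) :=
    fun a ha => le_clI _ ((mem_adj_self F₂ _).2 ha)
  have hKle : clI v K₀ ≤ clI v (adj F₂ (al * g₁ - g₂)) := by
    rw [hcl]
    exact (clI_mono (adj_le hF hy)).trans (cld_clI v _)
  have hFK : F₂ ≤ clI v K₀ := by
    rw [hcl]
    exact fun a ha => le_clI _ ((mem_adj_self F₂ y).2 ha)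
  apply le_antisymm
  · exact (clI_mono (adj_le hKle (le_clI _ (mem_adj_self F₂ _).1))).trans (cld_clI v _)
  · exact clI_mono (adj_le (fun a ha => (mem_adj_self (clI v K₀) _).2 (hFK ha))
      (mem_adj_self (clI v K₀) _).1)

/-- **TOP PRINCIPLE, linear case**: `a g₁ ^ p - g₂ ^ p = e₁ y + e₀`, `e₀, e₁` in the closure of
`F₂`. -/
theorem top_hrone_linear [IsAlgClosed k] [IsAlgClosed Ω] (p : ℕ) [Fact p.Prime] [CharP k p]
    [CharP Ω p] (h : Ctx k v r) (hcv : CompleteV v)
    (hLU : ∀ E : IntermediateField k Ω, E.FG → Full v E → Algebra.trdeg k E = (r + D : ℕ) →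
      BD p v E → LU p v r E)
    {K₀ : IntermediateField k Ω} (hK : K₀.FG) (hKf : Full v K₀)
    (htr : Algebra.trdeg k K₀ = (r + D + 1 : ℕ)) {al : Ω} (hal : al ^ p ∈ K₀)
    (hBD : BD p v (adj K₀ al))
    {F₂ : IntermediateField k Ω} (h1 : F₂.FG) (h2 : Full v F₂)
    (h3 : Algebra.trdeg k F₂ = (r + D : ℕ)) {y g₁ g₂ e₀ e₁ : Ω} (hg₁ : g₁ ∈ clI v K₀)
    (hg₂ : g₂ ∈ clI v K₀) (hg0 : g₁ ≠ 0) (hcl : clI v K₀ = clI v (adj F₂ y))
    (he₀ : e₀ ∈ clI v F₂) (he₁ : e₁ ∈ clI v F₂) (he0 : e₁ ≠ 0)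
    (he : al ^ p * g₁ ^ p - g₂ ^ p = e₁ * y + e₀) : HRone v (adj K₀ al) := by
  refine top_hrone p h hcv hLU hK hKf htr hal hBD h1 h2 h3 hg₁ hg₂ hg0 hcl ?_
  have hle : clI v F₂ ≤ clI v (adj F₂ (al * g₁ - g₂)) :=
    clI_mono fun a ha => (mem_adj_self F₂ _).2 ha
  have e : y = ((al * g₁ - g₂) ^ p - e₀) / e₁ := by
    rw [sub_pow_char, mul_pow, he, add_sub_cancel_right, mul_div_cancel_left₀ _ he0]
  rw [e]
  exact div_mem (sub_mem (pow_mem (le_clI _ (mem_adj_self F₂ _).1) p) (hle he₀)) (hle he₁)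

/-- **TOP PRINCIPLE**: `a g₁ ^ p - g₂ ^ p = f(y)`, `f` over the closure of `F₂`, the linear jet of
`f` at `y` dominates the jets of order divisible by `p`. -/
theorem top_hrone_jets [IsAlgClosed k] [IsAlgClosed Ω] (p : ℕ) [Fact p.Prime] [CharP k p]
    [CharP Ω p] (h : Ctx k v r) (hcv : CompleteV v)
    (hLU : ∀ E : IntermediateField k Ω, E.FG → Full v E → Algebra.trdeg k E = (r + D : ℕ) →
      BD p v E → LU p v r E)
    {K₀ : IntermediateField k Ω} (hK : K₀.FG) (hKf : Full v K₀)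
    (htr : Algebra.trdeg k K₀ = (r + D + 1 : ℕ)) {al : Ω} (hal : al ^ p ∈ K₀)
    (hBD : BD p v (adj K₀ al))
    {F₂ : IntermediateField k Ω} (h1 : F₂.FG) (h2 : Full v F₂)
    (h3 : Algebra.trdeg k F₂ = (r + D : ℕ)) {y g₁ g₂ : Ω} {s : ℝ} (hg₁ : g₁ ∈ clI v K₀)
    (hg₂ : g₂ ∈ clI v K₀) (hg0 : g₁ ≠ 0) (hcl : clI v K₀ = clI v (adj F₂ y))
    (hy : TL v (clI v F₂) y s) {f : Polynomial Ω} (hf : f ∈ PI (clI v F₂))
    (hf1 : (taylor y f).coeff 1 ≠ 0)
    (hst : ∀ l : ℕ, p ∣ l → l ≠ 0 → Gt v (v ((taylor y f).coeff 1) + s - l * s)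
      ((taylor y f).coeff l))
    (he : al ^ p * g₁ ^ p - g₂ ^ p = f.eval y) : HRone v (adj K₀ al) := by
  refine top_hrone p h hcv hLU hK hKf htr hal hBD h1 h2 h3 hg₁ hg₂ hg0 hcl ?_
  have hle : clI v F₂ ≤ clI v (adj F₂ (al * g₁ - g₂)) :=
    clI_mono fun a ha => (mem_adj_self F₂ _).2 ha
  have h4 := (TL.top p hy hf hf1 hst).2
  have h5 : y ∈ cadj v (clI v F₂) (f.eval y) := by
    rw [h4]
    exact self_mem_cadj v _ y
  refine cadj_le (cld_clI v _) hle ?_ h5
  rw [← he, ← mul_pow, ← sub_pow_char]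
  exact pow_mem (le_clI _ (mem_adj_self F₂ _).1) p

end Pool.Agent.TWJ
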