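import Pool.Agent.Lib.TWJ.EXE
import Pool.Agent.Lib.TWJ.TopP

/-!
# TANK W: NO HIT => `HRone`

`TL v A z s`, `f` over `A`, linear jet `κ ≠ 0` at `z`, `ν = v κ + s`; every jet of `f` at `z` of
order `l ≠ 0` divisible by `p` is a `p`-th power of an element of `A⟨z⟩` up to `> ν - l s`. Then
`f - G ^ p` has small jets for a polynomial `G` over `A`, and `f(z) - G(z) ^ p` generates `A⟨z⟩`.
-/

set_option autoImplicit false

open Polynomial

namespace Pool.Agent.TWJ

open Pool.Agent.H15JM (RVal)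
open Pool.Agent.LU1 (VPos adj)
open Pool.Agent.D2 (Ctx0)
open Pool.Agent.D2P (hen clI mem_clI mem_hen le_hen hen_hen hen_mono mem_adj_self adj_le)
open Pool.Agent.TW
open Pool.Agent.TWM (CompleteV cadj le_clI clI_mono clI_clI clI_adj_clI cld_clI cld_cadj Cld TL PI
  Gt algc le_algc PI_mono self_mem_cadj le_cadj cadj_le eval_mem mem_cadj C_mem_PI X_mem_PI
  hasse_mem_PI)

universe u

variable {k Ω : Type u} [Field k] [Field Ω] [Algebra k Ω] {v : RVal Ω} {r D : ℕ}

/-- The coefficients of a `p`-th power. -/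
theorem coeff_pow_char (p : ℕ) [Fact p.Prime] [CharP Ω p] (f : Polynomial Ω) (l : ℕ) :
    (f ^ p).coeff l = if p ∣ l then (f.coeff (l / p)) ^ p else 0 := by
  rw [← map_frobenius_expand, coeff_map, coeff_expand (Fact.out : p.Prime).pos]
  split_ifs
  · rfl
  · rw [map_zero]

/-- The jets of `u (X - θ) ^ j`. -/
theorem jet_pow (u θ z : Ω) (j i : ℕ) :
    (taylor z (C u * (X - C θ) ^ j)).coeff i = u * ((z - θ) ^ (j - i) * (j.choose i : Ω)) := by
  have e : taylor z (C u * (X - C θ) ^ j) = C u * (X + C (z - θ)) ^ j := by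
    rw [taylor_mul, taylor_C, taylor_pow, map_sub, taylor_X, taylor_C, add_sub_assoc, ← C_sub]
  rw [e, coeff_C_mul, coeff_X_add_C_pow]

variable [IsAlgClosed Ω]

/-- An element of `A` near a `p`-th power of `A⟨z⟩` is near a `p`-th power of `A`. -/
theorem TL.base_pow (p : ℕ) [Fact p.Prime] [CharP Ω p] {A : IntermediateField k Ω} {z : Ω}
    {s : ℝ} (h : TL v A z s) {x w : Ω} {c : ℝ} (hx : x ∈ A) (hw : w ∈ cadj v A z)
    (h1 : Gt v c (x - w ^ p)) : ∃ u ∈ A, Gt v c (x - u ^ p) := by
  have hp : p.Prime := Fact.out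
  have hp0 : (0 : ℝ) < p := by exact_mod_cast hp.pos
  obtain ⟨β, hβ⟩ := IsAlgClosed.exists_pow_nat_eq x hp.pos
  obtain ⟨f, hf, hfw⟩ := h.dense hw (c / p + 1)
  have h2 : Gt v c (x - f.eval z ^ p) := by
    have e : x - f.eval z ^ p = (x - w ^ p) + (w - f.eval z) ^ p := by
      rw [sub_pow_char]
      ring
    rw [e]
    refine h1.add fun h0 => ?_
    have h3 : w - f.eval z ≠ 0 := fun h3 => h0 (by rw [h3, zero_pow hp.ne_zero])
    rw [v.map_pow h3]
    have h4 := hfw h3
    have h5 : c < p * (c / p + 1) := by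
      rw [mul_add, mul_div_cancel₀ _ hp0.ne']
      linarith
    exact h5.trans_le (mul_le_mul_of_nonneg_left h4 hp0.le)
  have hβA : IsAlgebraic A β := by
    refine ⟨X ^ p - C (⟨x, hx⟩ : A), X_pow_sub_C_ne_zero hp.pos _, ?_⟩
    rw [map_sub, map_pow, aeval_X, aeval_C, hβ]
    exact sub_self _
  by_cases hg : f - C β = 0
  · refine ⟨f.eval z, ?_, ?_⟩
    · have e : f = C β := sub_eq_zero.1 hg
      have h3 := hf 0
      rw [e, coeff_C_zero] at h3
      rw [e, eval_C]
      exact h3
    · have e : f = C β := sub_eq_zero.1 hg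
      rw [e, eval_C, hβ, sub_self]
      exact TWM.Gt.zero
  · have hgm : f - C β ∈ PI (algc A) :=
      sub_mem (PI_mono (le_algc A) hf) (C_mem_PI (TWM.mem_algc.2 hβA))
    obtain ⟨δ, hδ, hn⟩ := h.near_val hgm hg
    obtain ⟨ψ, hψA, hψ⟩ := h.lim δ hδ
    obtain ⟨h3, h4⟩ := hn ψ hψ
    refine ⟨f.eval ψ, eval_mem hf hψA, fun h0 => ?_⟩
    have hz0 := h.eval_ne hgm hg
    rw [eval_sub, eval_C] at h3 h4 hz0
    rw [eval_sub, eval_C] at h4
    have e : x - f.eval ψ ^ p = -(f.eval ψ - β) ^ p := by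
      rw [sub_pow_char, hβ]
      ring
    have e2 : x - f.eval z ^ p = -(f.eval z - β) ^ p := by
      rw [sub_pow_char, hβ]
      ring
    rw [e, v.map_neg _ (pow_ne_zero _ h3), v.map_pow h3, h4]
    rw [e2] at h2
    have h5 := h2 (neg_ne_zero.2 (pow_ne_zero _ hz0))
    rwa [v.map_neg _ (pow_ne_zero _ hz0), v.map_pow hz0] at h5

/-- If the jets of order `≥ 1` of `f` at `z` are small, `f(z)` is near an element of `A`. -/
theorem TL.jets_base {A : IntermediateField k Ω} {z : Ω} {s : ℝ} (h : TL v A z s)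
    {f : Polynomial Ω} (hf : f ∈ PI A) {μ : ℝ}
    (hst : ∀ l : ℕ, 1 ≤ l → Gt v (μ - l * s) ((taylor z f).coeff l)) :
    ∃ a ∈ A, Gt v μ (f.eval z - a) := by
  classical
  have key : ∀ S : Finset ℕ, (∀ l ∈ S, 1 ≤ l) → ∃ δ : ℝ, 0 < δ ∧
      ∀ t, v.Ge (s - δ) t → ∀ l ∈ S, Gt v μ ((taylor z f).coeff l * t ^ l) := by
    intro S
    induction S using Finset.induction_on with
    | empty => exact fun _ => ⟨1, one_pos, fun t _ l hl => absurd hl (Finset.notMem_empty l)⟩
    | insert m S hm ih =>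
      intro hS
      obtain ⟨δ, hδ, hi⟩ := ih fun l hl => hS l (Finset.mem_insert_of_mem hl)
      have hm1 := hS m (Finset.mem_insert_self m S)
      by_cases hz0 : (taylor z f).coeff m = 0
      · refine ⟨δ, hδ, fun t ht l hl => ?_⟩
        rcases Finset.mem_insert.1 hl with rfl | hl
        · rw [hz0, zero_mul]
          exact TWM.Gt.zero
        · exact hi t ht l hl
      · have hgt := hst m hm1 hz0
        set η : ℝ := v ((taylor z f).coeff m) - (μ - m * s) with hη
        have hη0 : 0 < η := by rw [hη]; linarith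
        refine ⟨min δ (η / (2 * (m + 1))), lt_min hδ (by positivity), fun t ht l hl => ?_⟩
        rcases Finset.mem_insert.1 hl with rfl | hl
        · intro h0
          have ht0 : t ≠ 0 := fun h4 => h0 (by rw [h4, zero_pow (by omega), mul_zero])
          rw [v.map_mul hz0 (pow_ne_zero _ ht0), v.map_pow ht0]
          have h6 := ht ht0
          have h7 : min δ (η / (2 * (l + 1))) ≤ η / (2 * (l + 1)) := min_le_right _ _
          have h8 : (l : ℝ) * (η / (2 * (l + 1))) < η := by
            rw [mul_div_assoc', div_lt_iff₀ (by positivity)]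
            have : (0 : ℝ) ≤ l := Nat.cast_nonneg l
            nlinarith
          have h9 : (l : ℝ) * (s - η / (2 * (l + 1))) ≤ l * v t :=
            mul_le_mul_of_nonneg_left (by linarith) (Nat.cast_nonneg l)
          rw [mul_sub] at h9
          linarith
        · exact hi t (ht.mono (by
            have := min_le_left δ (η / (2 * (m + 1)))
            linarith)) l hl
  obtain ⟨δ, hδ, hn⟩ := key (Finset.Icc 1 f.natDegree) fun l hl => (Finset.mem_Icc.1 hl).1
  obtain ⟨ψ, hψA, hψ⟩ := h.lim δ hδ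
  refine ⟨f.eval ψ, eval_mem hf hψA, ?_⟩
  have e : f.eval ψ - f.eval z =
      ∑ l ∈ Finset.Icc 1 f.natDegree, (taylor z f).coeff l * (ψ - z) ^ l := by
    have e1 : f.eval ψ = (taylor z f).eval (ψ - z) := by rw [taylor_eval, sub_add_cancel]
    rw [e1, eval_eq_sum_range, natDegree_taylor, Finset.sum_range_eq_add_Ico _ (Nat.succ_pos _),
      taylor_coeff_zero, pow_zero, mul_one, add_sub_cancel_left]
    rfl
  refine TWM.Gt.sub_comm' ?_
  rw [e]
  exact TWM.Gt.sum _ _ fun l hl => hn _ (TWM.ge_sub_comm hψ) l hl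

/-- The derivative and the jets of order prime to `p`. -/
theorem TL.jet_prime (p : ℕ) [Fact p.Prime] [CharP Ω p] {A : IntermediateField k Ω}
    {z : Ω} {s : ℝ} (h : TL v A z s) {f : Polynomial Ω} (hf : f ∈ PI A)
    (h1 : (taylor z f).coeff 1 ≠ 0) {l : ℕ} (hl : 2 ≤ l) (hp : ¬ p ∣ l) :
    Gt v (v ((taylor z f).coeff 1) + s - l * s) ((taylor z f).coeff l) := by
  have hder : (taylor z (derivative f)).coeff 0 = (taylor z f).coeff 1 := by
    rw [taylor_coeff_zero, taylor_coeff_one]
  have hdm : derivative f ∈ PI (algc A) := by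
    intro i
    rw [coeff_derivative]
    exact mul_mem (le_algc A (hf _)) (by exact_mod_cast natCast_mem (algc A) (i + 1))
  have hd0 : derivative f ≠ 0 := by
    intro h0
    rw [h0, map_zero, coeff_zero] at hder
    exact h1 hder.symm
  have hdl : ∀ l : ℕ, (taylor z (derivative f)).coeff l =
      ((l + 1 : ℕ) : Ω) * (taylor z f).coeff (l + 1) := by
    intro l
    have e : taylor z (derivative f) = derivative (taylor z f) := by
      rw [taylor_apply, taylor_apply, derivative_comp]
      simp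
    rw [e, coeff_derivative, mul_comm]
    push_cast
    rfl
  intro h0
  obtain ⟨m, rfl⟩ : ∃ m, l = m + 1 := ⟨l - 1, by omega⟩
  obtain ⟨hn0, hnv⟩ := TWM.val_natCast (v := v) (Ω := Ω) p hp
  have h2 := h.strict hdm hd0 (l := m) (by omega) (by
    rw [hdl]
    exact mul_ne_zero hn0 h0)
  rw [hdl, v.map_mul hn0 h0, hnv, zero_add] at h2
  have h3 : (derivative f).eval z = (taylor z f).coeff 1 := by
    rw [← hder, taylor_coeff_zero]
  rw [h3] at h2
  push_cast
  linarith

/-- The jets of a jet. -/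
theorem jet_jet (f : Polynomial Ω) (z : Ω) (l i : ℕ) :
    (taylor z (hasseDeriv l f)).coeff i = ((i + l).choose i : Ω) * (taylor z f).coeff (i + l) := by
  rw [taylor_coeff, taylor_coeff]
  have e : hasseDeriv i (hasseDeriv l f) = (i + l).choose i • hasseDeriv (i + l) f := by
    have := LinearMap.congr_fun (hasseDeriv_comp (R := Ω) i l) f
    simpa using this
  rw [e, nsmul_eq_mul, eval_mul]
  simp

/-- **No hit**: the jets can be made strict by a `p`-th power. -/
theorem TL.nohit (p : ℕ) [Fact p.Prime] [CharP Ω p] {A : IntermediateField k Ω}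
    {z : Ω} {s : ℝ} (h : TL v A z s) (κ : Ω) (hκ : κ ≠ 0) (m : ℕ) :
    ∀ f : Polynomial Ω, f ∈ PI A → (taylor z f).coeff 1 = κ →
      (∀ l : ℕ, p ∣ l → l ≠ 0 → ∃ w ∈ cadj v A z,
        Gt v (v κ + s - l * s) ((taylor z f).coeff l - w ^ p)) →
      (∀ l : ℕ, m < l → p ∣ l → Gt v (v κ + s - l * s) ((taylor z f).coeff l)) →
      ∃ G ∈ PI A, (taylor z (f - G ^ p)).coeff 1 = κ ∧
        ∀ l : ℕ, p ∣ l → l ≠ 0 → Gt v (v κ + s - l * s) ((taylor z (f - G ^ p)).coeff l) := by
  have hp : p.Prime := Fact.out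
  induction m with
  | zero =>
    intro f hf h1 _ hst
    refine ⟨0, zero_mem _, ?_, fun l hl hl0 => ?_⟩
    · rw [zero_pow hp.ne_zero, sub_zero, h1]
    · rw [zero_pow hp.ne_zero, sub_zero]
      exact hst l (by omega) hl
  | succ m ih =>
    intro f hf h1 hit hst
    by_cases hpm : p ∣ m + 1
    swap
    · refine ih f hf h1 hit fun l hl hpl => ?_
      rcases eq_or_ne l (m + 1) with rfl | hne
      · exact absurd hpl hpm
      · exact hst l (by omega) hpl
    -- the jet of order `m + 1` is near an element of `A`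
    obtain ⟨x, hxA, hx⟩ := TL.jets_base h (hasse_mem_PI hf (m + 1))
      (μ := v κ + s - (m + 1 : ℕ) * s) (fun i hi => by
        rw [jet_jet]
        have hb : v.Ge 0 (((i + (m + 1)).choose i : ℕ) : Ω) := by
          intro h0
          have : ¬ p ∣ (i + (m + 1)).choose i := fun h5 =>
            h0 ((CharP.cast_eq_zero_iff Ω p _).2 h5)
          exact (TWM.val_natCast (v := v) (Ω := Ω) p this).2.ge
        have h2 : Gt v (v κ + s - (i + (m + 1) : ℕ) * s)
            ((taylor z f).coeff (i + (m + 1))) := by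
          by_cases h3 : p ∣ i + (m + 1)
          · exact hst _ (by omega) h3
          · rw [← h1]
            exact TL.jet_prime p h hf (by rw [h1]; exact hκ) (by omega) h3
        rw [mul_comm (((i + (m + 1)).choose i : ℕ) : Ω)]
        refine (h2.mul_ge hb).mono ?_
        push_cast
        linarith)
    rw [← taylor_coeff] at hx
    obtain ⟨w, hw, hwx⟩ := hit (m + 1) hpm (by omega)
    obtain ⟨u, huA, hu⟩ := TL.base_pow p h hxA hw (c := v κ + s - (m + 1 : ℕ) * s) (by
      rw [show x - w ^ p = -((taylor z f).coeff (m + 1) - x) +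
        ((taylor z f).coeff (m + 1) - w ^ p) by ring]
      exact hx.neg.add hwx)
    obtain ⟨j, hj⟩ := hpm
    have hj0 : j ≠ 0 := by
      rintro rfl
      omega
    obtain ⟨θ, hθA, -⟩ := h.lim 1 one_pos
    set G₁ : Polynomial Ω := C u * (X - C θ) ^ j with hG₁
    have hG₁m : G₁ ∈ PI A :=
      mul_mem (C_mem_PI huA) (pow_mem (sub_mem X_mem_PI (C_mem_PI hθA)) j)
    have htp : ∀ l, (taylor z (G₁ ^ p)).coeff l =
        if p ∣ l then ((taylor z G₁).coeff (l / p)) ^ p else 0 := fun l => by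
      rw [taylor_pow, coeff_pow_char p]
    have hjet : ∀ l, (taylor z (f - G₁ ^ p)).coeff l =
        (taylor z f).coeff l - if p ∣ l then ((taylor z G₁).coeff (l / p)) ^ p else 0 := fun l => by
      rw [map_sub, coeff_sub, htp]
    have hp1 : ¬ p ∣ 1 := fun h5 => hp.one_lt.not_ge (Nat.le_of_dvd one_pos h5)
    obtain ⟨G₂, hG₂, h3, h4⟩ := ih (f - G₁ ^ p) (sub_mem hf (pow_mem hG₁m p))
      (by rw [hjet, if_neg hp1, sub_zero, h1])
      (fun l hl hl0 => by
        obtain ⟨w', hw', h5⟩ := hit l hl hl0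
        refine ⟨w' - (taylor z G₁).coeff (l / p), sub_mem hw' ?_, ?_⟩
        · rw [hG₁, jet_pow]
          refine mul_mem (le_cadj v A z huA) (mul_mem (pow_mem (sub_mem (self_mem_cadj v A z)
            (le_cadj v A z hθA)) _) ?_)
          exact natCast_mem _ _
        · rw [hjet, if_pos hl, sub_pow_char, sub_sub_sub_cancel_right]
          exact h5)
      (fun l hl hpl => by
        rw [hjet, if_pos hpl]
        rcases eq_or_ne l (m + 1) with rfl | hne
        · have h5 : (m + 1) / p = j := by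
            rw [hj, Nat.mul_div_cancel_left _ hp.pos]
          rw [h5, hG₁, jet_pow, Nat.sub_self, pow_zero, Nat.choose_self, Nat.cast_one, mul_one,
            mul_one]
          rw [show (taylor z f).coeff (m + 1) - u ^ p =
            ((taylor z f).coeff (m + 1) - x) + (x - u ^ p) by ring]
          exact hx.add hu
        · have h5 : j < l / p := by
            rw [Nat.lt_div_iff_mul_lt' hpl, ← hj]
            omega
          rw [hG₁, jet_pow, Nat.choose_eq_zero_of_lt h5, Nat.cast_zero, mul_zero, mul_zero,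
            zero_pow hp.ne_zero, sub_zero]
          exact hst l (by omega) hpl)
    refine ⟨G₁ + G₂, add_mem hG₁m hG₂, ?_, fun l hl hl0 => ?_⟩
    · rw [add_pow_char, ← sub_sub]
      exact h3
    · rw [add_pow_char, ← sub_sub]
      exact h4 l hl hl0

/-- **NO HIT => `HRone`** (with errors). -/
theorem nohit_exit [IsAlgClosed k] (p : ℕ) [Fact p.Prime] [CharP k p] [CharP Ω p]
    (h : Ctx k v r) (hcv : CompleteV v)
    (hLU : ∀ E : IntermediateField k Ω, E.FG → Full v E → Algebra.trdeg k E = (r + D : ℕ) →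
      BD p v E → LU p v r E)
    {K₀ : IntermediateField k Ω} (hK : K₀.FG) (hKf : Full v K₀)
    (htr : Algebra.trdeg k K₀ = (r + D + 1 : ℕ)) {al : Ω} (hal : al ^ p ∈ K₀)
    (hBD : BD p v (adj K₀ al)) {F : IntermediateField k Ω} (hF : F.FG) (hFf : Full v F)
    (hFt : Algebra.trdeg k F = (r + D : ℕ)) {y : Ω} {s : ℝ} (hy : TL v (clI v F) y s)
    (hcl : clI v K₀ = cadj v (clI v F) y) {f : Polynomial Ω} (hf : f ∈ PI (clI v F)) {g : Ω}
    (hg : g ∈ clI v K₀) (h1 : (taylor y f).coeff 1 ≠ 0)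
    (hw : Gt v (v ((taylor y f).coeff 1) + s) (al ^ p - g ^ p - f.eval y))
    (hit : ∀ l : ℕ, p ∣ l → l ≠ 0 → ∃ w ∈ clI v K₀,
      Gt v (v ((taylor y f).coeff 1) + s - l * s) ((taylor y f).coeff l - w ^ p)) :
    HRone v (adj K₀ al) := by
  obtain ⟨G, hG, h2, h3⟩ := TL.nohit p hy ((taylor y f).coeff 1) h1 f.natDegree f hf rfl
    (by rw [← hcl]; exact hit) (fun l hl _ => by
      have e : (taylor y f).coeff l = 0 :=
        coeff_eq_zero_of_natDegree_lt (by rw [natDegree_taylor]; exact hl)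
      rw [e]
      exact TWM.Gt.zero)
  have h4 : (taylor y (f - G ^ p)).coeff 1 ≠ 0 := by rw [h2]; exact h1
  obtain ⟨h5, h6⟩ := TL.top p hy (sub_mem hf (pow_mem hG p)) h4 (by rw [h2]; exact h3)
  rw [h2] at h5
  have hGK : G.eval y ∈ clI v K₀ := by
    rw [hcl]
    exact eval_mem (PI_mono (le_cadj v _ y) hG) (self_mem_cadj v _ y)
  refine exit_lin p h hcv hLU hK hKf htr hal hBD hF hFf hFt h5 (by rw [hcl, h6])
    (g := g + G.eval y) (e := 0) (e₁ := 1) (zero_mem _) (one_mem _) one_ne_zero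
    (add_mem hg hGK) ?_
  rw [add_pow_char, eval_sub, eval_pow, one_mul, add_zero,
    show al ^ p - (g ^ p + G.eval y ^ p) - (f.eval y - G.eval y ^ p) =
      al ^ p - g ^ p - f.eval y by ring, show v (1 : Ω) = 0 from v.map_one, zero_add]
  exact hw

end Pool.Agent.TWJ
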