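import Pool.Agent.Lib.TWJ.MW

/-!
# TANK W, SEC1: the states of minimal index

* `Stt.move`: a state on a smaller disc;
* `Stt.low_at`: in a state of minimal index `q`, the index `q` is responsible alone;
* `Stt.dvd`: `p` divides the minimal index;
* `Stt.seed`: the normal form `Seed`.
-/

set_option autoImplicit false

open Polynomial

namespace Pool.Agent.TWJ

open Pool.Agent.H15JM (RVal)
open Pool.Agent.LU1 (adj)
open Pool.Agent.D2P (clI mem_clI adj_le mem_adj_self)
open Pool.Agent.TW (Full BD Fr)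
open Pool.Agent.TWM

universe u

variable {k Ω : Type u} [Field k] [Field Ω] [Algebra k Ω] {v : RVal Ω} {p : ℕ}
  {F K : IntermediateField k Ω} {z a θ : Ω} {ρ c κ s : ℝ} {q r D : ℕ} {A : Polynomial Ω}

theorem ge_sub_swap {c : ℝ} {x y : Ω} (h : v.Ge c (x - y)) : v.Ge c (y - x) := ge_sub_comm h

/-! ### distances -/

theorem Dst.congr {κ δ : ℝ} {f f' : Ω} (h : Dst p v F κ f) (hδ : 0 < δ)
    (hf : v.Ge (κ + δ) (f - f')) : Dst p v F κ f' where
  lo := by
    intro ε hε
    obtain ⟨g, hg, h1⟩ := h.lo ε hε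
    refine ⟨g, hg, ?_⟩
    have h2 := h1.sub (hf.mono (show κ - ε ≤ κ + δ by linarith))
    rwa [show f - g ^ p - (f - f') = f' - g ^ p by ring] at h2
  hi := by
    intro e he g hg h1
    refine h.hi (min e δ) (lt_min he hδ) g hg ?_
    have h2 := (h1.mono (show κ + min e δ ≤ κ + e by linarith [min_le_left e δ])).add
      (hf.mono (show κ + min e δ ≤ κ + δ by linarith [min_le_right e δ]))
    rwa [show f' - g ^ p + (f - f') = f - g ^ p by ring] at h2

theorem Dst.unique {κ κ' : ℝ} {f : Ω} (h : Dst p v F κ f) (h' : Dst p v F κ' f) : κ = κ' := by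
  rcases lt_trichotomy κ κ' with h1 | h1 | h1
  · obtain ⟨g, hg, h2⟩ := h'.lo ((κ' - κ) / 2) (by linarith)
    exact absurd (h2.mono (by linarith)) (h.hi ((κ' - κ) / 2) (by linarith) g hg)
  · exact h1
  · obtain ⟨g, hg, h2⟩ := h.lo ((κ - κ') / 2) (by linarith)
    exact absurd (h2.mono (by linarith)) (h'.hi ((κ - κ') / 2) (by linarith) g hg)

/-! ### SL and `p`-th powers -/

theorem sub_pow_p [Fact p.Prime] [CharP Ω p] (f g : Polynomial Ω) :
    (f - g) ^ p = f ^ p - g ^ p := sub_pow_char _ _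

theorem sl_sub [Fact p.Prime] [CharP Ω p] {S : ℕ} (h : SL p v F z ρ κ S A) {g₀ : Polynomial Ω}
    (hg₀ : g₀ ∈ PI F) : SL p v F z ρ κ S (A - g₀ ^ p) where
  mem := sub_mem h.mem (pow_mem hg₀ p)
  gt := h.gt
  lo := by
    intro ε hε
    obtain ⟨g, hg, h1⟩ := h.lo ε hε
    refine ⟨g - g₀, sub_mem hg hg₀, ?_⟩
    rwa [show A - g₀ ^ p - (g - g₀) ^ p = A - g ^ p by rw [sub_pow_p]; ring]
  hi := by
    intro e he g hg
    obtain ⟨m, hm, h1⟩ := h.hi e he (g + g₀) (add_mem hg hg₀)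
    refine ⟨m, hm, ?_⟩
    rwa [show A - g₀ ^ p - g ^ p = A - (g + g₀) ^ p by rw [add_pow_char]; ring]

/-! ### states -/

theorem adj_sub (hθ : θ ∈ F) : adj F (z - θ) = adj F z := by
  apply le_antisymm
  · refine adj_le (fun x hx => (mem_adj_self F z).2 hx) ?_
    exact sub_mem (mem_adj_self F z).1 ((mem_adj_self F z).2 hθ)
  · refine adj_le (fun x hx => (mem_adj_self F (z - θ)).2 hx) ?_
    have h1 := add_mem (mem_adj_self F (z - θ)).1 ((mem_adj_self F (z - θ)).2 hθ)
    rwa [sub_add_cancel] at h1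

theorem transc_sub (hz : Transcendental F z) (hθ : θ ∈ F) : Transcendental F (z - θ) := by
  intro h
  apply hz
  have h1 : IsAlgebraic F θ := isAlgebraic_algebraMap (⟨θ, hθ⟩ : F)
  have h2 := h.add h1
  rwa [sub_add_cancel] at h2

theorem Stt.move [Fact p.Prime] [CharP Ω p] {S : ℕ} (hs : Stt p v r D K a F z ρ κ S A)
    (hθ : θ ∈ F) (hρθ : Gt v ρ θ) (hρc : ρ ≤ c) (hc : Gt v c (z - θ)) :
    ∃ κ' : ℝ, κ ≤ κ' ∧ Stt p v r D K a F (z - θ) c κ' S (taylor θ A) := by
  obtain ⟨κ', h1, h2⟩ := sl_move hs.sl hθ hρθ hρc hc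
  refine ⟨κ', h1, hs.rat, hs.fg, hs.full, hs.tr, hs.bd, transc_sub hs.tz hθ, ?_, ?_, h2⟩
  · rw [adj_sub hθ]
    exact hs.cl
  · obtain ⟨h, hh, hh0, g, hg, h3⟩ := hs.rep
    refine ⟨h, hh, hh0, g, hg, ?_⟩
    rw [h3, taylor_eval, sub_add_cancel]

/-- In a state of minimal index, the indices `< q` can be cleaned. -/
theorem Stt.exists_low [Fact p.Prime] [CharP Ω p] (hs : Stt p v r D K a F z ρ κ q A)
    (hmin : MinS p v r D K a q) (hq : 0 < q) :
    ∃ e : ℝ, 0 < e ∧ ∃ g ∈ PI F, ∀ m < q, v.Ge (κ + e - m * ρ) ((A - g ^ p).coeff m) := by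
  by_contra hno
  push Not at hno
  have h1 : SL p v F z ρ κ (q - 1) A := ⟨hs.sl.mem, hs.sl.gt, hs.sl.lo, fun e he g hg => by
    obtain ⟨m, hm, h2⟩ := hno e he g hg
    exact ⟨m, by omega, h2⟩⟩
  have h2 := hmin F z ρ κ (q - 1) A ⟨hs.rat, hs.fg, hs.full, hs.tr, hs.bd, hs.tz, hs.cl, hs.rep, h1⟩
  omega

/-- The index `q` is responsible. -/
theorem Stt.q_far {S : ℕ} (hs : Stt p v r D K a F z ρ κ S A) {e : ℝ} (he : 0 < e)
    {g : Polynomial Ω} (hg : g ∈ PI F) (h1 : ∀ m < S, v.Ge (κ + e - m * ρ) ((A - g ^ p).coeff m)) :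
    ¬ v.Ge (κ + e - S * ρ) ((A - g ^ p).coeff S) := by
  obtain ⟨m, hm, h2⟩ := hs.sl.hi e he g hg
  rcases hm.lt_or_eq with h3 | h3
  · exact absurd (h1 m h3) h2
  · rw [← h3]
    exact h2

/-- The distance of the coefficient of index `q`, if `p` divides `q`. -/
theorem Stt.dst [Fact p.Prime] [CharP Ω p] (hs : Stt p v r D K a F z ρ κ q A)
    (hmin : MinS p v r D K a q) (hq : 0 < q) (hpq : p ∣ q) :
    Dst p v F (κ - q * ρ) (A.coeff q) := by
  obtain ⟨e₀, he₀, g, hg, hlow⟩ := hs.exists_low hmin hq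
  constructor
  · intro ε hε
    obtain ⟨g', hg', h1⟩ := hs.sl.lo ε hε
    have h2 := h1 q
    rw [coeff_sub, coeff_pow_ite, if_pos hpq] at h2
    exact ⟨_, hg' (q / p), h2.mono (by linarith)⟩
  · intro e he f hf h1
    obtain ⟨g', hg', -, h2⟩ := exists_mix A hg (C_mem_PI hf) (fun n => n < q)
    -- the polynomial with the coefficient `f` of index `q / p`
    have hX : Polynomial.C f * X ^ (q / p) ∈ PI F :=
      mul_mem (C_mem_PI hf) (pow_mem X_mem_PI _)
    obtain ⟨g'', hg'', -, h3⟩ := exists_mix A hg hX (fun n => n < q)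
    have hee : 0 < min e e₀ := lt_min he he₀
    refine hs.q_far hee hg'' (fun m hm => ?_) ?_
    · rw [h3, if_pos hm]
      exact (hlow m hm).mono (by linarith [min_le_right e e₀])
    · rw [h3, if_neg (lt_irrefl q), coeff_sub, coeff_pow_ite, if_pos hpq, coeff_C_mul,
        coeff_X_pow_self, mul_one]
      exact h1.mono (by linarith [min_le_left e e₀])

theorem coeff_derivative_taylor (θ : Ω) (f : Polynomial Ω) (n : ℕ) :
    (taylor θ (derivative f)).coeff n = (taylor θ f).coeff (n + 1) * (n + 1) := by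
  have h1 : taylor θ (derivative f) = derivative (taylor θ f) := by
    rw [taylor_apply, taylor_apply, derivative_comp]
    simp
  rw [h1, coeff_derivative]

theorem val_natCast_of_not_dvd [hp : Fact p.Prime] [CharP Ω p] {n : ℕ} (hn : ¬ p ∣ n) :
    v (n : Ω) = 0 := by
  have h1 : Nat.Coprime n p := ((Nat.Prime.coprime_iff_not_dvd hp.out).2 hn).symm
  obtain ⟨m, hm⟩ : ∃ m : ℕ, n * m ≡ 1 [MOD p] := by
    obtain ⟨m, hm⟩ := Nat.exists_mul_mod_eq_one_of_coprime h1 hp.out.one_lt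
    exact ⟨m, by rw [Nat.ModEq, hm.2, Nat.mod_eq_of_lt hp.out.one_lt]⟩
  have h2 : (n : Ω) * (m : Ω) = 1 := by
    have h3 := (CharP.natCast_eq_natCast Ω p).2 hm
    push_cast at h3
    exact h3
  have hn0 : (n : Ω) ≠ 0 := left_ne_zero_of_mul_eq_one h2
  have hm0 : (m : Ω) ≠ 0 := right_ne_zero_of_mul_eq_one h2
  have h3 := v.map_mul hn0 hm0
  rw [h2, v.map_one] at h3
  have h4 := ge_natCast v n hn0
  have h5 := ge_natCast v m hm0
  linarith

/-- **`p` divides the minimal index.** -/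
theorem Stt.dvd [IsAlgClosed Ω] [Fact p.Prime] [CharP Ω p] (hs : Stt p v r D K a F z ρ κ q A)
    (hmin : MinS p v r D K a q) (hq : 2 ≤ q) (hT : TL v F z s) : p ∣ q := by
  have hp := (Fact.out : p.Prime)
  by_contra hpq
  have hq0 : (q : Ω) ≠ 0 := by
    rw [Ne, CharP.cast_eq_zero_iff Ω p q]
    exact hpq
  have hvq : v (q : Ω) = 0 := val_natCast_of_not_dvd (p := p) hpq
  have hz0 : z ≠ 0 := by
    have := (hT.far 0 (isAlgebraic_zero)).1
    exact this
  have hzs : v z < s := by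
    have := (hT.far 0 (isAlgebraic_zero)).2
    rwa [sub_zero] at this
  have hρz : ρ < v z := hs.sl.gt hz0
  set P : Polynomial Ω := derivative A with hP
  have hPm : P ∈ PI F := fun n => by
    rw [hP, coeff_derivative]
    exact mul_mem (hs.sl.mem _) (by exact_mod_cast natCast_mem F (n + 1))
  set H : Polynomial Ω := hasseDeriv (q - 1) P with hH
  have hHm : H ∈ PI F := hasse_mem_PI hPm _
  -- the estimates at `(θ, c)`
  have key : ∀ θ ∈ F, ∀ c : ℝ, Gt v ρ θ → ρ ≤ c → Gt v c (z - θ) →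
      H.eval θ ≠ 0 ∧ Gt v (v (H.eval θ) + (q - 1) * c) (P.eval θ) := by
    intro θ hθ c h1 h2 h3
    obtain ⟨κ', -, hs'⟩ := hs.move hθ h1 h2 h3
    obtain ⟨e, he, g, hg, hlow⟩ := hs'.exists_low hmin (by omega)
    have h4 : (taylor θ A - g ^ p).coeff q = (taylor θ A).coeff q := by
      rw [coeff_sub, coeff_pow_ite, if_neg hpq, sub_zero]
    have h5 : ∀ e' : ℝ, 0 < e' → e' ≤ e → ¬ v.Ge (κ' + e' - q * c) ((taylor θ A).coeff q) := by
      intro e' he' hle
      rw [← h4]
      exact hs'.q_far he' hg fun m hm => (hlow m hm).mono (by linarith)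
    have h6 : (taylor θ A).coeff q ≠ 0 := by
      intro h0
      apply h5 e he le_rfl
      rw [h0]
      exact RVal.Ge.zero
    have h7 : v ((taylor θ A).coeff q) ≤ κ' - q * c := by
      refine le_of_forall_pos_lt_add fun ε hε => ?_
      by_contra hno
      rw [not_lt] at hno
      refine h5 (min ε e) (lt_min hε he) (min_le_right _ _) (RVal.Ge.of_le ?_)
      linarith [min_le_left ε e]
    have h8 : H.eval θ = (taylor θ A).coeff q * q := by
      rw [hH, ← taylor_coeff, coeff_derivative_taylor, Nat.sub_add_cancel (by omega)]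
      push_cast [Nat.cast_sub (show 1 ≤ q by omega)]
      ring
    have h9 : v (H.eval θ) = v ((taylor θ A).coeff q) := by
      rw [h8, v.map_mul h6 hq0, hvq, add_zero]
    have h10 : H.eval θ ≠ 0 := by
      rw [h8]
      exact mul_ne_zero h6 hq0
    refine ⟨h10, ?_⟩
    have h11 : P.eval θ = (taylor θ A).coeff 1 := by
      have h12 := coeff_derivative_taylor θ A 0
      rw [taylor_coeff_zero, Nat.cast_zero, zero_add, zero_add, mul_one] at h12
      exact h12
    have h12 : (taylor θ A - g ^ p).coeff 1 = (taylor θ A).coeff 1 := by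
      rw [coeff_sub, coeff_pow_ite, if_neg (fun h => hp.one_lt.ne' (Nat.dvd_one.1 h)), sub_zero]
    have h13 := hlow 1 (by omega)
    rw [h12, ← h11] at h13
    refine Gt.of_ge h13 ?_
    rw [h9, Nat.cast_one]
    linarith
  -- the value at `z`
  have hP0 : P ≠ 0 := by
    intro h0
    have h1 := (key 0 (zero_mem _) ρ Gt.zero le_rfl (by rw [sub_zero]; exact hs.sl.gt)).1
    apply h1
    rw [hH, h0, map_zero, eval_zero]
  have hH0 : H ≠ 0 := by
    intro h0
    have h1 := (key 0 (zero_mem _) ρ Gt.zero le_rfl (by rw [sub_zero]; exact hs.sl.gt)).1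
    apply h1
    rw [h0, eval_zero]
  have hPa : P ∈ PI (TWM.algc F) := PI_mono (le_algc F) hPm
  have hHa : H ∈ PI (TWM.algc F) := PI_mono (le_algc F) hHm
  obtain ⟨δ₁, hδ₁, hn₁⟩ := hT.near_val hPa hP0
  obtain ⟨δ₂, hδ₂, hn₂⟩ := hT.near_val hHa hH0
  have hgap := hT.strict hPa hP0 (l := q - 1) (by omega)
  rw [taylor_coeff, ← hH] at hgap
  have hgap' := hgap (hT.eval_ne hHa hH0)
  rw [Nat.cast_sub (by omega : 1 ≤ q), Nat.cast_one] at hgap'
  set gap : ℝ := v (H.eval z) - (v (P.eval z) - ((q : ℝ) - 1) * s) with hgapd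
  have hgap0 : 0 < gap := by rw [hgapd]; linarith
  have hq1 : (1 : ℝ) ≤ q := by exact_mod_cast (by omega : 1 ≤ q)
  set η : ℝ := min (min δ₁ δ₂) (min ((s - v z) / 2) (gap / (2 * q))) with hη
  have hη0 : 0 < η := lt_min (lt_min hδ₁ hδ₂)
    (lt_min (by linarith) (div_pos hgap0 (by positivity)))
  have hη1 : η ≤ δ₁ := (min_le_left _ _).trans (min_le_left _ _)
  have hη2 : η ≤ δ₂ := (min_le_left _ _).trans (min_le_right _ _)
  have hη3 : η ≤ (s - v z) / 2 := (min_le_right _ _).trans (min_le_left _ _)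
  have hη4 : 2 * q * η ≤ gap := by
    have : η ≤ gap / (2 * q) := (min_le_right _ _).trans (min_le_right _ _)
    rw [le_div_iff₀ (by positivity)] at this
    linarith
  obtain ⟨θ, hθ, hzθ⟩ := hT.lim η hη0
  have hgt : Gt v (s - 2 * η) (z - θ) := Gt.of_ge hzθ (by linarith)
  have hρθ : Gt v ρ θ := by
    have h1 : Gt v ρ (z - θ) := hgt.mono (by linarith)
    have h2 := hs.sl.gt.sub h1
    rwa [sub_sub_cancel] at h2
  obtain ⟨h1, h2⟩ := key θ hθ (s - 2 * η) hρθ (by linarith) hgt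
  obtain ⟨h3, h4⟩ := hn₁ θ (hzθ.mono (by linarith))
  obtain ⟨h5, h6⟩ := hn₂ θ (hzθ.mono (by linarith))
  have h7 := h2 h3
  rw [h4, h6] at h7
  have h8 : ((q : ℝ) - 1) * (2 * η) ≤ 2 * q * η := by nlinarith
  have h9 : ((q : ℝ) - 1) * (s - 2 * η) = ((q : ℝ) - 1) * s - ((q : ℝ) - 1) * (2 * η) := by ring
  rw [hgapd] at hη4
  linarith

/-- **The normal form of a state of minimal index.** -/
theorem Stt.seed [IsAlgClosed Ω] [hp : Fact p.Prime] [CharP Ω p]
    (hs : Stt p v r D K a F z ρ κ q A) (hmin : MinS p v r D K a q) (hq : 2 ≤ q)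
    (hT : TL v F z s) :
    p ∣ q ∧ ∃ (Dq e₀ c₀ : ℝ) (A₁ : Polynomial Ω), Seed p v r D K a q F z s Dq e₀ c₀ A₁ := by
  have hpq := hs.dvd hmin hq hT
  have hq0 : 0 < q := by omega
  refine ⟨hpq, ?_⟩
  have hz0 : z ≠ 0 := (hT.far 0 (isAlgebraic_zero)).1
  have hzs : v z < s := by
    have := (hT.far 0 (isAlgebraic_zero)).2
    rwa [sub_zero] at this
  have hρz : ρ < v z := hs.sl.gt hz0
  set ε : ℝ := (v z - ρ) / 2 with hε
  have hε0 : 0 < ε := by rw [hε]; linarith
  obtain ⟨g₀, hg₀, hA₁⟩ := hs.sl.lo ε hε0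
  set A₁ : Polynomial Ω := A - g₀ ^ p with hA₁d
  have hzK : z ∈ K := by
    rw [hs.cl]
    exact TWM.le_clI _ (mem_adj_self F z).1
  have hFK : F ≤ K := by
    rw [hs.cl]
    exact fun x hx => TWM.le_clI _ ((mem_adj_self F z).2 hx)
  have hev : ∀ {f : Polynomial Ω}, f ∈ PI F → f.eval z ∈ K := by
    intro f hf
    rw [eval_eq_sum_range]
    exact sum_mem fun i _ => mul_mem (hFK (hf i)) (pow_mem hzK i)
  have hs₁ : Stt p v r D K a F z ρ κ q A₁ := by
    refine ⟨hs.rat, hs.fg, hs.full, hs.tr, hs.bd, hs.tz, hs.cl, ?_, sl_sub hs.sl hg₀⟩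
    obtain ⟨h, hh, hh0, g, hg, h3⟩ := hs.rep
    refine ⟨h, hh, hh0, g + g₀.eval z, add_mem hg (hev hg₀), ?_⟩
    rw [hA₁d, eval_sub, eval_pow, ← h3, add_pow_char]
    ring
  set Dq : ℝ := κ - q * ρ with hDq
  have hdst₀ : Dst p v F Dq (A₁.coeff q) := hs₁.dst hmin hq0 hpq
  have hq1 : (1 : ℝ) ≤ q := by exact_mod_cast hq0
  -- elements near `z`
  have hθge : ∀ θ : Ω, v.Ge (v z) (z - θ) → v.Ge (v z) θ := by
    intro θ h1
    have h2 := (RVal.Ge.of_le (v := v) (x := z) le_rfl).sub h1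
    rwa [sub_sub_cancel] at h2
  have hmid : ∀ θ ∈ F, v.Ge (v z) (z - θ) → Dst p v F Dq ((taylor θ A₁).coeff q) := by
    intro θ hθ h1
    refine hdst₀.congr (δ := ε) hε0 (ge_sub_comm ?_)
    -- the difference
    have h2 : (taylor θ A₁).coeff q - A₁.coeff q =
        ∑ n ∈ A₁.support.filter (fun n => q < n), (n.choose q : Ω) *
          (A₁.coeff n * θ ^ (n - q)) := by
      rw [taylor_coeff, hasseDeriv_apply, Polynomial.sum, eval_finsetSum]
      simp only [eval_monomial]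
      rw [← Finset.sum_filter_add_sum_filter_not A₁.support (fun n => q < n)]
      have h3 : ∑ x ∈ A₁.support.filter (fun n => ¬ q < n), (x.choose q : Ω) * A₁.coeff x *
          θ ^ (x - q) = A₁.coeff q := by
        rw [Finset.sum_eq_single q]
        · rw [Nat.choose_self, Nat.cast_one, one_mul, Nat.sub_self, pow_zero, mul_one]
        · intro b hb hbq
          have h4 := (Finset.mem_filter.1 hb).2
          rw [Nat.choose_eq_zero_of_lt (by omega), Nat.cast_zero, zero_mul, zero_mul]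
        · intro h4
          have h5 : A₁.coeff q = 0 := by
            by_contra h6
            exact h4 (Finset.mem_filter.2 ⟨mem_support_iff.2 h6, lt_irrefl q⟩)
          rw [h5, mul_zero, zero_mul]
      rw [h3, add_sub_cancel_right]
      exact Finset.sum_congr rfl fun x _ => by rw [mul_assoc]
    rw [h2]
    refine RVal.Ge.sum _ _ fun n hn => ?_
    have h3 := (Finset.mem_filter.1 hn).2
    have h4 := (ge_natCast v (n.choose q)).mul ((hA₁ n).mul (ge_pow (hθge θ h1) (n - q)))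
    refine h4.mono ?_
    rw [Nat.cast_sub h3.le]
    have h5 : (q : ℝ) + 1 ≤ n := by exact_mod_cast h3
    have h6 : (v z - ρ) ≤ ((n : ℝ) - q) * (v z - ρ) :=
      le_mul_of_one_le_left (by linarith) (by linarith)
    rw [hDq, hε]
    nlinarith
  refine ⟨Dq, s - ρ - ε, v z, A₁, hs.rat, hs.fg, hs.full, hs.tr, hs.bd, hT, hs.cl, hs₁.rep,
    hs₁.sl.mem, hzs, by rw [hε]; linarith, ?_, hmid, ?_⟩
  · intro θ hθ h1 m hm
    refine (GB_taylor ((hθge θ h1).mono hρz.le) hA₁ m).mono ?_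
    have h5 : (q : ℝ) + 1 ≤ m := by exact_mod_cast hm
    have h6 : (s - ρ) ≤ ((m : ℝ) - q) * (s - ρ) :=
      le_mul_of_one_le_left (by linarith) (by linarith)
    rw [hDq]
    nlinarith
  · intro θ hθ c hc hcz
    have hzθ : v.Ge (v z) (z - θ) := RVal.Ge.of_le (hc.trans hcz.le)
    have hρθ : Gt v ρ θ := Gt.of_ge (hθge θ hzθ) hρz
    obtain ⟨κ', -, hs'⟩ := hs₁.move hθ hρθ (hρz.le.trans hc) fun _ => hcz
    have h1 := hs'.dst hmin hq0 hpq
    have h2 := h1.unique (hmid θ hθ hzθ)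
    obtain ⟨e, he, g, hg, hlow⟩ := hs'.exists_low hmin hq0
    obtain ⟨g', hg', h3, h4⟩ := exists_mix (taylor θ A₁) hg (zero_mem (PI F)) (fun n => n < q)
    refine ⟨e, he, g', hg', ?_, fun m hm => ?_⟩
    · have h5 : g'.natDegree < q / p ∨ g' = 0 := by
        by_cases h0 : g' = 0
        · exact Or.inr h0
        · left
          have h6 : g'.coeff g'.natDegree ≠ 0 := by
            rw [coeff_natDegree]
            exact leadingCoeff_ne_zero.2 h0
          rw [h3] at h6
          by_contra h7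
          rw [not_lt] at h7
          have h8 : ¬ p * g'.natDegree < q := by
            rw [not_lt]
            calc q = p * (q / p) := (Nat.mul_div_cancel' hpq).symm
              _ ≤ p * g'.natDegree := Nat.mul_le_mul_left p h7
          rw [if_neg h8, coeff_zero] at h6
          exact h6 rfl
      rcases h5 with h5 | h5
      · calc g'.natDegree * p < q / p * p := Nat.mul_lt_mul_of_pos_right h5 hp.out.pos
          _ = q := Nat.div_mul_cancel hpq
      · rw [h5, natDegree_zero, zero_mul]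
        exact hq0
    · rw [h4, if_pos hm]
      refine (hlow m hm).mono ?_
      linarith

end Pool.Agent.TWJ
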