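import Pool.Agent.Lib.TWJ.SEC2
import Pool.Agent.Lib.TWJ.TOP
import Pool.Agent.Lib.TWJ.CON4
import Pool.Agent.Lib.TW_NFG.OG5
import Pool.Agent.Lib.TW_NFG.P3
import Pool.Agent.Lib.TWC.BaseCh

/-!
# TANK W, NFG, `n = r + 2`: the purely inseparable step (helper90)

* `nfg_contra`: no `Seed` of minimal index if the value group is not finitely generated;
* `stepN_of`: `StepN`, from the existence of a state.
-/

set_option autoImplicit false

open Polynomial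

namespace Pool.Agent.TWJ

open Pool.Agent.H15JM (RVal)
open Pool.Agent.LU1 (adj)
open Pool.Agent.D2 (Ctx0)
open Pool.Agent.D2P (hen clI mem_clI adj_le mem_adj_self)
open Pool.Agent.TW (Ctx Full BD Fr LU HRone Dns valG)
open Pool.Agent.TWM
open Pool.Agent.TWN (NFG OG Rp.of_seed nfg_of_tl)

universe u

variable {k Ω : Type u} [Field k] [Field Ω] [Algebra k Ω] {v : RVal Ω} {r : ℕ}

/-- Distances of `a h^p - g^p`. -/
theorem far_transfer {p : ℕ} [hp : Fact p.Prime] [CharP Ω p] {K : IntermediateField k Ω}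
    {a h₀ g₀ : Ω} {μ : ℝ} (hμ : ∀ g ∈ K, ¬ v.Ge μ (a - g ^ p)) (hh : h₀ ∈ K) (hh0 : h₀ ≠ 0)
    (hg : g₀ ∈ K) : ∀ g ∈ K, ¬ v.Ge (μ + p * v h₀) (a * h₀ ^ p - g₀ ^ p - g ^ p) := by
  intro g hgK h1
  refine hμ ((g₀ + g) / h₀) (div_mem (add_mem hg hgK) hh) ?_
  have h2 : a - ((g₀ + g) / h₀) ^ p = (a * h₀ ^ p - g₀ ^ p - g ^ p) * (h₀⁻¹) ^ p := by
    rw [div_pow, add_pow_char, inv_pow]
    field_simp
    ring
  rw [h2]
  have h3 : v.Ge (-(p * v h₀)) ((h₀⁻¹) ^ p) := fun _ => by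
    rw [v.map_pow (inv_ne_zero hh0), v.map_inv hh0]
    linarith
  exact (h1.mul h3).mono (by linarith)

theorem valG_fg_of_VG {G : AddSubgroup ℝ} (hG : G.FG) {K : IntermediateField k Ω}
    (h : VG v G K) : (valG v K).FG := by
  have hle : valG v K ≤ G := by
    rintro _ ⟨g, hg, hg0, rfl⟩
    exact h g hg hg0
  rw [← AddGroup.fg_iff_addSubgroup_fg, ← Module.Finite.iff_addGroup_fg] at hG ⊢
  exact Module.Finite.of_injective (AddSubgroup.inclusion hle).toIntLinearMap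
    (AddSubgroup.inclusion_injective hle)

/-- There is no `Seed` of minimal index if the value group is not finitely generated. -/
theorem nfg_contra [IsAlgClosed k] [IsAlgClosed Ω] (p : ℕ) [hp : Fact p.Prime] [CharP k p]
    [CharP Ω p] (h : Ctx k v r) (hcv : CompleteV v) {K₀ : IntermediateField k Ω} (hK : K₀.FG)
    (htr : Algebra.trdeg k K₀ = (r + 2 : ℕ)) (hBD : BD p v K₀) (hG : ¬ (valG v K₀).FG)
    {a : Ω} (ha : a ∈ clI v K₀) {μ : ℝ} (hμ : ∀ g ∈ clI v K₀, ¬ v.Ge μ (a - g ^ p)) {q : ℕ}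
    (hpq : p ∣ q) (hq : 0 < q) (hmin : MinS p v r 1 (clI v K₀) a q)
    {F : IntermediateField k Ω} {z : Ω} {s Dq e₀ c₀ : ℝ} {A : Polynomial Ω}
    (hs : Seed p v r 1 (clI v K₀) a q F z s Dq e₀ c₀ A) : False := by
  set K := clI v K₀ with hKdef
  obtain ⟨b, hb, hb0, g, hg, hrep⟩ := hs.rep
  have hn : NFG v (clI v F) := by
    intro G hGfg hVG
    apply hG
    refine valG_fg_of_VG hGfg fun f hf hf0 => ?_
    have hfK : f ∈ cadj v F z := by
      have h1 : f ∈ K := le_clI K₀ hf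
      rw [hs.cl] at h1
      exact h1
    obtain ⟨f', hf', h2⟩ := hs.ty.imm.imm f hfK hf0
    obtain ⟨h3, h4⟩ := Gt.val_eq hf0 h2
    rw [← h4]
    exact hVG f' (le_clI F hf') h3
  obtain ⟨D, A₀, G, M, w, Z, P, lam, nA, hr⟩ := Rp.of_seed h hq hpq hs hn
  have haA : A.eval z ∈ K := by
    rw [← hrep]
    exact sub_mem (mul_mem ha (pow_mem hb p)) (pow_mem hg p)
  have hμ' : ∀ g' ∈ K, ¬ v.Ge (μ + p * v b) (A.eval z - g' ^ p) := by
    intro g' hg'
    rw [← hrep]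
    exact far_transfer hμ hb hb0 hg g' hg'
  have hmin' : MinS p v r 1 K (A.eval z) q := by
    rw [← hrep]
    exact hmin.transfer hb hb0 hg
  have hog : OG p q v K (A.eval z) := OG.of fun G M w T hfr μ hμG Q hQ =>
    con p h hcv hK htr hBD hKdef haA hμ' hpq hmin' hfr hμG hQ
  have hty : TL v (clI v F) z s := TWC.TL.base hs.ty (le_clI F) (clI_mono (le_algc F))
  refine nfg_of_tl h.toCtx0 hn (cld_clI v F) hty ?_ hq hpq hr le_rfl hog
  rw [hs.cl]
  exact (clI_adj_clI (A := F)).symm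

/-- `StepN`, from the existence of a state. -/
theorem stepN_of [IsAlgClosed k] [IsAlgClosed Ω] (p : ℕ) [hp : Fact p.Prime] [CharP k p]
    [CharP Ω p] (h : Ctx k v r) (hcv : CompleteV v)
    (h0 : ∀ K₀ : IntermediateField k Ω, K₀.FG → Full v K₀ → Algebra.trdeg k K₀ = (r + 1 + 1 : ℕ) →
      BD p v K₀ → LU p v r K₀ → ∀ a ∈ clI v K₀,
      (∃ μ : ℝ, ∀ g ∈ clI v K₀, ¬ v.Ge μ (a - g ^ p)) →
      ∃ (F : IntermediateField k Ω) (z : Ω) (ρ κ : ℝ) (S : ℕ) (A : Polynomial Ω),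
        Stt p v r 1 (clI v K₀) a F z ρ κ S A) : StepN p v k r := by
  intro K₀ hK hKf htr hBD hHR hG al hal hBDal
  have hLU : ∀ E : IntermediateField k Ω, E.FG → Full v E → Algebra.trdeg k E = (r + 1 : ℕ) →
      BD p v E → LU p v r E :=
    TW.lu_bd p h (r + 1) (fun m h1 h2 => by omega) (r + 1) le_rfl
  have hDn : ∀ E : IntermediateField k Ω, E.FG → Full v E → Algebra.trdeg k E = (r + 1 : ℕ) →
      BD p v E → Dns v E := fun E h1 h2 h3 h4 =>
    TW.dns_of_BD p h h1 h2 h4 h3 (by have := h.rpos; omega)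
  have hLUK : LU p v r K₀ := TW.LU_of_HRone p h hK hKf hBD htr hLU hHR
  obtain ⟨N, z, hN, hNf, hz, hhen⟩ := hHR
  have htrN : Algebra.trdeg k N = (r + 1 : ℕ) := by
    have h1 : Algebra.trdeg k (adj N z) = ((r + 1 + 1 : ℕ) : Cardinal) := by
      rw [← TW.HRLU.trdeg_hen (v := v), ← hhen, TW.HRLU.trdeg_hen, htr]
    rw [TW.HRLU.trdeg_adj hz] at h1
    push_cast at h1 ⊢
    exact Cardinal.add_one_inj.1 h1
  rcases seed_or_hrone (D := 1) p h hcv hLU hDn hK hKf htr hBD hal hBDal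
      (fun hμ => h0 K₀ hK hKf htr hBD hLUK (al ^ p) (le_clI K₀ hal) hμ)
      ⟨N, z, hN, hNf, htrN, by rw [← clI_hen K₀, hhen, clI_hen]⟩ with h1 | h1
  · exact h1
  · obtain ⟨μ, hμ, q, hpq, hq, hmin, F, z, s, Dq, e₀, c₀, A, hs⟩ := h1
    exact (nfg_contra p h hcv hK htr hBD hG (le_clI K₀ hal) hμ hpq hq hmin hs).elim

end Pool.Agent.TWJ
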