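import Pool.Agent.Lib.TWJ.X1a
import Pool.Agent.Lib.TWM.D1
import Pool.Agent.Lib.TW.Estar

/-!
# TANK W, SEC1, row X1: the tame exit

`γ^p = A(z)`, where an index `j₀` with `1 ≤ j₀ < p` is responsible for the Gauss value of
`A - A(0)` at a radius `r' < v z`: the closure of `F(z, γ)` is the closure of `F₂(X₂)`.
-/

set_option autoImplicit false

open Polynomial

namespace Pool.Agent.TWJ

open Pool.Agent.H15JM (RVal)
open Pool.Agent.LU1 (VPos adj)
open Pool.Agent.LUC (Cl clF)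
open Pool.Agent.D2 (Ctx0)
open Pool.Agent.D2P (hen mem_hen le_hen clI mem_clI mem_adj_self adj_le)
open Pool.Agent.TW
open Pool.Agent.TWM (PI Gt cadj cadj_le cld_clI le_clI clI_mono Cld)

universe u

variable {k Ω : Type u} [Field k] [Field Ω] [Algebra k Ω] {v : RVal Ω} {r D : ℕ}

namespace X1

section

variable {p : ℕ} {F : IntermediateField k Ω} {z η : Ω} {ρ b₁ b ε : ℝ}

/-- The value of a regular function at `z`. -/
theorem reg_val {c : ℝ} {f : Ω} (hzη : z ≠ η) (hb : b < v (z - η)) (hb₁ : b₁ < b)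
    (hf : Reg v F z η b₁ b c f) : v.Ge c f := by
  obtain ⟨A, B, hB, hA, hBz, rfl⟩ := hf
  have h1 := hB.near (x := z) fun _ => hb₁.trans hb
  have h2 : v.Ge (c + v (aeval η B)) (aeval z A) := by
    rw [aeval_eq_tc (η := η) A z]
    refine RVal.Ge.sum _ _ fun j _ => ?_
    have h3 : v.Ge (j * v (z - η)) ((z - η) ^ j) :=
      RVal.Ge.of_le (by rw [v.map_pow (sub_ne_zero.2 hzη)])
    refine ((hA j).mul h3).mono ?_
    have h4 : (j : ℝ) * b ≤ j * v (z - η) := mul_le_mul_of_nonneg_left hb.le (Nat.cast_nonneg j)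
    linarith
  intro h0
  have h5 : aeval z A ≠ 0 := fun h => h0 (by rw [h, zero_div])
  have h6 := h2 h5
  rw [v.map_div h5 hBz, h1.2.1]
  linarith

/-- The closures of `E(X)` and `F(z)` are equal. -/
theorem clI_eq [Fact p.Prime] [CharP k p] [CharP Ω p] [IsAlgClosed k] [IsAlgClosed Ω] (h : Ctx k v r) (d : SD p k v r D F z η ρ b₁ b ε) :
    clI v (adj d.S'.K d.X) = clI v (adj F z) := by
  have hXA : d.X ∈ adj F z := div_mem (E10.aeval_mem_adj _) (E10.K_le_adj d d.q_mem)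
  refine le_antisymm (clI_mono (adj_le (E10.K_le_adj d) hXA)) ?_
  refine TWM.clI_le (cld_clI v _) fun f hf => ?_
  have hA : d.A ≤ OV v (clI v (adj d.S'.K d.X)) := by
    refine hensA_le ?_ (IsoAux.hclosed_OV h.toCtx0 (TWM.C.hen_eq (cld_clI v _)))
    rw [Subring.closure_le]
    rintro a (ha | ha)
    · exact ⟨le_clI _ ((mem_adj_self _ _).2 ha.1), ha.2⟩
    · rw [Set.mem_singleton_iff.1 ha]
      exact ⟨le_clI _ (mem_adj_self _ _).1, fun _ => (d.X_pos h).2.le⟩
  obtain ⟨a, ha, c, hc, -, rfl⟩ := d.frac h f hf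
  exact div_mem (hA ha).1 (hA hc).1

end

variable [IsAlgClosed k] [IsAlgClosed Ω] (p : ℕ) [hp : Fact p.Prime] [CharP k p] [CharP Ω p]

/-- The closure of `F(γ)` is the one of `F₁(X)`, and given elements have near elements in `F₁`. -/
theorem exists_base (h : Ctx k v r) {F : IntermediateField k Ω} (hF : F.FG) (hfull : Full v F)
    (hBD : BD p v F) (htr : Algebra.trdeg k F = (r + D : ℕ))
    (hLU : ∀ E : IntermediateField k Ω, E.FG → Full v E →
      Algebra.trdeg k E = (r + D : ℕ) → BD p v E → LU p v r E)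
    (hdn : Dns v F) {γ : Ω} (hγ : Transcendental F γ) (S : Finset Ω) (c : Ω → Ω)
    (hc : ∀ y ∈ S, c y ≠ 0 ∧ c y ∈ clI v (adj F γ)) :
    ∃ (F₁ : IntermediateField k Ω) (X : Ω), F₁.FG ∧ Full v F₁ ∧
      Algebra.trdeg k F₁ = (r + D : ℕ) ∧ clI v (adj F₁ X) = clI v (adj F γ) ∧
      ∀ y ∈ S, ∃ m ∈ F₁, Gt v (v (c y)) (c y - m) := by
  classical
  -- elements of `F(γ)`
  have hc1 : ∀ y ∈ S, ∃ f ∈ adj F γ, Gt v (v (c y)) (c y - f) := by
    intro y hy
    obtain ⟨f, hf, h1⟩ := mem_clI.1 (hc y hy).2 (v (c y) + 1)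
    exact ⟨f, hf, Gt.of_ge h1 (by linarith)⟩
  choose! f hf hfc using hc1
  have hf0 : ∀ y ∈ S, f y ≠ 0 ∧ v (f y) = v (c y) := fun y hy =>
    Gt.val_eq (hc y hy).1 (hfc y hy)
  choose! A B hA hB hAz hBz hfr using fun y (hy : y ∈ S) =>
    Est.exists_frac (hf y hy) (hf0 y hy).1
  let R : Finset Ω := S.biUnion fun y =>
    ((A y).aroots Ω).toFinset ∪ ((B y).aroots Ω).toFinset
  have hRA : ∀ y ∈ S, ∀ β : Ω, aeval β (A y) = 0 → β ∈ R := by
    intro y hy β hβ
    refine Finset.mem_biUnion.2 ⟨y, hy, Finset.mem_union_left _ ?_⟩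
    rw [Multiset.mem_toFinset, mem_aroots]
    exact ⟨hA y hy, hβ⟩
  have hRB : ∀ y ∈ S, ∀ β : Ω, aeval β (B y) = 0 → β ∈ R := by
    intro y hy β hβ
    refine Finset.mem_biUnion.2 ⟨y, hy, Finset.mem_union_right _ ?_⟩
    rw [Multiset.mem_toFinset, mem_aroots]
    exact ⟨hB y hy, hβ⟩
  have hR : ∀ β ∈ R, IsAlgebraic F β := by
    intro β hβ
    obtain ⟨y, hy, h1⟩ := Finset.mem_biUnion.1 hβ
    rcases Finset.mem_union.1 h1 with h2 | h2
    · rw [Multiset.mem_toFinset, mem_aroots] at h2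
      exact ⟨A y, h2.1, h2.2⟩
    · rw [Multiset.mem_toFinset, mem_aroots] at h2
      exact ⟨B y, h2.1, h2.2⟩
  obtain ⟨η, ρ, b, hcen, hβ⟩ := exists_cen p h hF hfull hdn hγ R hR
  obtain ⟨b₁, ε, ⟨d⟩⟩ := exists_SD p h hF hfull hBD htr hLU hdn hcen
  have hp0 : (0 : ℝ) ≤ p * ε := mul_nonneg (Nat.cast_nonneg p) d.ε_nonneg
  have hγη : γ ≠ η := by
    rintro rfl
    exact hγ hcen.sep.isIntegral.isAlgebraic
  have hbz : b₁ < v (γ - η) := d.lt₂.trans hcen.lt'
  have hfar : ∀ β ∈ R, β ≠ η ∧ v (η - β) ≤ b₁ := by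
    intro β hβR
    have hzβ : γ ≠ β := by
      rintro rfl
      exact hγ (hR _ hβR)
    have h1 := hβ β hβR
    have h2 : v (γ - β) < v (-(γ - η)) := by
      rw [v.map_neg _ (sub_ne_zero.2 hγη)]
      exact (h1.trans_lt hcen.lt).trans hcen.lt'
    have h3 := v.add_of_lt (sub_ne_zero.2 hzβ) (neg_ne_zero.2 (sub_ne_zero.2 hγη)) h2
    rw [show γ - β + -(γ - η) = η - β by ring] at h3
    refine ⟨fun h4 => h3.1 (by rw [h4, sub_self]), ?_⟩
    rw [h3.2]
    have := d.lt₁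
    linarith
  -- near elements of `F₁`
  have hnear : ∀ P : F[X], P ≠ 0 → (∀ β : Ω, aeval β P = 0 → β ∈ R) →
      ∃ m ∈ d.S'.K, m ≠ 0 ∧ v m = v (aeval γ P) ∧ Gt v (v m) (aeval γ P - m) := by
    intro P hP hPR
    have hRB : RB v F η b₁ P := RB.of_roots hP fun β hβ0 => hfar β (hPR β hβ0)
    obtain ⟨m, hm, hm0, hmv, hmR⟩ := d.reg_near h hRB
    have h1 := reg_val hγη hcen.lt' d.lt₂ hmR
    refine ⟨m, hm, hm0, ?_, Gt.of_ge h1 ?_⟩
    · rw [hmv]
      exact (RB.near (x := γ) (fun _ => hbz) hRB).2.1.symm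
    · have := d.lt₂
      linarith
  refine ⟨d.S'.K, d.X, Est.fg_K d.S', Est.full_K h d.S', Est.trdeg_K d.S', clI_eq h d, ?_⟩
  intro y hy
  obtain ⟨a, ha, ha0, hav, han⟩ := hnear (A y) (hA y hy) (hRA y hy)
  obtain ⟨e, he, he0, hev, hen⟩ := hnear (B y) (hB y hy) (hRB y hy)
  refine ⟨a / e, div_mem ha he, ?_⟩
  have hAy := hAz y hy
  have hBy := hBz y hy
  have h1 : c y - a / e = (c y - f y) + (f y - a / e) := by ring
  rw [h1]
  refine (hfc y hy).add ?_
  have h2 : f y - a / e = ((aeval γ (A y) - a) * e - (aeval γ (B y) - e) * a) *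
      (aeval γ (B y) * e)⁻¹ := by
    conv_lhs => rw [hfr y hy]
    field_simp
    ring
  rw [h2]
  have h3 : Gt v (v a + v e) ((aeval γ (A y) - a) * e - (aeval γ (B y) - e) * a) := by
    refine Gt.sub (han.mul_ge (v.ge_self _)) ?_
    have h4 := hen.mul_ge (v.ge_self a)
    rwa [add_comm] at h4
  have h4 : v.Ge (-(v (aeval γ (B y)) + v e)) ((aeval γ (B y) * e)⁻¹) :=
    RVal.Ge.of_le (by rw [v.map_inv (mul_ne_zero hBy he0), v.map_mul hBy he0])
  refine (h3.mul_ge h4).mono (le_of_eq ?_)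
  rw [← (hf0 y hy).2]
  conv_lhs => rw [hfr y hy, v.map_div hAy hBy]
  rw [hav]
  ring

end X1

open X1 in
/-- **The tame exit.** -/
theorem exit_tame [IsAlgClosed k] [IsAlgClosed Ω] (p : ℕ) [Fact p.Prime] [CharP k p] [CharP Ω p]
    (h : Ctx k v r) {F : IntermediateField k Ω} (hF : F.FG) (hfull : Full v F)
    (hBD : BD p v F) (htr : Algebra.trdeg k F = (r + D : ℕ))
    (hLU : ∀ E : IntermediateField k Ω, E.FG → Full v E →
      Algebra.trdeg k E = (r + D : ℕ) → BD p v E → LU p v r E)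
    (hdn : Dns v F) {z : Ω} (hz : Transcendental F z) {r' : ℝ} (hr : r' < v z)
    {A : Polynomial Ω} (hA : A ∈ PI F) {j₀ : ℕ} (h1 : 1 ≤ j₀) (h2 : j₀ < p)
    (h0 : A.coeff j₀ ≠ 0)
    (hdom : ∀ i : ℕ, i ≠ 0 → i ≠ j₀ → Gt v (v (A.coeff j₀) + j₀ * r' - i * r') (A.coeff i))
    {γ : Ω} (hγ : γ ^ p = A.eval z) :
    ∃ (F₂ : IntermediateField k Ω) (X₂ : Ω), F₂.FG ∧ Full v F₂ ∧
      Algebra.trdeg k F₂ = (r + D : ℕ) ∧ clI v (adj F₂ X₂) = clI v (adj (adj F z) γ) := by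
  classical
  have hp0 : p ≠ 0 := (Fact.out : p.Prime).ne_zero
  -- the polynomial `A - γ^p`
  set G : Polynomial Ω := A - C (γ ^ p) with hG
  have hGz : G.eval z = 0 := by rw [hG, eval_sub, eval_C, hγ, sub_self]
  have hGc : ∀ i : ℕ, i ≠ 0 → G.coeff i = A.coeff i := fun i hi => by
    rw [hG, coeff_sub, coeff_C, if_neg hi, sub_zero]
  have hj₀ : j₀ ≠ 0 := by omega
  have hGj : G.coeff j₀ ≠ 0 := by rwa [hGc j₀ hj₀]
  have hG0 : G ≠ 0 := by
    intro hG0
    exact hGj (by rw [hG0, coeff_zero])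
  -- `γ` is transcendental
  have hγt : Transcendental F γ := by
    intro hal
    have h3 : G ∈ PI (TWM.algc F) := by
      refine sub_mem (TWM.PI_mono (TWM.le_algc F) hA) (TWM.C_mem_PI ?_)
      exact pow_mem (TWM.mem_algc.2 hal) p
    exact hz (TWM.isAlgebraic_of_algc (TWM.isAlgebraic_root h3 hG0 hGz))
  -- the closure of `F(γ)`
  set L : IntermediateField k Ω := clI v (adj F γ) with hL
  have hLc : Cld v L := cld_clI v _
  have hLh : hen v L = L := TWM.C.hen_eq hLc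
  have hFL : F ≤ L := fun a ha => le_clI _ ((mem_adj_self F γ).2 ha)
  have hγL : γ ∈ L := le_clI _ (mem_adj_self F γ).1
  have hGL : G ∈ PI L := sub_mem (TWM.PI_mono hFL hA) (TWM.C_mem_PI (pow_mem hγL p))
  -- the constant coefficient
  have hGd : ∀ i : ℕ, i ≠ j₀ → Gt v (v (G.coeff j₀) + j₀ * r' - i * r') (G.coeff i) := by
    intro i hi
    rw [hGc j₀ hj₀]
    by_cases hi0 : i = 0
    · subst hi0
      have h3 : G.coeff 0 = -∑ i ∈ Finset.range A.natDegree, A.coeff (i + 1) * z ^ (i + 1) := by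
        rw [hG, coeff_sub, coeff_C_zero, hγ, eval_eq_sum_range, Finset.sum_range_succ']
        ring
      rw [h3]
      refine Gt.neg (Gt.sum _ _ fun i _ => ?_)
      have h4 : v.Ge (v (A.coeff j₀) + j₀ * r' - ((i + 1 : ℕ) : ℝ) * r') (A.coeff (i + 1)) := by
        by_cases hij : i + 1 = j₀
        · rw [hij]
          exact RVal.Ge.of_le (by linarith)
        · exact (hdom (i + 1) (by omega) hij).ge
      have h5 : Gt v (((i + 1 : ℕ) : ℝ) * r') (z ^ (i + 1)) := by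
        intro _
        have hz0 : z ≠ 0 := by
          rintro rfl
          exact hz isAlgebraic_zero
        rw [v.map_pow hz0]
        have h6 : (0 : ℝ) < ((i + 1 : ℕ) : ℝ) := by positivity
        exact mul_lt_mul_of_pos_left hr h6
      have h6 := h5.mul_ge h4
      rw [mul_comm (z ^ (i + 1))] at h6
      refine h6.mono (le_of_eq ?_)
      push_cast
      ring
    · rw [hGc i hi0]
      exact hdom i hi0 hi
  -- `z` has degree `≤ j₀` over `L`
  obtain ⟨hzL, hzd⟩ := degree_le h.toCtx0 hLh hGL hGz (fun _ => hr) hGj hGd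
  obtain ⟨S, hS, hzS⟩ := exists_radicals p h.toCtx0 hLh hzL (hzd.trans_lt h2)
  choose! hy0 hyz e he0 he1 hye using hS
  obtain ⟨F₁, X, hF₁, hF₁f, hF₁t, hcl, hnr⟩ := exists_base p h hF hfull hBD htr hLU hdn hγt S
    (fun y => y ^ e y) fun y hy => ⟨pow_ne_zero _ (hy0 y hy), hye y hy⟩
  choose! m hm hmn using hnr
  have hF₁L : F₁ ≤ L := by
    rw [hL, ← hcl]
    exact fun a ha => le_clI _ ((mem_adj_self F₁ X).2 ha)
  have hXL : X ∈ L := by
    rw [hL, ← hcl]
    exact le_clI _ (mem_adj_self F₁ X).1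
  choose! u hu hu0 hum using fun y (hy : y ∈ S) =>
    radical_near p h.toCtx0 hLh (he0 y hy) (he1 y hy) (hy0 y hy) (hye y hy) (hF₁L (hm y hy))
      (hmn y hy)
  -- the field `F₂`
  set U : Finset Ω := S.image fun y => y * u y with hU
  set F₂ : IntermediateField k Ω := F₁ ⊔ IntermediateField.adjoin k (U : Set Ω) with hF₂
  have hF₁₂ : F₁ ≤ F₂ := le_sup_left
  have hUalg : ∀ w ∈ (U : Set Ω), IsAlgebraic F₁ w := by
    intro w hw
    obtain ⟨y, hy, rfl⟩ := Finset.mem_image.1 (Finset.mem_coe.1 hw)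
    refine ⟨Polynomial.X ^ e y - C ⟨m y, hm y hy⟩, X_pow_sub_C_ne_zero (he0 y hy) _, ?_⟩
    rw [_root_.map_sub, _root_.map_pow, aeval_X, aeval_C, hum y hy]
    exact sub_self _
  refine ⟨F₂, X, IntermediateField.fg_sup hF₁ ⟨U, rfl⟩, Full.mono hF₁₂ hF₁f, ?_, ?_⟩
  · rw [← hF₁t]
    exact trdeg_eq_of_alg hF₁₂ (D2P.isAlgebraic_sup _ hUalg)
  · set M : IntermediateField k Ω := clI v (adj (adj F z) γ) with hM
    have hMc : Cld v M := cld_clI v _
    have hFzM : adj F z ≤ M := fun a ha => le_clI _ ((mem_adj_self (adj F z) γ).2 ha)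
    have hγM : γ ∈ M := le_clI _ (mem_adj_self (adj F z) γ).1
    have hFM : F ≤ M := fun a ha => hFzM ((mem_adj_self F z).2 ha)
    have hzM : z ∈ M := hFzM (mem_adj_self F z).1
    have hLM : L ≤ M := cadj_le hMc hFM hγM
    have hLzM : adj L z ≤ M := adj_le hLM hzM
    refine le_antisymm ?_ ?_
    · refine cadj_le hMc (sup_le (hF₁L.trans hLM) ?_) (hLM hXL)
      rw [IntermediateField.adjoin_le_iff]
      intro w hw
      obtain ⟨y, hy, rfl⟩ := Finset.mem_image.1 (Finset.mem_coe.1 hw)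
      exact mul_mem (hLzM (hyz y hy)) (hLM (hu y hy))
    · set R : IntermediateField k Ω := clI v (adj F₂ X) with hR
      have hRc : Cld v R := cld_clI v _
      have hF₂R : F₂ ≤ R := fun a ha => le_clI _ ((mem_adj_self F₂ X).2 ha)
      have hXR : X ∈ R := le_clI _ (mem_adj_self F₂ X).1
      have hLR : L ≤ R := by
        rw [hL, ← hcl]
        exact cadj_le hRc (hF₁₂.trans hF₂R) hXR
      have hzR : z ∈ R := by
        refine (sup_le hLR ?_ : L ⊔ IntermediateField.adjoin k (S : Set Ω) ≤ R) hzS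
        rw [IntermediateField.adjoin_le_iff]
        intro y hy
        have hyS : y ∈ S := hy
        have h3 : y * u y ∈ R := hF₂R ((le_sup_right : IntermediateField.adjoin k (U : Set Ω) ≤ F₂)
          (IntermediateField.subset_adjoin _ _ (Finset.mem_coe.2 (Finset.mem_image_of_mem _ hyS))))
        have h4 : y = y * u y / u y := by
          rw [mul_div_assoc, div_self (hu0 y hyS), mul_one]
        rw [SetLike.mem_coe, h4]
        exact div_mem h3 (hLR (hu y hyS))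
      exact cadj_le hRc (adj_le (hFL.trans hLR) hzR) (hLR hγL)

end Pool.Agent.TWJ
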