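import Pool.Agent.Lib.TWJ.SEC
import Pool.Agent.Lib.TWJ.X1

/-!
# TANK W, SEC1: transfer of the minimal index; the trivial cases

* `MinS.transfer`: `MinS` for `a` gives `MinS` for `a h^p - g^p`;
* `exitTame`: the tame exit;
* `exists_far`: the distance of `al^p` to the `p`-th powers;
* `hrone_of_mem`: the case `al ∈ clI v K₀`.
-/

set_option autoImplicit false

open Polynomial

namespace Pool.Agent.TWJ

open Pool.Agent.H15JM (RVal)
open Pool.Agent.LU1 (adj)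
open Pool.Agent.D2 (Ctx0)
open Pool.Agent.D2P (clI mem_clI adj_le mem_adj_self)
open Pool.Agent.TW (Ctx Full BD Fr LU HRone Dns)
open Pool.Agent.TWM

universe u

variable {k Ω : Type u} [Field k] [Field Ω] [Algebra k Ω] {v : RVal Ω} {r D : ℕ}

/-- States of `a h^p - g^p` are states of `a`. -/
theorem Stt.transfer {p : ℕ} [Fact p.Prime] [CharP Ω p] {K F : IntermediateField k Ω}
    {a h₀ g₀ z : Ω} {ρ κ : ℝ} {S : ℕ} {A : Polynomial Ω} (hh : h₀ ∈ K) (hh0 : h₀ ≠ 0)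
    (hg : g₀ ∈ K) (hs : Stt p v r D K (a * h₀ ^ p - g₀ ^ p) F z ρ κ S A) :
    Stt p v r D K a F z ρ κ S A := by
  refine ⟨hs.rat, hs.fg, hs.full, hs.tr, hs.bd, hs.tz, hs.cl, ?_, hs.sl⟩
  obtain ⟨h, h1, h2, g, h3, h4⟩ := hs.rep
  refine ⟨h₀ * h, mul_mem hh h1, mul_ne_zero hh0 h2, g₀ * h + g,
    add_mem (mul_mem hg h1) h3, ?_⟩
  rw [← h4, add_pow_char, mul_pow, mul_pow]
  ring

theorem MinS.transfer {p : ℕ} [Fact p.Prime] [CharP Ω p] {K : IntermediateField k Ω}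
    {a h₀ g₀ : Ω} {q : ℕ} (hm : MinS p v r D K a q) (hh : h₀ ∈ K) (hh0 : h₀ ≠ 0) (hg : g₀ ∈ K) :
    MinS p v r D K (a * h₀ ^ p - g₀ ^ p) q := fun F z ρ κ S A hs =>
  hm F z ρ κ S A (hs.transfer hh hh0 hg)

theorem exitTame [IsAlgClosed k] [IsAlgClosed Ω] (p : ℕ) [Fact p.Prime] [CharP k p] [CharP Ω p]
    (h : Ctx k v r)
    (hLU : ∀ E : IntermediateField k Ω, E.FG → Full v E → Algebra.trdeg k E = (r + D : ℕ) →
      BD p v E → LU p v r E) : ExitTame p v k r D := by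
  intro F hF hfull hBD htr hd z hz r' hr A hA j₀ h1 h2 h3 h4 γ hγ
  exact exit_tame p h hF hfull hBD htr hLU hd hz hr hA h1 h2 h3 h4 hγ

/-- The distance of `al^p` to the `p`-th powers of a closed field. -/
theorem exists_far {p : ℕ} [hp : Fact p.Prime] [CharP Ω p] {K : IntermediateField k Ω}
    (hK : Cld v K) {al : Ω} (hal : al ∉ K) : ∃ μ : ℝ, ∀ g ∈ K, ¬ v.Ge μ (al ^ p - g ^ p) := by
  by_contra hno
  push Not at hno
  apply hal
  apply hK
  rw [mem_clI]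
  intro c
  obtain ⟨g, hg, h1⟩ := hno (p * c)
  rw [← sub_pow_char] at h1
  exact ⟨g, hg, ge_of_pow_a hp.out.pos h1⟩

/-- The case `al ∈ clI v K₀`. -/
theorem hrone_of_mem [IsAlgClosed k] [IsAlgClosed Ω] (p : ℕ) [Fact p.Prime] [CharP k p]
    [CharP Ω p] (h : Ctx k v r) (hcv : CompleteV v)
    (hLU : ∀ E : IntermediateField k Ω, E.FG → Full v E → Algebra.trdeg k E = (r + D : ℕ) →
      BD p v E → LU p v r E)
    {K₀ : IntermediateField k Ω} (hK : K₀.FG) (hKf : Full v K₀)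
    (htr : Algebra.trdeg k K₀ = (r + D + 1 : ℕ)) {al : Ω} (hal : al ^ p ∈ K₀)
    (hBD : BD p v (adj K₀ al)) (hmem : al ∈ clI v K₀) {F : IntermediateField k Ω} {z : Ω}
    (hF : F.FG) (hFf : Full v F) (hFt : Algebra.trdeg k F = (r + D : ℕ))
    (hcl : clI v K₀ = clI v (adj F z)) : HRone v (adj K₀ al) := by
  refine exitg' p h hcv hLU hK hKf htr hal hBD hF hFf hFt (X₂ := z) (one_mem (clI v K₀))
    (zero_mem _) one_ne_zero ?_
  rw [mul_one, sub_zero]
  have h1 : adj (clI v K₀) al = clI v K₀ :=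
    le_antisymm (adj_le le_rfl hmem) fun x hx => (mem_adj_self _ _).2 hx
  rw [h1, ← hcl]
  exact clI_clI K₀

end Pool.Agent.TWJ
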