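import Pool.Agent.Lib.TWJ.J
import Pool.Agent.Lib.TWJ.Defs

/-!
# TANK W, SEC1, row X0: the exit of index zero, preparations

* `deg_ge`: algebraic elements nearer to `γ₀ = f₀^(1/p)` than the distance of `γ₀` to `F` have
  degree `≥ p`;
* `ge_eval_sub`: differences of values of polynomials;
* `exists_contr`: a contraction.
-/

set_option autoImplicit false

open Polynomial

namespace Pool.Agent.TWJ

open Pool.Agent.H15JM (RVal)
open Pool.Agent.LU1 (adj)
open Pool.Agent.D2 (Ctx0)
open Pool.Agent.D2P (hen)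
open Pool.Agent.LUC (Cl)
open Pool.Agent.TW
open Pool.Agent.TWM (PI Gt)

universe u

variable {k Ω : Type u} [Field k] [Field Ω] [Algebra k Ω] {v : RVal Ω}

namespace X0h

/-- Differences of values of polynomials. -/
theorem ge_eval_sub {B : Polynomial Ω} {c m : ℝ} (hB : ∀ i, v.Ge c (B.coeff i)) {x y : Ω}
    (hx : v.Ge 0 x) (hy : v.Ge 0 y) (hxy : v.Ge m (x - y)) :
    v.Ge (c + m) (B.eval x - B.eval y) := by
  have hy' : ∀ i : ℕ, v.Ge 0 (y ^ i) := by
    intro i
    induction i with
    | zero => rw [pow_zero]; exact RVal.Ge.of_le (by rw [v.map_one])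
    | succ i ih =>
      rw [pow_succ]
      have := ih.mul hy
      rwa [add_zero] at this
  have h1 : ∀ i : ℕ, v.Ge m (x ^ i - y ^ i) := by
    intro i
    induction i with
    | zero => rw [pow_zero, pow_zero, sub_self]; exact RVal.Ge.zero
    | succ i ih =>
      have e1 : x ^ (i + 1) - y ^ (i + 1) = x * (x ^ i - y ^ i) + (x - y) * y ^ i := by ring
      rw [e1]
      refine RVal.Ge.add ?_ ?_
      · have := hx.mul ih
        rwa [zero_add] at this
      · have := hxy.mul (hy' i)
        rwa [add_zero] at this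
  rw [eval_eq_sum_range, eval_eq_sum_range, ← Finset.sum_sub_distrib]
  refine RVal.Ge.sum _ _ fun i _ => ?_
  rw [← mul_sub]
  exact (hB i).mul (h1 i)

section Deg

variable [IsAlgClosed Ω] {F : IntermediateField k Ω}

/-- Algebraic elements near to `f₀^(1/p)` have degree `≥ p`. -/
theorem deg_ge (p : ℕ) [hp : Fact p.Prime] [CharP Ω p] (h : Ctx0 k v) (hd : Dns v F) {γ γ₀ : Ω}
    (hγ : Transcendental F γ) {f₀ : Ω} (hf : f₀ ∈ F) (h0 : γ₀ ^ p = f₀) {s₀ : ℝ}
    (hs : ∀ θ ∈ F, γ₀ - θ ≠ 0 ∧ v (γ₀ - θ) ≤ s₀) (hγγ : γ - γ₀ ≠ 0) (hnear : s₀ < v (γ - γ₀))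
    {α : Ω} (hα : IsAlgebraic F α) (hαv : s₀ < v (γ - α)) : p ≤ (minpoly F α).natDegree := by
  classical
  by_contra hcon
  push Not at hcon
  obtain ⟨η, hη⟩ := exists_min hd hγ hα hαv
  have hint : IsIntegral F η := hη.sep.isIntegral
  have hpR : (0 : ℝ) < p := by exact_mod_cast hp.out.pos
  have hmp : (minpoly F η).natDegree < p := (hη.min α hα hαv).trans_lt hcon
  have hm0 : 0 < (minpoly F η).natDegree := minpoly.natDegree_pos hint
  have hQ := minpoly.monic hint
  have hγη : γ - η ≠ 0 := by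
    intro h1
    exact hγ (by rw [sub_eq_zero.mp h1]; exact hint.isAlgebraic)
  set M := hen v F with hM
  have hfM : f₀ ∈ M := D2P.le_hen F hf
  -- `η` is near to `γ₀`
  have hηγ : Gt v s₀ (η - γ₀) := by
    intro h1
    have h2 : η - γ₀ = (γ - γ₀) + -(γ - η) := by ring
    rw [h2] at h1 ⊢
    have h3 := v.map_add hγγ (neg_ne_zero.2 hγη) h1
    rw [v.map_neg _ hγη] at h3
    exact (lt_min hnear hη.lt).trans_le h3
  -- the conjugates are near to `γ₀`
  have hroot : ∀ β : Ω, aeval β (minpoly F η) = 0 → Gt v s₀ (β - γ₀) := by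
    intro β hβ
    have h1 := aeval_minpoly_hen hγ hη hβ
    have hsep : IsSeparable M η := D2P.isSeparable_mono (D2P.le_hen F) hη.sep
    have hsepp : IsSeparable M (η ^ p) :=
      mem_separableClosure_iff.1 (pow_mem (mem_separableClosure_iff.2 hsep) p)
    have hsep' : IsSeparable M (η ^ p - f₀) :=
      Field.isSeparable_sub hsepp (isSeparable_algebraMap (F := M) (⟨f₀, hfM⟩ : M))
    have h2 : aeval (β ^ p - f₀) (minpoly M (η ^ p - f₀)) = 0 := by
      have h3 : minpoly M η ∣ (minpoly M (η ^ p - f₀)).comp (X ^ p - C (⟨f₀, hfM⟩ : M)) := by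
        refine minpoly.dvd _ _ ?_
        rw [aeval_comp, _root_.map_sub, _root_.map_pow, aeval_X, aeval_C]
        exact minpoly.aeval M (η ^ p - f₀)
      obtain ⟨D, hD⟩ := h3
      have h4 := congrArg (aeval β) hD
      rw [aeval_comp, _root_.map_sub, _root_.map_pow, aeval_X, aeval_C, _root_.map_mul, h1,
        zero_mul] at h4
      exact h4
    have hβp : (β - γ₀) ^ p = β ^ p - f₀ := by rw [sub_pow_char, h0]
    have hηp : (η - γ₀) ^ p = η ^ p - f₀ := by rw [sub_pow_char, h0]
    intro hne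
    by_cases hu : η ^ p - f₀ = 0
    · exfalso
      rw [hu, minpoly.zero, aeval_X, ← hβp] at h2
      exact hne (pow_eq_zero_iff hp.out.ne_zero |>.1 h2)
    · have h3 := D2P.val_root_sep h (D2P.hen_hen F) hsep' h2
      have h4 : η - γ₀ ≠ 0 := fun h5 => hu (by rw [← hηp, h5, zero_pow hp.out.ne_zero])
      rw [← hβp, ← hηp, v.map_pow hne, v.map_pow h4] at h3
      have h5 := hηγ h4
      have h6 := mul_left_cancel₀ hpR.ne' h3
      rw [h6]
      exact h5
  -- the mean of the conjugates
  have hsplit : ((minpoly F η).map (algebraMap F Ω)).Splits := IsAlgClosed.splits _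
  have hmon : ((minpoly F η).map (algebraMap F Ω)).Monic := hQ.map _
  set R := ((minpoly F η).map (algebraMap F Ω)).roots with hR
  have hcard : Multiset.card R = (minpoly F η).natDegree := by
    rw [hR, ← hsplit.natDegree_eq_card_roots, natDegree_map]
  have hsum : R.sum ∈ F := by
    have h1 := hsplit.nextCoeff_eq_neg_sum_roots_of_monic hmon
    have h2 : R.sum = -((minpoly F η).map (algebraMap F Ω)).nextCoeff := by rw [h1, neg_neg]
    rw [h2, nextCoeff_map (algebraMap F Ω).injective]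
    exact neg_mem (SetLike.coe_mem _)
  set m := (minpoly F η).natDegree with hm
  have hpm : ¬ p ∣ m := fun h1 => absurd (Nat.le_of_dvd hm0 h1) (not_le.2 hmp)
  have hmk : ((m : k)) ≠ 0 := by
    intro h1
    have h2 : ((m : ℕ) : Ω) = 0 := by
      have := congrArg (algebraMap k Ω) h1
      rwa [map_natCast, _root_.map_zero] at this
    exact hpm ((CharP.cast_eq_zero_iff Ω p m).1 h2)
  have hmΩ : (m : Ω) ≠ 0 := fun h1 => hpm ((CharP.cast_eq_zero_iff Ω p m).1 h1)
  have hvm : v (m : Ω) = 0 := by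
    have h1 := h.triv (m : k) hmk
    rwa [map_natCast] at h1
  have hθ : R.sum / m ∈ F := div_mem hsum (natCast_mem _ _)
  have hdiff : γ₀ - R.sum / m = -((R.map fun β => β - γ₀).sum / m) := by
    have h1 : (R.map fun β => β - γ₀).sum = R.sum - m * γ₀ := by
      rw [Multiset.sum_map_sub, Multiset.map_id', Multiset.map_const', Multiset.sum_replicate,
        hcard, nsmul_eq_mul]
    rw [h1]
    field_simp
    ring
  have hgt : ∀ s : Multiset Ω, (∀ x ∈ s, Gt v s₀ x) → Gt v s₀ s.sum := by
    intro s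
    induction s using Multiset.induction_on with
    | empty => intro _ h1; simp at h1
    | cons x s ih =>
      intro hs
      rw [Multiset.sum_cons]
      exact (hs x (Multiset.mem_cons_self x s)).add
        (ih fun y hy => hs y (Multiset.mem_cons_of_mem hy))
  have h1 : Gt v s₀ (R.map fun β => β - γ₀).sum := hgt _ fun x hx => by
    obtain ⟨β, hβ, rfl⟩ := Multiset.mem_map.1 hx
    refine hroot β ?_
    have h4 := (mem_roots hmon.ne_zero).mp hβ
    rwa [IsRoot.def, eval_map_algebraMap] at h4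
  obtain ⟨h2, h3⟩ := hs _ hθ
  rw [hdiff] at h2 h3
  have h4 : (R.map fun β => β - γ₀).sum ≠ 0 := fun h5 => h2 (by rw [h5, zero_div, neg_zero])
  rw [v.map_neg _ (neg_ne_zero.1 h2), v.map_div h4 hmΩ, hvm, sub_zero] at h3
  exact absurd (h1 h4) (not_lt.2 h3)

end Deg

end X0h

end Pool.Agent.TWJ
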