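import Pool.Agent.Lib.TWM.C1
import Pool.Agent.Lib.TW.Iso2

/-!
# TANK W, SEC1, row X1: tame extensions of henselian fields

* `exists_unit_root`: the `e`-th roots of the `1`-units, `e < p`;
* `exists_new_value`: an extension of degree `< p` which is not trivial has a new value;
* `exists_radicals`: an extension of degree `< p` is generated by radicals;
* `degree_le`: the number of zeros near `0`.
-/

set_option autoImplicit false

open Polynomial

namespace Pool.Agent.TWJ

open Pool.Agent.H15JM (RVal)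
open Pool.Agent.LU1 (VPos adj)
open Pool.Agent.LUC (Cl clF)
open Pool.Agent.D2 (Ctx0)
open Pool.Agent.D2P (hen mem_hen le_hen clI mem_clI mem_adj_self adj_le)
open Pool.Agent.TWM (PI Gt)

universe u

variable {k Ω : Type u} [Field k] [Field Ω] [Algebra k Ω] {v : RVal Ω}

namespace X1

theorem ge_one_pow {x : Ω} (hx : v.Ge 0 x) (n : ℕ) : v.Ge 0 (x ^ n) := by
  have h1 := TWM.ge_pow hx n
  rwa [mul_zero] at h1

theorem gt_pow_sub {x y : Ω} (hx : v.Ge 0 x) (hy : v.Ge 0 y) (hxy : Gt v 0 (x - y)) (n : ℕ) :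
    Gt v 0 (x ^ n - y ^ n) := by
  induction n with
  | zero =>
    rw [pow_zero, pow_zero, sub_self]
    exact Gt.zero
  | succ n ih =>
    have h1 : x ^ (n + 1) - y ^ (n + 1) = (x ^ n - y ^ n) * x + (x - y) * y ^ n := by ring
    rw [h1]
    have h2 := ih.mul_ge hx
    have h3 := hxy.mul_ge (ge_one_pow hy n)
    rw [add_zero] at h2 h3
    exact h2.add h3

section

variable (p : ℕ) [hp : Fact p.Prime] [CharP k p]

omit hp in
theorem nat_unit (h : Ctx0 k v) {e : ℕ} (he0 : 0 < e) (he1 : e < p) :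
    (e : Ω) ≠ 0 ∧ v (e : Ω) = 0 := by
  have h1 : (e : k) ≠ 0 := by
    intro h0
    have h2 := (CharP.cast_eq_zero_iff k p e).1 h0
    exact absurd (Nat.le_of_dvd he0 h2) (not_le.2 he1)
  have h2 := h.triv _ h1
  rw [map_natCast] at h2
  refine ⟨?_, h2⟩
  have h3 : algebraMap k Ω (e : k) ≠ 0 := (map_ne_zero_iff _ (algebraMap k Ω).injective).2 h1
  rwa [map_natCast] at h3

omit hp in
/-- The `e`-th root of a `1`-unit. -/
theorem exists_unit_root [IsAlgClosed Ω] (h : Ctx0 k v) {M : IntermediateField k Ω}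
    (hM : hen v M = M) {a : Ω} (ha : a ∈ M) (ha1 : Gt v 0 (a - 1)) {e : ℕ} (he0 : 0 < e)
    (he1 : e < p) : ∃ u ∈ M, u ≠ 0 ∧ v u = 0 ∧ u ^ e = a := by
  obtain ⟨ha0, hva⟩ : a ≠ 0 ∧ v a = 0 := by
    have h1 := Gt.val_eq (v := v) (x := (1 : Ω)) (y := a) one_ne_zero (by
      rw [v.map_one]
      have := ha1.neg
      rwa [neg_sub] at this)
    rwa [v.map_one] at h1
  obtain ⟨u₀, hu₀⟩ := IsAlgClosed.exists_pow_nat_eq a he0
  have hu0 : u₀ ≠ 0 := by
    rintro rfl
    rw [zero_pow he0.ne'] at hu₀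
    exact ha0 hu₀.symm
  have he : (e : ℝ) ≠ 0 := by exact_mod_cast he0.ne'
  have hvu : v u₀ = 0 := by
    have h1 := v.map_pow hu0 e
    rw [hu₀, hva] at h1
    rcases mul_eq_zero.1 h1.symm with h2 | h2
    · exact absurd h2 he
    · exact h2
  obtain ⟨c, hc0, hc⟩ := h.res u₀ hu0 hvu
  have hcu : Gt v 0 (u₀ - algebraMap k Ω c) := hc
  have hc1 : c ^ e = 1 := by
    by_contra hne
    have h1 := h.triv (c ^ e - 1) (sub_ne_zero.2 hne)
    have h2 : algebraMap k Ω (c ^ e - 1) ≠ 0 :=
      (map_ne_zero_iff _ (algebraMap k Ω).injective).2 (sub_ne_zero.2 hne)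
    have h3 : algebraMap k Ω (c ^ e - 1) = (a - 1) - (u₀ ^ e - algebraMap k Ω c ^ e) := by
      rw [_root_.map_sub, _root_.map_pow, _root_.map_one, hu₀]
      ring
    have h4 : Gt v 0 (algebraMap k Ω (c ^ e - 1)) := by
      rw [h3]
      exact ha1.sub (gt_pow_sub (RVal.Ge.of_le hvu.ge) (h.ge c) hcu e)
    have := h4 h2
    rw [h1] at this
    exact lt_irrefl _ this
  have hcΩ : algebraMap k Ω c ≠ 0 := (map_ne_zero_iff _ (algebraMap k Ω).injective).2 hc0
  obtain ⟨hne, hve⟩ := nat_unit (Ω := Ω) p h he0 he1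
  set u : Ω := u₀ / algebraMap k Ω c with hu
  have hun : u ≠ 0 := div_ne_zero hu0 hcΩ
  have huv : v u = 0 := by rw [hu, v.map_div hu0 hcΩ, hvu, h.triv c hc0, sub_zero]
  have hue : u ^ e = a := by
    rw [hu, div_pow, hu₀, ← _root_.map_pow, hc1, _root_.map_one, div_one]
  refine ⟨u, ?_, hun, huv, hue⟩
  refine TW.IsoAux.mem_of_simple h hM (g := X ^ e - C a) ?_ (RVal.Ge.of_le huv.ge) ?_ ?_ ?_
  · intro i
    rw [coeff_sub, coeff_X_pow, coeff_C]
    refine sub_mem ?_ ?_
    · split_ifs
      · exact one_mem _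
      · exact zero_mem _
    · split_ifs
      · exact ⟨ha, RVal.Ge.of_le hva.ge⟩
      · exact zero_mem _
  · rw [eval_sub, eval_pow, eval_X, eval_C, hue, sub_self]
  · rw [derivative_sub, derivative_X_pow, derivative_C, sub_zero, eval_mul, eval_pow, eval_X,
      eval_C]
    exact mul_ne_zero hne (pow_ne_zero _ hun)
  · rw [derivative_sub, derivative_X_pow, derivative_C, sub_zero, eval_mul, eval_pow, eval_X,
      eval_C, v.map_mul hne (pow_ne_zero _ hun), hve, v.map_pow hun, huv, mul_zero, add_zero]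

end

/-! ### products and sums of conjugates -/

theorem val_prod (s : Multiset Ω) {a : ℝ} (hs : ∀ w ∈ s, w ≠ 0 ∧ v w = a) :
    s.prod ≠ 0 ∧ v s.prod = Multiset.card s * a := by
  induction s using Multiset.induction_on with
  | empty => simp [v.map_one]
  | cons w s ih =>
    obtain ⟨h1, h2⟩ := ih fun x hx => hs x (Multiset.mem_cons_of_mem hx)
    obtain ⟨h3, h4⟩ := hs w (Multiset.mem_cons_self w s)
    rw [Multiset.prod_cons, Multiset.card_cons]
    refine ⟨mul_ne_zero h3 h1, ?_⟩
    rw [v.map_mul h3 h1, h2, h4]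
    push_cast
    ring

theorem ge_sum (s : Multiset Ω) {a : ℝ} (hs : ∀ w ∈ s, v.Ge a w) : v.Ge a s.sum := by
  induction s using Multiset.induction_on with
  | empty => simpa using RVal.Ge.zero
  | cons w s ih =>
    rw [Multiset.sum_cons]
    exact (hs w (Multiset.mem_cons_self w s)).add
      (ih fun x hx => hs x (Multiset.mem_cons_of_mem hx))

variable [IsAlgClosed Ω]

/-- The roots of the minimal polynomial. -/
noncomputable def rts (M : IntermediateField k Ω) (θ : Ω) : Multiset Ω :=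
  ((minpoly M θ).map (algebraMap M Ω)).roots

omit [IsAlgClosed Ω] in
theorem mem_rts {M : IntermediateField k Ω} {θ : Ω} (hθ : IsAlgebraic M θ) {β : Ω} :
    β ∈ rts M θ ↔ aeval β (minpoly M θ) = 0 := by
  rw [rts, mem_roots ((minpoly.monic hθ.isIntegral).map _).ne_zero, IsRoot.def,
    eval_map_algebraMap]

theorem card_rts {M : IntermediateField k Ω} {θ : Ω} :
    Multiset.card (rts M θ) = (minpoly M θ).natDegree := by
  have hs : ((minpoly M θ).map (algebraMap M Ω)).Splits := IsAlgClosed.splits _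
  rw [rts, ← hs.natDegree_eq_card_roots, natDegree_map]

theorem sum_rts {M : IntermediateField k Ω} {θ : Ω} (hθ : IsAlgebraic M θ) :
    (rts M θ).sum ∈ M := by
  have hs : ((minpoly M θ).map (algebraMap M Ω)).Splits := IsAlgClosed.splits _
  have h1 := hs.nextCoeff_eq_neg_sum_roots_of_monic ((minpoly.monic hθ.isIntegral).map _)
  have h2 : (rts M θ).sum = -((minpoly M θ).map (algebraMap M Ω)).nextCoeff := by
    rw [h1, neg_neg, rts]
  rw [h2, nextCoeff_map (algebraMap M Ω).injective]
  exact neg_mem (minpoly M θ).nextCoeff.2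

theorem prod_rts {M : IntermediateField k Ω} {θ : Ω} (hθ : IsAlgebraic M θ) :
    (rts M θ).prod ∈ M := by
  have hs : ((minpoly M θ).map (algebraMap M Ω)).Splits := IsAlgClosed.splits _
  have h1 := hs.coeff_zero_eq_prod_roots_of_monic ((minpoly.monic hθ.isIntegral).map _)
  have h2 : (rts M θ).prod = (-1) ^ ((minpoly M θ).map (algebraMap M Ω)).natDegree *
      ((minpoly M θ).map (algebraMap M Ω)).coeff 0 := by
    rw [h1, ← mul_assoc, ← pow_add, ← two_mul, pow_mul, neg_one_sq, one_pow, one_mul, rts]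
  rw [h2, coeff_map]
  exact mul_mem (pow_mem (neg_mem (one_mem _)) _) ((minpoly M θ).coeff 0).2

variable (p : ℕ) [hp : Fact p.Prime] [CharP k p]

omit hp in
/-- The mean of the conjugates is nearer than every element of the field. -/
theorem exists_mean (h : Ctx0 k v) {M : IntermediateField k Ω} (hM : hen v M = M) {θ : Ω}
    (hθ : IsAlgebraic M θ) (hd : (minpoly M θ).natDegree < p) :
    ∃ θ' ∈ M, ∀ m ∈ M, v.Ge (v (θ - m)) (θ - θ') := by
  obtain ⟨hn0, hvn⟩ := nat_unit (Ω := Ω) p h (minpoly.natDegree_pos hθ.isIntegral) hd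
  set d := (minpoly M θ).natDegree with hdd
  refine ⟨(rts M θ).sum / (d : Ω), div_mem (sum_rts hθ) (natCast_mem _ _), fun m hm => ?_⟩
  have h1 : θ - (rts M θ).sum / (d : Ω) = ((rts M θ).map fun β => θ - β).sum * (d : Ω)⁻¹ := by
    rw [Multiset.sum_map_sub, Multiset.map_const', Multiset.sum_replicate, Multiset.map_id',
      card_rts, ← hdd, nsmul_eq_mul]
    field_simp
  rw [h1]
  have h2 : v.Ge 0 ((d : Ω)⁻¹) := RVal.Ge.of_le (by rw [v.map_inv hn0, hvn, neg_zero])
  have h3 : v.Ge (v (θ - m)) ((rts M θ).map fun β => θ - β).sum := by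
    refine ge_sum _ fun w hw => ?_
    obtain ⟨β, hβ, rfl⟩ := Multiset.mem_map.1 hw
    have h4 := D2P.val_sub_root h hM hm hθ ((mem_rts hθ).1 hβ)
    have h5 : θ - β = (θ - m) - (β - m) := by ring
    rw [h5]
    exact (v.ge_self _).sub (RVal.Ge.of_le h4.ge)
  have h4 := h3.mul h2
  rwa [add_zero] at h4

omit hp in
/-- An extension of degree `< p` has a new value. -/
theorem exists_new_value (h : Ctx0 k v) {M : IntermediateField k Ω} (hM : hen v M = M) {θ : Ω}
    (hθ : IsAlgebraic M θ) (hn : θ ∉ M) (hd : (minpoly M θ).natDegree < p) :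
    ∃ x ∈ adj M θ, x ≠ 0 ∧ ∀ m ∈ M, m ≠ 0 → v m ≠ v x := by
  obtain ⟨θ', hθ', h1⟩ := exists_mean p h hM hθ hd
  have hne : ∀ m ∈ M, θ - m ≠ 0 := fun m hm h0 => hn (by rw [sub_eq_zero.1 h0]; exact hm)
  refine ⟨θ - θ', sub_mem (mem_adj_self M θ).1 ((mem_adj_self M θ).2 hθ'), hne _ hθ',
    fun m hm hm0 hv => ?_⟩
  have hx0 := hne _ hθ'
  obtain ⟨c, hc0, hc⟩ := h.res ((θ - θ') / m) (div_ne_zero hx0 hm0) (by
    rw [v.map_div hx0 hm0, hv, sub_self])
  have hcm : algebraMap k Ω c * m ∈ M := mul_mem (M.algebraMap_mem c) hm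
  have h2 := hne _ (add_mem hθ' hcm)
  have h3 : θ - (θ' + algebraMap k Ω c * m) = ((θ - θ') / m - algebraMap k Ω c) * m := by
    field_simp
    ring
  have h4 : ((θ - θ') / m - algebraMap k Ω c) ≠ 0 := by
    intro h0
    rw [h3, h0, zero_mul] at h2
    exact h2 rfl
  have h5 := h1 _ (add_mem hθ' hcm) hx0
  rw [h3, v.map_mul h4 hm0, hv] at h5
  have h6 := hc h4
  linarith

omit hp in
/-- A radical with a given value. -/
theorem exists_radical (h : Ctx0 k v) {L : IntermediateField k Ω} (hL : hen v L = L) {x : Ω}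
    (hx0 : x ≠ 0) (hx : IsAlgebraic L x) (hd : (minpoly L x).natDegree < p) :
    ∃ y ∈ adj L x, y ≠ 0 ∧ v y = v x ∧ y ^ (minpoly L x).natDegree ∈ L := by
  set e := (minpoly L x).natDegree with he
  have he0 : 0 < e := minpoly.natDegree_pos hx.isIntegral
  have hr : ∀ w ∈ rts L x, w ≠ 0 ∧ v w = v x := by
    intro w hw
    have h1 := (mem_rts hx).1 hw
    refine ⟨?_, D2P.val_root h hL hx h1⟩
    rintro rfl
    rw [← coeff_zero_eq_aeval_zero', map_eq_zero_iff _ (algebraMap L Ω).injective,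
      minpoly.coeff_zero_eq_zero hx.isIntegral] at h1
    exact hx0 h1
  obtain ⟨hc0, hvc⟩ := val_prod _ hr
  rw [card_rts, ← he] at hvc
  have hcL := prod_rts hx
  set c₀ := (rts L x).prod with hc₀
  have hxe : x ^ e ≠ 0 := pow_ne_zero e hx0
  obtain ⟨c, hcn, hc⟩ := h.res (x ^ e / c₀) (div_ne_zero hxe hc0) (by
    rw [v.map_div hxe hc0, hvc, v.map_pow hx0, sub_self])
  have hcΩ : algebraMap k Ω c ≠ 0 := (map_ne_zero_iff _ (algebraMap k Ω).injective).2 hcn
  have hadj : hen v (adj L x) = adj L x :=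
    D2P.hen_alg h hL (mem_adj_self L x).2 (D2P.isAlgebraic_sup _ (by
      rintro s rfl
      exact hx))
  have hxm := (mem_adj_self L x).1
  have hLm : L ≤ adj L x := (mem_adj_self L x).2
  have ham : x ^ e / c₀ / algebraMap k Ω c ∈ adj L x :=
    div_mem (div_mem (pow_mem hxm e) (hLm hcL)) ((adj L x).algebraMap_mem c)
  have ha1 : Gt v 0 (x ^ e / c₀ / algebraMap k Ω c - 1) := by
    have h1 : x ^ e / c₀ / algebraMap k Ω c - 1 =
        (x ^ e / c₀ - algebraMap k Ω c) * (algebraMap k Ω c)⁻¹ := by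
      field_simp
    rw [h1]
    have h2 : v.Ge 0 ((algebraMap k Ω c)⁻¹) := RVal.Ge.of_le (by
      rw [v.map_inv hcΩ, h.triv c hcn, neg_zero])
    have h3 : Gt v 0 (x ^ e / c₀ - algebraMap k Ω c) := hc
    have h4 := h3.mul_ge h2
    rwa [add_zero] at h4
  obtain ⟨u, hu, hu0, huv, hue⟩ := exists_unit_root p h hadj ham ha1 he0 hd
  refine ⟨x / u, div_mem hxm hu, div_ne_zero hx0 hu0, ?_, ?_⟩
  · rw [v.map_div hx0 hu0, huv, sub_zero]
  · have h1 : (x / u) ^ e = c₀ * algebraMap k Ω c := by
      rw [div_pow, hue]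
      field_simp
    rw [h1]
    exact mul_mem hcL (L.algebraMap_mem c)

omit hp [CharP k p] [IsAlgClosed Ω] in
theorem natDegree_mono {L L' : IntermediateField k Ω} (hLL : L ≤ L') {z : Ω}
    (hz : IsAlgebraic L z) : (minpoly L' z).natDegree ≤ (minpoly L z).natDegree := by
  let g : L →+* L' := (IntermediateField.inclusion hLL).toRingHom
  have h0 : (minpoly L z).map g ≠ 0 := ((minpoly.monic hz.isIntegral).map g).ne_zero
  have h1 : aeval z ((minpoly L z).map g) = 0 := by
    have h2 := minpoly.aeval L z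
    rw [aeval_def] at h2 ⊢
    rw [eval₂_map]
    exact h2
  have h3 := natDegree_le_of_dvd (minpoly.dvd L' z h1) h0
  rwa [natDegree_map] at h3

omit hp [CharP k p] [IsAlgClosed Ω] in
theorem natDegree_adj {L : IntermediateField k Ω} {z x : Ω} (hz : IsAlgebraic L z)
    (hx : x ∈ adj L z) : (minpoly L x).natDegree ≤ (minpoly L z).natDegree := by
  have hint := hz.isIntegral
  have h1 : adj L z ≤ (IntermediateField.adjoin L {z}).restrictScalars k := by
    refine sup_le ?_ ?_
    · intro t ht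
      rw [IntermediateField.mem_restrictScalars]
      exact (IntermediateField.adjoin L {z}).algebraMap_mem ⟨t, ht⟩
    · rw [IntermediateField.adjoin_le_iff, Set.singleton_subset_iff]
      exact IntermediateField.mem_adjoin_simple_self L z
  have hx' : x ∈ IntermediateField.adjoin L {z} := h1 hx
  have hfd : FiniteDimensional L (IntermediateField.adjoin L {z}) :=
    IntermediateField.adjoin.finiteDimensional hint
  have h2 := minpoly.natDegree_le (A := L) (⟨x, hx'⟩ : IntermediateField.adjoin L {z})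
  have h3 : minpoly L (⟨x, hx'⟩ : IntermediateField.adjoin L {z}) = minpoly L x :=
    (minpoly.algebraMap_eq (algebraMap (IntermediateField.adjoin L {z}) Ω).injective
      (⟨x, hx'⟩ : IntermediateField.adjoin L {z})).symm
  rw [h3, IntermediateField.adjoin.finrank hint] at h2
  exact h2

omit hp in
/-- An extension of degree `< p` is generated by radicals. -/
theorem exists_radicals (h : Ctx0 k v) {L : IntermediateField k Ω} (hL : hen v L = L) {z : Ω}
    (hz : IsAlgebraic L z) (hd : (minpoly L z).natDegree < p) :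
    ∃ S : Finset Ω, (∀ y ∈ S, y ≠ 0 ∧ y ∈ adj L z ∧ ∃ e : ℕ, 0 < e ∧ e < p ∧ y ^ e ∈ L) ∧
      z ∈ L ⊔ IntermediateField.adjoin k (S : Set Ω) := by
  classical
  set T : Set Ω := {y | y ≠ 0 ∧ y ∈ adj L z ∧ ∃ e : ℕ, 0 < e ∧ e < p ∧ y ^ e ∈ L} with hT
  have halg : ∀ e ∈ adj L z, IsAlgebraic L e := D2P.isAlgebraic_sup _ (by
    rintro s rfl
    exact hz)
  have hTz : IntermediateField.adjoin k T ≤ adj L z := by
    rw [IntermediateField.adjoin_le_iff]
    exact fun y hy => hy.2.1
  set L' : IntermediateField k Ω := L ⊔ IntermediateField.adjoin k T with hL'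
  have hL'z : L' ≤ adj L z := sup_le (mem_adj_self L z).2 hTz
  have hLL' : L ≤ L' := le_sup_left
  have hhen : hen v L' = L' := D2P.hen_alg h hL hLL' fun e he => halg e (hL'z he)
  have hzL' : z ∈ L' := by
    by_contra hn
    have hd' : (minpoly L' z).natDegree < p := (natDegree_mono hLL' hz).trans_lt hd
    obtain ⟨x, hx, hx0, hxv⟩ := exists_new_value p h hhen (D2P.isAlgebraic_mono hLL' hz) hn hd'
    have hxz : x ∈ adj L z := adj_le hL'z (mem_adj_self L z).1 hx
    have hxd := (natDegree_adj hz hxz).trans_lt hd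
    obtain ⟨y, hy, hy0, hyv, hye⟩ := exists_radical p h hL hx0 (halg x hxz) hxd
    have hyz : y ∈ adj L z := adj_le (mem_adj_self L z).2 hxz hy
    have hyT : y ∈ T := ⟨hy0, hyz, _, minpoly.natDegree_pos (halg x hxz).isIntegral, hxd, hye⟩
    exact hxv y ((le_sup_right : IntermediateField.adjoin k T ≤ L')
      (IntermediateField.subset_adjoin _ _ hyT)) hy0 hyv
  have h1 : z ∈ IntermediateField.adjoin k ((L : Set Ω) ∪ T) := by
    rw [IntermediateField.adjoin_union, IntermediateField.adjoin_self]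
    exact hzL'
  obtain ⟨U, hU, hzU⟩ := IntermediateField.exists_finset_of_mem_adjoin h1
  refine ⟨U.filter (· ∈ T), fun y hy => (Finset.mem_filter.1 hy).2, ?_⟩
  refine (IntermediateField.adjoin_le_iff.2 fun u hu => ?_ :
    IntermediateField.adjoin k (U : Set Ω) ≤ _) hzU
  rcases hU hu with h2 | h2
  · exact (le_sup_left : L ≤ _) h2
  · exact (le_sup_right : IntermediateField.adjoin k _ ≤ _)
      (IntermediateField.subset_adjoin _ _ (Finset.mem_coe.2 (Finset.mem_filter.2 ⟨hu, h2⟩)))

omit hp in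
/-- A near element has a near radical. -/
theorem radical_near (h : Ctx0 k v) {L : IntermediateField k Ω} (hL : hen v L = L) {y c : Ω}
    {e : ℕ} (he0 : 0 < e) (he1 : e < p) (hy0 : y ≠ 0) (hy : y ^ e ∈ L) (hc : c ∈ L)
    (hn : Gt v (v (y ^ e)) (y ^ e - c)) : ∃ u ∈ L, u ≠ 0 ∧ (y * u) ^ e = c := by
  have hye : y ^ e ≠ 0 := pow_ne_zero e hy0
  have h1 : Gt v 0 (c / y ^ e - 1) := by
    have h2 : c / y ^ e - 1 = -((y ^ e - c) * (y ^ e)⁻¹) := by
      field_simp
      ring
    rw [h2]
    have h3 : v.Ge (-v (y ^ e)) ((y ^ e)⁻¹) := RVal.Ge.of_le (by rw [v.map_inv hye])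
    have h4 := hn.mul_ge h3
    rw [add_neg_cancel] at h4
    exact h4.neg
  obtain ⟨u, hu, hu0, -, hue⟩ := exists_unit_root p h hL (div_mem hc hy) h1 he0 he1
  refine ⟨u, hu, hu0, ?_⟩
  rw [mul_pow, hue]
  field_simp

/-! ### the number of zeros near `0` -/

omit [IsAlgClosed Ω] in
/-- The coefficients of a product of factors `X - β`, `v β > c`. -/
theorem coeff_roots (s : Multiset Ω) {c : ℝ} (hs : ∀ w ∈ s, Gt v c w) :
    (∀ i : ℕ, i < Multiset.card s → Gt v ((Multiset.card s - i) * c)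
      ((s.map fun w => X - C w).prod.coeff i)) ∧
    (s.map fun w => X - C w).prod.coeff (Multiset.card s) = 1 ∧
    ∀ i : ℕ, Multiset.card s < i → (s.map fun w => X - C w).prod.coeff i = 0 := by
  have hnd : ∀ s : Multiset Ω, (s.map fun w => X - C w).prod.natDegree = Multiset.card s :=
    fun s => natDegree_multiset_prod_X_sub_C_eq_card s
  have hmon : ∀ s : Multiset Ω, (s.map fun w => X - C w).prod.Monic :=
    fun s => monic_multiset_prod_of_monic _ _ fun w _ => monic_X_sub_C w
  refine ⟨?_, ?_, fun i hi => coeff_eq_zero_of_natDegree_lt (by rw [hnd]; exact hi)⟩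
  · induction s using Multiset.induction_on with
    | empty =>
      intro i hi
      simp at hi
    | cons w s ih =>
      have h1 := ih fun x hx => hs x (Multiset.mem_cons_of_mem hx)
      have hw := hs w (Multiset.mem_cons_self w s)
      intro i hi
      rw [Multiset.card_cons] at hi
      have e1 : ((X - C w) * (s.map fun w => X - C w).prod).coeff i =
          (X * (s.map fun w => X - C w).prod).coeff i -
            w * (s.map fun w => X - C w).prod.coeff i := by
        rw [sub_mul, coeff_sub, coeff_C_mul]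
      rw [Multiset.map_cons, Multiset.prod_cons, e1, Multiset.card_cons]
      push_cast
      refine Gt.sub ?_ ?_
      · rcases i with _ | i
        · rw [coeff_X_mul_zero]
          exact Gt.zero
        · rw [coeff_X_mul]
          refine (h1 i (by omega)).mono (le_of_eq ?_)
          push_cast
          ring
      · rcases (Nat.lt_succ_iff.1 hi).lt_or_eq with h2 | h2
        · have h3 := hw.mul_ge (h1 i h2).ge
          refine h3.mono (le_of_eq ?_)
          ring
        · have h3 : (s.map fun w => X - C w).prod.coeff i = 1 := by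
            have := (hmon s).coeff_natDegree
            rwa [hnd, ← h2] at this
          rw [h3, mul_one, h2]
          refine hw.mono (le_of_eq ?_)
          ring
  · have := (hmon s).coeff_natDegree
    rwa [hnd] at this

/-- The degree of a zero near `0`. -/
theorem degree_le (h : Ctx0 k v) {L : IntermediateField k Ω} (hL : hen v L = L) {z : Ω}
    {G : Polynomial Ω} (hG : G ∈ PI L) (hz : G.eval z = 0) {r' : ℝ} (hr : Gt v r' z) {j₀ : ℕ}
    (h0 : G.coeff j₀ ≠ 0)
    (hdom : ∀ i : ℕ, i ≠ j₀ → Gt v (v (G.coeff j₀) + j₀ * r' - i * r') (G.coeff i)) :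
    IsAlgebraic L z ∧ (minpoly L z).natDegree ≤ j₀ := by
  classical
  have hG0 : G ≠ 0 := by
    rintro rfl
    exact h0 (coeff_zero _)
  obtain ⟨G₀, rfl⟩ : ∃ G₀ : L[X], G₀.map (algebraMap L Ω) = G := by
    have h1 : G ∈ lifts (algebraMap L Ω) := by
      rw [lifts_iff_coeff_lifts]
      exact fun n => ⟨⟨_, hG n⟩, rfl⟩
    exact (mem_lifts _).1 h1
  have hG₀ : G₀ ≠ 0 := by
    rintro rfl
    exact hG0 (by rw [Polynomial.map_zero])
  rw [eval_map_algebraMap] at hz
  have halg : IsAlgebraic L z := ⟨G₀, hG₀, hz⟩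
  refine ⟨halg, ?_⟩
  obtain ⟨H₀, hH₀⟩ := minpoly.dvd L z hz
  have hmon := (minpoly.monic halg.isIntegral).map (algebraMap L Ω)
  have hQ : (minpoly L z).map (algebraMap L Ω) = ((rts L z).map fun w => X - C w).prod := by
    have hs : ((minpoly L z).map (algebraMap L Ω)).Splits := IsAlgClosed.splits _
    have hfac := hs.eq_prod_roots
    rw [hmon.leadingCoeff, C_1, one_mul] at hfac
    exact hfac
  have hr' : ∀ w ∈ rts L z, Gt v r' w := by
    intro w hw
    have h1 := (mem_rts halg).1 hw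
    intro hw0
    rw [D2P.val_root h hL halg h1]
    refine hr ?_
    rintro rfl
    rw [minpoly.zero, aeval_X] at h1
    exact hw0 h1
  obtain ⟨hc1, hc2, hc3⟩ := coeff_roots (rts L z) hr'
  rw [← hQ, card_rts] at hc1 hc2 hc3
  set n := (minpoly L z).natDegree with hn
  set Q := (minpoly L z).map (algebraMap L Ω) with hQdef
  set H := H₀.map (algebraMap L Ω) with hH
  have hGQ : G₀.map (algebraMap L Ω) = Q * H := by
    rw [hH₀, Polynomial.map_mul]
  set G := G₀.map (algebraMap L Ω) with hGdef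
  have hH0 : H ≠ 0 := by
    rintro h1
    rw [h1, mul_zero] at hGQ
    exact hG0 hGQ
  -- the least value
  obtain ⟨l, hl, hmin⟩ := H.support.exists_min_image (fun i => v (H.coeff i) + i * r')
    (support_nonempty.2 hH0)
  have hl0 : H.coeff l ≠ 0 := mem_support_iff.1 hl
  set μ : ℝ := v (H.coeff l) + l * r' with hμ
  have hHge : ∀ i : ℕ, v.Ge (μ - i * r') (H.coeff i) := by
    intro i hi
    have := hmin i (mem_support_iff.2 hi)
    linarith
  have hQge : ∀ i : ℕ, v.Ge ((n - i) * r') (Q.coeff i) := by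
    intro i
    rcases lt_trichotomy i n with h1 | h1 | h1
    · exact (hc1 i h1).ge
    · rw [h1, hc2]
      refine RVal.Ge.of_le ?_
      rw [v.map_one]
      simp
    · rw [hc3 i h1]
      exact RVal.Ge.zero
  have hGge : ∀ i : ℕ, v.Ge (μ + n * r' - i * r') (G.coeff i) := by
    intro i
    rw [hGQ, coeff_mul]
    refine RVal.Ge.sum _ _ fun x hx => ?_
    rw [Finset.HasAntidiagonal.mem_antidiagonal] at hx
    refine ((hQge x.1).mul (hHge x.2)).mono (le_of_eq ?_)
    rw [← hx]
    push_cast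
    ring
  -- the coefficient of index `n + l`
  have hGn : G.coeff (n + l) ≠ 0 ∧ v (G.coeff (n + l)) = v (H.coeff l) := by
    have hm : (n, l) ∈ Finset.HasAntidiagonal.antidiagonal (n + l) := by simp
    rw [hGQ, coeff_mul, ← Finset.add_sum_erase _ _ hm, hc2, one_mul]
    refine Gt.val_eq hl0 ?_
    rw [sub_add_cancel_left]
    refine Gt.neg (Gt.sum _ _ fun x hx => ?_)
    rw [Finset.mem_erase, Finset.HasAntidiagonal.mem_antidiagonal] at hx
    obtain ⟨hx1, hx2⟩ := hx
    rcases lt_trichotomy x.1 n with h1 | h1 | h1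
    · refine ((hc1 x.1 h1).mul_ge (hHge x.2)).mono (le_of_eq ?_)
      have h2 : (x.1 : ℝ) + x.2 = n + l := by exact_mod_cast hx2
      rw [hμ]
      have h3 : (x.2 : ℝ) = n + l - x.1 := by linarith
      rw [h3]
      ring
    · exact absurd (Prod.ext h1 (by omega)) hx1
    · rw [hc3 x.1 h1, zero_mul]
      exact Gt.zero
  by_contra hcon
  push Not at hcon
  have h1 := hdom (n + l) (by omega) hGn.1
  rw [hGn.2] at h1
  have h2 := hGge j₀ h0
  push_cast at h1
  rw [hμ] at h2
  linarith

end X1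

end Pool.Agent.TWJ
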